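import Pool.Agent.LibT63.BDefs
import Pool.Agent.LibMaier.SmallSum

/-! ROW B1 (strong, but a copy). PLAN: the proof of `LibMaier.sum_SS_le` (file LibMaier/SmallSum.lean) with a general modulus `q`
instead of `primorial z`, a general `T` instead of `2 z`, `L := Real.log Q` (so `LL q T = log (q (T+3)) ≤ log Q = L`, `(q : ℝ) ≤ exp L`,
the density estimate is applied with this `Q`), a general `a0` instead of `kk / 2 / Lz z`; the levels are `j ≤ ⌈1 / (8 a0)⌉₊`.
`1 ≤ L` because `4 ≤ Q`. -/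

set_option autoImplicit false

namespace Pool.Agent.LibT63

open Filter Topology Complex DirichletCharacter MeasureTheory
open Pool.Agent.LibRG87 Pool.Agent.LibMaier Pool.Agent.LibPL63

theorem sumSS_gen {q : ℕ} [NeZero q] {T a0 x : ℝ} {Q : ℕ} (hT : 2 ≤ T) (hQ : (q : ℝ) * (T + 3) ≤ Q) (hQ4 : 4 ≤ Q)
    (ha0 : 0 < a0) (ha8 : a0 ≤ 1 / 8)
    (hgood : ∀ χ : DirichletCharacter ℂ q, χ ≠ 1 → ∀ ρ : ℂ, LFunction χ ρ = 0 → |ρ.im| ≤ T → ρ.re ≤ 1 - a0)
    (hx1 : 1 ≤ x) (hx : 320 * Real.log Q ≤ x) :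
    csum x q ≤ (1 / (8 * a0) + 2) *
        (4 * (2 + 10 * Real.log Q) ^ 5 * T * Real.exp (-(a0 * x / 8)) * (20 * (Real.log Q + 3) / a0 ^ 2) +
          Real.exp (Real.log Q) * (6 * Real.exp (-(T - 2) ^ 2 / 2) * (20 * (Real.log Q + 3) / a0 ^ 2) +
          6 * LS (1 / x) * Real.exp (-(T - 2) ^ 2 / 4))) := by
  classical
  set L := Real.log Q with hL
  have hQR : (4 : ℝ) ≤ Q := by exact_mod_cast hQ4
  have hL1 : 1 ≤ L := by
    rw [hL, Real.le_log_iff_exp_le (by linarith)]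
    have := Real.exp_one_lt_d9
    linarith
  have hL0 : 0 < L := by linarith
  have ha00 : 0 < a0 := ha0
  have ha08 : a0 ≤ 1 / 8 := ha8
  have hT2 : 2 ≤ T := hT
  have hq0 : 1 ≤ q := Nat.one_le_iff_ne_zero.2 (NeZero.ne q)
  have hq1 : (1 : ℝ) ≤ q := by exact_mod_cast hq0
  have hLLT : LL q T ≤ L := by
    rw [hL, LL]
    exact Real.log_le_log (by positivity) hQ
  have hqL : (q : ℝ) ≤ Real.exp L := by
    rw [hL, Real.exp_log (by linarith)]
    nlinarith
  set D0 : ℝ := 20 * (L + 3) / a0 ^ 2 with hD0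
  have hD00 : 0 ≤ D0 := by rw [hD0]; positivity
  set E2 : ℝ := Real.exp (-(T - 2) ^ 2 / 2) with hE2
  set E3 : ℝ := Real.exp (-(T - 2) ^ 2 / 4) with hE3
  have hLS := LS_nonneg (1 / x)
  -- levels
  set P : DirichletCharacter ℂ q → ℕ → Prop := fun χ j =>
    2 ^ j * a0 ≤ 1 / 8 ∧ ∀ ρ : ℂ, LFunction χ ρ = 0 → |ρ.im| ≤ T → ρ.re ≤ 1 - 2 ^ j * a0 with hP
  set K : ℕ := ⌈1 / (8 * a0)⌉₊ with hK
  have hPK : ∀ χ : DirichletCharacter ℂ q, ∀ j, P χ j → j ≤ K := by
    intro χ j hj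
    have h1 : (2 : ℝ) ^ j * a0 ≤ 1 / 8 := hj.1
    have h2 : (2 : ℝ) ^ j ≤ 1 / (8 * a0) := by
      rw [le_div_iff₀ (by positivity)]
      linarith
    have h3 : (j : ℝ) ≤ K := by
      calc (j : ℝ) ≤ (2 : ℝ) ^ j := by exact_mod_cast (Nat.lt_two_pow_self).le
        _ ≤ 1 / (8 * a0) := h2
        _ ≤ K := Nat.le_ceil _
    exact_mod_cast h3
  set lev : DirichletCharacter ℂ q → ℕ := fun χ => Nat.findGreatest (P χ) K with hlev
  have hP0 : ∀ χ : DirichletCharacter ℂ q, χ ≠ 1 → P χ 0 := by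
    intro χ hχ
    refine ⟨by simpa using ha08, fun ρ h1 h2 => ?_⟩
    have := hgood χ hχ ρ h1 h2
    simpa using this
  have hPlev : ∀ χ : DirichletCharacter ℂ q, χ ≠ 1 → P χ (lev χ) := fun χ hχ =>
    Nat.findGreatest_spec (m := 0) (Nat.zero_le _) (hP0 χ hχ)
  have hnlev : ∀ χ : DirichletCharacter ℂ q, ¬ P χ (lev χ + 1) := by
    intro χ h
    have h1 := hPK χ _ h
    exact Nat.findGreatest_is_greatest (P := P χ) (Nat.lt_succ_self (lev χ)) h1 h
  -- bound for each character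
  have hbound : ∀ χ : DirichletCharacter ℂ q, χ ≠ 1 →
      ‖SS χ x‖ ≤ (T * Real.exp (-(2 ^ lev χ * a0 * x / 4)) + 6 * E2) * D0 +
        6 * LS (1 / x) * E3 := by
    intro χ hχ
    obtain ⟨h1, h2⟩ := hPlev χ hχ
    have hpow : (1 : ℝ) ≤ 2 ^ lev χ := one_le_pow₀ (by norm_num)
    have ha : a0 ≤ 2 ^ lev χ * a0 := by nlinarith
    have h3 := norm_SS_le hχ (α := 2 ^ lev χ * a0) (T := T) (by positivity) (by linarith) h2 hT2 hx1
    refine h3.trans ?_
    have h4 : 20 * (LL q T + 3) / (2 ^ lev χ * a0) ^ 2 ≤ D0 := by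
      rw [hD0]
      apply div_le_div₀ (by positivity) (by linarith) (by positivity)
      exact pow_le_pow_left₀ ha00.le ha 2
    have h5 : 0 ≤ T * Real.exp (-(2 ^ lev χ * a0 * x / 4)) + 6 * Real.exp (-(T - 2) ^ 2 / 2) := by
      positivity
    have := mul_le_mul_of_nonneg_left h4 h5
    linarith
  -- number of characters on each level
  have hcardq : ∀ B : Finset (DirichletCharacter ℂ q), (B.card : ℝ) ≤ Real.exp L := by
    intro B
    refine le_trans ?_ hqL
    exact_mod_cast card_chars_le q B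
  have hcard : ∀ j : ℕ, (((Finset.univ.erase 1).filter (fun χ => lev χ = j)).card : ℝ) ≤
      4 * (2 + 10 * L) ^ 5 * Real.exp (40 * (2 ^ j * a0) * L) := by
    intro j
    have hpoly : (1 : ℝ) ≤ 4 * (2 + 10 * L) ^ 5 := by
      have : (1 : ℝ) ≤ (2 + 10 * L) ^ 5 := one_le_pow₀ (by linarith)
      linarith
    by_cases hj : 2 ^ (j + 1) * a0 ≤ 1 / 8
    · -- use the density estimate
      have hex : ∀ χ : DirichletCharacter ℂ q, ∃ ρ : ℂ, lev χ = j →
          LFunction χ ρ = 0 ∧ |ρ.im| ≤ T ∧ 1 - 2 ^ (j + 1) * a0 < ρ.re := by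
        intro χ
        by_cases h : lev χ = j
        · have h1 := hnlev χ
          rw [h] at h1
          simp only [hP, not_and] at h1
          have h2 := h1 hj
          push Not at h2
          obtain ⟨ρ, h3, h4, h5⟩ := h2
          exact ⟨ρ, fun _ => ⟨h3, h4, h5⟩⟩
        · exact ⟨0, fun h' => absurd h' h⟩
      choose ρ hρ using hex
      have h1 := density (q := q) (T := T) (α := 2 ^ (j + 1) * a0) (by positivity)
        (by linarith) hQ hQ4 (by linarith)
        ((Finset.univ.erase 1).filter (fun χ => lev χ = j)) ρ (by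
          intro χ hχ
          rw [Finset.mem_filter, Finset.mem_erase] at hχ
          obtain ⟨h2, h3, h4⟩ := hρ χ hχ.2
          exact ⟨hχ.1.1, h2, h4.le, h3⟩)
      rw [← hL] at h1
      refine h1.trans (le_of_eq ?_)
      rw [pow_succ]
      have : 20 * (2 ^ j * 2 * a0) * L = 40 * (2 ^ j * a0) * L := by ring
      rw [this]
      ring
    · -- trivial bound
      rw [not_le, pow_succ] at hj
      have h1 : Real.exp L ≤ Real.exp (40 * (2 ^ j * a0) * L) := by
        apply Real.exp_le_exp.2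
        nlinarith
      calc (((Finset.univ.erase 1).filter (fun χ => lev χ = j)).card : ℝ) ≤ Real.exp L := hcardq _
        _ ≤ 1 * Real.exp (40 * (2 ^ j * a0) * L) := by rw [one_mul]; exact h1
        _ ≤ _ := by gcongr
  -- contribution of each level
  set M : ℝ := 4 * (2 + 10 * L) ^ 5 * T * Real.exp (-(a0 * x / 8)) * D0 +
    Real.exp L * (6 * E2 * D0 + 6 * LS (1 / x) * E3) with hM
  have hM0 : 0 ≤ M := by positivity
  have hlevel : ∀ j : ℕ, ∑ χ ∈ (Finset.univ.erase 1).filter (fun χ => lev χ = j), ‖SS χ x‖ ≤ M := by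
    intro j
    set B := (Finset.univ.erase 1).filter
      (fun χ : DirichletCharacter ℂ q => lev χ = j) with hB
    have h1 : ∑ χ ∈ B, ‖SS χ x‖ ≤ B.card * (T * Real.exp (-(2 ^ j * a0 * x / 4)) * D0 +
        (6 * E2 * D0 + 6 * LS (1 / x) * E3)) := by
      rw [← nsmul_eq_mul]
      apply Finset.sum_le_card_nsmul
      intro χ hχ
      rw [hB, Finset.mem_filter, Finset.mem_erase] at hχ
      have := hbound χ hχ.1.1
      rw [hχ.2] at this
      linarith
    refine h1.trans ?_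
    rw [mul_add]
    apply add_le_add
    · have h2 : Real.exp (40 * (2 ^ j * a0) * L) * Real.exp (-(2 ^ j * a0 * x / 4)) ≤
          Real.exp (-(a0 * x / 8)) := by
        rw [← Real.exp_add]
        apply Real.exp_le_exp.2
        have hpow : (1 : ℝ) ≤ 2 ^ j := one_le_pow₀ (by norm_num)
        have h3 : 0 ≤ (2 ^ j * a0) * (x - 320 * L) := mul_nonneg (by positivity) (by linarith)
        have h4 : 0 ≤ (2 ^ j - 1) * (a0 * x) := mul_nonneg (by linarith) (by positivity)
        nlinarith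
      calc (B.card : ℝ) * (T * Real.exp (-(2 ^ j * a0 * x / 4)) * D0)
          ≤ (4 * (2 + 10 * L) ^ 5 * Real.exp (40 * (2 ^ j * a0) * L)) *
              (T * Real.exp (-(2 ^ j * a0 * x / 4)) * D0) :=
            mul_le_mul_of_nonneg_right (hcard j) (by positivity)
        _ = 4 * (2 + 10 * L) ^ 5 * T * (Real.exp (40 * (2 ^ j * a0) * L) *
              Real.exp (-(2 ^ j * a0 * x / 4))) * D0 := by ring
        _ ≤ 4 * (2 + 10 * L) ^ 5 * T * Real.exp (-(a0 * x / 8)) * D0 := by gcongr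
    · exact mul_le_mul_of_nonneg_right (hcardq B) (by positivity)
  have hmaps : ∀ χ ∈ (Finset.univ.erase (1 : DirichletCharacter ℂ q)),
      lev χ ∈ Finset.range (K + 1) := fun χ _ =>
    Finset.mem_range.2 (Nat.lt_succ_of_le (Nat.findGreatest_le K))
  have hcs : csum x q = ∑ χ ∈ (Finset.univ : Finset (DirichletCharacter ℂ q)).erase 1, ‖SS χ x‖ := by
    unfold csum
    rw [dif_neg (NeZero.ne q)]
  rw [hcs, ← Finset.sum_fiberwise_of_maps_to hmaps]
  calc ∑ j ∈ Finset.range (K + 1), ∑ χ ∈ (Finset.univ.erase 1).filter (fun χ => lev χ = j), ‖SS χ x‖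
      ≤ ∑ j ∈ Finset.range (K + 1), M := Finset.sum_le_sum fun j _ => hlevel j
    _ = (K + 1) * M := by rw [Finset.sum_const, Finset.card_range, nsmul_eq_mul]; push_cast; ring
    _ ≤ (1 / (8 * a0) + 2) * M := by
        apply mul_le_mul_of_nonneg_right _ hM0
        have := (Nat.ceil_lt_add_one (show 0 ≤ 1 / (8 * a0) by positivity)).le
        rw [← hK] at this
        linarith

end Pool.Agent.LibT63
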