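import Pool.Agent.LibT63.BDefs
import Pool.Agent.LibMaier.SmallBound

/-! ROW B2 (calculus). PLAN: `L := log Q ≤ 3 Y`, `T = 2 Y`, `a0 = log Y / Y`, `x = 1000 Y`.
First factor: `1/(8 a0) + 2 ≤ Y`. `exp(-(a0 x/8)) = exp(-125 log Y) = Y^(-125)`,
`(2 + 10 L)^5 ≤ (32 Y)^5` (Y ≥ 1), `20 (L+3)/a0^2 ≤ 120 Y^3` (log Y ≥ 1).
`exp L ≤ exp (3Y)`, `exp(-(T-2)²/4) = exp(-(Y-1)²)`, and `LS (1/x) ≤ 865 x^2` (`LS_inv_le`). -/

set_option autoImplicit false

namespace Pool.Agent.LibT63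

open Filter Topology Pool.Agent.LibMaier

private theorem B2_first {y l L : ℝ} (hy : 10000 ≤ y) (hl1 : 1 ≤ l) (hlexp : Real.exp (-l) = 1 / y)
    (hL1 : 1 ≤ L) (hL : L ≤ 3 * y) :
    y * (4 * (2 + 10 * L) ^ 5 * (2 * y) * Real.exp (-((l / y) * (1000 * y) / 8)) *
      (20 * (L + 3) / (l / y) ^ 2)) ≤ 1 / 16 := by
  have hy0 : 0 < y := by linarith
  have e1 : Real.exp (-((l / y) * (1000 * y) / 8)) = (1 / y) ^ 125 := by
    rw [← hlexp, ← Real.exp_nat_mul]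
    congr 1
    field_simp
    ring
  have e2 : (2 + 10 * L) ^ 5 ≤ (32 * y) ^ 5 :=
    pow_le_pow_left₀ (by linarith) (by linarith) 5
  have e3 : 20 * (L + 3) / (l / y) ^ 2 ≤ 120 * y ^ 3 := by
    rw [div_pow, div_div_eq_mul_div, div_le_iff₀ (by positivity)]
    have h1 : 20 * (L + 3) ≤ 120 * y := by linarith
    have h2 : (1 : ℝ) ≤ l ^ 2 := one_le_pow₀ hl1
    calc 20 * (L + 3) * y ^ 2 ≤ 120 * y * y ^ 2 := mul_le_mul_of_nonneg_right h1 (by positivity)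
      _ = 120 * y ^ 3 * 1 := by ring
      _ ≤ 120 * y ^ 3 * l ^ 2 := mul_le_mul_of_nonneg_left h2 (by positivity)
  have e3' : 0 ≤ 20 * (L + 3) / (l / y) ^ 2 := by positivity
  rw [e1]
  have e4 : y * (4 * (2 + 10 * L) ^ 5 * (2 * y) * (1 / y) ^ 125 * (20 * (L + 3) / (l / y) ^ 2)) ≤
      y * (4 * (32 * y) ^ 5 * (2 * y) * (1 / y) ^ 125 * (120 * y ^ 3)) := by
    refine mul_le_mul_of_nonneg_left ?_ hy0.le
    refine mul_le_mul ?_ e3 e3' (by positivity)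
    refine mul_le_mul_of_nonneg_right ?_ (by positivity)
    refine mul_le_mul_of_nonneg_right ?_ (by positivity)
    linarith
  refine e4.trans ?_
  have e5 : y * (4 * (32 * y) ^ 5 * (2 * y) * (1 / y) ^ 125 * (120 * y ^ 3)) =
      960 * 32 ^ 5 * (y ^ 10 / y ^ 125) := by
    rw [one_div, inv_pow]
    field_simp
    ring
  rw [e5]
  have e6 : y ^ 10 / y ^ 125 ≤ 1 / y ^ 10 := by
    rw [div_le_div_iff₀ (by positivity) (by positivity), one_mul, ← pow_add]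
    exact pow_le_pow_right₀ (by linarith) (by norm_num)
  have e7 : 1 / y ^ 10 ≤ 1 / 10000 ^ 10 := by
    apply one_div_le_one_div_of_le (by norm_num)
    exact pow_le_pow_left₀ (by norm_num) hy 10
  have e8 : y ^ 10 / y ^ 125 ≤ 1 / 10000 ^ 10 := e6.trans e7
  calc 960 * 32 ^ 5 * (y ^ 10 / y ^ 125) ≤ 960 * 32 ^ 5 * (1 / 10000 ^ 10) :=
        mul_le_mul_of_nonneg_left e8 (by norm_num)
    _ ≤ 1 / 16 := by norm_num

private theorem B2_second {y l L : ℝ} (hy : 10000 ≤ y) (hl1 : 1 ≤ l)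
    (hL1 : 1 ≤ L) (hL : L ≤ 3 * y) :
    y * (Real.exp L * (6 * Real.exp (-(2 * y - 2) ^ 2 / 2) * (20 * (L + 3) / (l / y) ^ 2) +
          6 * LS (1 / (1000 * y)) * Real.exp (-(2 * y - 2) ^ 2 / 4))) ≤ 1 / 16 := by
  have hy0 : 0 < y := by linarith
  have e3 : 20 * (L + 3) / (l / y) ^ 2 ≤ 120 * y ^ 3 := by
    rw [div_pow, div_div_eq_mul_div, div_le_iff₀ (by positivity)]
    have h1 : 20 * (L + 3) ≤ 120 * y := by linarith
    have h2 : (1 : ℝ) ≤ l ^ 2 := one_le_pow₀ hl1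
    calc 20 * (L + 3) * y ^ 2 ≤ 120 * y * y ^ 2 := mul_le_mul_of_nonneg_right h1 (by positivity)
      _ = 120 * y ^ 3 * 1 := by ring
      _ ≤ 120 * y ^ 3 * l ^ 2 := mul_le_mul_of_nonneg_left h2 (by positivity)
  have e3' : 0 ≤ 20 * (L + 3) / (l / y) ^ 2 := by positivity
  have e1 : Real.exp (-(2 * y - 2) ^ 2 / 4) = Real.exp (-(y - 1) ^ 2) := by
    congr 1
    ring
  have e2 : Real.exp (-(2 * y - 2) ^ 2 / 2) ≤ Real.exp (-(y - 1) ^ 2) := by
    apply Real.exp_le_exp.2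
    nlinarith [sq_nonneg (y - 1)]
  have hLS : LS (1 / (1000 * y)) ≤ 865 * (1000 * y) ^ 2 := LS_inv_le (by linarith)
  have hLS0 := LS_nonneg (1 / (1000 * y))
  rw [e1]
  set W := Real.exp (-(y - 1) ^ 2) with hW
  have hW0 : 0 < W := Real.exp_pos _
  have e4 : 6 * Real.exp (-(2 * y - 2) ^ 2 / 2) * (20 * (L + 3) / (l / y) ^ 2) ≤
      6 * W * (120 * y ^ 3) :=
    mul_le_mul (mul_le_mul_of_nonneg_left e2 (by norm_num)) e3 e3' (by positivity)
  have e5 : 6 * LS (1 / (1000 * y)) * W ≤ 6 * (865 * (1000 * y) ^ 2) * W :=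
    mul_le_mul_of_nonneg_right (mul_le_mul_of_nonneg_left hLS (by norm_num)) hW0.le
  have e6 : 6 * W * (120 * y ^ 3) + 6 * (865 * (1000 * y) ^ 2) * W ≤ 10 ^ 7 * y ^ 3 * W := by
    have h1 : (720 : ℝ) * y ^ 3 + 6 * (865 * (1000 * y) ^ 2) ≤ 10 ^ 7 * y ^ 3 := by
      nlinarith [mul_le_mul_of_nonneg_right hy (sq_nonneg y)]
    nlinarith
  have e7 : Real.exp L ≤ Real.exp (3 * y) := Real.exp_le_exp.2 hL
  have e8 : Real.exp (3 * y) * W ≤ Real.exp (-y) := by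
    rw [hW, ← Real.exp_add]
    apply Real.exp_le_exp.2
    nlinarith
  have e9 : Real.exp (-y) ≤ 10 ^ 10 / y ^ 10 := by
    have h1 : y / 10 ≤ Real.exp (y / 10) := (by linarith [Real.add_one_le_exp (y / 10)])
    have h2 : (y / 10) ^ 10 ≤ Real.exp (y / 10) ^ 10 := pow_le_pow_left₀ (by positivity) h1 10
    have h3 : Real.exp (y / 10) ^ 10 = Real.exp y := by
      rw [← Real.exp_nat_mul]
      congr 1
      push_cast
      ring
    rw [h3] at h2
    rw [Real.exp_neg, inv_le_comm₀ (Real.exp_pos _) (by positivity), inv_div]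
    rw [div_pow] at h2
    exact h2
  have e10 : Real.exp L * (6 * Real.exp (-(2 * y - 2) ^ 2 / 2) * (20 * (L + 3) / (l / y) ^ 2) +
      6 * LS (1 / (1000 * y)) * W) ≤ Real.exp (3 * y) * (10 ^ 7 * y ^ 3 * W) := by
    refine mul_le_mul e7 (by linarith) ?_ (Real.exp_pos _).le
    have : 0 < Real.exp (-(2 * y - 2) ^ 2 / 2) := Real.exp_pos _
    positivity
  calc y * (Real.exp L * (6 * Real.exp (-(2 * y - 2) ^ 2 / 2) * (20 * (L + 3) / (l / y) ^ 2) +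
          6 * LS (1 / (1000 * y)) * W)) ≤ y * (Real.exp (3 * y) * (10 ^ 7 * y ^ 3 * W)) :=
        mul_le_mul_of_nonneg_left e10 hy0.le
    _ = 10 ^ 7 * y ^ 4 * (Real.exp (3 * y) * W) := by ring
    _ ≤ 10 ^ 7 * y ^ 4 * (10 ^ 10 / y ^ 10) :=
        mul_le_mul_of_nonneg_left (e8.trans e9) (by positivity)
    _ = 10 ^ 17 / y ^ 6 := by
        field_simp
    _ ≤ 10 ^ 17 / 10000 ^ 6 := by
        apply div_le_div_of_nonneg_left (by norm_num) (by norm_num)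
        exact pow_le_pow_left₀ (by norm_num) hy 6
    _ ≤ 1 / 16 := by norm_num

theorem num_small : ∃ Y0 : ℕ, ∀ Y : ℕ, Y0 ≤ Y → ∀ L : ℝ, 1 ≤ L → L ≤ 3 * Y →
    (1 / (8 * (Real.log Y / Y)) + 2) *
        (4 * (2 + 10 * L) ^ 5 * (2 * Y) * Real.exp (-((Real.log Y / Y) * (1000 * Y) / 8)) *
            (20 * (L + 3) / (Real.log Y / Y) ^ 2) +
          Real.exp L * (6 * Real.exp (-(2 * (Y : ℝ) - 2) ^ 2 / 2) * (20 * (L + 3) / (Real.log Y / Y) ^ 2) +
          6 * LS (1 / (1000 * Y)) * Real.exp (-(2 * (Y : ℝ) - 2) ^ 2 / 4))) ≤ 1 / 8 := by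
  refine ⟨10000, fun Y hY L hL1 hL => ?_⟩
  have hy : (10000 : ℝ) ≤ Y := by exact_mod_cast hY
  set y : ℝ := (Y : ℝ) with hydef
  have hy0 : 0 < y := by linarith
  have hl1 : 1 ≤ Real.log y := by
    rw [Real.le_log_iff_exp_le hy0]
    have := Real.exp_one_lt_d9
    linarith
  have hlexp : Real.exp (-Real.log y) = 1 / y := by
    rw [Real.exp_neg, Real.exp_log hy0, one_div]
  have hF : 1 / (8 * (Real.log y / y)) + 2 ≤ y := by
    have h1 : 1 / (8 * (Real.log y / y)) ≤ y / 8 := by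
      rw [div_le_div_iff₀ (by positivity) (by norm_num)]
      have h2 : y * (8 * (Real.log y / y)) = 8 * Real.log y := by
        field_simp
      rw [h2]
      linarith
    linarith
  have h1 := B2_first hy hl1 hlexp hL1 hL
  have h2 := B2_second hy hl1 hL1 hL
  have hLS0 := LS_nonneg (1 / (1000 * y))
  have hn1 : 0 ≤ 4 * (2 + 10 * L) ^ 5 * (2 * y) * Real.exp (-((Real.log y / y) * (1000 * y) / 8)) *
            (20 * (L + 3) / (Real.log y / y) ^ 2) := by positivity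
  have hn2 : 0 ≤ Real.exp L * (6 * Real.exp (-(2 * y - 2) ^ 2 / 2) *
      (20 * (L + 3) / (Real.log y / y) ^ 2) +
      6 * LS (1 / (1000 * y)) * Real.exp (-(2 * y - 2) ^ 2 / 4)) := by positivity
  refine (mul_le_mul_of_nonneg_right hF (add_nonneg hn1 hn2)).trans ?_
  rw [mul_add]
  linarith

end Pool.Agent.LibT63
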