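import Pool.Agent.LibT63.BDefs

/-! ROW B3 (short). PLAN: `LibMaier.density` with `α = log Y / Y` (`≤ 1/4` for large `Y`), `T = 2 Y`, `Q := M * (2 Y + 3)` (natural number;
`log Q ≤ 2 Y + log (2 Y + 3) ≤ 3 Y` for large `Y`); `ρ χ` chosen by `choose` (arbitrary outside `B`). The bound is
`4 exp(20 α log Q) (2 + 10 log Q)^5 ≤ 4 exp(60 log Y) (2 + 30 Y)^5 ≤ 4 Y^60 (32 Y)^5 ≤ Y^80` for `Y ≥ 4` (`4 · 32^5 = 2^27 ≤ Y^15`, `Y ≥ 4`). -/

set_option autoImplicit false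

namespace Pool.Agent.LibT63

open Filter Topology Complex DirichletCharacter
open Pool.Agent.LibRG87 Pool.Agent.LibMaier Pool.Agent.LibPL63

private theorem B3_log {Y : ℝ} (hY : 16 ≤ Y) : Real.log Y ≤ Y / 4 := by
  have h1 : Real.log Y = Real.log (Y / 16) + 4 * Real.log 2 := by
    have h2 : Real.log Y = Real.log (Y / 16 * 2 ^ 4) := by
      congr 1
      ring
    rw [h2, Real.log_mul (by positivity) (by norm_num), Real.log_pow]
    norm_num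
  have h2 := Real.log_le_sub_one_of_pos (show 0 < Y / 16 by positivity)
  have h3 := Real.log_two_lt_d9
  rw [h1]
  linarith

private theorem B3_log2 {Y : ℝ} (hY : 16 ≤ Y) : Real.log (2 * Y + 3) ≤ Y := by
  rw [Real.log_le_iff_le_exp (by linarith)]
  have h1 := Real.quadratic_le_exp_of_nonneg (show 0 ≤ Y by linarith)
  nlinarith

theorem card_bad : ∃ Y0 : ℕ, ∀ Y : ℕ, Y0 ≤ Y → ∀ (M : ℕ) [NeZero M], (M : ℝ) ≤ Real.exp (2 * Y) →
    ∀ B : Finset (DirichletCharacter ℂ M),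
    (∀ χ ∈ B, χ ≠ 1 ∧ ∃ ρ : ℂ, LFunction χ ρ = 0 ∧ |ρ.im| ≤ 2 * Y ∧ 1 - Real.log Y / Y < ρ.re) →
    (B.card : ℝ) ≤ (Y : ℝ) ^ 80 := by
  classical
  refine ⟨16, fun Y hY M _ hM B hB => ?_⟩
  have hYR : (16 : ℝ) ≤ Y := by exact_mod_cast hY
  have hY0 : (0 : ℝ) < Y := by linarith
  have hM1 : 1 ≤ M := Nat.one_le_iff_ne_zero.2 (NeZero.ne M)
  have hM1R : (1 : ℝ) ≤ M := by exact_mod_cast hM1
  have hlY : 0 ≤ Real.log Y := Real.log_nonneg (by linarith)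
  set ρ : DirichletCharacter ℂ M → ℂ := fun χ =>
    if h : ∃ ρ : ℂ, LFunction χ ρ = 0 ∧ |ρ.im| ≤ 2 * Y ∧ 1 - Real.log Y / Y < ρ.re then h.choose
    else 0 with hρ
  have hspec : ∀ χ ∈ B, χ ≠ 1 ∧ LFunction χ (ρ χ) = 0 ∧ 1 - Real.log Y / Y ≤ (ρ χ).re ∧
      |(ρ χ).im| ≤ 2 * Y := by
    intro χ hχ
    obtain ⟨h1, h2⟩ := hB χ hχ
    have h3 : ρ χ = h2.choose := dif_pos h2
    rw [h3]
    obtain ⟨h4, h5, h6⟩ := h2.choose_spec
    exact ⟨h1, h4, h6.le, h5⟩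
  have hα0 : 0 ≤ Real.log Y / Y := by positivity
  have hα : Real.log Y / Y ≤ 1 / 4 := by
    rw [div_le_iff₀ hY0]
    have := B3_log hYR
    linarith
  have hQ4 : 4 ≤ M * (2 * Y + 3) := by nlinarith
  have h := density hα0 hα (Q := M * (2 * Y + 3)) (T := 2 * Y) (by push_cast; exact le_rfl) hQ4
    (by positivity) B ρ hspec
  set L : ℝ := Real.log ((M * (2 * Y + 3) : ℕ) : ℝ) with hL
  have hL0 : 0 ≤ L := by
    have h4 : (4 : ℝ) ≤ ((M * (2 * Y + 3) : ℕ) : ℝ) := by exact_mod_cast hQ4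
    exact Real.log_nonneg (by linarith)
  have hL1 : L ≤ 3 * Y := by
    rw [hL]
    push_cast
    rw [Real.log_mul (by positivity) (by positivity)]
    have h1 : Real.log M ≤ 2 * Y := by
      rw [Real.log_le_iff_le_exp (by linarith)]
      exact hM
    have h2 := B3_log2 hYR
    linarith
  refine h.trans ?_
  have h1 : Real.exp (20 * (Real.log Y / Y) * L) ≤ (Y : ℝ) ^ 60 := by
    have h2 : (Y : ℝ) ^ 60 = Real.exp (60 * Real.log Y) := by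
      rw [← Real.rpow_natCast, Real.rpow_def_of_pos hY0]
      congr 1
      push_cast
      ring
    rw [h2, Real.exp_le_exp]
    have h3 : 20 * (Real.log Y / Y) * L ≤ 20 * (Real.log Y / Y) * (3 * Y) :=
      mul_le_mul_of_nonneg_left hL1 (by positivity)
    refine h3.trans (le_of_eq ?_)
    field_simp
    ring
  have h2 : (2 + 10 * L) ^ 5 ≤ (32 * (Y : ℝ)) ^ 5 :=
    pow_le_pow_left₀ (by positivity) (by linarith) 5
  have h3 : 4 * Real.exp (20 * (Real.log Y / Y) * L) * (2 + 10 * L) ^ 5 ≤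
      4 * (Y : ℝ) ^ 60 * (32 * (Y : ℝ)) ^ 5 :=
    mul_le_mul (mul_le_mul_of_nonneg_left h1 (by norm_num)) h2 (by positivity) (by positivity)
  refine h3.trans ?_
  have h4 : (2 : ℝ) ^ 27 ≤ (Y : ℝ) ^ 15 := by
    have h5 : (16 : ℝ) ^ 15 ≤ (Y : ℝ) ^ 15 := pow_le_pow_left₀ (by norm_num) hYR 15
    refine le_trans ?_ h5
    norm_num
  have h5 : 4 * (Y : ℝ) ^ 60 * (32 * (Y : ℝ)) ^ 5 = 2 ^ 27 * (Y : ℝ) ^ 65 := by ring
  have h6 : (Y : ℝ) ^ 80 = (Y : ℝ) ^ 15 * (Y : ℝ) ^ 65 := by rw [← pow_add]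
  rw [h5, h6]
  exact mul_le_mul_of_nonneg_right h4 (by positivity)

end Pool.Agent.LibT63
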