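import Pool.Agent.LibT63.BDefs

/-! ROW B4 (adaptation of `LibPL63.bad_unique`, file LibPL63/B2.lean). `badP_real`: zero_free with `T = 4 Y` (`|ρ.im| ≤ T/2 = 2 Y`):
`LL q (4Y) = log q + log (4Y+3)`; if the zero is not real or `r.2 ^ 2 ≠ 1` then `1 - log Y/Y < ρ.re ≤ 1 - kk / LL`, so
`LL > kk Y / log Y`, but `LL ≤ kk/4 · Y/log Y + log (4Y+3) ≤ kk/2 · Y/log Y` for large `Y` (`log(4Y+3) ≤ kk/4 · Y/log Y` eventually): contradiction.
`badP_unique`: as in `bad_unique`: both are real with real zeros, `exceptional_unique` for the modulus `r.1 * s.1`, `T = 4 Y`: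
`LL (r.1 s.1) (4Y) ≤ kk/2 · Y/log Y + log (4Y+3) < kk Y/log Y`, so `1 - kk/LL < 1 - log Y/Y < β`. Then `primitive_ne`. -/

set_option autoImplicit false

namespace Pool.Agent.LibT63

open Filter Topology Complex DirichletCharacter
open Pool.Agent.LibRG87 Pool.Agent.LibMaier Pool.Agent.LibPL63

theorem B4_growth (L₀ : ℝ) : ∀ᶠ x : ℝ in atTop, 3 ≤ x ∧ 1 ≤ Real.log x ∧
    L₀ ≤ Real.log (4 * x + 3) ∧ Real.log (4 * x + 3) ≤ smc x := by
  have hkk : 0 < kk := by unfold kk; norm_num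
  have h1 : Tendsto (fun x : ℝ => Real.log (4 * x + 3)) atTop atTop := by
    apply Real.tendsto_log_atTop.comp
    exact Filter.tendsto_atTop_add_const_right _ _
      (Filter.Tendsto.const_mul_atTop (by norm_num) tendsto_id)
  have hlog : (fun x : ℝ => Real.log x ^ 2) =o[atTop] (fun x : ℝ => x) :=
    Real.isLittleO_pow_log_id_atTop
  have h2 := hlog.bound (c := kk / 8) (by positivity)
  filter_upwards [h1.eventually_ge_atTop L₀, h2, Real.tendsto_log_atTop.eventually_ge_atTop 1,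
    eventually_ge_atTop (7 : ℝ)] with x hx1 hx2 hx3 hx4
  have hx0 : 0 < x := by linarith
  have hl0 : 0 < Real.log x := by linarith
  rw [Real.norm_of_nonneg (by positivity), Real.norm_of_nonneg hx0.le] at hx2
  refine ⟨by linarith, hx3, hx1, ?_⟩
  have h3 : Real.log (4 * x + 3) ≤ 2 * Real.log x := by
    calc Real.log (4 * x + 3) ≤ Real.log (x ^ 2) := by
          apply Real.log_le_log (by positivity)
          nlinarith
      _ = 2 * Real.log x := by
          rw [Real.log_pow]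
          norm_num
  refine h3.trans ?_
  unfold smc
  rw [← mul_div_assoc, le_div_iff₀ hl0]
  nlinarith

theorem badP_real : ∃ Y0 : ℕ, ∀ Y : ℕ, Y0 ≤ Y → ∀ r : PC, BadP Y r → Real.log r.1 ≤ smc Y →
    ∃ (_ : NeZero r.1), r.2 ^ 2 = 1 ∧ ∃ β : ℝ, LFunction r.2 β = 0 ∧ 1 - Real.log Y / Y < β := by
  obtain ⟨L₁, hL1, hzf⟩ := zero_free
  obtain ⟨Y0, hY0⟩ := Filter.eventually_atTop.1
    (tendsto_natCast_atTop_atTop.eventually (B4_growth L₁))
  refine ⟨Y0, fun Y hY r hr hlq => ?_⟩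
  obtain ⟨hx1, hx2, hx3, hx4⟩ := hY0 Y hY
  set x : ℝ := (Y : ℝ) with hx
  have hx0 : 0 < x := by linarith
  have hl0 : 0 < Real.log x := by linarith
  have hkk : 0 < kk := by unfold kk; norm_num
  obtain ⟨h2, hp, hne, ρ, hρ, him, hre⟩ := hr
  have hq0 : ((r.1 : ℕ) : ℝ) ≠ 0 := by exact_mod_cast (by omega : r.1 ≠ 0)
  have hLL : LL r.1 (4 * x) = Real.log r.1 + Real.log (4 * x + 3) := by
    unfold LL
    rw [Real.log_mul hq0 (by positivity)]
  have hln : 0 ≤ Real.log (r.1 : ℝ) := Real.log_natCast_nonneg r.1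
  have hlp : 0 < Real.log (4 * x + 3) := Real.log_pos (by linarith)
  have hzero : ¬ (ρ.im ≠ 0 ∨ r.2 ^ 2 ≠ 1) := by
    intro hcase
    have h3 := hzf r.1 (4 * x) (by linarith) (by rw [hLL]; linarith) r.2
      (primitive_ne_one h2 hp) ρ hρ (by linarith) hcase
    have h4 : Real.log x / x ≤ kk / LL r.1 (4 * x) := by
      rw [div_le_div_iff₀ hx0 (by rw [hLL]; linarith), hLL]
      have h5 : Real.log r.1 + Real.log (4 * x + 3) ≤ kk * (x / Real.log x) := by
        have h6 : 0 ≤ x / Real.log x := by positivity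
        unfold smc at hlq hx4
        nlinarith
      calc Real.log x * (Real.log r.1 + Real.log (4 * x + 3))
          ≤ Real.log x * (kk * (x / Real.log x)) := mul_le_mul_of_nonneg_left h5 hl0.le
        _ = kk * x := by field_simp
    linarith
  push Not at hzero
  refine ⟨hne, hzero.2, ρ.re, ?_, hre⟩
  have : ((ρ.re : ℝ) : ℂ) = ρ := by
    apply Complex.ext
    · simp
    · simp [hzero.1]
  rw [this]
  exact hρ

theorem badP_unique : ∃ Y0 : ℕ, ∀ Y : ℕ, Y0 ≤ Y → ∀ r s : PC, BadP Y r → BadP Y s →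
    Real.log r.1 ≤ smc Y → Real.log s.1 ≤ smc Y → r = s := by
  obtain ⟨Y1, hY1⟩ := badP_real
  obtain ⟨L₂, hL2, heu⟩ := exceptional_unique
  obtain ⟨Y2, hY2⟩ := Filter.eventually_atTop.1
    (tendsto_natCast_atTop_atTop.eventually (B4_growth L₂))
  refine ⟨max Y1 Y2, fun Y hY r s hr hs hlr hls => ?_⟩
  obtain ⟨hnr, hr2, β₁, hβ₁, hb₁⟩ := hY1 Y ((le_max_left _ _).trans hY) r hr hlr
  obtain ⟨hns, hs2, β₂, hβ₂, hb₂⟩ := hY1 Y ((le_max_left _ _).trans hY) s hs hls
  obtain ⟨hx1, hx2, hx3, hx4⟩ := hY2 Y ((le_max_right _ _).trans hY)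
  set x : ℝ := (Y : ℝ) with hx
  have hx0 : 0 < x := by linarith
  have hl0 : 0 < Real.log x := by linarith
  have hkk : 0 < kk := by unfold kk; norm_num
  have hr1 : (0 : ℝ) < r.1 := by exact_mod_cast (by have := hr.1; omega : 0 < r.1)
  have hs1 : (0 : ℝ) < s.1 := by exact_mod_cast (by have := hs.1; omega : 0 < s.1)
  have hne_r := primitive_ne_one hr.1 hr.2.1
  have hne_s := primitive_ne_one hs.1 hs.2.1
  have : NeZero (r.1 * s.1) := ⟨Nat.mul_ne_zero (NeZero.ne _) (NeZero.ne _)⟩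
  have hln : 0 ≤ Real.log ((r.1 * s.1 : ℕ) : ℝ) := Real.log_natCast_nonneg _
  have hlp : 0 < Real.log (4 * x + 3) := Real.log_pos (by linarith)
  have hlm : Real.log ((r.1 * s.1 : ℕ) : ℝ) ≤ 2 * smc x := by
    push_cast
    rw [Real.log_mul hr1.ne' hs1.ne']
    linarith
  have hm0 : ((r.1 * s.1 : ℕ) : ℝ) ≠ 0 := by exact_mod_cast NeZero.ne (r.1 * s.1)
  have hLL : LL (r.1 * s.1) (4 * x) =
      Real.log ((r.1 * s.1 : ℕ) : ℝ) + Real.log (4 * x + 3) := by
    unfold LL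
    rw [Real.log_mul hm0 (by positivity)]
  have h4 : Real.log x / x ≤ kk / LL (r.1 * s.1) (4 * x) := by
    rw [div_le_div_iff₀ hx0 (by rw [hLL]; linarith), hLL]
    have h5 : Real.log ((r.1 * s.1 : ℕ) : ℝ) + Real.log (4 * x + 3) ≤ kk * (x / Real.log x) := by
      have h6 : 0 ≤ x / Real.log x := by positivity
      unfold smc at hlm hx4
      nlinarith
    calc Real.log x * (Real.log ((r.1 * s.1 : ℕ) : ℝ) + Real.log (4 * x + 3))
        ≤ Real.log x * (kk * (x / Real.log x)) := mul_le_mul_of_nonneg_left h5 hl0.le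
      _ = kk * x := by field_simp
  have hz1 : LFunction (changeLevel (Nat.dvd_mul_right r.1 s.1) r.2) (β₁ : ℂ) = 0 := by
    rw [LFunction_changeLevel _ _ (Or.inl hne_r), hβ₁, zero_mul]
  have hz2 : LFunction (changeLevel (Nat.dvd_mul_left s.1 r.1) s.2) (β₂ : ℂ) = 0 := by
    rw [LFunction_changeLevel _ _ (Or.inl hne_s), hβ₂, zero_mul]
  have hcr : changeLevel (Nat.dvd_mul_right r.1 s.1) r.2 ≠ 1 := fun h =>
    hne_r ((changeLevel_eq_one_iff _).1 h)
  have hcs : changeLevel (Nat.dvd_mul_left s.1 r.1) s.2 ≠ 1 := fun h =>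
    hne_s ((changeLevel_eq_one_iff _).1 h)
  have h5 := heu (r.1 * s.1) (4 * x) (by linarith) (by rw [hLL]; linarith) _ _ hcr hcs
    (by rw [← map_pow, hr2, map_one]) (by rw [← map_pow, hs2, map_one]) β₁ β₂ hz1 hz2
    (by linarith) (by linarith)
  have h6 : changeLevel (Nat.dvd_mul_right r.1 s.1) r.2 *
      changeLevel (Nat.dvd_mul_left s.1 r.1) s.2⁻¹ = 1 := by
    rw [map_inv, mul_inv_eq_one]
    exact h5.1
  exact primitive_ne hr.2.1 hs.2.1 h6

end Pool.Agent.LibT63
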