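import Pool.Agent.LibT63.B4

/-! ROW B5. PLAN: for a fixed `q` there are finitely many `r : PC` with `r.1 ∣ q` and `2 ≤ r.1`, primitive (subset of `prims q` of LibPL63.B3:
`mem_prims`). For each of them `badP_real` (for large `Y`: `Real.log r.1 ≤ log q ≤ smc Y`, since `Y / log Y → ∞`) gives a real zero
`β > 1 - log Y / Y`. But `L(s, r.2)` does not vanish at real `β ≥ 1` (`LFunction_ne_zero_of_one_le_re` as in LibMaier/Density.lean) and it is
continuous at `1` with `L(1) ≠ 0`, so it does not vanish on `(1 - ε, 1]` for some `ε > 0` depending on `r`; `log Y / Y < ε` for large `Y`.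
Use `Filter.eventually_atTop` and `(Finset).eventually_all` over `prims q`. -/

set_option autoImplicit false

namespace Pool.Agent.LibT63

open Filter Topology Complex DirichletCharacter
open Pool.Agent.LibRG87 Pool.Agent.LibMaier Pool.Agent.LibPL63

private theorem B5_growth (L₀ : ℝ) : ∀ᶠ x : ℝ in atTop, 3 ≤ x ∧ 1 ≤ Real.log x ∧
    L₀ ≤ Real.log (4 * x + 3) ∧ Real.log (4 * x + 3) ≤ smc x := by
  have hkk : 0 < kk := by unfold kk; norm_num
  have h1 : Tendsto (fun x : ℝ => Real.log (4 * x + 3)) atTop atTop := by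
    apply Real.tendsto_log_atTop.comp
    exact Filter.tendsto_atTop_add_const_right _ _
      (Filter.Tendsto.const_mul_atTop (by norm_num) tendsto_id)
  have hlog : (fun x : ℝ => Real.log x ^ 2) =o[atTop] (fun x : ℝ => x) :=
    Real.isLittleO_pow_log_id_atTop
  have h2 := hlog.bound (c := kk / 8) (by positivity)
  filter_upwards [h1.eventually_ge_atTop L₀, h2, Real.tendsto_log_atTop.eventually_ge_atTop 1,
    eventually_ge_atTop (7 : ℝ)] with x hx1 hx2 hx3 hx4
  have hx0 : 0 < x := by linarith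
  have hl0 : 0 < Real.log x := by linarith
  rw [Real.norm_of_nonneg (by positivity), Real.norm_of_nonneg hx0.le] at hx2
  refine ⟨by linarith, hx3, hx1, ?_⟩
  have h3 : Real.log (4 * x + 3) ≤ 2 * Real.log x := by
    calc Real.log (4 * x + 3) ≤ Real.log (x ^ 2) := by
          apply Real.log_le_log (by positivity)
          nlinarith
      _ = 2 * Real.log x := by
          rw [Real.log_pow]
          norm_num
  refine h3.trans ?_
  unfold smc
  rw [← mul_div_assoc, le_div_iff₀ hl0]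
  nlinarith

private theorem B5_eps {d : ℕ} [NeZero d] (χ : DirichletCharacter ℂ d) (hχ : χ ≠ 1) :
    ∃ ε : ℝ, 0 < ε ∧ ∀ β : ℝ, 1 - ε < β → LFunction χ (β : ℂ) ≠ 0 := by
  have hc : Continuous fun β : ℝ => LFunction χ (β : ℂ) :=
    (differentiable_LFunction hχ).continuous.comp Complex.continuous_ofReal
  have h1 : LFunction χ ((1 : ℝ) : ℂ) ≠ 0 :=
    LFunction_ne_zero_of_one_le_re (s := ((1 : ℝ) : ℂ)) χ (Or.inl hχ) (by simp)
  have h2 : ∀ᶠ β : ℝ in 𝓝 1, LFunction χ (β : ℂ) ≠ 0 := hc.continuousAt.eventually_ne h1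
  obtain ⟨ε, hε, hb⟩ := Metric.eventually_nhds_iff.1 h2
  refine ⟨ε, hε, fun β hβ => ?_⟩
  rcases lt_or_ge β 1 with h3 | h3
  · apply hb
    rw [Real.dist_eq, abs_of_neg (by linarith)]
    linarith
  · exact LFunction_ne_zero_of_one_le_re (s := (β : ℂ)) χ (Or.inl hχ) (by simpa using h3)

theorem badP_fixed (q : ℕ) (hq : 1 ≤ q) : ∃ Y0 : ℕ, ∀ Y : ℕ, Y0 ≤ Y → ∀ r : PC, BadP Y r → ¬ r.1 ∣ q := by
  obtain ⟨Y1, hY1⟩ := badP_real
  have h0 : Tendsto (fun x : ℝ => Real.log x / x) atTop (𝓝 0) := by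
    have := Real.isLittleO_log_id_atTop.tendsto_div_nhds_zero
    simpa using this
  have h1 : ∀ r ∈ prims q, ∀ᶠ x : ℝ in atTop, ∀ (_ : NeZero r.1) (β : ℝ),
      1 - Real.log x / x < β → LFunction r.2 (β : ℂ) ≠ 0 := by
    intro r hr
    obtain ⟨h2, -, hp⟩ := mem_prims.1 hr
    have hne : NeZero r.1 := ⟨by omega⟩
    obtain ⟨ε, hε, hb⟩ := B5_eps r.2 (primitive_ne_one h2 hp)
    filter_upwards [h0.eventually (gt_mem_nhds hε)] with x hx _ β hβ
    exact hb β (by linarith)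
  have h2 : ∀ᶠ x : ℝ in atTop, ∀ r ∈ prims q, ∀ (_ : NeZero r.1) (β : ℝ),
      1 - Real.log x / x < β → LFunction r.2 (β : ℂ) ≠ 0 :=
    (Finset.eventually_all (prims q)).2 h1
  obtain ⟨Y2, hY2⟩ := Filter.eventually_atTop.1
    (tendsto_natCast_atTop_atTop.eventually (h2.and ((B5_growth 0).and (eventually_ge_atTop (q : ℝ)))))
  refine ⟨max Y1 Y2, fun Y hY r hr hdvd => ?_⟩
  obtain ⟨k1, ⟨k2, k3, k4, k5⟩, k6⟩ := hY2 Y ((le_max_right _ _).trans hY)
  have hrq : r.1 ≤ q := Nat.le_of_dvd hq hdvd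
  have hr0 : (0 : ℝ) < r.1 := by exact_mod_cast (by have := hr.1; omega : 0 < r.1)
  have hrq' : (r.1 : ℝ) ≤ q := by exact_mod_cast hrq
  have hlr : Real.log r.1 ≤ smc Y := by
    refine le_trans (Real.log_le_log hr0 ?_) k5
    linarith
  obtain ⟨hne, -, β, hβ, hb⟩ := hY1 Y ((le_max_left _ _).trans hY) r hr hlr
  exact k1 r (mem_prims.2 ⟨hr.1, hrq, hr.2.1⟩) hne β hb hβ

end Pool.Agent.LibT63
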