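import Pool.Agent.LibT63.BDefs

/-! ROW B6. `M0_le`: `M0 q Y ∅ 0 ≤ q * primorial Y ≤ q * 4^Y` (`primorial_le_four_pow`) and `log q + Y log 4 ≤ 2 Y` for large `Y` (`log 4 < 1.39`).
`cond_primes`: `d ∣ q * ∏_{p ∈ PM} p`, so `d ≤ q * ∏_{p ∈ PM, p ∣ d} p` (`Nat.Coprime` / gcd: `d ∣ gcd(d,q) * gcd(d, ∏)` and
`gcd(d, ∏ p) = ∏_{p ∣ d} p`; e.g. `Nat.gcd_mul_dvd_mul_gcd`); the primes `≤ √Y` contribute at most `primorial ⌊√Y⌋₊ ≤ 4^√Y`, the others lie in `UU q Y` and are `≤ Y`: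
`log d ≤ log q + √Y log 4 + N log Y`, `N = card`. With `log d > smc Y = kk/4 · Y/log Y` and `log q + √Y log 4 ≤ kk/8 · Y/log Y` for large `Y`:
`N log Y ≥ kk/8 · Y/log Y`. -/

set_option autoImplicit false

namespace Pool.Agent.LibT63

open Finset Filter Topology Pool.Agent.LibRG87 Pool.Agent.LibMaier Pool.Agent.LibPL63

private theorem B6_prod_le (Y : ℕ) (s : Finset ℕ) (hs : s ⊆ prs Y) : ∏ p ∈ s, p ≤ 4 ^ Y := by
  refine le_trans ?_ (primorial_le_four_pow Y)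
  refine prod_le_prod_of_subset_of_one_le' hs fun p hp _ => ?_
  exact (mem_prs.1 hp).1.one_le

theorem M0_le (q : ℕ) (hq : 1 ≤ q) : ∃ Y0 : ℕ, ∀ Y : ℕ, Y0 ≤ Y → (M0 q Y ∅ 0 : ℝ) ≤ Real.exp (2 * Y) := by
  refine ⟨2 * q, fun Y hY => ?_⟩
  have hY' : 2 * (q : ℝ) ≤ Y := by exact_mod_cast hY
  have hq' : (1 : ℝ) ≤ q := by exact_mod_cast hq
  have h1 : M0 q Y ∅ 0 ≤ q * 4 ^ Y := Nat.mul_le_mul_left q (B6_prod_le Y _ (filter_subset _ _))
  have h2 : (M0 q Y ∅ 0 : ℝ) ≤ q * 4 ^ Y := by exact_mod_cast h1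
  refine h2.trans ?_
  have h3 : (4 : ℝ) = Real.exp (2 * Real.log 2) := by
    rw [mul_comm, Real.exp_mul, Real.exp_log (by norm_num)]
    norm_num
  have h4 : (q : ℝ) ≤ Real.exp (3 / 5 * Y) := by
    have := Real.add_one_le_exp (3 / 5 * (Y : ℝ))
    linarith
  have h5 := Real.log_two_lt_d9
  calc (q : ℝ) * 4 ^ Y ≤ Real.exp (3 / 5 * Y) * 4 ^ Y :=
        mul_le_mul_of_nonneg_right h4 (by positivity)
    _ = Real.exp (3 / 5 * Y + Y * (2 * Real.log 2)) := by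
        rw [h3, ← Real.exp_nat_mul, ← Real.exp_add]
    _ ≤ Real.exp (2 * Y) := by
        apply Real.exp_le_exp.2
        have hY0 : (0 : ℝ) ≤ Y := by positivity
        nlinarith

private theorem B6_gcd (d : ℕ) (s : Finset ℕ) : Nat.gcd d (∏ p ∈ s, p) ∣ ∏ p ∈ s, Nat.gcd d p := by
  classical
  induction s using Finset.induction_on with
  | empty => simp
  | insert a s ha ih =>
    rw [prod_insert ha, prod_insert ha]
    exact (Nat.gcd_mul_right_dvd_mul_gcd d a (∏ p ∈ s, p)).trans (mul_dvd_mul_left _ ih)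

private theorem B6_d_le (q : ℕ) (hq : 1 ≤ q) (d : ℕ) (s : Finset ℕ) (hs : ∀ p ∈ s, p.Prime)
    (hd : d ∣ q * ∏ p ∈ s, p) : d ≤ q * ∏ p ∈ s.filter (fun p => p ∣ d), p := by
  have h1 : Nat.gcd d (q * ∏ p ∈ s, p) = d := Nat.gcd_eq_left hd
  have h2 : ∏ p ∈ s, Nat.gcd d p = ∏ p ∈ s.filter (fun p => p ∣ d), p := by
    rw [prod_filter]
    refine prod_congr rfl fun p hp => ?_
    split_ifs with h
    · exact Nat.gcd_eq_right h
    · exact ((hs p hp).coprime_iff_not_dvd.2 h).symm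
  have h3 : d ∣ Nat.gcd d q * ∏ p ∈ s.filter (fun p => p ∣ d), p := by
    rw [← h2]
    calc d = Nat.gcd d (q * ∏ p ∈ s, p) := h1.symm
      _ ∣ Nat.gcd d q * Nat.gcd d (∏ p ∈ s, p) := Nat.gcd_mul_right_dvd_mul_gcd _ _ _
      _ ∣ _ := mul_dvd_mul_left _ (B6_gcd d s)
  have h4 : 0 < ∏ p ∈ s.filter (fun p => p ∣ d), p :=
    prod_pos fun p hp => (hs p (mem_filter.1 hp).1).pos
  have h5 : 0 < Nat.gcd d q := Nat.gcd_pos_of_pos_right d hq
  refine (Nat.le_of_dvd (Nat.mul_pos h5 h4) h3).trans ?_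
  exact Nat.mul_le_mul_right _ (Nat.gcd_le_right d hq)

theorem cond_primes (q : ℕ) (hq : 1 ≤ q) : ∃ Y0 : ℕ, ∀ Y : ℕ, Y0 ≤ Y → ∀ d : ℕ, d ∣ M0 q Y ∅ 0 → smc Y < Real.log d →
    kk / 8 / Real.log Y ^ 2 * Y ≤ (((UU q Y).filter fun p => p ∣ d).card : ℝ) := by
  have hkk : 0 < kk := by
    unfold kk
    norm_num
  have hq' : (1 : ℝ) ≤ q := by exact_mod_cast hq
  have hlq : 0 ≤ Real.log q := Real.log_nonneg hq'
  have ht : Filter.Tendsto (fun Y : ℕ => (Y : ℝ) ^ (1 / 4 : ℝ)) Filter.atTop Filter.atTop :=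
    (tendsto_rpow_atTop (by norm_num)).comp tendsto_natCast_atTop_atTop
  obtain ⟨Y1, hY1⟩ := Filter.eventually_atTop.1
    (ht.eventually_ge_atTop (32 * (Real.log q + 2) / kk))
  refine ⟨max 3 Y1, fun Y hY d hd hs => ?_⟩
  have hY3 : 3 ≤ Y := (le_max_left _ _).trans hY
  have hY3' : (3 : ℝ) ≤ Y := by exact_mod_cast hY3
  have hYp : (0 : ℝ) < Y := by linarith
  have hq4 := hY1 Y ((le_max_right _ _).trans hY)
  set L := Real.log Y with hL
  have hL1 : 1 ≤ L := by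
    rw [hL, Real.le_log_iff_exp_le hYp]
    have := Real.exp_one_lt_d9
    linarith
  have hLp : 0 < L := by linarith
  -- the bound for d
  have hprime : ∀ p ∈ PM q Y ∅ 0, p.Prime := fun p hp => (mem_prs.1 (mem_filter.1 hp).1).1
  have h1 := B6_d_le q hq d (PM q Y ∅ 0) hprime hd
  set V := (UU q Y).filter fun p => p ∣ d with hV
  set W := (PM q Y ∅ 0).filter (fun p => p ∣ d) with hW
  have hsplit : ∏ p ∈ W, p = (∏ p ∈ W.filter (fun p : ℕ => (p : ℝ) ≤ Real.sqrt Y), p) *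
      ∏ p ∈ W.filter (fun p : ℕ => ¬ (p : ℝ) ≤ Real.sqrt Y), p :=
    (prod_filter_mul_prod_filter_not W _ _).symm
  have hsmall : ∏ p ∈ W.filter (fun p : ℕ => (p : ℝ) ≤ Real.sqrt Y), p ≤ 4 ^ ⌊Real.sqrt Y⌋₊ := by
    refine B6_prod_le _ _ fun p hp => ?_
    obtain ⟨h2, h3⟩ := mem_filter.1 hp
    exact mem_prs.2 ⟨hprime p (mem_filter.1 h2).1, Nat.le_floor h3⟩
  have hbig : ∏ p ∈ W.filter (fun p : ℕ => ¬ (p : ℝ) ≤ Real.sqrt Y), p ≤ Y ^ V.card := by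
    have h2 : W.filter (fun p : ℕ => ¬ (p : ℝ) ≤ Real.sqrt Y) ⊆ V := by
      intro p hp
      obtain ⟨h3, h4⟩ := mem_filter.1 hp
      obtain ⟨h5, h6⟩ := mem_filter.1 h3
      obtain ⟨h7, h8⟩ := mem_filter.1 h5
      exact mem_filter.2 ⟨mem_filter.2 ⟨h7, not_le.1 h4, h8.2.2⟩, h6⟩
    calc ∏ p ∈ W.filter (fun p : ℕ => ¬ (p : ℝ) ≤ Real.sqrt Y), p
        ≤ ∏ p ∈ V, p := prod_le_prod_of_subset_of_one_le' h2 fun p hp _ => by
          have := (mem_prs.1 (mem_filter.1 (mem_filter.1 hp).1).1).1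
          exact this.one_le
      _ ≤ ∏ _p ∈ V, Y := prod_le_prod' fun p hp =>
          (mem_prs.1 (mem_filter.1 (mem_filter.1 hp).1).1).2
      _ = Y ^ V.card := by rw [prod_const]
  have hd1 : d ≤ q * (4 ^ ⌊Real.sqrt Y⌋₊ * Y ^ V.card) := by
    refine h1.trans (Nat.mul_le_mul_left q ?_)
    rw [hsplit]
    exact Nat.mul_le_mul hsmall hbig
  have hd0 : 0 < d := by
    apply Nat.pos_of_ne_zero
    rintro rfl
    have h2 : M0 q Y ∅ 0 = 0 := Nat.eq_zero_of_zero_dvd hd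
    have h3 : 0 < M0 q Y ∅ 0 := Nat.mul_pos hq (prod_pos fun p hp => (hprime p hp).pos)
    omega
  have hd2 : Real.log d ≤ Real.log q + (Real.sqrt Y * Real.log 4 + V.card * L) := by
    have h2 : (d : ℝ) ≤ q * (4 ^ ⌊Real.sqrt Y⌋₊ * (Y : ℝ) ^ V.card) := by exact_mod_cast hd1
    have h3 : Real.log d ≤ Real.log (q * (4 ^ ⌊Real.sqrt Y⌋₊ * (Y : ℝ) ^ V.card)) :=
      Real.log_le_log (by exact_mod_cast hd0) h2
    rw [Real.log_mul (by positivity) (by positivity), Real.log_mul (by positivity) (by positivity),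
      Real.log_pow, Real.log_pow] at h3
    have h4 : (⌊Real.sqrt Y⌋₊ : ℝ) * Real.log 4 ≤ Real.sqrt Y * Real.log 4 :=
      mul_le_mul_of_nonneg_right (Nat.floor_le (Real.sqrt_nonneg _))
        (Real.log_nonneg (by norm_num))
    linarith
  -- the error
  have hl4 : Real.log 4 ≤ 2 := by
    have h2 : Real.log 4 = 2 * Real.log 2 := by
      rw [show (4 : ℝ) = 2 ^ 2 by norm_num, Real.log_pow]
      norm_num
    have := Real.log_two_lt_d9
    rw [h2]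
    linarith
  have hsq1 : 1 ≤ Real.sqrt Y := by
    rw [Real.one_le_sqrt]
    linarith
  have herr : (Real.log q + Real.sqrt Y * Real.log 4) * L ≤ kk / 8 * Y := by
    have h2 : Real.log q + Real.sqrt Y * Real.log 4 ≤ (Real.log q + 2) * Real.sqrt Y := by
      nlinarith [mul_le_mul_of_nonneg_left hl4 (by linarith : 0 ≤ Real.sqrt Y)]
    have h3 : L ≤ 4 * (Y : ℝ) ^ (1 / 4 : ℝ) := by
      have := Real.log_le_rpow_div hYp.le (by norm_num : (0 : ℝ) < 1 / 4)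
      rw [hL]
      linarith
    have h4 : Real.sqrt Y * (Y : ℝ) ^ (1 / 4 : ℝ) * (Y : ℝ) ^ (1 / 4 : ℝ) = Y := by
      rw [Real.sqrt_eq_rpow, ← Real.rpow_add hYp, ← Real.rpow_add hYp]
      norm_num
    have h5 : 32 * (Real.log q + 2) ≤ kk * (Y : ℝ) ^ (1 / 4 : ℝ) := by
      rw [div_le_iff₀ hkk] at hq4
      linarith
    have h6 : 0 ≤ Real.sqrt Y * (Y : ℝ) ^ (1 / 4 : ℝ) := by positivity
    calc (Real.log q + Real.sqrt Y * Real.log 4) * L
        ≤ (Real.log q + 2) * Real.sqrt Y * (4 * (Y : ℝ) ^ (1 / 4 : ℝ)) :=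
          mul_le_mul h2 h3 hLp.le (by positivity)
      _ = 32 * (Real.log q + 2) * (Real.sqrt Y * (Y : ℝ) ^ (1 / 4 : ℝ)) / 8 := by ring
      _ ≤ kk * (Y : ℝ) ^ (1 / 4 : ℝ) * (Real.sqrt Y * (Y : ℝ) ^ (1 / 4 : ℝ)) / 8 :=
          div_le_div_of_nonneg_right (mul_le_mul_of_nonneg_right h5 h6) (by norm_num)
      _ = kk / 8 * (Real.sqrt Y * (Y : ℝ) ^ (1 / 4 : ℝ) * (Y : ℝ) ^ (1 / 4 : ℝ)) := by ring
      _ = kk / 8 * Y := by rw [h4]
  have hfin : kk / 8 * Y ≤ V.card * L ^ 2 := by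
    have h2 : smc Y < Real.log q + (Real.sqrt Y * Real.log 4 + V.card * L) := hs.trans_le hd2
    have h3 : smc Y * L = kk / 4 * Y := by
      unfold smc
      rw [← hL]
      field_simp
    have h4 := mul_lt_mul_of_pos_right h2 hLp
    rw [h3] at h4
    nlinarith
  rw [div_mul_eq_mul_div, div_le_iff₀ (by positivity)]
  exact hfin

end Pool.Agent.LibT63
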