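import Mathlib

/-! ROW B7 (only Mathlib). `hitting`: greedy choice. PLAN: induction on `k`. Step: given `E` with `E.card ≤ k`, let `R` be the family of the `b ∈ F` with
`Disjoint (S b) E`. Double counting: `∑_{p ∈ U} card {b ∈ R | p ∈ S b} = ∑_{b ∈ R} card (S b) ≥ δ U.card R.card`, so some `p ∈ U` lies in at least `δ R.card` of the
sets `S b`, `b ∈ R` (if `R` is empty take the same `E`; if `U` is empty then `δ U.card = 0`: in that case use `hU : 0 < U.card` or treat `R` empty);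
`insert p E` works. `hit_all`: `(1-δ)^k ≤ exp(-δ k)` so the remaining family has less than one element.
`hit_param`: `k = ⌈(80 log Y + 1)/δ⌉₊`, `δ = c / (log Y)^2`: `k ≤ (81 log Y) (log Y)^2/c + 1 ≤ (log Y)^4` for large `Y`;
`(1-δ)^k Y^80 ≤ exp(-δ k + 80 log Y) ≤ exp(-1) < 1`. -/

set_option autoImplicit false

namespace Pool.Agent.LibT63

open Finset

theorem hitting {α β : Type} [DecidableEq α] [DecidableEq β] (U : Finset α) (F : Finset β) (S : β → Finset α) (δ : ℝ)
    (hδ0 : 0 < δ) (hδ1 : δ ≤ 1) (hS : ∀ b ∈ F, S b ⊆ U ∧ δ * U.card ≤ (S b).card) (hne : ∀ b ∈ F, (S b).Nonempty) (k : ℕ) :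
    ∃ E : Finset α, E ⊆ U ∧ E.card ≤ k ∧ ((F.filter fun b => Disjoint (S b) E).card : ℝ) ≤ (1 - δ) ^ k * F.card := by
  induction k with
  | zero =>
    refine ⟨∅, empty_subset _, le_rfl, ?_⟩
    simp
  | succ k ih =>
    obtain ⟨E, hEU, hEk, hE⟩ := ih
    have h1δ : 0 ≤ 1 - δ := by linarith
    set R := F.filter fun b => Disjoint (S b) E with hR
    rcases R.eq_empty_or_nonempty with hRe | ⟨b0, hb0⟩
    · refine ⟨E, hEU, hEk.trans (Nat.le_succ k), ?_⟩
      rw [← hR, hRe]
      simp only [card_empty, Nat.cast_zero]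
      positivity
    · have hb0F : b0 ∈ F := (mem_filter.1 hb0).1
      obtain ⟨p0, hp0⟩ := hne b0 hb0F
      have hUne : U.Nonempty := ⟨p0, (hS b0 hb0F).1 hp0⟩
      have hdc : ∑ p ∈ U, ((R.filter fun b => p ∈ S b).card : ℝ) = ∑ b ∈ R, ((S b).card : ℝ) := by
        have h1 : ∀ b ∈ R, ((S b).card : ℝ) = ∑ p ∈ U, if p ∈ S b then (1 : ℝ) else 0 := by
          intro b hb
          rw [← sum_filter, sum_const, nsmul_eq_mul, mul_one]
          congr 2
          ext p
          rw [mem_filter]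
          exact ⟨fun h => ⟨(hS b (mem_filter.1 hb).1).1 h, h⟩, fun h => h.2⟩
        rw [sum_congr rfl h1, sum_comm]
        refine sum_congr rfl fun p _ => ?_
        rw [← sum_filter, sum_const, nsmul_eq_mul, mul_one]
      have hex : ∃ p ∈ U, δ * R.card ≤ ((R.filter fun b => p ∈ S b).card : ℝ) := by
        by_contra hc
        push Not at hc
        have h2 : ∑ p ∈ U, ((R.filter fun b => p ∈ S b).card : ℝ) < ∑ _p ∈ U, δ * R.card :=
          sum_lt_sum_of_nonempty hUne hc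
        have h3 : ∑ _b ∈ R, δ * (U.card : ℝ) ≤ ∑ b ∈ R, ((S b).card : ℝ) :=
          sum_le_sum fun b hb => (hS b (mem_filter.1 hb).1).2
        rw [hdc, sum_const, nsmul_eq_mul] at h2
        rw [sum_const, nsmul_eq_mul] at h3
        have h4 : (U.card : ℝ) * (δ * R.card) = R.card * (δ * U.card) := by ring
        linarith
      obtain ⟨p, hpU, hp⟩ := hex
      refine ⟨insert p E, insert_subset hpU hEU, (card_insert_le p E).trans (by omega), ?_⟩
      have h5 : (F.filter fun b => Disjoint (S b) (insert p E)) = R.filter fun b => p ∉ S b := by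
        ext b
        simp only [hR, mem_filter, disjoint_insert_right]
        tauto
      have h6 : ((R.filter fun b => p ∈ S b).card : ℝ) + ((R.filter fun b => p ∉ S b).card : ℝ) =
          R.card := by
        exact_mod_cast card_filter_add_card_filter_not (s := R) fun b => p ∈ S b
      rw [h5, pow_succ]
      have h7 : ((R.filter fun b => p ∉ S b).card : ℝ) ≤ (1 - δ) * R.card := by linarith
      refine h7.trans ?_
      calc (1 - δ) * (R.card : ℝ) ≤ (1 - δ) * ((1 - δ) ^ k * F.card) :=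
            mul_le_mul_of_nonneg_left hE h1δ
        _ = (1 - δ) ^ k * (1 - δ) * F.card := by ring

theorem hit_param (c : ℝ) (hc : 0 < c) : ∃ Y0 : ℕ, ∀ Y : ℕ, Y0 ≤ Y → c / Real.log Y ^ 2 ≤ 1 ∧ 0 < c / Real.log Y ^ 2 ∧
    ∃ k : ℕ, (k : ℝ) ≤ Real.log Y ^ 4 ∧ (1 - c / Real.log Y ^ 2) ^ k * (Y : ℝ) ^ 80 < 1 := by
  refine ⟨⌈Real.exp (1 + c + 81 / c)⌉₊, fun Y hY => ?_⟩
  have h81 : 0 < 81 / c := by positivity
  have hY1 : Real.exp (1 + c + 81 / c) ≤ Y := (Nat.le_ceil _).trans (by exact_mod_cast hY)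
  have hY0 : (0 : ℝ) < Y := (Real.exp_pos _).trans_le hY1
  set L := Real.log Y with hL
  have hL1 : 1 + c + 81 / c ≤ L := (Real.le_log_iff_exp_le hY0).2 hY1
  have hL0 : 1 ≤ L := by linarith
  have hLp : 0 < L := by linarith
  have hcL : c ≤ L ^ 2 := by nlinarith
  have hd0 : 0 < c / L ^ 2 := by positivity
  have hd1 : c / L ^ 2 ≤ 1 := (div_le_one (by positivity)).2 hcL
  refine ⟨hd1, hd0, ⌈(80 * L + 1) * L ^ 2 / c⌉₊, ?_, ?_⟩
  · have h1 : ((⌈(80 * L + 1) * L ^ 2 / c⌉₊ : ℕ) : ℝ) ≤ (80 * L + 1) * L ^ 2 / c + 1 :=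
      (Nat.ceil_lt_add_one (by positivity)).le
    have h2 : (80 * L + 1) * L ^ 2 / c ≤ 81 / c * L ^ 3 := by
      rw [div_mul_eq_mul_div]
      apply div_le_div_of_nonneg_right _ hc.le
      nlinarith [pow_pos hLp 2]
    have h3 : (81 / c + 1) * L ^ 3 ≤ L * L ^ 3 :=
      mul_le_mul_of_nonneg_right (by linarith) (by positivity)
    have h4 : 1 ≤ L ^ 3 := one_le_pow₀ hL0
    have h5 : L * L ^ 3 = L ^ 4 := by ring
    linarith
  · set k := ⌈(80 * L + 1) * L ^ 2 / c⌉₊ with hk
    have h1 : (80 * L + 1) * L ^ 2 / c ≤ k := Nat.le_ceil _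
    have h2 : 80 * L + 1 ≤ c / L ^ 2 * k := by
      have h3 := mul_le_mul_of_nonneg_left h1 hd0.le
      have h4 : c / L ^ 2 * ((80 * L + 1) * L ^ 2 / c) = 80 * L + 1 := by
        field_simp
      linarith
    have h5 : (1 - c / L ^ 2) ^ k ≤ Real.exp (-(80 * L + 1)) := by
      have h6 : 1 - c / L ^ 2 ≤ Real.exp (-(c / L ^ 2)) := by
        have := Real.add_one_le_exp (-(c / L ^ 2))
        linarith
      have h7 := pow_le_pow_left₀ (by linarith : 0 ≤ 1 - c / L ^ 2) h6 k
      rw [← Real.exp_nat_mul] at h7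
      refine h7.trans (Real.exp_le_exp.2 ?_)
      linarith
    have h8 : (Y : ℝ) ^ 80 = Real.exp (80 * L) := by
      have h9 : Real.exp L = Y := Real.exp_log hY0
      rw [← h9, ← Real.exp_nat_mul]
      norm_num
    calc (1 - c / L ^ 2) ^ k * (Y : ℝ) ^ 80 ≤ Real.exp (-(80 * L + 1)) * (Y : ℝ) ^ 80 :=
          mul_le_mul_of_nonneg_right h5 (by positivity)
      _ = Real.exp (-1) := by
          rw [h8, ← Real.exp_add]
          congr 1
          ring
      _ < 1 := by
          rw [Real.exp_lt_one_iff]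
          norm_num

end Pool.Agent.LibT63
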