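import Pool.Agent.LibT63.BDefs

/-! ROW B8 (short, elementary). `M0_pos`; `M0_dvd`: `PM q Y E p1 ⊆ PM q Y ∅ 0` (a prime is `≠ 0`), products; `not_dvd_M0`: `p ∤ q` and `p ∉ PM q Y E p1` (a prime divides a product of
primes only if it is one of them: `Prime.dvd_finset_prod_iff`, `Nat.prime_dvd_prime_iff_eq`); `dvd_q`: `d` is coprime to `∏_{p ∈ PM} p` because a common prime would divide `q`, but no
element of `PM` divides `q`; `Nat.Coprime.dvd_of_dvd_mul_right`. `UU_card`: `UU ⊆ prs Y ⊆ Icc 1 Y`. -/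

set_option autoImplicit false

namespace Pool.Agent.LibT63

open Finset Pool.Agent.LibRG87

private theorem B8_prime {q Y : ℕ} {E : Finset ℕ} {p1 p : ℕ} (h : p ∈ PM q Y E p1) : p.Prime := by
  have h1 := (mem_filter.1 h).1
  simp only [prs, mem_filter] at h1
  exact h1.2

private theorem B8_not_dvd {q Y : ℕ} {E : Finset ℕ} {p1 p : ℕ} (h : p ∈ PM q Y E p1) : ¬ p ∣ q :=
  (mem_filter.1 h).2.2.2

theorem M0_pos (q Y : ℕ) (hq : 1 ≤ q) (E : Finset ℕ) (p1 : ℕ) : 0 < M0 q Y E p1 := by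
  unfold M0
  exact Nat.mul_pos hq (Finset.prod_pos fun p hp => (B8_prime hp).pos)

theorem M0_dvd (q Y : ℕ) (E : Finset ℕ) (p1 : ℕ) : M0 q Y E p1 ∣ M0 q Y ∅ 0 := by
  unfold M0
  refine mul_dvd_mul_left q (Finset.prod_dvd_prod_of_subset _ _ _ fun p hp => ?_)
  have h1 := mem_filter.1 hp
  exact mem_filter.2 ⟨h1.1, by simp, (B8_prime hp).ne_zero, h1.2.2.2⟩

theorem not_dvd_M0 (q Y : ℕ) (E : Finset ℕ) (p1 p : ℕ) (hp : p.Prime) (hpq : ¬ p ∣ q) (h : p ∈ E ∨ p = p1) :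
    ¬ p ∣ M0 q Y E p1 := by
  intro hdvd
  unfold M0 at hdvd
  rcases hp.dvd_mul.1 hdvd with h1 | h1
  · exact hpq h1
  · obtain ⟨p', hp', h2⟩ := (Prime.dvd_finsetProd_iff hp.prime _).1 h1
    have h3 : p = p' := (Nat.prime_dvd_prime_iff_eq hp (B8_prime hp')).1 h2
    subst h3
    have h4 := (mem_filter.1 hp').2
    rcases h with h | h
    · exact h4.1 h
    · exact h4.2.1 h

theorem dvd_q (q Y d : ℕ) (E : Finset ℕ) (p1 : ℕ) (hd : d ∣ M0 q Y E p1) (h : ∀ p, p.Prime → p ∣ d → p ∣ q) : d ∣ q := by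
  unfold M0 at hd
  refine Nat.Coprime.dvd_of_dvd_mul_right (Nat.Coprime.prod_right fun p hp => ?_) hd
  exact ((B8_prime hp).coprime_iff_not_dvd.2 fun h' => B8_not_dvd hp (h p (B8_prime hp) h')).symm

theorem UU_card (q Y : ℕ) : ((UU q Y).card : ℝ) ≤ Y := by
  have h1 : (UU q Y).card ≤ (prs Y).card := card_le_card (filter_subset _ _)
  have h2 : (prs Y).card ≤ (Icc 1 Y).card := by
    refine card_le_card fun p hp => ?_
    simp only [prs, mem_filter, mem_range, mem_Icc] at hp ⊢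
    have := hp.2.pos
    omega
  rw [Nat.card_Icc] at h2
  have h3 : (UU q Y).card ≤ Y := by omega
  exact_mod_cast h3

end Pool.Agent.LibT63
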