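import Pool.Agent.LibT63.BDefs

/-! ROW B9 (Dirichlet characters). `badP_of_zero`: `r = ⟨χ.conductor, χ.primitiveCharacter⟩`; conductor `≠ 0` (`conductor_dvd_level`, modulus `≠ 0`) and `≠ 1`
(`eq_one_iff_conductor_eq_one`), so `≥ 2`; `changeLevel_primitiveCharacter`, and `LFunction_changeLevel` (the primitive character is `≠ 1`) gives
`L(χ, ρ) = L(χ*, ρ) ∏_p (1 - χ*(p) p^(-ρ))`, where the factors do not vanish as `‖χ*(p) p^(-ρ)‖ ≤ p^(-ρ.re) < 1` (`ρ.re > 0`, since `log Y / Y < 1`: hypothesis `hY`).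
`zero_lift`: `LFunction_changeLevel` again. -/

set_option autoImplicit false

namespace Pool.Agent.LibT63

open Filter Topology Complex DirichletCharacter
open Pool.Agent.LibRG87 Pool.Agent.LibMaier Pool.Agent.LibPL63

theorem badP_of_zero {Y : ℝ} (hY : Real.log Y / Y < 1) {M : ℕ} [NeZero M] (χ : DirichletCharacter ℂ M) (hχ : χ ≠ 1) (ρ : ℂ)
    (h0 : LFunction χ ρ = 0) (him : |ρ.im| ≤ 2 * Y) (hre : 1 - Real.log Y / Y < ρ.re) :
    BadP Y ⟨χ.conductor, χ.primitiveCharacter⟩ := by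
  have hc0 : χ.conductor ≠ 0 := conductor_ne_zero χ
  have hNZ : NeZero χ.conductor := ⟨hc0⟩
  have hc1 : χ.conductor ≠ 1 := fun h => hχ (eq_one_iff_conductor_eq_one.2 h)
  have hcl : changeLevel (conductor_dvd_level χ) χ.primitiveCharacter = χ :=
    changeLevel_primitiveCharacter χ
  have hp1 : χ.primitiveCharacter ≠ 1 := by
    intro h1
    apply hχ
    rw [← hcl, h1]
    exact (changeLevel_eq_one_iff (conductor_dvd_level χ)).2 rfl
  have h1 := LFunction_changeLevel (conductor_dvd_level χ) χ.primitiveCharacter (s := ρ)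
    (Or.inl hp1)
  rw [hcl, h0] at h1
  have hre0 : 0 < ρ.re := by linarith
  have h2 : ∏ p ∈ M.primeFactors, (1 - χ.primitiveCharacter p * (p : ℂ) ^ (-ρ)) ≠ 0 := by
    rw [Finset.prod_ne_zero_iff]
    intro p hp h3
    have hpp := Nat.prime_of_mem_primeFactors hp
    have h4 : ‖χ.primitiveCharacter p * (p : ℂ) ^ (-ρ)‖ < 1 := by
      rw [norm_mul]
      have h5 : ‖(p : ℂ) ^ (-ρ)‖ < 1 := by
        rw [Complex.norm_natCast_cpow_of_pos hpp.pos]
        exact Real.rpow_lt_one_of_one_lt_of_neg (by exact_mod_cast hpp.one_lt)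
          (by rw [neg_re]; linarith)
      have h6 := DirichletCharacter.norm_le_one χ.primitiveCharacter (p : ZMod χ.conductor)
      nlinarith [norm_nonneg ((p : ℂ) ^ (-ρ)), norm_nonneg (χ.primitiveCharacter (p : ZMod χ.conductor))]
    have h7 : χ.primitiveCharacter p * (p : ℂ) ^ (-ρ) = 1 := (sub_eq_zero.1 h3).symm
    rw [h7, norm_one] at h4
    exact lt_irrefl _ h4
  refine ⟨?_, primitiveCharacter_isPrimitive χ, hNZ, ρ,
    (mul_eq_zero.1 h1.symm).resolve_right h2, him, hre⟩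
  show 2 ≤ χ.conductor
  omega

theorem zero_lift {M N : ℕ} [NeZero M] [NeZero N] (h : M ∣ N) (χ : DirichletCharacter ℂ M) (hχ : χ ≠ 1) (ρ : ℂ)
    (h0 : LFunction χ ρ = 0) :
    changeLevel h χ ≠ 1 ∧ (changeLevel h χ).conductor = χ.conductor ∧ LFunction (changeLevel h χ) ρ = 0 := by
  refine ⟨fun h1 => hχ ((changeLevel_eq_one_iff h).1 h1), conductor_changeLevel χ h, ?_⟩
  rw [LFunction_changeLevel h χ (Or.inl hχ), h0, zero_mul]

end Pool.Agent.LibT63
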