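import Pool.Agent.LibT63.B1
import Pool.Agent.LibT63.B2
import Pool.Agent.LibT63.B3
import Pool.Agent.LibT63.B4
import Pool.Agent.LibT63.B5
import Pool.Agent.LibT63.B6
import Pool.Agent.LibT63.B7
import Pool.Agent.LibT63.B8
import Pool.Agent.LibT63.B9

/-! Row B10 (helper89): the theorem of block B. -/

set_option autoImplicit false

namespace Pool.Agent.LibT63

open Filter Topology Complex DirichletCharacter
open Pool.Agent.LibRG87 Pool.Agent.LibMaier Pool.Agent.LibPL63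

private theorem B10_growth : ∃ Y0 : ℕ, ∀ Y : ℕ, Y0 ≤ Y → 4 ≤ Y ∧ 0 < Real.log Y ∧ Real.log Y / Y ≤ 1 / 8 ∧
    Real.log (2 * Y + 3) ≤ Y := by
  have h1 : Tendsto (fun x : ℝ => Real.log x / x) atTop (𝓝 0) := by
    have := Real.isLittleO_log_id_atTop.tendsto_div_nhds_zero
    simpa using this
  have h2 : ∀ᶠ x : ℝ in atTop, Real.log x / x ≤ 1 / 8 :=
    (h1.eventually_lt_const (show (0 : ℝ) < 1 / 8 by norm_num)).mono fun x hx => hx.le
  have h4 : Tendsto (fun x : ℝ => 2 * x + 3) atTop atTop :=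
    tendsto_atTop_add_const_right _ _ (tendsto_id.const_mul_atTop (by norm_num))
  have h5 := h4.eventually h2
  have h6 : ∀ᶠ x : ℝ in atTop, 4 ≤ x ∧ Real.log x / x ≤ 1 / 8 ∧ Real.log (2 * x + 3) ≤ x := by
    filter_upwards [h2, h5, eventually_ge_atTop (4 : ℝ)] with x hx1 hx2 hx3
    refine ⟨hx3, hx1, ?_⟩
    rw [div_le_iff₀ (by linarith)] at hx2
    linarith
  obtain ⟨Y0, hY0⟩ := eventually_atTop.1 (tendsto_natCast_atTop_atTop.eventually h6)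
  refine ⟨Y0, fun Y hY => ?_⟩
  obtain ⟨a1, a2, a3⟩ := hY0 Y hY
  refine ⟨by exact_mod_cast a1, Real.log_pos (by linarith), a2, a3⟩

theorem good_moduli (q : ℕ) (hq : 1 ≤ q) : ∃ Y0 : ℕ, ∀ Y : ℕ, Y0 ≤ Y → ∃ (E : Finset ℕ) (p1 : ℕ),
    (E.card : ℝ) ≤ Real.log Y ^ 4 ∧ (∀ p ∈ E, Real.sqrt Y < p) ∧
    (M0 q Y E p1 : ℝ) ≤ Real.exp (2 * Y) ∧ csum (1000 * Y) (M0 q Y E p1) ≤ 1 / 8 := by
  classical
  have hkk : 0 < kk := by unfold kk; norm_num
  obtain ⟨Y1, h1⟩ := B10_growth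
  obtain ⟨Y2, h2⟩ := num_small
  obtain ⟨Y3, h3⟩ := card_bad
  obtain ⟨Y4, h4⟩ := badP_unique
  obtain ⟨Y5, h5⟩ := badP_fixed q hq
  obtain ⟨Y6, h6⟩ := M0_le q hq
  obtain ⟨Y7, h7⟩ := cond_primes q hq
  obtain ⟨Y8, h8⟩ := hit_param (kk / 8) (by positivity)
  refine ⟨Y1 + Y2 + Y3 + Y4 + Y5 + Y6 + Y7 + Y8, fun Y hY => ?_⟩
  obtain ⟨g1, g2, g3, g4⟩ := h1 Y (by omega)
  replace h2 := h2 Y (by omega)
  replace h3 := h3 Y (by omega)
  replace h4 := h4 Y (by omega)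
  replace h5 := h5 Y (by omega)
  replace h6 := h6 Y (by omega)
  replace h7 := h7 Y (by omega)
  obtain ⟨d1, d2, k, hk1, hk2⟩ := h8 Y (by omega)
  have hYR : (4 : ℝ) ≤ Y := by exact_mod_cast g1
  have hY0 : (0 : ℝ) < Y := by linarith
  set M : ℕ := M0 q Y ∅ 0 with hM
  have hM0 : 0 < M := M0_pos q Y hq ∅ 0
  have : NeZero M := ⟨hM0.ne'⟩
  set δ : ℝ := kk / 8 / Real.log Y ^ 2 with hδ
  set BB : Finset (DirichletCharacter ℂ M) := Finset.univ.filter (fun χ => χ ≠ 1 ∧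
    ∃ ρ : ℂ, LFunction χ ρ = 0 ∧ |ρ.im| ≤ 2 * Y ∧ 1 - Real.log Y / Y < ρ.re) with hBB
  have hBBc : (BB.card : ℝ) ≤ (Y : ℝ) ^ 80 := h3 M h6 BB fun χ hχ => (Finset.mem_filter.1 hχ).2
  set FF := BB.filter (fun χ => smc Y < Real.log χ.conductor) with hFF
  set S : DirichletCharacter ℂ M → Finset ℕ := fun χ => (UU q Y).filter fun p => p ∣ χ.conductor with hS
  have hcard : ∀ χ ∈ FF, δ * Y ≤ ((S χ).card : ℝ) := by
    intro χ hχ
    exact h7 χ.conductor χ.conductor_dvd_level (Finset.mem_filter.1 hχ).2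
  have hS1 : ∀ χ ∈ FF, S χ ⊆ UU q Y ∧ δ * (UU q Y).card ≤ ((S χ).card : ℝ) := by
    intro χ hχ
    refine ⟨Finset.filter_subset _ _, le_trans ?_ (hcard χ hχ)⟩
    exact mul_le_mul_of_nonneg_left (UU_card q Y) d2.le
  have hS2 : ∀ χ ∈ FF, (S χ).Nonempty := by
    intro χ hχ
    rw [← Finset.card_pos]
    have : (0 : ℝ) < ((S χ).card : ℝ) := lt_of_lt_of_le (by positivity) (hcard χ hχ)
    exact_mod_cast this
  obtain ⟨E, hE1, hE2, hE3⟩ := hitting (UU q Y) FF S δ d2 d1 hS1 hS2 k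
  have hE4 : FF.filter (fun χ => Disjoint (S χ) E) = ∅ := by
    rw [← Finset.card_eq_zero]
    have hFFc : (FF.card : ℝ) ≤ (Y : ℝ) ^ 80 :=
      le_trans (by exact_mod_cast Finset.card_le_card (Finset.filter_subset _ _)) hBBc
    have h9 : ((FF.filter fun χ => Disjoint (S χ) E).card : ℝ) < 1 := by
      refine lt_of_le_of_lt hE3 (lt_of_le_of_lt ?_ hk2)
      exact mul_le_mul_of_nonneg_left hFFc (pow_nonneg (by linarith) _)
    have h10 : (FF.filter fun χ => Disjoint (S χ) E).card < 1 := by exact_mod_cast h9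
    omega
  have hhit : ∀ χ ∈ FF, ∃ p, p ∈ UU q Y ∧ p ∣ χ.conductor ∧ p ∈ E := by
    intro χ hχ
    have h9 : ¬ Disjoint (S χ) E := by
      intro hd
      have : χ ∈ FF.filter (fun χ => Disjoint (S χ) E) := Finset.mem_filter.2 ⟨hχ, hd⟩
      rw [hE4] at this
      exact absurd this (Finset.notMem_empty _)
    rw [Finset.not_disjoint_iff] at h9
    obtain ⟨p, hp1, hp2⟩ := h9
    have hp3 := Finset.mem_filter.1 hp1
    exact ⟨p, hp3.1, hp3.2, hp2⟩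
  -- the exceptional prime
  have hp1 : ∃ p1 : ℕ, ∀ r : PC, BadP Y r → Real.log r.1 ≤ smc Y → r.1 ∣ M →
      p1.Prime ∧ p1 ∣ r.1 ∧ ¬ p1 ∣ q := by
    by_cases h : ∃ r : PC, BadP Y r ∧ Real.log r.1 ≤ smc Y ∧ r.1 ∣ M
    · obtain ⟨r0, hr0, hr1, hr2⟩ := h
      have h9 : ∃ p : ℕ, p.Prime ∧ p ∣ r0.1 ∧ ¬ p ∣ q := by
        by_contra hcon
        push Not at hcon
        exact h5 r0 hr0 (dvd_q q Y r0.1 ∅ 0 hr2 hcon)
      obtain ⟨p1, hp1, hp2, hp3⟩ := h9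
      refine ⟨p1, fun r ha hb hc => ?_⟩
      have h10 := h4 r r0 ha hr0 hb hr1
      rw [h10]
      exact ⟨hp1, hp2, hp3⟩
    · exact ⟨0, fun r ha hb hc => absurd ⟨r, ha, hb, hc⟩ h⟩
  obtain ⟨p1, hp1⟩ := hp1
  have hUUmem : ∀ p ∈ UU q Y, p.Prime ∧ Real.sqrt Y < p ∧ ¬ p ∣ q := by
    intro p hp
    have h9 := Finset.mem_filter.1 hp
    exact ⟨(mem_prs.1 h9.1).1, h9.2.1, h9.2.2⟩
  set M' : ℕ := M0 q Y E p1 with hM'
  have hM'0 : 0 < M' := M0_pos q Y hq E p1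
  have : NeZero M' := ⟨hM'0.ne'⟩
  have hdvd : M' ∣ M := M0_dvd q Y E p1
  have hM'le : (M' : ℝ) ≤ Real.exp (2 * Y) := by
    refine le_trans ?_ h6
    exact_mod_cast Nat.le_of_dvd hM0 hdvd
  refine ⟨E, p1, ?_, fun p hp => (hUUmem p (hE1 hp)).2.1, hM'le, ?_⟩
  · refine le_trans ?_ hk1
    exact_mod_cast hE2
  -- no bad characters
  have hgood : ∀ χ : DirichletCharacter ℂ M', χ ≠ 1 → ∀ ρ : ℂ, LFunction χ ρ = 0 → |ρ.im| ≤ 2 * Y →
      ρ.re ≤ 1 - Real.log Y / Y := by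
    intro χ hχ ρ hρ him
    by_contra hre
    rw [not_le] at hre
    have hbad := badP_of_zero (Y := Y) (by linarith) χ hχ ρ hρ him hre
    have hc1 : χ.conductor ∣ M' := χ.conductor_dvd_level
    by_cases hsm : Real.log χ.conductor ≤ smc Y
    · obtain ⟨a1, a2, a3⟩ := hp1 _ hbad hsm (hc1.trans hdvd)
      exact not_dvd_M0 q Y E p1 p1 a1 a3 (Or.inr rfl) (a2.trans hc1)
    · rw [not_le] at hsm
      obtain ⟨b1, b2, b3⟩ := zero_lift hdvd χ hχ ρ hρ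
      have hmem : changeLevel hdvd χ ∈ FF := by
        rw [hFF, Finset.mem_filter, hBB, Finset.mem_filter, b2]
        exact ⟨⟨Finset.mem_univ _, b1, ρ, b3, him, hre⟩, hsm⟩
      obtain ⟨p, hp1, hp2, hp3⟩ := hhit _ hmem
      rw [b2] at hp2
      obtain ⟨c1, _, c3⟩ := hUUmem p hp1
      exact not_dvd_M0 q Y E p1 p c1 c3 (Or.inl hp3) (hp2.trans hc1)
  -- the sum
  set Q : ℕ := M' * (2 * Y + 3) with hQ
  have hQ4 : 4 ≤ Q := by
    have : 1 * 4 ≤ M' * (2 * Y + 3) := Nat.mul_le_mul hM'0 (by omega)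
    omega
  have hQR : (4 : ℝ) ≤ Q := by exact_mod_cast hQ4
  have hlogQ : Real.log Q ≤ 3 * Y := by
    have hM'R : (0 : ℝ) < M' := by exact_mod_cast hM'0
    have h9 : Real.log Q = Real.log M' + Real.log (2 * Y + 3) := by
      rw [hQ]
      push_cast
      rw [Real.log_mul hM'R.ne' (by positivity)]
    have h10 : Real.log M' ≤ 2 * Y := (Real.log_le_iff_le_exp hM'R).2 hM'le
    rw [h9]
    linarith
  have hlogQ1 : 1 ≤ Real.log Q := by
    rw [Real.le_log_iff_exp_le (by linarith)]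
    have := Real.exp_one_lt_d9
    linarith
  have h9 := sumSS_gen (q := M') (T := 2 * Y) (a0 := Real.log Y / Y) (x := 1000 * Y) (Q := Q)
    (by linarith) (by rw [hQ]; push_cast; exact le_rfl) hQ4 (by positivity) g3 hgood (by linarith)
    (by linarith)
  exact h9.trans (h2 (Real.log Q) hlogQ1 hlogQ)

end Pool.Agent.LibT63
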