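import Pool.Agent.LibT63.CDefs
import Pool.Agent.LibPL63.B2
import Pool.Agent.LibPL63.B3

/-! LibT63 (MP_ff81b6_nt, Theorem T), block B (good moduli): definitions. -/

set_option autoImplicit false

namespace Pool.Agent.LibT63

open Finset DirichletCharacter Pool.Agent.LibRG87 Pool.Agent.LibMaier Pool.Agent.LibPL63

/-- the primes in `(√Y, Y]` which do not divide `q` -/
noncomputable def UU (q Y : ℕ) : Finset ℕ := (prs Y).filter fun p => Real.sqrt Y < p ∧ ¬ p ∣ q

/-- the primitive character `r` has a zero close to `1` -/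
def BadP (Y : ℝ) (r : PC) : Prop :=
  2 ≤ r.1 ∧ r.2.IsPrimitive ∧ ∃ (_ : NeZero r.1) (ρ : ℂ), LFunction r.2 ρ = 0 ∧ |ρ.im| ≤ 2 * Y ∧
    1 - Real.log Y / Y < ρ.re

/-- the bound of the small conductors -/
noncomputable def smc (Y : ℝ) : ℝ := kk / 4 * (Y / Real.log Y)

end Pool.Agent.LibT63
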