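import Pool.Agent.LibT63.CDefs

set_option autoImplicit false

namespace Pool.Agent.LibT63

open Finset Pool.Agent.LibRG87

theorem C1_card (q : ℕ) (_hq : 0 < q) (B : Finset ℕ) (hB : B ⊆ range q) (j : ℕ) :
    ((B.filter (fun r => ¬ j ≡ r [MOD q])).card : ℝ) = (B.card : ℝ) - if j % q ∈ B then 1 else 0 := by
  classical
  have h1 := Finset.card_filter_add_card_filter_not (s := B) (fun r => j ≡ r [MOD q])
  have h2 : B.filter (fun r => j ≡ r [MOD q]) = if j % q ∈ B then {j % q} else ∅ := by
    ext r
    by_cases hj : j % q ∈ B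
    · rw [if_pos hj]
      simp only [Finset.mem_filter, Finset.mem_singleton]
      constructor
      · rintro ⟨hr, hjr⟩
        have hr2 := Finset.mem_range.1 (hB hr)
        have : j % q = r % q := hjr
        rw [this, Nat.mod_eq_of_lt hr2]
      · rintro rfl
        exact ⟨hj, (Nat.mod_modEq j q).symm⟩
    · rw [if_neg hj]
      simp only [Finset.mem_filter, Finset.notMem_empty, iff_false, not_and]
      intro hr hjr
      have hr2 := Finset.mem_range.1 (hB hr)
      have : j % q = r % q := hjr
      rw [Nat.mod_eq_of_lt hr2] at this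
      exact hj (this ▸ hr)
  have h3 : ((B.filter (fun r => j ≡ r [MOD q])).card : ℝ) = if j % q ∈ B then 1 else 0 := by
    rw [h2]
    split_ifs <;> simp
  have h4 : ((B.filter (fun r => j ≡ r [MOD q])).card : ℝ) +
      ((B.filter (fun r => ¬ j ≡ r [MOD q])).card : ℝ) = (B.card : ℝ) := by
    exact_mod_cast h1
  linarith

/-- ROW C1 (weighted choice of the classes among the allowed ones `A p`).  PLAN: induction on `P`
(`Finset.induction_on`, generalizing `w`).  Step `insert q P`: apply the induction hypothesis to the weights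
`w' j = w j * (1 - if j % q ∈ A q then 1 / (A q).card else 0)` (these are `≥ 0` since `(A q).card ≥ 1`); it gives `c` on
`P`; put `S' = S.filter (∀ p ∈ P, ¬ j ≡ c p [MOD p])`.  Averaging over `r ∈ A q`:
`∑_{r ∈ A q} ∑_{j ∈ S', ¬ j ≡ r [MOD q]} w j = ∑_{j ∈ S'} w j * ((A q).card - if j % q ∈ A q then 1 else 0)`
(`A q ⊆ range q`, so exactly one `r ∈ A q` has `j ≡ r`, namely `r = j % q`, if `j % q ∈ A q`), so some `r ∈ A q` has
`∑_{j ∈ S', ¬ j ≡ r} w j ≤ ∑_{j ∈ S'} w' j` (`Finset.exists_le_of_sum_le`).  New `c := Function.update c q r`.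
Model: `LibRG87.E1.greedy`. -/
theorem classes_avg (S P : Finset ℕ) (hP : ∀ p ∈ P, 0 < p) (A : ℕ → Finset ℕ)
    (hA : ∀ p ∈ P, (A p).Nonempty ∧ A p ⊆ range p) (w : ℕ → ℝ) (hw : ∀ j ∈ S, 0 ≤ w j) :
    ∃ c : ℕ → ℕ, (∀ p ∈ P, c p ∈ A p) ∧
      ∑ j ∈ S.filter (fun j => ∀ p ∈ P, ¬ j ≡ c p [MOD p]), w j ≤
        ∑ j ∈ S, w j * ∏ p ∈ P, (1 - if j % p ∈ A p then 1 / ((A p).card : ℝ) else 0) := by
  classical
  induction P using Finset.induction_on generalizing w with
  | empty =>
    refine ⟨fun _ => 0, by simp, ?_⟩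
    simp
  | insert q P hq ih =>
    have hq0 : 0 < q := hP q (Finset.mem_insert_self q P)
    obtain ⟨hAn, hAr⟩ := hA q (Finset.mem_insert_self q P)
    have ha1 : (1 : ℝ) ≤ ((A q).card : ℝ) := by
      exact_mod_cast hAn.card_pos
    have ha0 : (0 : ℝ) < ((A q).card : ℝ) := by linarith
    set w' : ℕ → ℝ := fun j => w j * (1 - if j % q ∈ A q then 1 / ((A q).card : ℝ) else 0) with hw'
    have hw'0 : ∀ j ∈ S, 0 ≤ w' j := by
      intro j hj
      apply mul_nonneg (hw j hj)
      split_ifs
      · have : 1 / ((A q).card : ℝ) ≤ 1 := by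
          rw [div_le_one ha0]; exact ha1
        linarith
      · norm_num
    obtain ⟨c0, hc0, hle⟩ := ih (fun p hp => hP p (Finset.mem_insert_of_mem hp))
      (fun p hp => hA p (Finset.mem_insert_of_mem hp)) w' hw'0
    set S' := S.filter (fun j => ∀ p ∈ P, ¬ j ≡ c0 p [MOD p]) with hS'
    have hsum : ∑ r ∈ A q, ∑ j ∈ S'.filter (fun j => ¬ j ≡ r [MOD q]), w j ≤
        ∑ r ∈ A q, ∑ j ∈ S', w' j := by
      apply le_of_eq
      rw [Finset.sum_const, nsmul_eq_mul, Finset.mul_sum]
      simp only [Finset.sum_filter]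
      rw [Finset.sum_comm]
      refine Finset.sum_congr rfl fun j _ => ?_
      rw [← Finset.sum_filter, Finset.sum_const, nsmul_eq_mul, C1_card q hq0 (A q) hAr j]
      simp only [hw']
      split_ifs
      · field_simp
      · ring
    obtain ⟨r, hr, hrle⟩ := Finset.exists_le_of_sum_le hAn hsum
    refine ⟨Function.update c0 q r, ?_, ?_⟩
    · intro p hp
      rcases Finset.mem_insert.1 hp with rfl | hp
      · rw [Function.update_self]; exact hr
      · have hpq : p ≠ q := fun h => hq (h ▸ hp)
        rw [Function.update_of_ne hpq]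
        exact hc0 p hp
    · have hset : S.filter (fun j => ∀ p ∈ insert q P, ¬ j ≡ Function.update c0 q r p [MOD p]) =
          S'.filter (fun j => ¬ j ≡ r [MOD q]) := by
        ext j
        simp only [hS', Finset.mem_filter, Finset.forall_mem_insert, Function.update_self]
        constructor
        · rintro ⟨hj, h1, h2⟩
          refine ⟨⟨hj, fun p hp => ?_⟩, h1⟩
          have hpq : p ≠ q := fun h => hq (h ▸ hp)
          have := h2 p hp
          rwa [Function.update_of_ne hpq] at this
        · rintro ⟨⟨hj, h2⟩, h1⟩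
          refine ⟨hj, h1, fun p hp => ?_⟩
          have hpq : p ≠ q := fun h => hq (h ▸ hp)
          rw [Function.update_of_ne hpq]
          exact h2 p hp
      rw [hset]
      refine hrle.trans (hle.trans (le_of_eq ?_))
      refine Finset.sum_congr rfl fun j _ => ?_
      rw [Finset.prod_insert hq]
      simp only [hw']
      ring

end Pool.Agent.LibT63
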