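import Pool.Agent.LibT63.CDefs

set_option autoImplicit false

namespace Pool.Agent.LibT63

open Finset Pool.Agent.LibRG87

/-- ROW C2. Reduce the class modulo `p`. -/
theorem Al_nonempty (H : Finset ℕ) (p : ℕ) (hp : 0 < p) (h : ∃ r : ℕ, ∀ h ∈ H, ¬ h ≡ r [MOD p]) :
    (Al H p).Nonempty := by
  obtain ⟨r, hr⟩ := h
  refine ⟨r % p, ?_⟩
  unfold Al
  rw [mem_filter, mem_range]
  refine ⟨Nat.mod_lt _ hp, fun h hh hcon => hr h hh ?_⟩
  exact hcon.trans (Nat.mod_modEq r p)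

open scoped Classical in
/-- ROW C2. `Al H p ⊆ range p`, so `1 ≤ card ≤ p` in the first case, `1 - 1/card ≤ 1 - 1/p ≤ (1 - 1/p) * (1 or (1-1/p)⁻¹)`.
If `j % p ∉ Al H p` then some `h ∈ H` has `h ≡ j % p ≡ j`, the right side is `(1 - 1/p) * (1 - 1/p)⁻¹ = 1`. -/
theorem factor_le (H : Finset ℕ) (p j : ℕ) (hp : p.Prime) :
    0 ≤ 1 - (if j % p ∈ Al H p then 1 / ((Al H p).card : ℝ) else 0) ∧
    1 - (if j % p ∈ Al H p then 1 / ((Al H p).card : ℝ) else 0) ≤
      (1 - 1 / (p : ℝ)) * (if ∃ h ∈ H, j ≡ h [MOD p] then (1 - 1 / (p : ℝ))⁻¹ else 1) := by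
  have hp2 : (2 : ℝ) ≤ p := by exact_mod_cast hp.two_le
  have hq0 : 0 < 1 - 1 / (p : ℝ) := by
    rw [sub_pos, div_lt_one (by linarith)]
    linarith
  have hq1 : 1 - 1 / (p : ℝ) ≤ 1 := by
    have : 0 ≤ 1 / (p : ℝ) := by positivity
    linarith
  by_cases hj : j % p ∈ Al H p
  · rw [if_pos hj]
    have hc1 : (1 : ℝ) ≤ ((Al H p).card : ℝ) := by
      exact_mod_cast Finset.card_pos.2 ⟨_, hj⟩
    have hc2 : ((Al H p).card : ℝ) ≤ p := by
      have h1 : (Al H p).card ≤ p := by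
        calc (Al H p).card ≤ (range p).card := card_filter_le _ _
          _ = p := card_range p
      exact_mod_cast h1
    have hc0 : (0 : ℝ) < ((Al H p).card : ℝ) := by linarith
    constructor
    · rw [sub_nonneg, div_le_one hc0]
      exact hc1
    · have h2 : 1 / (p : ℝ) ≤ 1 / ((Al H p).card : ℝ) := one_div_le_one_div_of_le hc0 hc2
      have h3 : 1 - 1 / (p : ℝ) ≤
          (1 - 1 / (p : ℝ)) * (if ∃ h ∈ H, j ≡ h [MOD p] then (1 - 1 / (p : ℝ))⁻¹ else 1) := by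
        split_ifs with h
        · rw [mul_inv_cancel₀ hq0.ne']
          exact hq1
        · rw [mul_one]
      linarith
  · rw [if_neg hj, sub_zero]
    refine ⟨zero_le_one, ?_⟩
    have h1 : ∃ h ∈ H, j ≡ h [MOD p] := by
      unfold Al at hj
      rw [mem_filter, mem_range] at hj
      push Not at hj
      obtain ⟨h, hh, hmod⟩ := hj (Nat.mod_lt _ hp.pos)
      exact ⟨h, hh, (hmod.trans (Nat.mod_modEq j p)).symm⟩
    rw [if_pos h1, mul_inv_cancel₀ hq0.ne']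

/-- ROW C2. Product of `factor_le` over `p ∈ Pr` (`Finset.prod_le_prod`, `Finset.prod_mul_distrib`). -/
theorem prod_factor_le (H Pr : Finset ℕ) (j : ℕ) (hp : ∀ p ∈ Pr, p.Prime) :
    ∏ p ∈ Pr, (1 - if j % p ∈ Al H p then 1 / ((Al H p).card : ℝ) else 0) ≤
      (∏ p ∈ Pr, (1 - 1 / (p : ℝ))) * GG H Pr j := by
  classical
  unfold GG
  rw [← prod_mul_distrib]
  refine prod_le_prod (fun p hpp => ?_) (fun p hpp => ?_)
  · have h1 := (factor_le H p j (hp p hpp)).1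
    convert h1 using 3
  · have h1 := (factor_le H p j (hp p hpp)).2
    convert h1 using 3

end Pool.Agent.LibT63
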