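import Pool.Agent.LibT63.CDefs

set_option autoImplicit false

namespace Pool.Agent.LibT63

open Finset Pool.Agent.LibRG87

private theorem C3a_dvd (D : Finset ℕ) (hD : ∀ p ∈ D, p.Prime) (m : ℕ) :
    (∀ p ∈ D, p ∣ m) ↔ ∏ p ∈ D, p ∣ m := by
  constructor
  · intro h
    exact Finset.prod_primes_dvd m (fun p hp => (hD p hp).prime) h
  · intro h p hp
    exact (dvd_prod_of_mem _ hp).trans h

private theorem C3a_term (D : Finset ℕ) (hD : ∀ p ∈ D, p.Prime) (x : ℕ → ℝ) (m : ℕ) :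
    ∏ p ∈ D, (if p ∣ m then x p else 0) = if (∏ p ∈ D, p) ∣ m then ∏ p ∈ D, x p else 0 := by
  split_ifs with h
  · refine prod_congr rfl fun p hp => ?_
    rw [if_pos ((C3a_dvd D hD m).2 h p hp)]
  · have h1 : ¬ ∀ p ∈ D, p ∣ m := fun h2 => h ((C3a_dvd D hD m).1 h2)
    push Not at h1
    obtain ⟨p, hp, hpm⟩ := h1
    exact prod_eq_zero hp (if_neg hpm)

private theorem C3a_count (N k : ℕ) :
    (((Icc 1 N).filter fun m => k ∣ m).card : ℝ) ≤ N / k := by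
  rcases Nat.eq_zero_or_pos k with rfl | hk
  · have h1 : (Icc 1 N).filter (fun m => 0 ∣ m) = ∅ := by
      apply filter_eq_empty_iff.2
      intro m hm h0
      rw [zero_dvd_iff] at h0
      have := (mem_Icc.1 hm).1
      omega
    rw [h1]
    simp
  · have h1 : ((Icc 1 N).filter fun m => k ∣ m).card = N / k := by
      have h2 := Nat.Ioc_filter_dvd_card_eq_div N k
      rw [← h2]
      congr 1
    rw [h1]
    exact Nat.cast_div_le

/-- ROW C3a. `∏_{p ∈ Pr} (1 + a_p) = ∑_{D ⊆ Pr} ∏_{p ∈ D} a_p` (`Finset.prod_one_add`), with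
`a_p = if p ∣ m then x p else 0`; exchange the sums; `∏_{p ∈ D} a_p = (∏_{p ∈ D} x p)` if all `p ∈ D` divide `m`, i.e. if
`∏ p ∈ D, p ∣ m` (distinct primes), else `0`; the number of multiples of `k` in `[1, N]` is `N / k ≤ N / k` (real). Then
`∑_{D ⊆ Pr} ∏_{p ∈ D} (x p / p) = ∏ (1 + x p / p)`. -/
theorem sum_prod_dvd (Pr : Finset ℕ) (hPr : ∀ p ∈ Pr, p.Prime) (x : ℕ → ℝ) (hx : ∀ p, 0 ≤ x p)
    (N : ℕ) :
    ∑ m ∈ Icc 1 N, ∏ p ∈ Pr, (1 + if p ∣ m then x p else 0) ≤ N * ∏ p ∈ Pr, (1 + x p / p) := by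
  have h1 : ∀ m, ∏ p ∈ Pr, (1 + if p ∣ m then x p else 0) =
      ∑ D ∈ Pr.powerset, if (∏ p ∈ D, p) ∣ m then ∏ p ∈ D, x p else 0 := by
    intro m
    rw [Finset.prod_one_add]
    refine sum_congr rfl fun D hD => ?_
    exact C3a_term D (fun p hp => hPr p (mem_powerset.1 hD hp)) x m
  simp_rw [h1]
  rw [sum_comm, Finset.prod_one_add, mul_sum]
  refine sum_le_sum fun D hD => ?_
  rw [← sum_filter, sum_const, nsmul_eq_mul]
  have hX : 0 ≤ ∏ p ∈ D, x p := prod_nonneg fun p _ => hx p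
  calc (((Icc 1 N).filter fun m => (∏ p ∈ D, p) ∣ m).card : ℝ) * ∏ p ∈ D, x p
      ≤ (N / (∏ p ∈ D, p : ℕ) : ℝ) * ∏ p ∈ D, x p :=
        mul_le_mul_of_nonneg_right (C3a_count N _) hX
    _ = N * ∏ p ∈ D, x p / p := by
        rw [prod_div_distrib, Nat.cast_prod]
        ring

end Pool.Agent.LibT63
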