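import Pool.Agent.LibT63.C3a

set_option autoImplicit false

namespace Pool.Agent.LibT63

open Finset Pool.Agent.LibRG87

open scoped Classical in
/-- the factor of one element -/
noncomputable def C3b_F (Pr : Finset ℕ) (h j : ℕ) : ℝ :=
  ∏ p ∈ Pr, if j ≡ h [MOD p] then (1 - 1 / (p : ℝ))⁻¹ else 1

theorem C3b_one_le_prod {ι : Type*} {s : Finset ι} {f : ι → ℝ} (h : ∀ i ∈ s, 1 ≤ f i) :
    1 ≤ ∏ i ∈ s, f i := by
  have := Finset.prod_le_prod (s := s) (f := fun _ => (1 : ℝ)) (g := f) (fun _ _ => by norm_num) h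
  simpa using this

theorem C3b_fac {K p : ℕ} (hp : p.Prime) (hK : 2 * K < p) :
    1 ≤ (1 - 1 / (p : ℝ))⁻¹ ∧ ((1 - 1 / (p : ℝ))⁻¹) ^ K ≤ 1 + 4 * K / p := by
  have hp2 : (2 : ℝ) ≤ p := by exact_mod_cast hp.two_le
  have hKp : 2 * (K : ℝ) + 1 ≤ p := by exact_mod_cast hK
  have h1 : 0 < 1 - 1 / (p : ℝ) := by
    rw [sub_pos, div_lt_one (by linarith)]; linarith
  have h2 : 1 - 1 / (p : ℝ) ≤ 1 := by
    have : 0 ≤ 1 / (p : ℝ) := by positivity
    linarith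
  refine ⟨(one_le_inv₀ h1).2 h2, ?_⟩
  -- Bernoulli : (1 - 1/p)^K ≥ 1 - K/p
  have h3 : 1 - (K : ℝ) / p ≤ (1 - 1 / (p : ℝ)) ^ K := by
    have := one_add_mul_le_pow (a := -(1 / (p : ℝ))) (by
      have : 1 / (p : ℝ) ≤ 1 := by rw [div_le_one (by linarith)]; linarith
      linarith) K
    have e : 1 + (K : ℝ) * -(1 / (p : ℝ)) = 1 - (K : ℝ) / p := by ring
    rw [e] at this
    rw [← sub_eq_add_neg] at this
    exact this
  have hx : (K : ℝ) / p ≤ 1 / 2 := by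
    rw [div_le_div_iff₀ (by linarith) (by norm_num)]; linarith
  have hx0 : 0 ≤ (K : ℝ) / p := by positivity
  rw [inv_pow]
  have h4 : ((1 - 1 / (p : ℝ)) ^ K)⁻¹ ≤ (1 - (K : ℝ) / p)⁻¹ := by
    apply inv_anti₀ (by linarith) h3
  refine le_trans h4 ?_
  rw [inv_le_iff_one_le_mul₀ (by linarith)]
  have e2 : 4 * (K : ℝ) / p = 4 * ((K : ℝ) / p) := by ring
  rw [e2]
  set x := (K : ℝ) / p
  nlinarith

theorem C3b_F_one {K : ℕ} {Pr : Finset ℕ} (hPr : ∀ p ∈ Pr, p.Prime ∧ 2 * K < p) (h j : ℕ) :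
    1 ≤ C3b_F Pr h j := by
  unfold C3b_F
  apply C3b_one_le_prod
  intro p hp
  split_ifs
  · exact (C3b_fac (hPr p hp).1 (hPr p hp).2).1
  · exact le_rfl

theorem C3b_GG_le {K : ℕ} {Pr : Finset ℕ} (hPr : ∀ p ∈ Pr, p.Prime ∧ 2 * K < p) (H : Finset ℕ) (j : ℕ) :
    GG H Pr j ≤ ∏ h ∈ H, C3b_F Pr h j := by
  classical
  unfold GG C3b_F
  rw [Finset.prod_comm]
  apply Finset.prod_le_prod
  · intro p hp
    split_ifs
    · linarith [(C3b_fac (hPr p hp).1 (hPr p hp).2).1]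
    · norm_num
  · intro p hp
    have h1 := (C3b_fac (hPr p hp).1 (hPr p hp).2).1
    split_ifs with h
    · obtain ⟨h0, hh0, hj⟩ := h
      rw [← Finset.mul_prod_erase H _ hh0, if_pos hj]
      have : 1 ≤ ∏ x ∈ H.erase h0, (if j ≡ x [MOD p] then (1 - 1 / (p : ℝ))⁻¹ else 1) := by
        apply C3b_one_le_prod
        intro x _
        split_ifs
        · exact h1
        · exact le_rfl
      nlinarith
    · apply C3b_one_le_prod
      intro x _
      split_ifs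
      · exact h1
      · exact le_rfl

/-- the product of numbers `≥ 1` is at most `1` plus the sum of their powers -/
theorem C3b_prod_le {K : ℕ} (H : Finset ℕ) (hH : H.card = K) (F : ℕ → ℝ) (hF : ∀ h ∈ H, 1 ≤ F h) :
    ∏ h ∈ H, F h ≤ 1 + ∑ h ∈ H, F h ^ K := by
  rcases H.eq_empty_or_nonempty with rfl | hne
  · simp
  · obtain ⟨m, hm, hmax⟩ := H.exists_max_image F hne
    have h1 : ∏ h ∈ H, F h ≤ ∏ _h ∈ H, F m :=
      Finset.prod_le_prod (fun h hh => by linarith [hF h hh]) (fun h hh => hmax h hh)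
    rw [Finset.prod_const, hH] at h1
    have h2 : F m ^ K ≤ ∑ h ∈ H, F h ^ K :=
      Finset.single_le_sum (f := fun h => F h ^ K) (fun h hh => pow_nonneg (by linarith [hF h hh]) K) hm
    linarith

theorem C3b_Fpow {K : ℕ} {Pr : Finset ℕ} (hPr : ∀ p ∈ Pr, p.Prime ∧ 2 * K < p) (h j m : ℕ)
    (hm : ∀ p, j ≡ h [MOD p] → p ∣ m) :
    C3b_F Pr h j ^ K ≤ ∏ p ∈ Pr, (1 + if p ∣ m then 4 * (K : ℝ) / p else 0) := by
  unfold C3b_F
  rw [← Finset.prod_pow]
  apply Finset.prod_le_prod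
  · intro p hp
    have := (C3b_fac (hPr p hp).1 (hPr p hp).2).1
    split_ifs
    · exact pow_nonneg (by linarith) K
    · norm_num
  · intro p hp
    have h1 := (C3b_fac (hPr p hp).1 (hPr p hp).2)
    by_cases hj : j ≡ h [MOD p]
    · rw [if_pos hj, if_pos (hm p hj)]
      exact h1.2
    · rw [if_neg hj, one_pow]
      split_ifs
      · have : 0 ≤ 4 * (K : ℝ) / p := by positivity
        linarith
      · norm_num

theorem C3b_sq (Pr : Finset ℕ) (hPr : ∀ p ∈ Pr, p.Prime) : ∑ p ∈ Pr, 1 / (p : ℝ) ^ 2 ≤ 1 := by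
  have h1 : Pr ⊆ Ioc 1 (Pr.sup id + 1) := by
    intro p hp
    rw [mem_Ioc]
    refine ⟨(hPr p hp).one_lt, ?_⟩
    have := Finset.le_sup (f := id) hp
    simp only [id] at this
    omega
  have h2 : ∑ p ∈ Pr, 1 / (p : ℝ) ^ 2 ≤ ∑ p ∈ Ioc 1 (Pr.sup id + 1), 1 / (p : ℝ) ^ 2 :=
    Finset.sum_le_sum_of_subset_of_nonneg h1 fun p _ _ => by positivity
  have h3 := sum_Ioc_inv_sq_le_sub (α := ℝ) (k := 1) (n := Pr.sup id + 1) one_ne_zero (by omega)
  have h4 : ∑ p ∈ Ioc 1 (Pr.sup id + 1), 1 / (p : ℝ) ^ 2 =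
      ∑ i ∈ Ioc 1 (Pr.sup id + 1), ((i : ℝ) ^ 2)⁻¹ :=
    Finset.sum_congr rfl fun i _ => by rw [one_div]
  rw [h4] at h2
  have h5 : (0 : ℝ) ≤ (((Pr.sup id + 1 : ℕ) : ℝ))⁻¹ := by positivity
  rw [Nat.cast_one, inv_one] at h3
  linarith

theorem C3b_sum_phi {K : ℕ} {Pr : Finset ℕ} (hPr : ∀ p ∈ Pr, p.Prime ∧ 2 * K < p) (N : ℕ) :
    ∑ m ∈ Icc 1 N, ∏ p ∈ Pr, (1 + if p ∣ m then 4 * (K : ℝ) / p else 0) ≤ N * Real.exp (4 * K) := by
  refine le_trans (sum_prod_dvd Pr (fun p hp => (hPr p hp).1) (fun p => 4 * (K : ℝ) / p)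
    (fun p => by positivity) N) ?_
  apply mul_le_mul_of_nonneg_left _ (Nat.cast_nonneg _)
  have h1 : ∏ p ∈ Pr, (1 + 4 * (K : ℝ) / p / p) ≤ ∏ p ∈ Pr, Real.exp (4 * (K : ℝ) / p / p) := by
    apply Finset.prod_le_prod
    · intro p _; positivity
    · intro p _
      rw [add_comm]
      exact Real.add_one_le_exp _
  refine le_trans h1 ?_
  rw [← Real.exp_sum]
  apply Real.exp_le_exp.2
  have h2 : ∑ p ∈ Pr, 4 * (K : ℝ) / p / p = 4 * K * ∑ p ∈ Pr, 1 / (p : ℝ) ^ 2 := by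
    rw [Finset.mul_sum]
    apply Finset.sum_congr rfl
    intro p hp
    have : (p : ℝ) ≠ 0 := by exact_mod_cast (hPr p hp).1.ne_zero
    field_simp
  rw [h2]
  have := C3b_sq Pr fun p hp => (hPr p hp).1
  have h3 : (0 : ℝ) ≤ 4 * K := by positivity
  nlinarith

theorem C3b_sum_F {K : ℕ} {Pr : Finset ℕ} (hPr : ∀ p ∈ Pr, p.Prime ∧ 2 * K < p) (H : Finset ℕ) (N h : ℕ)
    (hh : h ∈ H) (hN : h ≤ N) :
    ∑ j ∈ range (N + 1) \ H, C3b_F Pr h j ^ K ≤ 2 * (N * Real.exp (4 * K)) := by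
  classical
  set φ : ℕ → ℝ := fun m => ∏ p ∈ Pr, (1 + if p ∣ m then 4 * (K : ℝ) / p else 0) with hφ
  have hφ0 : ∀ m, 0 ≤ φ m := by
    intro m
    apply Finset.prod_nonneg
    intro p _
    split_ifs
    · positivity
    · norm_num
  have hsplit : range (N + 1) \ H ⊆ (range h) ∪ (Ioc h N) := by
    intro j hj
    rw [mem_sdiff, mem_range] at hj
    rw [mem_union, mem_range, mem_Ioc]
    have : j ≠ h := fun e => hj.2 (e ▸ hh)
    omega
  have hF0 : ∀ j, 0 ≤ C3b_F Pr h j ^ K := fun j =>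
    pow_nonneg (by linarith [C3b_F_one hPr h j]) K
  have hdisj : Disjoint (range h) (Ioc h N) := by
    rw [Finset.disjoint_left]
    intro j hj hj'
    rw [mem_range] at hj
    rw [mem_Ioc] at hj'
    omega
  have h1 : ∑ j ∈ range (N + 1) \ H, C3b_F Pr h j ^ K ≤ ∑ j ∈ (range h) ∪ (Ioc h N), C3b_F Pr h j ^ K :=
    Finset.sum_le_sum_of_subset_of_nonneg hsplit fun j _ _ => hF0 j
  rw [Finset.sum_union hdisj] at h1
  have hA : ∑ j ∈ range h, C3b_F Pr h j ^ K ≤ ∑ m ∈ Icc 1 N, φ m := by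
    calc ∑ j ∈ range h, C3b_F Pr h j ^ K ≤ ∑ j ∈ range h, φ (h - j) := by
          apply Finset.sum_le_sum
          intro j hj
          rw [mem_range] at hj
          apply C3b_Fpow hPr
          intro p hp
          exact (Nat.modEq_iff_dvd' hj.le).1 hp
      _ = ∑ m ∈ (range h).image (fun j => h - j), φ m := by
          rw [Finset.sum_image]
          intro a ha b hb hab
          simp only [coe_range, Set.mem_Iio] at ha hb
          simp only at hab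
          omega
      _ ≤ ∑ m ∈ Icc 1 N, φ m := by
          apply Finset.sum_le_sum_of_subset_of_nonneg
          · intro m hm
            rw [mem_image] at hm
            obtain ⟨j, hj, rfl⟩ := hm
            rw [mem_range] at hj
            rw [mem_Icc]
            omega
          · intro m _ _
            exact hφ0 m
  have hB : ∑ j ∈ Ioc h N, C3b_F Pr h j ^ K ≤ ∑ m ∈ Icc 1 N, φ m := by
    calc ∑ j ∈ Ioc h N, C3b_F Pr h j ^ K ≤ ∑ j ∈ Ioc h N, φ (j - h) := by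
          apply Finset.sum_le_sum
          intro j hj
          rw [mem_Ioc] at hj
          apply C3b_Fpow hPr
          intro p hp
          exact (Nat.modEq_iff_dvd' hj.1.le).1 hp.symm
      _ = ∑ m ∈ (Ioc h N).image (fun j => j - h), φ m := by
          rw [Finset.sum_image]
          intro a ha b hb hab
          simp only [coe_Ioc, Set.mem_Ioc] at ha hb
          simp only at hab
          omega
      _ ≤ ∑ m ∈ Icc 1 N, φ m := by
          apply Finset.sum_le_sum_of_subset_of_nonneg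
          · intro m hm
            rw [mem_image] at hm
            obtain ⟨j, hj, rfl⟩ := hm
            rw [mem_Ioc] at hj
            rw [mem_Icc]
            omega
          · intro m _ _
            exact hφ0 m
  have hC := C3b_sum_phi hPr N
  have hC' : ∑ m ∈ Icc 1 N, φ m ≤ N * Real.exp (4 * K) := hC
  linarith

/-- ROW C3b.  `K = 0`: `GG = 1`.  In general `GG H Pr j ≤ ∏_{h ∈ H} F_h(j)`, `F_h(j) = ∏_{p ∈ Pr, j ≡ h [MOD p]} (1-1/p)⁻¹ ≥ 1`
(each factor `≥ 1`), and `∏_{h ∈ H} F_h ≤ 1 + ∑_{h ∈ H} F_h^K` (the largest factor; `K = H.card`).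
For `p > 2K` prime: `(1-1/p)^(-K) ≤ exp(K/(p-1)) ≤ 1 + 2K/(p-1) ≤ 1 + 4K/p`.  So
`F_h(j)^K ≤ ∏_{p ∈ Pr} (1 + if p ∣ |j-h| then 4K/p else 0)`; `j ≠ h` in `[0, N]`: `m = |j - h| ∈ [1, N]`, every `m` at most
twice.  `sum_prod_dvd` with `x p = 4K/p`: `∑_j F_h(j)^K ≤ 2 N ∏ (1 + 4K/p²) ≤ 2 N exp(4K ∑ 1/p²) ≤ 2 N exp(8K)`.
`C = 1 + 2 K exp(8K)`. -/
theorem sum_GG (K : ℕ) : ∃ C : ℝ, 1 ≤ C ∧ ∀ (H Pr : Finset ℕ) (N : ℕ), H.card = K →
    (∀ h ∈ H, h ≤ N) → (∀ p ∈ Pr, p.Prime ∧ 2 * K < p) →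
    ∑ j ∈ range (N + 1) \ H, GG H Pr j ≤ C * (N + 1) := by
  refine ⟨1 + 2 * K * Real.exp (4 * K), ?_, ?_⟩
  · have : (0 : ℝ) ≤ 2 * K * Real.exp (4 * K) := by positivity
    linarith
  · intro H Pr N hH hN hPr
    have h1 : ∀ j ∈ range (N + 1) \ H, GG H Pr j ≤ 1 + ∑ h ∈ H, C3b_F Pr h j ^ K := fun j _ =>
      le_trans (C3b_GG_le hPr H j) (C3b_prod_le H hH (fun h => C3b_F Pr h j)
        fun h _ => C3b_F_one hPr h j)
    have h2 := Finset.sum_le_sum h1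
    rw [Finset.sum_add_distrib, Finset.sum_comm, Finset.sum_const, nsmul_eq_mul, mul_one] at h2
    have h3 : ∑ h ∈ H, ∑ j ∈ range (N + 1) \ H, C3b_F Pr h j ^ K ≤
        ∑ h ∈ H, 2 * (N * Real.exp (4 * K)) :=
      Finset.sum_le_sum fun h hh => C3b_sum_F hPr H N h hh (hN h hh)
    rw [Finset.sum_const, hH, nsmul_eq_mul] at h3
    have h4 : ((range (N + 1) \ H).card : ℝ) ≤ N + 1 := by
      have := Finset.card_le_card (Finset.sdiff_subset (s := range (N + 1)) (t := H))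
      rw [Finset.card_range] at this
      exact_mod_cast this
    have h5 : (K : ℝ) * (2 * (N * Real.exp (4 * K))) ≤ 2 * K * Real.exp (4 * K) * (N + 1) := by
      have : (0 : ℝ) ≤ 2 * K * Real.exp (4 * K) := by positivity
      nlinarith
    nlinarith

end Pool.Agent.LibT63
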