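import Pool.Agent.LibT63.CDefs

set_option autoImplicit false

namespace Pool.Agent.LibT63

open Finset Pool.Agent.LibRG87

private theorem C4_f {p : ℕ} (hp : p.Prime) :
    (1 : ℝ) / 2 ≤ 1 - 1 / (p : ℝ) ∧ 1 - 1 / (p : ℝ) ≤ 1 := by
  have h2 : (2 : ℝ) ≤ p := by exact_mod_cast hp.two_le
  have h3 : 1 / (p : ℝ) ≤ 1 / 2 := one_div_le_one_div_of_le (by norm_num) h2
  have h4 : 0 ≤ 1 / (p : ℝ) := by positivity
  exact ⟨by linarith, by linarith⟩

/-- ROW C4.  `∏_{p ∈ prs v} (1-1/p) ≤ 1 / log v` (`LibRG87.E3.prod_prs_le`).  The removed primes are in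
`prs (2K) ∪ q.primeFactors ∪ {p1}`; all factors are in `(0, 1]` (`≥ 1/2`), so
`∏_{filter} = ∏_{prs v} / ∏_{removed} ≤ (1 / log v) * 2 * ∏_{prs (2K)} (1-1/p)⁻¹ * ∏_{q.primeFactors} (1-1/p)⁻¹`. -/
theorem prod_small (K q : ℕ) (hq : 1 ≤ q) : ∃ C : ℝ, 0 < C ∧ ∀ v p1 : ℕ, 2 ≤ v →
    ∏ p ∈ (prs v).filter (fun p => 2 * K < p ∧ p ≠ p1 ∧ ¬ p ∣ q), (1 - 1 / (p : ℝ)) ≤
      C / Real.log v := by
  classical
  have hDp : ∀ p ∈ prs (2 * K) ∪ q.primeFactors, p.Prime := by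
    intro p hp
    rcases Finset.mem_union.1 hp with h | h
    · exact (mem_prs.1 h).1
    · exact Nat.prime_of_mem_primeFactors h
  have hc : 0 < ∏ p ∈ prs (2 * K) ∪ q.primeFactors, (1 - 1 / (p : ℝ)) :=
    Finset.prod_pos fun p hp => by linarith [(C4_f (hDp p hp)).1]
  obtain ⟨c, hcdef⟩ : ∃ c : ℝ, c = ∏ p ∈ prs (2 * K) ∪ q.primeFactors, (1 - 1 / (p : ℝ)) :=
    ⟨_, rfl⟩
  rw [← hcdef] at hc
  refine ⟨2 / c, by positivity, fun v p1 hv => ?_⟩
  have hlog : 0 < Real.log v := Real.log_pos (by exact_mod_cast hv)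
  have hpv : ∀ p ∈ prs v, p.Prime := fun p hp => (mem_prs.1 hp).1
  have hprod := prod_prs_le v hv
  rw [← Finset.prod_filter_mul_prod_filter_not (prs v) (fun p => 2 * K < p ∧ p ≠ p1 ∧ ¬ p ∣ q)]
    at hprod
  obtain ⟨A, hA⟩ : ∃ A : ℝ, A = ∏ p ∈ (prs v).filter (fun p => 2 * K < p ∧ p ≠ p1 ∧ ¬ p ∣ q),
    (1 - 1 / (p : ℝ)) := ⟨_, rfl⟩
  obtain ⟨R, hR⟩ : ∃ R : Finset ℕ,
    R = (prs v).filter (fun p => ¬ (2 * K < p ∧ p ≠ p1 ∧ ¬ p ∣ q)) := ⟨_, rfl⟩
  rw [← hA, ← hR] at hprod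
  rw [← hA]
  have hA0 : 0 ≤ A := by
    rw [hA]
    exact Finset.prod_nonneg fun p hp => by
      linarith [(C4_f (hpv p (Finset.mem_filter.1 hp).1)).1]
  have hRp : ∀ p ∈ R, p.Prime := fun p hp => by
    rw [hR] at hp
    exact hpv p (Finset.mem_filter.1 hp).1
  -- the lower bound for the removed product
  have hB : c / 2 ≤ ∏ p ∈ R, (1 - 1 / (p : ℝ)) := by
    rw [← Finset.prod_filter_mul_prod_filter_not R (fun p => p ∈ prs (2 * K) ∪ q.primeFactors)]
    have h1 : c ≤ ∏ p ∈ R.filter (fun p => p ∈ prs (2 * K) ∪ q.primeFactors),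
        (1 - 1 / (p : ℝ)) := by
      have hsub : R.filter (fun p => p ∈ prs (2 * K) ∪ q.primeFactors) ⊆
          prs (2 * K) ∪ q.primeFactors := fun p hp => (Finset.mem_filter.1 hp).2
      rw [hcdef, ← Finset.prod_sdiff hsub]
      have h2 : ∏ p ∈ (prs (2 * K) ∪ q.primeFactors) \
          R.filter (fun p => p ∈ prs (2 * K) ∪ q.primeFactors), (1 - 1 / (p : ℝ)) ≤ 1 :=
        Finset.prod_le_one (fun p hp => by
          linarith [(C4_f (hDp p (Finset.mem_sdiff.1 hp).1)).1]) fun p hp =>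
          (C4_f (hDp p (Finset.mem_sdiff.1 hp).1)).2
      have h3 : 0 ≤ ∏ p ∈ R.filter (fun p => p ∈ prs (2 * K) ∪ q.primeFactors),
          (1 - 1 / (p : ℝ)) := Finset.prod_nonneg fun p hp => by
        linarith [(C4_f (hDp p (Finset.mem_filter.1 hp).2)).1]
      exact mul_le_of_le_one_left h3 h2
    have h4 : (1 : ℝ) / 2 ≤ ∏ p ∈ R.filter (fun p => ¬ p ∈ prs (2 * K) ∪ q.primeFactors),
        (1 - 1 / (p : ℝ)) := by
      have hsub : R.filter (fun p => ¬ p ∈ prs (2 * K) ∪ q.primeFactors) ⊆ {p1} := by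
        intro p hp
        rw [Finset.mem_singleton]
        obtain ⟨hpR, hpD⟩ := Finset.mem_filter.1 hp
        have hpp := hRp p hpR
        rw [hR] at hpR
        by_contra hne
        have h5 := (Finset.mem_filter.1 hpR).2
        apply h5
        refine ⟨?_, hne, ?_⟩
        · by_contra h6
          apply hpD
          rw [Finset.mem_union]
          exact Or.inl (mem_prs.2 ⟨hpp, by omega⟩)
        · intro h6
          apply hpD
          rw [Finset.mem_union]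
          exact Or.inr (Nat.mem_primeFactors.2 ⟨hpp, h6, by omega⟩)
      rcases Finset.subset_singleton_iff.1 hsub with h5 | h5
      · rw [h5, Finset.prod_empty]
        norm_num
      · rw [h5, Finset.prod_singleton]
        have h6 : p1 ∈ R.filter (fun p => ¬ p ∈ prs (2 * K) ∪ q.primeFactors) := by
          rw [h5]
          exact Finset.mem_singleton_self p1
        exact (C4_f (hRp p1 (Finset.mem_filter.1 h6).1)).1
    calc c / 2 = c * (1 / 2) := by ring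
      _ ≤ _ := mul_le_mul h1 h4 (by norm_num) (hc.le.trans h1)
  have h7 : A * (c / 2) ≤ 1 / Real.log v := (mul_le_mul_of_nonneg_left hB hA0).trans hprod
  have h8 : A = A * (c / 2) * (2 / c) := by
    field_simp
  rw [h8]
  calc A * (c / 2) * (2 / c) ≤ 1 / Real.log v * (2 / c) :=
        mul_le_mul_of_nonneg_right h7 (by positivity)
    _ = 2 / c / Real.log v := by ring

end Pool.Agent.LibT63
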