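import Pool.Agent.LibT63.CDefs

set_option autoImplicit false

namespace Pool.Agent.LibT63

open Finset Pool.Agent.LibRG87

/-- ROW C5.  `∑_{t=1}^{N+1} ∑_{j ∈ J, j+t ∈ A} g j = ∑_{j ∈ J} g j #{t : j + t ∈ A} ≤ |A| ∑_{j ∈ J} g j` (`t ↦ j + t` is
injective); the smallest of the `N+1` inner sums (`Finset.exists_le_of_sum_le`). -/
theorem shift_avg (N : ℕ) (J A : Finset ℕ) (g : ℕ → ℝ) (hg : ∀ j ∈ J, 0 ≤ g j) :
    ∃ t ∈ Icc 1 (N + 1), ∑ j ∈ J.filter (fun j => j + t ∈ A), g j ≤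
      (A.card : ℝ) / (N + 1) * ∑ j ∈ J, g j := by
  have hN : (0 : ℝ) < N + 1 := by positivity
  refine Finset.exists_le_of_sum_le (s := Icc 1 (N + 1))
    ⟨1, Finset.mem_Icc.2 ⟨le_rfl, by omega⟩⟩ ?_
  rw [Finset.sum_const, Nat.card_Icc, nsmul_eq_mul]
  have e1 : (((N + 1 + 1 - 1 : ℕ)) : ℝ) = N + 1 := by
    rw [Nat.add_sub_cancel]
    push_cast
    ring
  rw [e1]
  have e2 : ((N : ℝ) + 1) * ((A.card : ℝ) / (N + 1) * ∑ j ∈ J, g j) =
      (A.card : ℝ) * ∑ j ∈ J, g j := by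
    field_simp
  rw [e2, Finset.mul_sum]
  have e3 : ∀ t ∈ Icc 1 (N + 1), ∑ j ∈ J.filter (fun j => j + t ∈ A), g j =
      ∑ j ∈ J, if j + t ∈ A then g j else 0 := fun t _ => Finset.sum_filter _ _
  rw [Finset.sum_congr rfl e3, Finset.sum_comm]
  refine Finset.sum_le_sum fun j hj => ?_
  rw [← Finset.sum_filter, Finset.sum_const, nsmul_eq_mul]
  refine mul_le_mul_of_nonneg_right ?_ (hg j hj)
  have h1 : ((Icc 1 (N + 1)).filter (fun t => j + t ∈ A)).card ≤ A.card := by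
    refine Finset.card_le_card_of_injOn (fun t => j + t) ?_ ?_
    · intro t ht
      exact (Finset.mem_filter.1 ht).2
    · intro t _ t' _ h
      exact Nat.add_left_cancel h
  exact_mod_cast h1

end Pool.Agent.LibT63
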