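import Pool.Agent.LibT63.CDefs
import Pool.Agent.LibRG87.E2

set_option autoImplicit false

namespace Pool.Agent.LibT63

open Finset Pool.Agent.LibRG87

/-- ROW C6.  `n1` from `LibRG87.crt_classes P ∅`; `q` is coprime to `∏ p ∈ P, p`; `n0 ≡ a [MOD q]`, `n0 ≡ n1 [MOD ∏ p ∈ P, p]`
(`Nat.chineseRemainder`). -/
theorem crt_q (q : ℕ) (hq : 1 ≤ q) (P : Finset ℕ) (hP : ∀ p ∈ P, p.Prime ∧ ¬ p ∣ q) (a : ℕ)
    (c : ℕ → ℕ) :
    ∃ n0 : ℕ, n0 ≡ a [MOD q] ∧ ∀ p ∈ P, ∀ b : ℕ, p ∣ n0 + b ↔ b ≡ c p [MOD p] := by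
  obtain ⟨n1, hn1, -⟩ := crt_classes P ∅ (fun p hp => (hP p hp).1) (by simp) (by simp) c
  have hco : Nat.Coprime q (∏ p ∈ P, p) := by
    apply Nat.Coprime.prod_right
    intro p hp
    exact ((hP p hp).1.coprime_iff_not_dvd.mpr (hP p hp).2).symm
  obtain ⟨n0, h1, h2⟩ := Nat.chineseRemainder hco a n1
  refine ⟨n0, h1, fun p hp b => ?_⟩
  rw [← hn1 p hp b]
  have h3 : n0 ≡ n1 [MOD p] := h2.of_dvd (Finset.dvd_prod_of_mem _ hp)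
  have h4 : n0 + b ≡ n1 + b [MOD p] := h3.add_right b
  exact h4.dvd_iff dvd_rfl

end Pool.Agent.LibT63
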