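import Pool.Agent.LibT63.CDefs

set_option autoImplicit false

namespace Pool.Agent.LibT63

open Finset Pool.Agent.LibRG87

/-- ROW C7.  Union bound; `j + t` runs over `[t, N + t] ⊆ [1, N + t]`, which has at most `(N + t) / p` multiples of `p`. -/
theorem bad_count (B : Finset ℕ) (hB : ∀ p ∈ B, 1 ≤ p) (N t : ℕ) (ht : 1 ≤ t) :
    (((range (N + 1)).filter fun j => ∃ p ∈ B, p ∣ j + t).card : ℝ) ≤
      ∑ p ∈ B, ((N : ℝ) + t) / p := by
  have h1 : ((range (N + 1)).filter fun j => ∃ p ∈ B, p ∣ j + t) ⊆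
      B.biUnion fun p => (range (N + 1)).filter fun j => p ∣ j + t := by
    intro j hj
    rw [mem_filter] at hj
    obtain ⟨hj1, p, hp, hpj⟩ := hj
    exact mem_biUnion.2 ⟨p, hp, mem_filter.2 ⟨hj1, hpj⟩⟩
  have h2 : ((range (N + 1)).filter fun j => ∃ p ∈ B, p ∣ j + t).card ≤
      ∑ p ∈ B, ((range (N + 1)).filter fun j => p ∣ j + t).card :=
    (card_le_card h1).trans card_biUnion_le
  have h3 : ∀ p ∈ B, (((range (N + 1)).filter fun j => p ∣ j + t).card : ℝ) ≤ ((N : ℝ) + t) / p := by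
    intro p _
    have h4 : ((range (N + 1)).filter fun j => p ∣ j + t).card ≤
        ((Ioc 0 (N + t)).filter fun x => p ∣ x).card := by
      refine card_le_card_of_injOn (fun j => j + t) ?_ ?_
      · intro j hj
        have hj' := mem_filter.1 (mem_coe.1 hj)
        have h5 := mem_range.1 hj'.1
        have h7 : 0 < j + t ∧ j + t ≤ N + t := by omega
        exact mem_coe.2 (mem_filter.2 ⟨mem_Ioc.2 h7, hj'.2⟩)
      · intro a _ b _ hab
        simpa using hab
    rw [Nat.Ioc_filter_dvd_card_eq_div] at h4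
    have h6 : (((range (N + 1)).filter fun j => p ∣ j + t).card : ℝ) ≤ (((N + t) / p : ℕ) : ℝ) := by
      exact_mod_cast h4
    refine h6.trans (Nat.cast_div_le.trans ?_)
    push_cast
    exact le_rfl
  calc (((range (N + 1)).filter fun j => ∃ p ∈ B, p ∣ j + t).card : ℝ)
      ≤ ((∑ p ∈ B, ((range (N + 1)).filter fun j => p ∣ j + t).card : ℕ) : ℝ) := by exact_mod_cast h2
    _ = ∑ p ∈ B, (((range (N + 1)).filter fun j => p ∣ j + t).card : ℝ) := by push_cast; rfl
    _ ≤ ∑ p ∈ B, ((N : ℝ) + t) / p := sum_le_sum h3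

/-- ROW C7.  For each `h ∈ H`: a subset of `(h + t).primeFactors`, and `2 ^ (card primeFactors m) ≤ m ≤ 2 N + 1`. -/
theorem bad_primes (H : Finset ℕ) (N t Y : ℕ) (hH : ∀ h ∈ H, h ≤ N) (ht : 1 ≤ t) (htN : t ≤ N + 1) :
    (((prs Y).filter (fun p => ∃ h ∈ H, p ∣ h + t)).card : ℝ) ≤
      H.card * (Real.log (2 * N + 1) / Real.log 2) := by
  have h1 : ((prs Y).filter (fun p => ∃ h ∈ H, p ∣ h + t)) ⊆ H.biUnion fun h => (h + t).primeFactors := by
    intro p hp
    rw [mem_filter, mem_prs] at hp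
    obtain ⟨⟨hp1, -⟩, h, hh, hph⟩ := hp
    exact mem_biUnion.2 ⟨h, hh, Nat.mem_primeFactors.2 ⟨hp1, hph, by omega⟩⟩
  have h2 : ((prs Y).filter (fun p => ∃ h ∈ H, p ∣ h + t)).card ≤ ∑ h ∈ H, (h + t).primeFactors.card :=
    (card_le_card h1).trans card_biUnion_le
  have hl2 : 0 < Real.log 2 := Real.log_pos (by norm_num)
  have h3 : ∀ h ∈ H, ((h + t).primeFactors.card : ℝ) ≤ Real.log (2 * N + 1) / Real.log 2 := by
    intro h hh
    have h4 : 2 ^ (h + t).primeFactors.card ≤ ∏ p ∈ (h + t).primeFactors, p :=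
      pow_card_le_prod _ _ _ fun p hp => (Nat.prime_of_mem_primeFactors hp).two_le
    have h5 : ∏ p ∈ (h + t).primeFactors, p ≤ h + t :=
      Nat.le_of_dvd (by omega) (Nat.prod_primeFactors_dvd _)
    have h6 : 2 ^ (h + t).primeFactors.card ≤ 2 * N + 1 := by
      have := hH h hh
      omega
    have h7 : (2 : ℝ) ^ (h + t).primeFactors.card ≤ 2 * N + 1 := by exact_mod_cast h6
    rw [le_div_iff₀ hl2, ← Real.log_pow]
    exact Real.log_le_log (by positivity) h7
  calc (((prs Y).filter (fun p => ∃ h ∈ H, p ∣ h + t)).card : ℝ)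
      ≤ ((∑ h ∈ H, (h + t).primeFactors.card : ℕ) : ℝ) := by exact_mod_cast h2
    _ = ∑ h ∈ H, ((h + t).primeFactors.card : ℝ) := by push_cast; rfl
    _ ≤ ∑ h ∈ H, Real.log (2 * N + 1) / Real.log 2 := sum_le_sum h3
    _ = H.card * (Real.log (2 * N + 1) / Real.log 2) := by rw [sum_const, nsmul_eq_mul]

end Pool.Agent.LibT63
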