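import Pool.Agent.LibT63.CDefs

set_option autoImplicit false

namespace Pool.Agent.LibT63

open Finset Pool.Agent.LibRG87

theorem C8_ev (k : ℕ) (A : ℝ) : ∃ Y0 : ℕ, ∀ Y : ℕ, Y0 ≤ Y → A * (Real.log (Real.log Y)) ^ k ≤ Real.log Y := by
  have t1 : Filter.Tendsto (fun Y : ℕ => Real.log Y) Filter.atTop Filter.atTop :=
    Real.tendsto_log_atTop.comp tendsto_natCast_atTop_atTop
  have h := (Real.isLittleO_pow_log_id_atTop (n := k)).def (show (0 : ℝ) < 1 / (|A| + 1) by positivity)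
  have h2 := t1.eventually (h.and (Filter.eventually_ge_atTop (1 : ℝ)))
  obtain ⟨Y0, h3⟩ := Filter.eventually_atTop.1 h2
  refine ⟨Y0, fun Y hY => ?_⟩
  obtain ⟨h4, h5⟩ := h3 Y hY
  simp only [id, Real.norm_eq_abs] at h4
  rw [abs_of_nonneg (show (0 : ℝ) ≤ Real.log Y by linarith)] at h4
  have h6 : 0 ≤ |Real.log (Real.log Y) ^ k| := abs_nonneg _
  have h7 : A * Real.log (Real.log Y) ^ k ≤ |A| * |Real.log (Real.log Y) ^ k| := by
    rw [← abs_mul]; exact le_abs_self _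
  have h8 : |A| * |Real.log (Real.log Y) ^ k| ≤ (|A| + 1) * |Real.log (Real.log Y) ^ k| := by nlinarith
  have h9 : (|A| + 1) * |Real.log (Real.log Y) ^ k| ≤ (|A| + 1) * (1 / (|A| + 1) * Real.log Y) :=
    mul_le_mul_of_nonneg_left h4 (by positivity)
  have h10 : (|A| + 1) * (1 / (|A| + 1) * Real.log Y) = Real.log Y := by
    field_simp
  linarith

theorem C8_ev2 (k : ℕ) (A : ℝ) : ∃ Y0 : ℕ, ∀ Y : ℕ, Y0 ≤ Y → A * (Real.log Y) ^ k ≤ Real.sqrt Y := by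
  have t1 : Filter.Tendsto (fun Y : ℕ => Real.sqrt Y) Filter.atTop Filter.atTop :=
    Real.tendsto_sqrt_atTop.comp tendsto_natCast_atTop_atTop
  have h := (Real.isLittleO_pow_log_id_atTop (n := k)).def
    (show (0 : ℝ) < 1 / ((|A| + 1) * 2 ^ k) by positivity)
  have h2 := t1.eventually (h.and (Filter.eventually_ge_atTop (1 : ℝ)))
  obtain ⟨Y0, h3⟩ := Filter.eventually_atTop.1 h2
  refine ⟨Y0, fun Y hY => ?_⟩
  obtain ⟨h4, h5⟩ := h3 Y hY
  simp only [id, Real.norm_eq_abs] at h4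
  rw [abs_of_nonneg (show (0 : ℝ) ≤ Real.sqrt Y by positivity),
    Real.log_sqrt (by positivity)] at h4
  rw [abs_pow] at h4
  have h6 : A * Real.log Y ^ k ≤ |A| * |Real.log Y| ^ k := by
    rw [← abs_pow, ← abs_mul]; exact le_abs_self _
  have h6' : |Real.log Y / 2| ^ k = |Real.log Y| ^ k / 2 ^ k := by
    rw [abs_div, abs_of_pos (show (0 : ℝ) < 2 by norm_num), div_pow]
  rw [h6'] at h4
  have h7 : |Real.log Y| ^ k ≤ 2 ^ k * (1 / ((|A| + 1) * 2 ^ k) * Real.sqrt Y) := by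
    rw [div_le_iff₀ (by positivity)] at h4
    linarith
  have h8 : 2 ^ k * (1 / ((|A| + 1) * 2 ^ k) * Real.sqrt Y) = Real.sqrt Y / (|A| + 1) := by
    field_simp
  rw [h8] at h7
  have h9 : (|A| + 1) * |Real.log Y| ^ k ≤ Real.sqrt Y := by
    rw [le_div_iff₀ (by positivity)] at h7
    linarith
  have h10 : 0 ≤ |Real.log (Y : ℝ)| ^ k := by positivity
  nlinarith

/-- ROW C8.  `vY κ Y = ⌊exp (log Y log₃ Y / (κ log₂ Y))⌋`, and `log Y log₃ Y / (κ log₂ Y) ≥ (k + 1) log₂ Y` for large `Y`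
(`(log₂ Y)² ≤ log Y / (κ (k+1))`, `log₃ Y ≥ 1`), so `vY ≥ (log Y)^(k+1) - 1 ≥ (log Y)^k`. -/
theorem vY_big (κ : ℝ) (hκ : 1 ≤ κ) (k : ℕ) : ∃ Y0 : ℕ, ∀ Y : ℕ, Y0 ≤ Y →
    (Real.log Y) ^ k ≤ (vY κ Y : ℝ) := by
  obtain ⟨Y1, h1⟩ := E11_ev (max ((4 * κ) ^ 2) 1)
  obtain ⟨Y2, h2⟩ := C8_ev 2 (2 * κ * k)
  refine ⟨max Y1 Y2, fun Y hY => ?_⟩
  obtain ⟨a1, a2, a3, a4⟩ := h1 Y (le_trans (le_max_left _ _) hY)
  have a5 := h2 Y (le_trans (le_max_right _ _) hY)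
  obtain ⟨b1, b2, b3⟩ := E11_vY hκ a1 (le_trans (le_max_left _ _) a2) (le_trans (le_max_right _ _) a2) a3 a4
  set L1 := Real.log Y
  set L2 := Real.log L1
  set L3 := Real.log L2
  have hL1 : 1 ≤ L1 := le_trans (le_max_right _ _) a2
  have hv : (0 : ℝ) < vY κ Y := by
    have : (2 : ℝ) ≤ vY κ Y := by exact_mod_cast b2
    linarith
  have hle : k * L2 ≤ Real.log (vY κ Y) := by
    refine le_trans ?_ b3
    rw [le_div_iff₀ (by positivity)]
    have : L1 * 1 ≤ L1 * L3 := mul_le_mul_of_nonneg_left a4 (by linarith)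
    nlinarith
  have := Real.exp_le_exp.2 hle
  rw [Real.exp_log hv] at this
  have e : Real.exp (k * L2) = L1 ^ k := by
    rw [mul_comm, Real.exp_mul, Real.exp_log (by linarith), Real.rpow_natCast]
  rwa [e] at this

/-- ROW C8.  `hY c Y = ⌊c X⌋`, `X = Y (log Y)² log₃ Y / (log₂ Y)² → ∞` (e.g. `X ≥ Y` for large `Y`). -/
theorem hY_double (c : ℝ) (hc : 0 < c) : ∃ Y0 : ℕ, ∀ Y : ℕ, Y0 ≤ Y →
    2 * hY c Y + 1 ≤ hY (3 * c) Y ∧ (hY (3 * c) Y : ℝ) ≤ 6 * hY c Y := by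
  obtain ⟨Y1, h1⟩ := E11_ev 1
  obtain ⟨Y2, h2⟩ := C8_ev 2 1
  refine ⟨max (max Y1 Y2) (⌈1 / c⌉₊ + 1), fun Y hY => ?_⟩
  obtain ⟨a1, a2, a3, a4⟩ := h1 Y (le_trans (le_trans (le_max_left _ _) (le_max_left _ _)) hY)
  have a5 := h2 Y (le_trans (le_trans (le_max_right _ _) (le_max_left _ _)) hY)
  have a6 : (1 : ℝ) / c ≤ Y := by
    have e1 : (1 : ℝ) / c ≤ ⌈1 / c⌉₊ := Nat.le_ceil _
    have e2 : (⌈1 / c⌉₊ : ℝ) + 1 ≤ Y := by exact_mod_cast le_trans (le_max_right _ _) hY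
    linarith
  unfold Pool.Agent.LibRG87.hY
  set L1 := Real.log Y
  set L2 := Real.log L1
  set L3 := Real.log L2
  have e3 : (3 * c) * (Y : ℝ) * L1 ^ 2 * L3 / L2 ^ 2 = 3 * (c * Y * L1 ^ 2 * L3 / L2 ^ 2) := by ring
  rw [e3]
  set t := c * Y * L1 ^ 2 * L3 / L2 ^ 2 with ht
  have hcY : 1 ≤ c * Y := by
    rw [div_le_iff₀ hc] at a6; linarith
  have ht1 : 1 ≤ t := by
    rw [ht, le_div_iff₀ (by positivity)]
    have f1 : L2 ^ 2 ≤ L1 := by linarith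
    have f2 : L1 ≤ L1 ^ 2 := by nlinarith
    have f3 : L1 ^ 2 ≤ c * Y * L1 ^ 2 := by nlinarith [sq_nonneg L1]
    have f4 : c * Y * L1 ^ 2 * 1 ≤ c * Y * L1 ^ 2 * L3 := mul_le_mul_of_nonneg_left a4 (by positivity)
    linarith
  have g1 : (⌊t⌋₊ : ℝ) ≤ t := Nat.floor_le (by linarith)
  have g2 : t < ⌊t⌋₊ + 1 := Nat.lt_floor_add_one t
  have g3 : 1 ≤ ⌊t⌋₊ := Nat.le_floor (by exact_mod_cast ht1)
  have g3' : (1 : ℝ) ≤ ⌊t⌋₊ := by exact_mod_cast g3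
  constructor
  · apply Nat.le_floor
    push_cast
    linarith
  · have g4 : (⌊3 * t⌋₊ : ℝ) ≤ 3 * t := Nat.floor_le (by linarith)
    linarith

/-- ROW C8.  The numbers which are divisible by an excluded medium prime are few. -/
theorem bad_small (K : ℕ) (κ c ε : ℝ) (hκ : 1 ≤ κ) (hc : 0 < c) (hε : 0 < ε) : ∃ Y0 : ℕ, ∀ Y : ℕ, Y0 ≤ Y →
    (2 * (hY c Y : ℝ) + 1) * ((Real.log Y) ^ 4 / Real.sqrt Y +
      (1 + K * (Real.log (2 * hY c Y + 1) / Real.log 2)) / vY κ Y) ≤ ε * Y := by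
  obtain ⟨Y1, h1⟩ := E11_ev (max (max 1 (Real.log (2 * c + 1))) (2 * (2 * c + 1) * (1 + 6 * K) / ε))
  obtain ⟨Y2, h2⟩ := C8_ev 1 1
  obtain ⟨Y3, h3⟩ := C8_ev2 6 (2 * (2 * c + 1) / ε)
  obtain ⟨Y4, h4⟩ := vY_big κ hκ 4
  refine ⟨max (max Y1 Y2) (max Y3 Y4), fun Y hY => ?_⟩
  obtain ⟨a1, a2, a3, a4⟩ := h1 Y (le_trans (le_trans (le_max_left _ _) (le_max_left _ _)) hY)
  have a5 := h2 Y (le_trans (le_trans (le_max_right _ _) (le_max_left _ _)) hY)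
  have a6 := h3 Y (le_trans (le_trans (le_max_left _ _) (le_max_right _ _)) hY)
  have a7 := h4 Y (le_trans (le_trans (le_max_right _ _) (le_max_right _ _)) hY)
  have hhY : (Pool.Agent.LibRG87.hY c Y : ℝ) ≤ c * Y * (Real.log Y) ^ 2 * Real.log (Real.log (Real.log Y)) /
      (Real.log (Real.log Y)) ^ 2 := by
    unfold Pool.Agent.LibRG87.hY
    exact Nat.floor_le (by positivity)
  set L1 := Real.log Y
  set L2 := Real.log L1
  set L3 := Real.log L2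
  set h := (Pool.Agent.LibRG87.hY c Y : ℝ) with hh
  have hh0 : 0 ≤ h := Nat.cast_nonneg _
  have b1 : 1 ≤ L1 := le_trans (le_trans (le_max_left _ _) (le_max_left _ _)) a2
  have b2 : Real.log (2 * c + 1) ≤ L1 := le_trans (le_trans (le_max_right _ _) (le_max_left _ _)) a2
  have b3 : 2 * (2 * c + 1) * (1 + 6 * K) / ε ≤ L1 := le_trans (le_max_right _ _) a2
  have hY1 : (1000 : ℝ) ≤ Y := by exact_mod_cast a1
  have hYL : 1 ≤ (Y : ℝ) * L1 ^ 2 := by nlinarith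
  have c1 : h ≤ c * (Y * L1 ^ 2) := by
    refine le_trans hhY ?_
    rw [div_le_iff₀ (by positivity)]
    have f1 : L3 ≤ L2 := by
      have := Real.log_le_sub_one_of_pos (show 0 < L2 by linarith)
      linarith
    have f2 : L3 ≤ L2 ^ 2 := by nlinarith
    calc c * Y * L1 ^ 2 * L3 = c * (Y * L1 ^ 2) * L3 := by ring
      _ ≤ c * (Y * L1 ^ 2) * L2 ^ 2 := mul_le_mul_of_nonneg_left f2 (by positivity)
  have c2 : 2 * h + 1 ≤ (2 * c + 1) * (Y * L1 ^ 2) := by nlinarith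
  -- first part
  have hsq : Real.sqrt Y * Real.sqrt Y = Y := Real.mul_self_sqrt (by linarith)
  have hs0 : 0 < Real.sqrt Y := Real.sqrt_pos.2 (by linarith)
  have p1 : (2 * h + 1) * (L1 ^ 4 / Real.sqrt Y) ≤ ε / 2 * Y := by
    have q1 : (2 * h + 1) * (L1 ^ 4 / Real.sqrt Y) ≤ (2 * c + 1) * (Y * L1 ^ 2) * (L1 ^ 4 / Real.sqrt Y) :=
      mul_le_mul_of_nonneg_right c2 (by positivity)
    have q2 : (2 * c + 1) * (Y * L1 ^ 2) * (L1 ^ 4 / Real.sqrt Y) = (2 * c + 1) * L1 ^ 6 * Real.sqrt Y := by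
      field_simp
      rw [Real.sq_sqrt (by linarith)]
    have q3 : (2 * c + 1) * L1 ^ 6 ≤ ε / 2 * Real.sqrt Y := by
      rw [div_mul_eq_mul_div, div_le_iff₀ hε] at a6
      linarith
    have q4 : (2 * c + 1) * L1 ^ 6 * Real.sqrt Y ≤ ε / 2 * Real.sqrt Y * Real.sqrt Y :=
      mul_le_mul_of_nonneg_right q3 hs0.le
    rw [mul_assoc (ε / 2), hsq] at q4
    linarith
  -- second part
  have hL4 : 0 < L1 ^ 4 := by positivity
  have hv : (0 : ℝ) < vY κ Y := lt_of_lt_of_le hL4 a7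
  have d1 : Real.log (2 * h + 1) ≤ 4 * L1 := by
    have g1 : Real.log (2 * h + 1) ≤ Real.log ((2 * c + 1) * (Y * L1 ^ 2)) :=
      Real.log_le_log (by positivity) c2
    rw [Real.log_mul (by positivity) (by positivity), Real.log_mul (by positivity) (by positivity),
      Real.log_pow] at g1
    push_cast at g1
    have g2 : L2 ≤ L1 := by rw [pow_one, one_mul] at a5; exact a5
    have g3 : Real.log (Y : ℝ) = L1 := rfl
    have g4 : Real.log L1 = L2 := rfl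
    rw [g3, g4] at g1
    linarith
  have d0 : 0 ≤ Real.log (2 * h + 1) := Real.log_nonneg (by linarith)
  have d2 : 1 + K * (Real.log (2 * h + 1) / Real.log 2) ≤ (1 + 6 * K) * L1 := by
    have g1 : Real.log (2 * h + 1) / Real.log 2 ≤ 6 * L1 := by
      rw [div_le_iff₀ (Real.log_pos (by norm_num))]
      have := Real.log_two_gt_d9
      nlinarith
    have g2 : (K : ℝ) * (Real.log (2 * h + 1) / Real.log 2) ≤ K * (6 * L1) :=
      mul_le_mul_of_nonneg_left g1 (Nat.cast_nonneg _)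
    nlinarith
  have d3 : (1 + K * (Real.log (2 * h + 1) / Real.log 2)) / vY κ Y ≤ (1 + 6 * K) * L1 / L1 ^ 4 := by
    apply div_le_div₀ (by positivity) d2 hL4 a7
  have p2 : (2 * h + 1) * ((1 + K * (Real.log (2 * h + 1) / Real.log 2)) / vY κ Y) ≤ ε / 2 * Y := by
    have q1 : (2 * h + 1) * ((1 + K * (Real.log (2 * h + 1) / Real.log 2)) / vY κ Y) ≤
        (2 * c + 1) * (Y * L1 ^ 2) * ((1 + 6 * K) * L1 / L1 ^ 4) := by
      apply mul_le_mul c2 d3 (by positivity) (by positivity)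
    have q2 : (2 * c + 1) * (Y * L1 ^ 2) * ((1 + 6 * K) * L1 / L1 ^ 4) =
        (2 * c + 1) * (1 + 6 * K) / L1 * Y := by
      have : L1 ≠ 0 := by positivity
      field_simp
    have q3 : (2 * c + 1) * (1 + 6 * K) / L1 ≤ ε / 2 := by
      rw [div_le_iff₀ (by linarith)]
      rw [div_le_iff₀ hε] at b3
      linarith
    rw [q2] at q1
    exact le_trans q1 (mul_le_mul_of_nonneg_right q3 (by linarith))
  rw [mul_add]
  linarith

end Pool.Agent.LibT63
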