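import Pool.Agent.LibT63.C1
import Pool.Agent.LibT63.C2
import Pool.Agent.LibT63.C3b
import Pool.Agent.LibT63.C4
import Pool.Agent.LibT63.C5
import Pool.Agent.LibT63.C6
import Pool.Agent.LibT63.C7
import Pool.Agent.LibT63.C8

set_option autoImplicit false

namespace Pool.Agent.LibT63

open Finset Pool.Agent.LibRG87

theorem C9_vY_sqrt {κ : ℝ} (hκ : 1 ≤ κ) {Y : ℕ} (hY : 1000 ≤ Y)
    (h1' : 1 ≤ Real.log Y)
    (h2 : 1 ≤ Real.log (Real.log Y)) (h3 : 1 ≤ Real.log (Real.log (Real.log Y))) :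
    (vY κ Y : ℝ) ≤ Real.sqrt Y := by
  set L1 := Real.log Y with hL1d
  set L2 := Real.log L1
  set L3 := Real.log L2
  have hYp : (1000 : ℝ) ≤ Y := by exact_mod_cast hY
  set E := L1 * L3 / (κ * L2) with hE
  have hκL : 0 < κ * L2 := by positivity
  have hEh : E ≤ L1 / 2 := by
    rw [hE, div_le_iff₀ hκL]
    have e1 : L3 ≤ L2 / 2 := E11_log_half (by linarith)
    have e2 : L2 ≤ κ * L2 := by nlinarith
    nlinarith
  have hfl2 : (vY κ Y : ℝ) ≤ Real.exp E := Nat.floor_le (Real.exp_pos _).le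
  refine hfl2.trans ?_
  have : Real.sqrt Y = Real.exp (L1 / 2) := by
    rw [Real.sqrt_eq_rpow, Real.rpow_def_of_pos (by linarith)]
    congr 1
    ring
  rw [this]
  exact Real.exp_le_exp.2 hEh

theorem C9_shift {p t b : ℕ} (hp : 0 < p) : b ≡ p - t % p [MOD p] ↔ p ∣ b + t := by
  have h1 : (p - t % p) + t ≡ 0 [MOD p] := by
    have h2 : t % p < p := Nat.mod_lt t hp
    have h3 : t ≡ t % p [MOD p] := (Nat.mod_modEq t p).symm
    have h4 : (p - t % p) + t ≡ (p - t % p) + t % p [MOD p] := Nat.ModEq.add_left _ h3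
    rw [Nat.sub_add_cancel h2.le] at h4
    exact h4.trans (by rw [Nat.ModEq, Nat.mod_self, Nat.zero_mod])
  constructor
  · intro h
    have h2 : b + t ≡ 0 [MOD p] := (Nat.ModEq.add_right t h).trans h1
    exact (Nat.modEq_zero_iff_dvd).mp h2
  · intro h
    have h2 : b + t ≡ 0 [MOD p] := (Nat.modEq_zero_iff_dvd).mpr h
    exact Nat.ModEq.add_right_cancel' t (h2.trans h1.symm)

/-- the part of the count which comes from the excluded primes -/
theorem C9_bad (K Y N t v : ℕ) (E : Finset ℕ) (p1 : ℕ) (H : Finset ℕ) (hHK : H.card = K)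
    (hE : (E.card : ℝ) ≤ (Real.log Y) ^ 4) (hEY : ∀ p ∈ E, Real.sqrt Y < p) (hY : 1 ≤ Y)
    (hH : ∀ h ∈ H, h ≤ N) (ht : 1 ≤ t) (htN : t ≤ N + 1) (hv : 1 ≤ v) :
    (((range (N + 1)).filter fun j => ∃ p ∈ E ∪ ((insert p1
      ((prs Y).filter (fun p => ∃ h ∈ H, p ∣ h + t))).filter fun p => v < p), p ∣ j + t).card : ℝ) ≤
    (2 * (N : ℝ) + 1) * ((Real.log Y) ^ 4 / Real.sqrt Y +
      (1 + K * (Real.log (2 * N + 1) / Real.log 2)) / v) := by
  classical
  set B2 := (insert p1 ((prs Y).filter (fun p => ∃ h ∈ H, p ∣ h + t))).filter fun p => v < p with hB2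
  have hYR : (1 : ℝ) ≤ Y := by exact_mod_cast hY
  have hsq : 1 ≤ Real.sqrt Y := Real.one_le_sqrt.mpr hYR
  have hvR : (1 : ℝ) ≤ v := by exact_mod_cast hv
  have hB : ∀ p ∈ E ∪ B2, 1 ≤ p := by
    intro p hp
    rcases mem_union.mp hp with h | h
    · have h1 := hEY p h
      have : (1 : ℝ) ≤ p := by linarith
      exact_mod_cast this
    · rw [hB2, mem_filter] at h
      omega
  refine (bad_count (E ∪ B2) hB N t ht).trans ?_
  have hNt : (N : ℝ) + t ≤ 2 * N + 1 := by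
    have : (t : ℝ) ≤ N + 1 := by exact_mod_cast htN
    linarith
  have hN0 : (0 : ℝ) ≤ N := Nat.cast_nonneg _
  have ht0 : (0 : ℝ) ≤ t := Nat.cast_nonneg _
  have h1 : ∑ p ∈ E ∪ B2, ((N : ℝ) + t) / p ≤ ∑ p ∈ E, ((N : ℝ) + t) / p + ∑ p ∈ B2, ((N : ℝ) + t) / p := by
    have := Finset.sum_union_inter (s₁ := E) (s₂ := B2) (f := fun p : ℕ => ((N : ℝ) + t) / p)
    have h2 : 0 ≤ ∑ p ∈ E ∩ B2, ((N : ℝ) + t) / p := Finset.sum_nonneg fun p _ => by positivity
    linarith
  refine h1.trans ?_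
  have h2 : ∑ p ∈ E, ((N : ℝ) + t) / p ≤ (2 * N + 1) * ((Real.log Y) ^ 4 / Real.sqrt Y) := by
    calc ∑ p ∈ E, ((N : ℝ) + t) / p ≤ ∑ _p ∈ E, (2 * (N : ℝ) + 1) / Real.sqrt Y := by
          refine Finset.sum_le_sum fun p hp => ?_
          exact div_le_div₀ (by positivity) hNt (by linarith) (hEY p hp).le
      _ = E.card * ((2 * (N : ℝ) + 1) / Real.sqrt Y) := by
          rw [Finset.sum_const, nsmul_eq_mul]
      _ ≤ (Real.log Y) ^ 4 * ((2 * (N : ℝ) + 1) / Real.sqrt Y) :=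
          mul_le_mul_of_nonneg_right hE (by positivity)
      _ = _ := by ring
  have hcard : (B2.card : ℝ) ≤ 1 + K * (Real.log (2 * N + 1) / Real.log 2) := by
    have h3 : B2.card ≤ ((prs Y).filter (fun p => ∃ h ∈ H, p ∣ h + t)).card + 1 := by
      rw [hB2]
      exact (Finset.card_filter_le _ _).trans (Finset.card_insert_le _ _)
    have h4 := bad_primes H N t Y hH ht htN
    rw [hHK] at h4
    have h5 : (B2.card : ℝ) ≤ (((prs Y).filter (fun p => ∃ h ∈ H, p ∣ h + t)).card : ℝ) + 1 := by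
      exact_mod_cast h3
    linarith
  have h3 : ∑ p ∈ B2, ((N : ℝ) + t) / p ≤
      (2 * N + 1) * ((1 + K * (Real.log (2 * N + 1) / Real.log 2)) / v) := by
    calc ∑ p ∈ B2, ((N : ℝ) + t) / p ≤ ∑ _p ∈ B2, (2 * (N : ℝ) + 1) / v := by
          refine Finset.sum_le_sum fun p hp => ?_
          rw [hB2, mem_filter] at hp
          have : (v : ℝ) ≤ p := by exact_mod_cast hp.2.le
          exact div_le_div₀ (by positivity) hNt (by linarith) this
      _ = B2.card * ((2 * (N : ℝ) + 1) / v) := by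
          rw [Finset.sum_const, nsmul_eq_mul]
      _ ≤ (1 + K * (Real.log (2 * N + 1) / Real.log 2)) * ((2 * (N : ℝ) + 1) / v) :=
          mul_le_mul_of_nonneg_right hcard (by positivity)
      _ = _ := by ring
  linarith

/-- **Block C**: the classes. -/
theorem classes (K q : ℕ) (hq : 1 ≤ q) (ε : ℝ) (hε : 0 < ε) : ∃ c : ℝ, 0 < c ∧ ∃ Y0 : ℕ, ∀ Y : ℕ, Y0 ≤ Y →
    ∀ (E : Finset ℕ) (p1 a : ℕ) (H : Finset ℕ), (E.card : ℝ) ≤ (Real.log Y) ^ 4 →
    (∀ p ∈ E, Real.sqrt Y < p) → H.card = K → (∀ h ∈ H, h ≤ hY c Y) →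
    (∀ p : ℕ, p.Prime → ∃ r : ℕ, ∀ h ∈ H, ¬ h ≡ r [MOD p]) → (∀ h ∈ H, (a + h).Coprime q) →
    ∃ n0 : ℕ, n0 ≡ a [MOD q] ∧ (∀ h ∈ H, (n0 + h).Coprime (M0 q Y E p1)) ∧
      ((((range (hY c Y + 1)).filter fun j => j ∉ H ∧ (n0 + j).Coprime (M0 q Y E p1)).card : ℝ) ≤
        ε * Y) := by
  classical
  obtain ⟨κ, hκ, C1, hC1, hS⟩ := surv_small
  obtain ⟨CG, hCG, hGG⟩ := sum_GG K
  obtain ⟨C4, hC4, hpr⟩ := prod_small K q hq
  set D : ℝ := 6 * κ * C4 * CG * C1 with hD
  have hD0 : 0 < D := by positivity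
  set c : ℝ := min (1 / 3) (ε / (2 * D)) with hc
  have hc0 : 0 < c := lt_min (by norm_num) (by positivity)
  have hc3 : 3 * c ≤ 1 := by
    have := min_le_left (1 / 3 : ℝ) (ε / (2 * D))
    rw [← hc] at this
    linarith
  have hDc : D * c ≤ ε / 2 := by
    have := min_le_right (1 / 3 : ℝ) (ε / (2 * D))
    rw [← hc, le_div_iff₀ (by positivity)] at this
    linarith
  obtain ⟨Y1, hY1⟩ := hS (3 * c) (by linarith) hc3
  obtain ⟨Y2, hY2⟩ := E11_ev (max 1 ((4 * κ) ^ 2))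
  obtain ⟨Y3, hY3⟩ := hY_double c hc0
  obtain ⟨Y4, hY4⟩ := bad_small K κ c (ε / 2) hκ hc0 (by positivity)
  obtain ⟨Y5, hY5⟩ := vY_big κ hκ 1
  obtain ⟨Y6, hY6⟩ := E11_ev (q : ℝ)
  refine ⟨c, hc0, max (max (max Y1 Y2) (max Y3 Y4)) (max Y5 Y6), ?_⟩
  intro Y hYY E p1 a H hE hEY hHK hHN hAdm hHq
  have g1 : Y1 ≤ Y := le_trans (le_trans (le_max_left _ _) (le_max_left _ _)) (le_trans (le_max_left _ _) hYY)
  have g2 : Y2 ≤ Y := le_trans (le_trans (le_max_right _ _) (le_max_left _ _)) (le_trans (le_max_left _ _) hYY)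
  have g3 : Y3 ≤ Y := le_trans (le_trans (le_max_left _ _) (le_max_right _ _)) (le_trans (le_max_left _ _) hYY)
  have g4 : Y4 ≤ Y := le_trans (le_trans (le_max_right _ _) (le_max_right _ _)) (le_trans (le_max_left _ _) hYY)
  have g5 : Y5 ≤ Y := le_trans (le_max_left _ _) (le_trans (le_max_right _ _) hYY)
  have g6 : Y6 ≤ Y := le_trans (le_max_right _ _) (le_trans (le_max_right _ _) hYY)
  obtain ⟨h1000, hL1, hL2, hL3⟩ := hY2 Y g2
  have hL1a : 1 ≤ Real.log Y := le_trans (le_max_left _ _) hL1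
  have hL1b : (4 * κ) ^ 2 ≤ Real.log Y := le_trans (le_max_right _ _) hL1
  obtain ⟨hv8, hv2, hvlog⟩ := E11_vY hκ h1000 hL1b hL1a hL2 hL3
  have hvs := C9_vY_sqrt hκ h1000 hL1a hL2 hL3
  have hsv := hY1 Y g1
  have hdb := hY3 Y g3
  have hbad := hY4 Y g4
  have hvq : q ≤ vY κ Y := by
    have h1 := hY5 Y g5
    have h2 := (hY6 Y g6).2.1
    rw [pow_one] at h1
    exact_mod_cast h2.trans h1
  set v := vY κ Y with hv
  set N := hY c Y with hN
  set N3 := hY (3 * c) Y with hN3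
  set P1 : Finset ℕ := (prs v).filter (fun p => 2 * K < p ∧ p ≠ p1 ∧ ¬ p ∣ q) with hP1
  have hP1p : ∀ p ∈ P1, p.Prime := fun p hp => (mem_prs.1 (mem_filter.1 hp).1).1
  set J0 : Finset ℕ := range (N + 1) \ H with hJ0
  set A : Finset ℕ := Surv N3 v (Y / 8) with hA
  have hGG0 : ∀ j, 0 ≤ GG H P1 j := by
    intro j
    refine Finset.prod_nonneg fun p hp => ?_
    have hp2 : (2 : ℝ) ≤ p := by exact_mod_cast (hP1p p hp).two_le
    split_ifs
    · rw [inv_nonneg, sub_nonneg, div_le_one (by linarith)]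
      linarith
    · exact zero_le_one
  obtain ⟨t, ht, hsum⟩ := shift_avg N J0 A (GG H P1) fun j _ => hGG0 j
  rw [mem_Icc] at ht
  have hN1 : (0 : ℝ) < (N : ℝ) + 1 := by positivity
  have hsum2 : ∑ j ∈ J0.filter (fun j => j + t ∈ A), GG H P1 j ≤ A.card * CG := by
    refine hsum.trans ?_
    have h1 := hGG H P1 N hHK hHN fun p hp => ⟨hP1p p hp, (mem_filter.1 hp).2.1⟩
    calc (A.card : ℝ) / (N + 1) * ∑ j ∈ J0, GG H P1 j ≤ (A.card : ℝ) / (N + 1) * (CG * (N + 1)) :=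
          mul_le_mul_of_nonneg_left h1 (by positivity)
      _ = A.card * CG := by
          field_simp
  set S : Finset ℕ := J0.filter (fun j => j + t ∈ A) with hSd
  have hAl : ∀ p : ℕ, p.Prime → (Al H p).Nonempty := fun p hp =>
    Al_nonempty H p hp.pos (hAdm p hp)
  obtain ⟨c1, hc1, hcnt⟩ := classes_avg S P1 (fun p hp => (hP1p p hp).pos) (Al H)
    (fun p hp => ⟨hAl p (hP1p p hp), Finset.filter_subset _ _⟩) (fun _ => 1) fun _ _ => zero_le_one
  have hlogv : 0 < Real.log (v : ℝ) := Real.log_pos (by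
    have : (2 : ℝ) ≤ (v : ℝ) := by exact_mod_cast hv2
    linarith)
  have hmain : (((S.filter (fun j => ∀ p ∈ P1, ¬ j ≡ c1 p [MOD p])).card : ℕ) : ℝ) ≤
      C4 / Real.log v * (A.card * CG) := by
    have h1 : (((S.filter (fun j => ∀ p ∈ P1, ¬ j ≡ c1 p [MOD p])).card : ℕ) : ℝ) =
        ∑ _j ∈ S.filter (fun j => ∀ p ∈ P1, ¬ j ≡ c1 p [MOD p]), (1 : ℝ) := by
      simp
    rw [h1]
    refine hcnt.trans ?_
    have hpr0 : 0 ≤ ∏ p ∈ P1, (1 - 1 / (p : ℝ)) := by
      refine Finset.prod_nonneg fun p hp => ?_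
      have hp2 : (2 : ℝ) ≤ p := by exact_mod_cast (hP1p p hp).two_le
      rw [sub_nonneg, div_le_one (by linarith)]
      linarith
    calc ∑ j ∈ S, 1 * ∏ p ∈ P1, (1 - if j % p ∈ Al H p then 1 / ((Al H p).card : ℝ) else 0)
        ≤ ∑ j ∈ S, (∏ p ∈ P1, (1 - 1 / (p : ℝ))) * GG H P1 j := by
          refine Finset.sum_le_sum fun j _ => ?_
          rw [one_mul]
          exact prod_factor_le H P1 j hP1p
      _ = (∏ p ∈ P1, (1 - 1 / (p : ℝ))) * ∑ j ∈ S, GG H P1 j := by rw [Finset.mul_sum]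
      _ ≤ C4 / Real.log v * (A.card * CG) := by
          refine mul_le_mul (hpr v p1 hv2) hsum2 (Finset.sum_nonneg fun j _ => hGG0 j) (by positivity)
  -- the class function
  choose! r hr using fun (p : ℕ) (hp : p.Prime) => hAl p hp
  set cc : ℕ → ℕ := fun p => if p ∈ P1 then c1 p else
    if p ≤ v then r p else if ∃ h ∈ H, p ∣ h + t then r p else p - t % p with hcc
  have hPM : ∀ p ∈ PM q Y E p1, p.Prime ∧ ¬ p ∣ q := fun p hp =>
    ⟨(mem_prs.1 (mem_filter.1 hp).1).1, (mem_filter.1 hp).2.2.2⟩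
  obtain ⟨n0, hn0, hcl⟩ := crt_q q hq (PM q Y E p1) hPM a cc
  have hcop : ∀ b : ℕ, (n0 + b).Coprime (M0 q Y E p1) → ∀ p ∈ PM q Y E p1, ¬ p ∣ n0 + b := by
    intro b hb p hp hpd
    have hpp := (hPM p hp).1
    have h1 : p ∣ M0 q Y E p1 := Dvd.dvd.mul_left (Finset.dvd_prod_of_mem (fun p => p) hp) q
    have h2 := Nat.dvd_gcd hpd h1
    rw [hb] at h2
    exact hpp.one_lt.ne' (Nat.dvd_one.1 h2)
  refine ⟨n0, hn0, ?_, ?_⟩
  · intro h hh
    rw [M0]
    refine Nat.Coprime.mul_right ?_ ?_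
    · have h1 : (n0 + h) ≡ (a + h) [MOD q] := Nat.ModEq.add_right h hn0
      have h2 : Nat.gcd (n0 + h) q = Nat.gcd (a + h) q := Nat.ModEq.gcd_eq h1
      rw [Nat.Coprime, h2]
      exact hHq h hh
    · rw [Nat.coprime_prod_right_iff]
      intro p hp
      have hpp := (hPM p hp).1
      rw [Nat.coprime_comm, Nat.Prime.coprime_iff_not_dvd hpp, hcl p hp h]
      intro hmod
      have hr' := hr p hpp
      rw [Al, mem_filter] at hr'
      simp only [hcc] at hmod
      split_ifs at hmod with i1 i2 i3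
      · have h1 := hc1 p i1
        rw [Al, mem_filter] at h1
        exact h1.2 h hh hmod
      · exact hr'.2 h hh hmod
      · exact hr'.2 h hh hmod
      · exact i3 ⟨h, hh, (C9_shift hpp.pos).1 hmod⟩
  · set B : Finset ℕ := E ∪ ((insert p1
      ((prs Y).filter (fun p => ∃ h ∈ H, p ∣ h + t))).filter fun p => v < p) with hB
    have hsub : ((range (N + 1)).filter fun j => j ∉ H ∧ (n0 + j).Coprime (M0 q Y E p1)) ⊆
        (S.filter (fun j => ∀ p ∈ P1, ¬ j ≡ c1 p [MOD p])) ∪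
          ((range (N + 1)).filter fun j => ∃ p ∈ B, p ∣ j + t) := by
      intro j hj
      rw [mem_filter] at hj
      obtain ⟨hjN, hjH, hjc⟩ := hj
      rw [mem_union]
      by_cases hb : ∃ p ∈ B, p ∣ j + t
      · right
        rw [mem_filter]
        exact ⟨hjN, hb⟩
      left
      rw [mem_filter, hSd, mem_filter, hJ0, mem_sdiff]
      refine ⟨⟨⟨hjN, hjH⟩, ?_⟩, ?_⟩
      · rw [hA, Surv, mem_filter, mem_Icc]
        rw [mem_range] at hjN
        refine ⟨⟨by omega, by omega⟩, ?_⟩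
        intro p hp hpv
        have hpp := Nat.prime_of_mem_primeFactors hp
        have hpd := Nat.dvd_of_mem_primeFactors hp
        have hpY : p ≤ Y := hpv.2.trans (Nat.div_le_self _ _)
        have hpB : p ∉ B := fun h => hb ⟨p, h, hpd⟩
        rw [hB, mem_union, mem_filter, mem_insert, mem_filter, mem_prs] at hpB
        have hpE : p ∉ E := fun h => hpB (Or.inl h)
        have hp1 : p ≠ p1 := fun h => hpB (Or.inr ⟨Or.inl h, hpv.1⟩)
        have hpH : ¬ ∃ h ∈ H, p ∣ h + t := fun h => hpB (Or.inr ⟨Or.inr ⟨⟨hpp, hpY⟩, h⟩, hpv.1⟩)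
        have hpq : ¬ p ∣ q := fun h => by
          have := Nat.le_of_dvd hq h
          omega
        have hpPM : p ∈ PM q Y E p1 := by
          rw [PM, mem_filter, mem_prs]
          exact ⟨⟨hpp, hpY⟩, hpE, hp1, hpq⟩
        apply hcop j hjc p hpPM
        rw [hcl p hpPM j]
        have hpP1 : p ∉ P1 := fun h => by
          have := (mem_prs.1 (mem_filter.1 h).1).2
          omega
        have hcp : cc p = p - t % p := by
          simp only [hcc]
          rw [if_neg hpP1, if_neg (by omega), if_neg hpH]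
        rw [hcp, C9_shift hpp.pos]
        exact hpd
      · intro p hp hmod
        have hpv := (mem_prs.1 (mem_filter.1 hp).1).2
        have hpE : p ∉ E := fun h => by
          have h1 := hEY p h
          have h2 : (p : ℝ) ≤ v := by exact_mod_cast hpv
          linarith
        have hpPM : p ∈ PM q Y E p1 := by
          rw [PM, mem_filter, mem_prs]
          have hf := (mem_filter.1 hp).2
          refine ⟨⟨hP1p p hp, ?_⟩, hpE, hf.2.1, hf.2.2⟩
          have : v ≤ Y := hv8.trans (Nat.div_le_self _ _)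
          omega
        apply hcop j hjc p hpPM
        rw [hcl p hpPM j]
        have hcp : cc p = c1 p := by
          simp only [hcc]
          rw [if_pos hp]
        rw [hcp]
        exact hmod
    have hcard : ((((range (N + 1)).filter fun j => j ∉ H ∧ (n0 + j).Coprime (M0 q Y E p1)).card : ℕ) : ℝ) ≤
        ((S.filter (fun j => ∀ p ∈ P1, ¬ j ≡ c1 p [MOD p])).card : ℝ) +
          (((range (N + 1)).filter fun j => ∃ p ∈ B, p ∣ j + t).card : ℝ) := by
      exact_mod_cast (Finset.card_le_card hsub).trans (Finset.card_union_le _ _)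
    have hb1 := C9_bad K Y N t v E p1 H hHK hE hEY (by omega) hHN ht.1 ht.2 (by omega)
    have hb2 := hb1.trans hbad
    have hsv2 : (A.card : ℝ) ≤ C1 * N3 * Real.log (Real.log Y) / Real.log Y := hsv
    set L1 := Real.log Y with hL1d
    set L2 := Real.log L1 with hL2d
    set L3 := Real.log L2 with hL3d
    have hN3le : (N3 : ℝ) ≤ (3 * c) * Y * L1 ^ 2 * L3 / L2 ^ 2 := by
      rw [hN3, hY]
      exact Nat.floor_le (by positivity)
    have hfin : C4 / Real.log v * (A.card * CG) ≤ D * c * Y := by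
      have hL1p : 0 < L1 := by linarith
      have hL2p : 0 < L2 := by linarith
      have hL3p : 0 < L3 := by linarith
      have e1 : C4 / Real.log v ≤ C4 / (L1 * L3 / (2 * κ * L2)) :=
        div_le_div_of_nonneg_left hC4.le (by positivity) hvlog
      have e2 : (A.card : ℝ) * CG ≤ (C1 * ((3 * c) * Y * L1 ^ 2 * L3 / L2 ^ 2) * L2 / L1) * CG := by
        refine mul_le_mul_of_nonneg_right (hsv2.trans ?_) (by linarith)
        gcongr
      calc C4 / Real.log v * (A.card * CG) ≤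
          C4 / (L1 * L3 / (2 * κ * L2)) * ((C1 * ((3 * c) * Y * L1 ^ 2 * L3 / L2 ^ 2) * L2 / L1) * CG) :=
            mul_le_mul e1 e2 (by positivity) (by positivity)
        _ = D * c * Y := by
            rw [hD]
            field_simp
            ring
    have hfin2 : D * c * Y ≤ ε / 2 * Y := mul_le_mul_of_nonneg_right hDc (Nat.cast_nonneg _)
    linarith

end Pool.Agent.LibT63
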