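import Pool.Agent.LibRG87.E3
import Pool.Agent.LibRG87.E10
import Pool.Agent.LibRG87.E11

/-! LibT63 (MP_ff81b6_nt, Theorem T), block C (the choice of the residue classes): definitions. -/

set_option autoImplicit false

namespace Pool.Agent.LibT63

open Finset Pool.Agent.LibRG87

/-- the primes `≤ Y` which are used: not in `E`, not `p1`, not a divisor of `q` -/
def PM (q Y : ℕ) (E : Finset ℕ) (p1 : ℕ) : Finset ℕ :=
  (prs Y).filter fun p => p ∉ E ∧ p ≠ p1 ∧ ¬ p ∣ q

/-- the modulus -/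
def M0 (q Y : ℕ) (E : Finset ℕ) (p1 : ℕ) : ℕ := q * ∏ p ∈ PM q Y E p1, p

/-- the residues `r < p` which are not taken by `H` -/
def Al (H : Finset ℕ) (p : ℕ) : Finset ℕ := (range p).filter fun r => ∀ h ∈ H, ¬ h ≡ r [MOD p]

open scoped Classical in
/-- the factor of the position `j` with respect to `H` -/
noncomputable def GG (H Pr : Finset ℕ) (j : ℕ) : ℝ :=
  ∏ p ∈ Pr, if ∃ h ∈ H, j ≡ h [MOD p] then (1 - 1 / (p : ℝ))⁻¹ else 1

end Pool.Agent.LibT63
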