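import Pool.Agent.LibT63.C3b

/-! Block C with a constant which does not depend on `q`: the average of `GG` over the positions `j` with
`(a + j, q) = 1`. -/

set_option autoImplicit false

namespace Pool.Agent.LibT63

open Finset Pool.Agent.LibRG87

theorem CU1_count (N k q s : ℕ) (hk : 0 < k) (hq : 0 < q) (hkq : k.Coprime q) :
    ((((Icc 1 N).filter fun m => m ≡ s [MOD q]).filter fun m => k ∣ m).card : ℝ) ≤ N / (q * k) + 1 := by
  classical
  rcases (((Icc 1 N).filter fun m => m ≡ s [MOD q]).filter fun m => k ∣ m).eq_empty_or_nonempty with h0 | ⟨m0, hm0⟩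
  · rw [h0]
    simp only [card_empty, Nat.cast_zero]
    positivity
  · rw [mem_filter, mem_filter] at hm0
    have hsub : (((Icc 1 N).filter fun m => m ≡ s [MOD q]).filter fun m => k ∣ m) ⊆
        (Ioc 0 N).filter fun m => m ≡ m0 [MOD q * k] := by
      intro m hm
      rw [mem_filter, mem_filter, mem_Icc] at hm
      rw [mem_filter, mem_Ioc]
      refine ⟨⟨by omega, by omega⟩, ?_⟩
      have h1 : m ≡ m0 [MOD q] := hm.1.2.trans hm0.1.2.symm
      have h2 : m ≡ m0 [MOD k] :=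
        ((Nat.modEq_zero_iff_dvd).2 hm.2).trans ((Nat.modEq_zero_iff_dvd).2 hm0.2).symm
      exact (Nat.modEq_and_modEq_iff_modEq_mul hkq.symm).1 ⟨h1, h2⟩
    have hqk : 0 < q * k := Nat.mul_pos hq hk
    have h1 := Nat.Ioc_filter_modEq_card 0 N hqk m0
    have h2 : (((Ioc 0 N).filter fun m => m ≡ m0 [MOD q * k]).card : ℝ) ≤ N / (q * k) + 1 := by
      have h3 : ((((Ioc 0 N).filter fun m => m ≡ m0 [MOD q * k]).card : ℤ) : ℝ) =
          ((max (⌊((N : ℚ) - m0) / ((q * k : ℕ) : ℚ)⌋ - ⌊(((0 : ℕ) : ℚ) - m0) / ((q * k : ℕ) : ℚ)⌋) 0 : ℤ) : ℝ) := by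
        exact_mod_cast congrArg (fun z : ℤ => (z : ℝ)) h1
      have h4 : (⌊((N : ℚ) - m0) / ((q * k : ℕ) : ℚ)⌋ : ℚ) ≤ ((N : ℚ) - m0) / ((q * k : ℕ) : ℚ) := Int.floor_le _
      have h5 : (((0 : ℕ) : ℚ) - m0) / ((q * k : ℕ) : ℚ) < ⌊(((0 : ℕ) : ℚ) - m0) / ((q * k : ℕ) : ℚ)⌋ + 1 :=
        Int.lt_floor_add_one _
      have h6 : ((⌊((N : ℚ) - m0) / ((q * k : ℕ) : ℚ)⌋ - ⌊(((0 : ℕ) : ℚ) - m0) / ((q * k : ℕ) : ℚ)⌋ : ℤ) : ℚ) ≤
          (N : ℚ) / ((q * k : ℕ) : ℚ) + 1 := by
        push_cast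
        push_cast at h4 h5
        have e : ((N : ℚ) - m0) / ((q : ℚ) * k) - (0 - (m0 : ℚ)) / ((q : ℚ) * k) = (N : ℚ) / ((q : ℚ) * k) := by
          ring
        linarith
      have h7 : (((⌊((N : ℚ) - m0) / ((q * k : ℕ) : ℚ)⌋ - ⌊(((0 : ℕ) : ℚ) - m0) / ((q * k : ℕ) : ℚ)⌋ : ℤ) : ℚ) : ℝ) ≤
          (((N : ℚ) / ((q * k : ℕ) : ℚ) + 1 : ℚ) : ℝ) := by exact_mod_cast h6
      have h8 : (((Ioc 0 N).filter fun m => m ≡ m0 [MOD q * k]).card : ℝ) =
          ((((Ioc 0 N).filter fun m => m ≡ m0 [MOD q * k]).card : ℤ) : ℝ) := by norm_cast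
      rw [h8, h3]
      rw [Int.cast_max]
      apply max_le
      · have h9 : (((⌊((N : ℚ) - m0) / ((q * k : ℕ) : ℚ)⌋ - ⌊(((0 : ℕ) : ℚ) - m0) / ((q * k : ℕ) : ℚ)⌋ : ℤ) : ℚ) : ℝ) =
            ((⌊((N : ℚ) - m0) / ((q * k : ℕ) : ℚ)⌋ - ⌊(((0 : ℕ) : ℚ) - m0) / ((q * k : ℕ) : ℚ)⌋ : ℤ) : ℝ) := by
          norm_cast
        rw [h9] at h7
        refine h7.trans (le_of_eq ?_)
        push_cast
        ring
      · simp only [Int.cast_zero]
        positivity
    refine le_trans ?_ h2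
    exact_mod_cast card_le_card hsub

theorem CU1_sum (Pr : Finset ℕ) (q : ℕ) (hq : 0 < q) (hPr : ∀ p ∈ Pr, p.Prime ∧ ¬ p ∣ q) (x : ℕ → ℝ)
    (hx : ∀ p, 0 ≤ x p) (N s : ℕ) :
    ∑ m ∈ (Icc 1 N).filter (fun m => m ≡ s [MOD q]), ∏ p ∈ Pr, (1 + if p ∣ m then x p else 0) ≤
      N / q * ∏ p ∈ Pr, (1 + x p / p) + ∏ p ∈ Pr, (1 + x p) := by
  have h1 : ∀ m, ∏ p ∈ Pr, (1 + if p ∣ m then x p else 0) =
      ∑ D ∈ Pr.powerset, if (∏ p ∈ D, p) ∣ m then ∏ p ∈ D, x p else 0 := by
    intro m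
    rw [Finset.prod_one_add]
    refine sum_congr rfl fun D hD => ?_
    have hDp : ∀ p ∈ D, p.Prime := fun p hp => (hPr p (mem_powerset.1 hD hp)).1
    split_ifs with h
    · refine prod_congr rfl fun p hp => ?_
      rw [if_pos ((dvd_prod_of_mem _ hp).trans h)]
    · have h1 : ¬ ∀ p ∈ D, p ∣ m := fun h2 => h (Finset.prod_primes_dvd m (fun p hp => (hDp p hp).prime) h2)
      push Not at h1
      obtain ⟨p, hp, hpm⟩ := h1
      exact prod_eq_zero hp (if_neg hpm)
  simp_rw [h1]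
  rw [sum_comm, Finset.prod_one_add, Finset.prod_one_add, mul_sum, ← sum_add_distrib]
  refine sum_le_sum fun D hD => ?_
  rw [← sum_filter, sum_const, nsmul_eq_mul]
  have hX : 0 ≤ ∏ p ∈ D, x p := prod_nonneg fun p _ => hx p
  have hk : 0 < ∏ p ∈ D, p := prod_pos fun p hp => (hPr p (mem_powerset.1 hD hp)).1.pos
  have hkq : (∏ p ∈ D, p).Coprime q := by
    rw [Nat.coprime_prod_left_iff]
    intro p hp
    exact (Nat.Prime.coprime_iff_not_dvd (hPr p (mem_powerset.1 hD hp)).1).2 (hPr p (mem_powerset.1 hD hp)).2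
  calc ((((Icc 1 N).filter fun m => m ≡ s [MOD q]).filter fun m => (∏ p ∈ D, p) ∣ m).card : ℝ) * ∏ p ∈ D, x p
      ≤ (N / (q * (∏ p ∈ D, p : ℕ)) + 1 : ℝ) * ∏ p ∈ D, x p :=
        mul_le_mul_of_nonneg_right (CU1_count N _ q s hk hq hkq) hX
    _ = N / q * ∏ p ∈ D, x p / p + ∏ p ∈ D, x p := by
        rw [prod_div_distrib, Nat.cast_prod]
        have : (∏ i ∈ D, (i : ℝ)) ≠ 0 := by
          rw [← Nat.cast_prod]
          exact_mod_cast hk.ne'
        have hq' : (q : ℝ) ≠ 0 := by exact_mod_cast hq.ne'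
        field_simp

theorem CU1_phi {K : ℕ} {Pr : Finset ℕ} (q : ℕ) (hq : 0 < q)
    (hPr : ∀ p ∈ Pr, (p.Prime ∧ 2 * K < p) ∧ ¬ p ∣ q) (N s : ℕ) :
    ∑ m ∈ (Icc 1 N).filter (fun m => m ≡ s [MOD q]), ∏ p ∈ Pr, (1 + if p ∣ m then 4 * (K : ℝ) / p else 0) ≤
      N / q * Real.exp (4 * K) + ∏ p ∈ Pr, (1 + 4 * (K : ℝ) / p) := by
  refine le_trans (CU1_sum Pr q hq (fun p hp => ⟨(hPr p hp).1.1, (hPr p hp).2⟩) (fun p => 4 * (K : ℝ) / p)
    (fun p => by positivity) N s) ?_
  refine add_le_add ?_ le_rfl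
  apply mul_le_mul_of_nonneg_left _ (by positivity)
  have h1 : ∏ p ∈ Pr, (1 + 4 * (K : ℝ) / p / p) ≤ ∏ p ∈ Pr, Real.exp (4 * (K : ℝ) / p / p) := by
    apply Finset.prod_le_prod
    · intro p _; positivity
    · intro p _
      rw [add_comm]
      exact Real.add_one_le_exp _
  refine le_trans h1 ?_
  rw [← Real.exp_sum]
  apply Real.exp_le_exp.2
  have h2 : ∑ p ∈ Pr, 4 * (K : ℝ) / p / p = 4 * K * ∑ p ∈ Pr, 1 / (p : ℝ) ^ 2 := by
    rw [Finset.mul_sum]
    apply Finset.sum_congr rfl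
    intro p hp
    have : (p : ℝ) ≠ 0 := by exact_mod_cast (hPr p hp).1.1.ne_zero
    field_simp
  rw [h2]
  have := C3b_sq Pr fun p hp => (hPr p hp).1.1
  have h3 : (0 : ℝ) ≤ 4 * K := by positivity
  nlinarith

theorem CU1_sum_F {K : ℕ} {Pr : Finset ℕ} (q : ℕ) (hq : 0 < q)
    (hPr : ∀ p ∈ Pr, (p.Prime ∧ 2 * K < p) ∧ ¬ p ∣ q) (H : Finset ℕ) (N h s : ℕ)
    (hh : h ∈ H) (hN : h ≤ N) :
    ∑ j ∈ (range (N + 1) \ H).filter (fun j => j ≡ s [MOD q]), C3b_F Pr h j ^ K ≤
      2 * (N / q * Real.exp (4 * K) + ∏ p ∈ Pr, (1 + 4 * (K : ℝ) / p)) := by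
  classical
  have hPr' : ∀ p ∈ Pr, p.Prime ∧ 2 * K < p := fun p hp => (hPr p hp).1
  set φ : ℕ → ℝ := fun m => ∏ p ∈ Pr, (1 + if p ∣ m then 4 * (K : ℝ) / p else 0) with hφ
  have hφ0 : ∀ m, 0 ≤ φ m := by
    intro m
    apply Finset.prod_nonneg
    intro p _
    split_ifs
    · positivity
    · norm_num
  have hsplit : (range (N + 1) \ H).filter (fun j => j ≡ s [MOD q]) ⊆
      ((range h).filter (fun j => j ≡ s [MOD q])) ∪ ((Ioc h N).filter (fun j => j ≡ s [MOD q])) := by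
    intro j hj
    rw [mem_filter, mem_sdiff, mem_range] at hj
    rw [mem_union, mem_filter, mem_filter, mem_range, mem_Ioc]
    have h1 : j ≠ h := fun e => hj.1.2 (e ▸ hh)
    rcases lt_or_gt_of_ne h1 with h2 | h2
    · exact Or.inl ⟨h2, hj.2⟩
    · exact Or.inr ⟨⟨h2, by omega⟩, hj.2⟩
  have hF0 : ∀ j, 0 ≤ C3b_F Pr h j ^ K := fun j =>
    pow_nonneg (by linarith [C3b_F_one hPr' h j]) K
  have hdisj : Disjoint ((range h).filter (fun j => j ≡ s [MOD q])) ((Ioc h N).filter (fun j => j ≡ s [MOD q])) := by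
    rw [Finset.disjoint_left]
    intro j hj hj'
    rw [mem_filter, mem_range] at hj
    rw [mem_filter, mem_Ioc] at hj'
    omega
  have h1 := Finset.sum_le_sum_of_subset_of_nonneg (f := fun j => C3b_F Pr h j ^ K) hsplit fun j _ _ => hF0 j
  rw [Finset.sum_union hdisj] at h1
  -- the class of `h - j`
  have hA : ∑ j ∈ (range h).filter (fun j => j ≡ s [MOD q]), C3b_F Pr h j ^ K ≤
      ∑ m ∈ (Icc 1 N).filter (fun m => m ≡ h + q * s - s [MOD q]), φ m := by
    calc ∑ j ∈ (range h).filter (fun j => j ≡ s [MOD q]), C3b_F Pr h j ^ K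
        ≤ ∑ j ∈ (range h).filter (fun j => j ≡ s [MOD q]), φ (h - j) := by
          apply Finset.sum_le_sum
          intro j hj
          rw [mem_filter, mem_range] at hj
          apply C3b_Fpow hPr'
          intro p hp
          exact (Nat.modEq_iff_dvd' hj.1.le).1 hp
      _ = ∑ m ∈ ((range h).filter (fun j => j ≡ s [MOD q])).image (fun j => h - j), φ m := by
          rw [Finset.sum_image]
          intro a ha b hb hab
          rw [mem_coe, mem_filter, mem_range] at ha hb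
          simp only at hab
          omega
      _ ≤ ∑ m ∈ (Icc 1 N).filter (fun m => m ≡ h + q * s - s [MOD q]), φ m := by
          apply Finset.sum_le_sum_of_subset_of_nonneg
          · intro m hm
            rw [mem_image] at hm
            obtain ⟨j, hj, rfl⟩ := hm
            rw [mem_filter, mem_range] at hj
            rw [mem_filter, mem_Icc]
            refine ⟨by omega, ?_⟩
            have hqs : s ≤ h + q * s := le_trans (Nat.le_mul_of_pos_left s hq) (Nat.le_add_left _ _)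
            -- h - j + j = h, h + q s - s + s ≡ h
            have e1 : (h - j) + j ≡ (h + q * s - s) + s [MOD q] := by
              rw [Nat.sub_add_cancel hj.1.le, Nat.sub_add_cancel hqs]
              have : h + q * s ≡ h + 0 [MOD q] := Nat.ModEq.add_left h ((Nat.modEq_zero_iff_dvd).2 (Dvd.intro s rfl))
              rw [add_zero] at this
              exact this.symm
            exact Nat.ModEq.add_right_cancel hj.2 e1
          · intro m _ _
            exact hφ0 m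
  have hB : ∑ j ∈ (Ioc h N).filter (fun j => j ≡ s [MOD q]), C3b_F Pr h j ^ K ≤
      ∑ m ∈ (Icc 1 N).filter (fun m => m ≡ s + q * h - h [MOD q]), φ m := by
    calc ∑ j ∈ (Ioc h N).filter (fun j => j ≡ s [MOD q]), C3b_F Pr h j ^ K
        ≤ ∑ j ∈ (Ioc h N).filter (fun j => j ≡ s [MOD q]), φ (j - h) := by
          apply Finset.sum_le_sum
          intro j hj
          rw [mem_filter, mem_Ioc] at hj
          apply C3b_Fpow hPr'
          intro p hp
          exact (Nat.modEq_iff_dvd' hj.1.1.le).1 hp.symm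
      _ = ∑ m ∈ ((Ioc h N).filter (fun j => j ≡ s [MOD q])).image (fun j => j - h), φ m := by
          rw [Finset.sum_image]
          intro a ha b hb hab
          rw [mem_coe, mem_filter, mem_Ioc] at ha hb
          simp only at hab
          omega
      _ ≤ ∑ m ∈ (Icc 1 N).filter (fun m => m ≡ s + q * h - h [MOD q]), φ m := by
          apply Finset.sum_le_sum_of_subset_of_nonneg
          · intro m hm
            rw [mem_image] at hm
            obtain ⟨j, hj, rfl⟩ := hm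
            rw [mem_filter, mem_Ioc] at hj
            rw [mem_filter, mem_Icc]
            refine ⟨by omega, ?_⟩
            have hqs : h ≤ s + q * h := le_trans (Nat.le_mul_of_pos_left h hq) (Nat.le_add_left _ _)
            have e1 : (j - h) + h ≡ (s + q * h - h) + h [MOD q] := by
              rw [Nat.sub_add_cancel hj.1.1.le, Nat.sub_add_cancel hqs]
              have : s + q * h ≡ s + 0 [MOD q] := Nat.ModEq.add_left s ((Nat.modEq_zero_iff_dvd).2 (Dvd.intro h rfl))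
              rw [add_zero] at this
              exact hj.2.trans this.symm
            exact Nat.ModEq.add_right_cancel' h e1
          · intro m _ _
            exact hφ0 m
  have hC := CU1_phi q hq hPr N (h + q * s - s)
  have hC2 := CU1_phi q hq hPr N (s + q * h - h)
  have hC' : ∑ m ∈ (Icc 1 N).filter (fun m => m ≡ h + q * s - s [MOD q]), φ m ≤
    N / q * Real.exp (4 * K) + ∏ p ∈ Pr, (1 + 4 * (K : ℝ) / p) := hC
  have hC2' : ∑ m ∈ (Icc 1 N).filter (fun m => m ≡ s + q * h - h [MOD q]), φ m ≤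
    N / q * Real.exp (4 * K) + ∏ p ∈ Pr, (1 + 4 * (K : ℝ) / p) := hC2
  linarith

theorem CU1_GG_mod (K : ℕ) (H Pr : Finset ℕ) (N q s : ℕ) (hq : 0 < q) (hH : H.card = K)
    (hN : ∀ h ∈ H, h ≤ N) (hPr : ∀ p ∈ Pr, (p.Prime ∧ 2 * K < p) ∧ ¬ p ∣ q) :
    ∑ j ∈ (range (N + 1) \ H).filter (fun j => j ≡ s [MOD q]), GG H Pr j ≤
      ((N : ℝ) + 1) / q + 1 + K * (2 * (((N : ℝ) + 1) / q * Real.exp (4 * K) + ∏ p ∈ Pr, (1 + 4 * (K : ℝ) / p))) := by
  classical
  have hPr' : ∀ p ∈ Pr, p.Prime ∧ 2 * K < p := fun p hp => (hPr p hp).1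
  have hqR : (0 : ℝ) < q := by exact_mod_cast hq
  have h1 : ∀ j ∈ (range (N + 1) \ H).filter (fun j => j ≡ s [MOD q]),
      GG H Pr j ≤ 1 + ∑ h ∈ H, C3b_F Pr h j ^ K := fun j _ =>
    le_trans (C3b_GG_le hPr' H j) (C3b_prod_le H hH (fun h => C3b_F Pr h j)
      fun h _ => C3b_F_one hPr' h j)
  have h2 := Finset.sum_le_sum h1
  rw [Finset.sum_add_distrib, Finset.sum_comm, Finset.sum_const, nsmul_eq_mul, mul_one] at h2
  have h3 : ∑ h ∈ H, ∑ j ∈ (range (N + 1) \ H).filter (fun j => j ≡ s [MOD q]), C3b_F Pr h j ^ K ≤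
      ∑ h ∈ H, 2 * (((N : ℝ) + 1) / q * Real.exp (4 * K) + ∏ p ∈ Pr, (1 + 4 * (K : ℝ) / p)) := by
    refine Finset.sum_le_sum fun h hh => (CU1_sum_F q hq hPr H N h s hh (hN h hh)).trans ?_
    have : (N : ℝ) / q ≤ ((N : ℝ) + 1) / q := by
      apply div_le_div_of_nonneg_right _ hqR.le
      linarith
    have h5 : (N : ℝ) / q * Real.exp (4 * K) ≤ ((N : ℝ) + 1) / q * Real.exp (4 * K) :=
      mul_le_mul_of_nonneg_right this (Real.exp_pos _).le
    linarith
  rw [Finset.sum_const, hH, nsmul_eq_mul] at h3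
  have h4 : (((range (N + 1) \ H).filter (fun j => j ≡ s [MOD q])).card : ℝ) ≤ ((N : ℝ) + 1) / q + 1 := by
    have e1 : ((range (N + 1) \ H).filter (fun j => j ≡ s [MOD q])).card ≤
        (((Icc 1 (N + 1)).filter fun m => m ≡ s + 1 [MOD q]).filter fun m => 1 ∣ m).card := by
      refine card_le_card_of_injOn (fun j => j + 1) ?_ ?_
      · intro j hj
        rw [mem_coe, mem_filter, mem_sdiff, mem_range] at hj
        have hj1 := hj.1.1
        have hj2 := Nat.ModEq.add_right 1 hj.2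
        simp only [mem_coe, mem_filter, mem_Icc]
        exact ⟨⟨⟨by omega, by omega⟩, hj2⟩, one_dvd _⟩
      · intro a _ b _ hab
        simpa using hab
    have e2 := CU1_count (N + 1) 1 q (s + 1) one_pos hq (Nat.coprime_one_left q)
    have e3 : (((range (N + 1) \ H).filter (fun j => j ≡ s [MOD q])).card : ℝ) ≤
        ((((Icc 1 (N + 1)).filter fun m => m ≡ s + 1 [MOD q]).filter fun m => 1 ∣ m).card : ℝ) := by
      exact_mod_cast e1
    refine e3.trans (e2.trans (le_of_eq ?_))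
    push_cast
    ring
  linarith

/-- the average of `GG` over the positions `j` with `(a + j, q) = 1` -/
theorem CU1_GG (K : ℕ) : ∃ C : ℝ, 1 ≤ C ∧ ∀ (H Pr : Finset ℕ) (N q a : ℕ), 0 < q → H.card = K →
    (∀ h ∈ H, h ≤ N) → (∀ p ∈ Pr, (p.Prime ∧ 2 * K < p) ∧ ¬ p ∣ q) →
    (∏ p ∈ Pr, (1 + 4 * (K : ℝ) / p)) * q ≤ N + 1 →
    ∑ j ∈ (range (N + 1) \ H).filter (fun j => (a + j).Coprime q), GG H Pr j ≤
      C * (q.totient / q) * (N + 1) := by
  classical
  refine ⟨2 + 2 * K * (Real.exp (4 * K) + 1), ?_, ?_⟩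
  · have : (0 : ℝ) ≤ 2 * K * (Real.exp (4 * K) + 1) := by positivity
    linarith
  · intro H Pr N q a hq hH hN hPr hE
    have hqR : (0 : ℝ) < q := by exact_mod_cast hq
    set E : ℝ := ∏ p ∈ Pr, (1 + 4 * (K : ℝ) / p) with hEd
    have hE1 : 1 ≤ E := by
      rw [hEd]
      apply C3b_one_le_prod
      intro p _
      have : 0 ≤ 4 * (K : ℝ) / p := by positivity
      linarith
    have hEq : E ≤ ((N : ℝ) + 1) / q := by rw [le_div_iff₀ hqR]; exact hE
    -- the residues
    set R : Finset ℕ := (range q).filter (fun s => (a + s).Coprime q) with hR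
    have hRcard : R.card = q.totient := by
      rw [← Nat.filter_coprime_Ico_eq_totient q a]
      refine card_bij (fun s _ => a + s) ?_ ?_ ?_
      · intro s hs
        rw [hR, mem_filter, mem_range] at hs
        rw [mem_filter, mem_Ico]
        exact ⟨⟨by omega, by omega⟩, hs.2.symm⟩
      · intro s _ s' _ h
        omega
      · intro b hb
        rw [mem_filter, mem_Ico] at hb
        refine ⟨b - a, ?_, by omega⟩
        rw [hR, mem_filter, mem_range]
        refine ⟨by omega, ?_⟩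
        rw [Nat.add_sub_cancel' hb.1.1]
        exact hb.2.symm
    have hGG0 : ∀ j, 0 ≤ GG H Pr j := by
      intro j
      refine Finset.prod_nonneg fun p hp => ?_
      split_ifs
      · linarith [(C3b_fac (hPr p hp).1.1 (hPr p hp).1.2).1]
      · exact zero_le_one
    have hsub : (range (N + 1) \ H).filter (fun j => (a + j).Coprime q) ⊆
        R.biUnion fun s => (range (N + 1) \ H).filter (fun j => j ≡ s [MOD q]) := by
      intro j hj
      rw [mem_filter] at hj
      rw [mem_biUnion]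
      refine ⟨j % q, ?_, ?_⟩
      · rw [hR, mem_filter, mem_range]
        refine ⟨Nat.mod_lt _ hq, ?_⟩
        have h1 : a + j % q ≡ a + j [MOD q] := Nat.ModEq.add_left a (Nat.mod_modEq j q)
        have h2 : Nat.gcd (a + j % q) q = Nat.gcd (a + j) q := Nat.ModEq.gcd_eq h1
        rw [Nat.Coprime, h2]
        exact hj.2
      · rw [mem_filter]
        exact ⟨hj.1, (Nat.mod_modEq j q).symm⟩
    have h1 : ∑ j ∈ (range (N + 1) \ H).filter (fun j => (a + j).Coprime q), GG H Pr j ≤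
        ∑ s ∈ R, ∑ j ∈ (range (N + 1) \ H).filter (fun j => j ≡ s [MOD q]), GG H Pr j := by
      refine (Finset.sum_le_sum_of_subset_of_nonneg hsub fun j _ _ => hGG0 j).trans (le_of_eq ?_)
      refine Finset.sum_biUnion ?_
      intro s hs s' hs' hne
      rw [Function.onFun, Finset.disjoint_left]
      intro j hj hj'
      rw [mem_filter] at hj hj'
      rw [mem_coe, hR, mem_filter, mem_range] at hs hs'
      apply hne
      have h1 : s ≡ s' [MOD q] := hj.2.symm.trans hj'.2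
      rw [Nat.ModEq, Nat.mod_eq_of_lt hs.1, Nat.mod_eq_of_lt hs'.1] at h1
      exact h1
    refine h1.trans ?_
    have h2 : ∀ s ∈ R, ∑ j ∈ (range (N + 1) \ H).filter (fun j => j ≡ s [MOD q]), GG H Pr j ≤
        (2 + 2 * K * (Real.exp (4 * K) + 1)) * (((N : ℝ) + 1) / q) := by
      intro s _
      refine (CU1_GG_mod K H Pr N q s hq hH hN hPr).trans ?_
      have h3 : (1 : ℝ) ≤ ((N : ℝ) + 1) / q := hE1.trans hEq
      have h4 : (K : ℝ) * (2 * (((N : ℝ) + 1) / q * Real.exp (4 * K) + E)) ≤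
          K * (2 * (((N : ℝ) + 1) / q * Real.exp (4 * K) + ((N : ℝ) + 1) / q)) := by
        have hK0 : (0 : ℝ) ≤ K := Nat.cast_nonneg _
        refine mul_le_mul_of_nonneg_left ?_ hK0
        linarith
      nlinarith
    refine (Finset.sum_le_sum h2).trans (le_of_eq ?_)
    rw [Finset.sum_const, hRcard, nsmul_eq_mul]
    field_simp

end Pool.Agent.LibT63
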