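import Pool.Agent.LibT63.CDefs

set_option autoImplicit false

namespace Pool.Agent.LibT63

open Finset Pool.Agent.LibRG87

private theorem CU2_f {p : ℕ} (hp : p.Prime) :
    (1 : ℝ) / 2 ≤ 1 - 1 / (p : ℝ) ∧ 1 - 1 / (p : ℝ) ≤ 1 := by
  have h2 : (2 : ℝ) ≤ p := by exact_mod_cast hp.two_le
  have h3 : 1 / (p : ℝ) ≤ 1 / 2 := one_div_le_one_div_of_le (by norm_num) h2
  have h4 : 0 ≤ 1 / (p : ℝ) := by positivity
  exact ⟨by linarith, by linarith⟩

theorem CU2_tot (q : ℕ) (hq : 1 ≤ q) : ∏ p ∈ q.primeFactors, (1 - 1 / (p : ℝ)) = (q.totient : ℝ) / q := by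
  have h := Nat.totient_eq_mul_prod_factors q
  have h2 : (q.totient : ℝ) = q * ∏ p ∈ q.primeFactors, (1 - (p : ℝ)⁻¹) := by
    have := congrArg (fun z : ℚ => (z : ℝ)) h
    push_cast at this
    exact this
  have hq' : (q : ℝ) ≠ 0 := by
    have : 0 < q := hq
    exact_mod_cast this.ne'
  rw [h2, mul_div_cancel_left₀ _ hq']
  exact Finset.prod_congr rfl fun p _ => by rw [one_div]

/-- the same with a constant which does not depend on `q`. -/
theorem prod_smallU (K : ℕ) : ∃ C : ℝ, 0 < C ∧ ∀ q : ℕ, 1 ≤ q → ∀ v p1 : ℕ, 2 ≤ v →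
    ∏ p ∈ (prs v).filter (fun p => 2 * K < p ∧ p ≠ p1 ∧ ¬ p ∣ q), (1 - 1 / (p : ℝ)) ≤
      C * (q / q.totient) / Real.log v := by
  classical
  have hKp : ∀ p ∈ prs (2 * K), p.Prime := fun p hp => (mem_prs.1 hp).1
  have hcK : 0 < ∏ p ∈ prs (2 * K), (1 - 1 / (p : ℝ)) :=
    Finset.prod_pos fun p hp => by linarith [(CU2_f (hKp p hp)).1]
  refine ⟨2 / ∏ p ∈ prs (2 * K), (1 - 1 / (p : ℝ)), by positivity, fun q hq v p1 hv => ?_⟩
  have hDp : ∀ p ∈ prs (2 * K) ∪ q.primeFactors, p.Prime := by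
    intro p hp
    rcases Finset.mem_union.1 hp with h | h
    · exact (mem_prs.1 h).1
    · exact Nat.prime_of_mem_primeFactors h
  have hφ : 0 < (q.totient : ℝ) := by
    have : 0 < q.totient := Nat.totient_pos.2 hq
    exact_mod_cast this
  have hqR : (0 : ℝ) < q := by
    have : 0 < q := hq
    exact_mod_cast this
  obtain ⟨c, hcdef⟩ : ∃ c : ℝ, c = ∏ p ∈ prs (2 * K) ∪ q.primeFactors, (1 - 1 / (p : ℝ)) :=
    ⟨_, rfl⟩
  have hclow : (∏ p ∈ prs (2 * K), (1 - 1 / (p : ℝ))) * (q.totient / q) ≤ c := by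
    rw [hcdef, ← CU2_tot q hq, ← Finset.prod_union_inter]
    have h1 : ∏ p ∈ prs (2 * K) ∩ q.primeFactors, (1 - 1 / (p : ℝ)) ≤ 1 :=
      Finset.prod_le_one (fun p hp => by
        linarith [(CU2_f (hKp p (Finset.mem_inter.1 hp).1)).1]) fun p hp =>
        (CU2_f (hKp p (Finset.mem_inter.1 hp).1)).2
    have h2 : 0 ≤ ∏ p ∈ prs (2 * K) ∪ q.primeFactors, (1 - 1 / (p : ℝ)) :=
      Finset.prod_nonneg fun p hp => by linarith [(CU2_f (hDp p hp)).1]
    exact mul_le_of_le_one_right h2 h1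
  have hc : 0 < c := lt_of_lt_of_le (by positivity) hclow
  have hlog : 0 < Real.log v := Real.log_pos (by exact_mod_cast hv)
  have hpv : ∀ p ∈ prs v, p.Prime := fun p hp => (mem_prs.1 hp).1
  have hprod := prod_prs_le v hv
  rw [← Finset.prod_filter_mul_prod_filter_not (prs v) (fun p => 2 * K < p ∧ p ≠ p1 ∧ ¬ p ∣ q)]
    at hprod
  obtain ⟨A, hA⟩ : ∃ A : ℝ, A = ∏ p ∈ (prs v).filter (fun p => 2 * K < p ∧ p ≠ p1 ∧ ¬ p ∣ q),
    (1 - 1 / (p : ℝ)) := ⟨_, rfl⟩
  obtain ⟨R, hR⟩ : ∃ R : Finset ℕ,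
    R = (prs v).filter (fun p => ¬ (2 * K < p ∧ p ≠ p1 ∧ ¬ p ∣ q)) := ⟨_, rfl⟩
  rw [← hA, ← hR] at hprod
  rw [← hA]
  have hA0 : 0 ≤ A := by
    rw [hA]
    exact Finset.prod_nonneg fun p hp => by
      linarith [(CU2_f (hpv p (Finset.mem_filter.1 hp).1)).1]
  have hRp : ∀ p ∈ R, p.Prime := fun p hp => by
    rw [hR] at hp
    exact hpv p (Finset.mem_filter.1 hp).1
  -- the lower bound for the removed product
  have hB : c / 2 ≤ ∏ p ∈ R, (1 - 1 / (p : ℝ)) := by
    rw [← Finset.prod_filter_mul_prod_filter_not R (fun p => p ∈ prs (2 * K) ∪ q.primeFactors)]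
    have h1 : c ≤ ∏ p ∈ R.filter (fun p => p ∈ prs (2 * K) ∪ q.primeFactors),
        (1 - 1 / (p : ℝ)) := by
      have hsub : R.filter (fun p => p ∈ prs (2 * K) ∪ q.primeFactors) ⊆
          prs (2 * K) ∪ q.primeFactors := fun p hp => (Finset.mem_filter.1 hp).2
      rw [hcdef, ← Finset.prod_sdiff hsub]
      have h2 : ∏ p ∈ (prs (2 * K) ∪ q.primeFactors) \
          R.filter (fun p => p ∈ prs (2 * K) ∪ q.primeFactors), (1 - 1 / (p : ℝ)) ≤ 1 :=
        Finset.prod_le_one (fun p hp => by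
          linarith [(CU2_f (hDp p (Finset.mem_sdiff.1 hp).1)).1]) fun p hp =>
          (CU2_f (hDp p (Finset.mem_sdiff.1 hp).1)).2
      have h3 : 0 ≤ ∏ p ∈ R.filter (fun p => p ∈ prs (2 * K) ∪ q.primeFactors),
          (1 - 1 / (p : ℝ)) := Finset.prod_nonneg fun p hp => by
        linarith [(CU2_f (hDp p (Finset.mem_filter.1 hp).2)).1]
      exact mul_le_of_le_one_left h3 h2
    have h4 : (1 : ℝ) / 2 ≤ ∏ p ∈ R.filter (fun p => ¬ p ∈ prs (2 * K) ∪ q.primeFactors),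
        (1 - 1 / (p : ℝ)) := by
      have hsub : R.filter (fun p => ¬ p ∈ prs (2 * K) ∪ q.primeFactors) ⊆ {p1} := by
        intro p hp
        rw [Finset.mem_singleton]
        obtain ⟨hpR, hpD⟩ := Finset.mem_filter.1 hp
        have hpp := hRp p hpR
        rw [hR] at hpR
        by_contra hne
        have h5 := (Finset.mem_filter.1 hpR).2
        apply h5
        refine ⟨?_, hne, ?_⟩
        · by_contra h6
          apply hpD
          rw [Finset.mem_union]
          exact Or.inl (mem_prs.2 ⟨hpp, by omega⟩)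
        · intro h6
          apply hpD
          rw [Finset.mem_union]
          exact Or.inr (Nat.mem_primeFactors.2 ⟨hpp, h6, by omega⟩)
      rcases Finset.subset_singleton_iff.1 hsub with h5 | h5
      · rw [h5, Finset.prod_empty]
        norm_num
      · rw [h5, Finset.prod_singleton]
        have h6 : p1 ∈ R.filter (fun p => ¬ p ∈ prs (2 * K) ∪ q.primeFactors) := by
          rw [h5]
          exact Finset.mem_singleton_self p1
        exact (CU2_f (hRp p1 (Finset.mem_filter.1 h6).1)).1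
    calc c / 2 = c * (1 / 2) := by ring
      _ ≤ _ := mul_le_mul h1 h4 (by norm_num) (hc.le.trans h1)
  have h7 : A * (c / 2) ≤ 1 / Real.log v := (mul_le_mul_of_nonneg_left hB hA0).trans hprod
  have h8 : A = A * (c / 2) * (2 / c) := by
    field_simp
  rw [h8]
  have h9 : 2 / c ≤ 2 / (∏ p ∈ prs (2 * K), (1 - 1 / (p : ℝ))) * (q / q.totient) := by
    rw [div_mul_div_comm, div_le_div_iff₀ hc (by positivity)]
    have h10 := mul_le_mul_of_nonneg_left hclow (show (0 : ℝ) ≤ 2 * q by positivity)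
    have h11 : 2 * (q : ℝ) * ((∏ p ∈ prs (2 * K), (1 - 1 / (p : ℝ))) * (q.totient / q)) =
        2 * ((∏ p ∈ prs (2 * K), (1 - 1 / (p : ℝ))) * q.totient) := by
      field_simp
    linarith
  calc A * (c / 2) * (2 / c) ≤ 1 / Real.log v * (2 / c) :=
        mul_le_mul_of_nonneg_right h7 (by positivity)
    _ ≤ 1 / Real.log v * (2 / (∏ p ∈ prs (2 * K), (1 - 1 / (p : ℝ))) * (q / q.totient)) :=
        mul_le_mul_of_nonneg_left h9 (by positivity)
    _ = 2 / (∏ p ∈ prs (2 * K), (1 - 1 / (p : ℝ))) * (q / q.totient) / Real.log v := by ring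

end Pool.Agent.LibT63
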