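import Pool.Agent.LibT63.CU1
import Pool.Agent.LibT63.CU2
import Pool.Agent.LibT63.C9

set_option autoImplicit false

namespace Pool.Agent.LibT63

open Finset Pool.Agent.LibRG87

theorem CU3_ev (A : ℝ) (hA : 0 < A) : ∃ Y0 : ℕ, ∀ Y : ℕ, Y0 ≤ Y →
    A * Real.log (Real.log (Real.log Y)) ≤ Real.log (Real.log Y) := by
  have t1 : Filter.Tendsto (fun Y : ℕ => Real.log (Real.log Y)) Filter.atTop Filter.atTop :=
    Real.tendsto_log_atTop.comp (Real.tendsto_log_atTop.comp tendsto_natCast_atTop_atTop)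
  have h := (Real.isLittleO_log_id_atTop).def (show (0 : ℝ) < 1 / A by positivity)
  have h2 := t1.eventually (h.and (Filter.eventually_ge_atTop (1 : ℝ)))
  obtain ⟨Y0, h3⟩ := Filter.eventually_atTop.1 h2
  refine ⟨Y0, fun Y hY => ?_⟩
  obtain ⟨h4, h5⟩ := h3 Y hY
  simp only [id, Real.norm_eq_abs] at h4
  rw [abs_of_nonneg (show (0 : ℝ) ≤ Real.log (Real.log Y) by linarith)] at h4
  have h6 : Real.log (Real.log (Real.log Y)) ≤ 1 / A * Real.log (Real.log Y) := (le_abs_self _).trans h4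
  have h7 := mul_le_mul_of_nonneg_left h6 hA.le
  have h8 : A * (1 / A * Real.log (Real.log Y)) = Real.log (Real.log Y) := by field_simp
  linarith

theorem CU3_prod (K v : ℕ) (Pr : Finset ℕ) (hPr : ∀ p ∈ Pr, p.Prime ∧ p ≤ v) :
    ∏ p ∈ Pr, (1 + 4 * (K : ℝ) / p) ≤ Real.exp (4 * K * (1 + Real.log v)) := by
  have h1 : ∏ p ∈ Pr, (1 + 4 * (K : ℝ) / p) ≤ ∏ p ∈ Pr, Real.exp (4 * (K : ℝ) / p) := by
    apply Finset.prod_le_prod
    · intro p _; positivity
    · intro p _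
      rw [add_comm]
      exact Real.add_one_le_exp _
  refine h1.trans ?_
  rw [← Real.exp_sum]
  apply Real.exp_le_exp.2
  have h2 : ∑ p ∈ Pr, 4 * (K : ℝ) / p = 4 * K * ∑ p ∈ Pr, (p : ℝ)⁻¹ := by
    rw [Finset.mul_sum]
    exact Finset.sum_congr rfl fun p _ => by rw [div_eq_mul_inv]
  rw [h2]
  refine mul_le_mul_of_nonneg_left ?_ (by positivity)
  have h3 : ∑ p ∈ Pr, (p : ℝ)⁻¹ ≤ ∑ i ∈ Icc 1 v, (i : ℝ)⁻¹ := by
    apply Finset.sum_le_sum_of_subset_of_nonneg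
    · intro p hp
      rw [mem_Icc]
      exact ⟨(hPr p hp).1.one_lt.le, (hPr p hp).2⟩
    · intro i _ _
      positivity
  refine h3.trans ?_
  have h4 := harmonic_le_one_add_log v
  rw [harmonic_eq_sum_Icc] at h4
  push_cast at h4
  exact h4

theorem CU3_grow (K q : ℕ) (hq : 1 ≤ q) (κ c : ℝ) (hκ : 1 ≤ κ) (hc : 0 < c) :
    ∃ Y0 : ℕ, ∀ Y : ℕ, Y0 ≤ Y → ∀ Pr : Finset ℕ, (∀ p ∈ Pr, p.Prime ∧ p ≤ vY κ Y) →
      (∏ p ∈ Pr, (1 + 4 * (K : ℝ) / p)) * q ≤ (hY c Y : ℝ) + 1 := by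
  obtain ⟨Y1, h1⟩ := E11_ev (max (max 1 ((4 * κ) ^ 2)) (2 * (4 * K + Real.log q - Real.log c)))
  obtain ⟨Y2, h2⟩ := CU3_ev (8 * K + 8) (by positivity)
  obtain ⟨Y3, h3⟩ := C8_ev 1 1
  refine ⟨max Y1 (max Y2 Y3), fun Y hYY Pr hPr => ?_⟩
  obtain ⟨a1, a2, a3, a4⟩ := h1 Y (le_trans (le_max_left _ _) hYY)
  have a5 := h2 Y (le_trans (le_trans (le_max_left _ _) (le_max_right _ _)) hYY)
  have a6 := h3 Y (le_trans (le_trans (le_max_right _ _) (le_max_right _ _)) hYY)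
  have b1 : 1 ≤ Real.log Y := le_trans (le_trans (le_max_left _ _) (le_max_left _ _)) a2
  have b2 : (4 * κ) ^ 2 ≤ Real.log Y := le_trans (le_trans (le_max_right _ _) (le_max_left _ _)) a2
  have b3 : 2 * (4 * K + Real.log q - Real.log c) ≤ Real.log Y := le_trans (le_max_right _ _) a2
  obtain ⟨v8, v2, -⟩ := E11_vY hκ a1 b2 b1 a3 a4
  have hqR : (1 : ℝ) ≤ q := by exact_mod_cast hq
  have hYR : (1000 : ℝ) ≤ Y := by exact_mod_cast a1
  have hhY : c * Y * (Real.log Y) ^ 2 * Real.log (Real.log (Real.log Y)) /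
      (Real.log (Real.log Y)) ^ 2 < (hY c Y : ℝ) + 1 := by
    unfold Pool.Agent.LibRG87.hY
    exact Nat.lt_floor_add_one _
  have hvle : (vY κ Y : ℝ) ≤ Real.exp (Real.log Y * Real.log (Real.log (Real.log Y)) /
      (κ * Real.log (Real.log Y))) := by
    unfold Pool.Agent.LibRG87.vY
    exact Nat.floor_le (Real.exp_pos _).le
  have hlogY : Real.exp (Real.log Y) = Y := Real.exp_log (by linarith)
  set L1 := Real.log Y
  set L2 := Real.log L1
  set L3 := Real.log L2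
  rw [pow_one, one_mul] at a6
  have hv1 : (1 : ℝ) ≤ vY κ Y := by
    have : 1 ≤ vY κ Y := by omega
    exact_mod_cast this
  have hlv : Real.log (vY κ Y) ≤ L1 / (8 * K + 8) := by
    have e1 : Real.log (vY κ Y) ≤ L1 * L3 / (κ * L2) := by
      rw [Real.log_le_iff_le_exp (by linarith)]
      exact hvle
    refine e1.trans ?_
    rw [div_le_div_iff₀ (by positivity) (by positivity)]
    have e2 : L1 * ((8 * K + 8) * L3) ≤ L1 * L2 := mul_le_mul_of_nonneg_left a5 (by linarith)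
    have e3 : L1 * L2 ≤ L1 * (κ * L2) := by
      refine mul_le_mul_of_nonneg_left ?_ (by linarith)
      nlinarith
    nlinarith
  have hP := CU3_prod K (vY κ Y) Pr hPr
  have h5 : 4 * K * (1 + Real.log (vY κ Y)) ≤ 4 * K + L1 / 2 := by
    have e1 : 4 * (K : ℝ) * Real.log (vY κ Y) ≤ 4 * K * (L1 / (8 * K + 8)) :=
      mul_le_mul_of_nonneg_left hlv (by positivity)
    have e2 : 4 * (K : ℝ) * (L1 / (8 * K + 8)) ≤ L1 / 2 := by
      rw [mul_div_assoc', div_le_div_iff₀ (by positivity) (by norm_num)]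
      nlinarith
    linarith
  have h6 : (∏ p ∈ Pr, (1 + 4 * (K : ℝ) / p)) * q ≤ c * Y := by
    have hcY : 0 < c * Y := by positivity
    calc (∏ p ∈ Pr, (1 + 4 * (K : ℝ) / p)) * q ≤ Real.exp (4 * K + L1 / 2) * Real.exp (Real.log q) := by
          rw [Real.exp_log (by linarith)]
          exact mul_le_mul_of_nonneg_right (hP.trans (Real.exp_le_exp.2 h5)) (by linarith)
      _ = Real.exp (4 * K + L1 / 2 + Real.log q) := by rw [← Real.exp_add]
      _ ≤ Real.exp (Real.log c + L1) := Real.exp_le_exp.2 (by linarith)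
      _ = c * Y := by rw [Real.exp_add, Real.exp_log hc, hlogY]
  have h7 : c * Y ≤ c * Y * L1 ^ 2 * L3 / L2 ^ 2 := by
    rw [le_div_iff₀ (by positivity)]
    have e1 : L2 ^ 2 ≤ L1 ^ 2 := pow_le_pow_left₀ (by linarith) a6 2
    have e2 : L1 ^ 2 ≤ L1 ^ 2 * L3 := by nlinarith [sq_nonneg L1]
    calc c * Y * L2 ^ 2 ≤ c * Y * (L1 ^ 2 * L3) := mul_le_mul_of_nonneg_left (e1.trans e2) (by positivity)
      _ = c * Y * L1 ^ 2 * L3 := by ring
  linarith

end Pool.Agent.LibT63
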