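import Pool.Agent.LibT63.CU3

set_option autoImplicit false

namespace Pool.Agent.LibT63

open Finset Pool.Agent.LibRG87

/-- **Block C**: the classes, with a constant `c` which does not depend on `q`. -/
theorem classesU (K : ℕ) (ε : ℝ) (hε : 0 < ε) : ∃ c : ℝ, 0 < c ∧ ∀ q : ℕ, 1 ≤ q →
    ∃ Y0 : ℕ, ∀ Y : ℕ, Y0 ≤ Y →
    ∀ (E : Finset ℕ) (p1 a : ℕ) (H : Finset ℕ), (E.card : ℝ) ≤ (Real.log Y) ^ 4 →
    (∀ p ∈ E, Real.sqrt Y < p) → H.card = K → (∀ h ∈ H, h ≤ hY c Y) →
    (∀ p : ℕ, p.Prime → ∃ r : ℕ, ∀ h ∈ H, ¬ h ≡ r [MOD p]) → (∀ h ∈ H, (a + h).Coprime q) →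
    ∃ n0 : ℕ, n0 ≡ a [MOD q] ∧ (∀ h ∈ H, (n0 + h).Coprime (M0 q Y E p1)) ∧
      ((((range (hY c Y + 1)).filter fun j => j ∉ H ∧ (n0 + j).Coprime (M0 q Y E p1)).card : ℝ) ≤
        ε * Y) := by
  classical
  obtain ⟨κ, hκ, C1, hC1, hS⟩ := surv_small
  obtain ⟨CG, hCG, hGG⟩ := CU1_GG K
  obtain ⟨C4, hC4, hpr'⟩ := prod_smallU K
  set D : ℝ := 6 * κ * C4 * CG * C1 with hD
  have hD0 : 0 < D := by positivity
  set c : ℝ := min (1 / 3) (ε / (2 * D)) with hc
  have hc0 : 0 < c := lt_min (by norm_num) (by positivity)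
  have hc3 : 3 * c ≤ 1 := by
    have := min_le_left (1 / 3 : ℝ) (ε / (2 * D))
    rw [← hc] at this
    linarith
  have hDc : D * c ≤ ε / 2 := by
    have := min_le_right (1 / 3 : ℝ) (ε / (2 * D))
    rw [← hc, le_div_iff₀ (by positivity)] at this
    linarith
  refine ⟨c, hc0, fun q hq => ?_⟩
  have hpr := hpr' q hq
  obtain ⟨Y1, hY1⟩ := hS (3 * c) (by linarith) hc3
  obtain ⟨Y7, hY7⟩ := CU3_grow K q hq κ c hκ hc0
  obtain ⟨Y2, hY2⟩ := E11_ev (max 1 ((4 * κ) ^ 2))
  obtain ⟨Y3, hY3⟩ := hY_double c hc0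
  obtain ⟨Y4, hY4⟩ := bad_small K κ c (ε / 2) hκ hc0 (by positivity)
  obtain ⟨Y5, hY5⟩ := vY_big κ hκ 1
  obtain ⟨Y6, hY6⟩ := E11_ev (q : ℝ)
  refine ⟨max Y7 (max (max (max Y1 Y2) (max Y3 Y4)) (max Y5 Y6)), ?_⟩
  intro Y hYY0 E p1 a H hE hEY hHK hHN hAdm hHq
  have hYY : max (max (max Y1 Y2) (max Y3 Y4)) (max Y5 Y6) ≤ Y := le_trans (le_max_right _ _) hYY0
  have hgrow := hY7 Y (le_trans (le_max_left _ _) hYY0)
  have g1 : Y1 ≤ Y := le_trans (le_trans (le_max_left _ _) (le_max_left _ _)) (le_trans (le_max_left _ _) hYY)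
  have g2 : Y2 ≤ Y := le_trans (le_trans (le_max_right _ _) (le_max_left _ _)) (le_trans (le_max_left _ _) hYY)
  have g3 : Y3 ≤ Y := le_trans (le_trans (le_max_left _ _) (le_max_right _ _)) (le_trans (le_max_left _ _) hYY)
  have g4 : Y4 ≤ Y := le_trans (le_trans (le_max_right _ _) (le_max_right _ _)) (le_trans (le_max_left _ _) hYY)
  have g5 : Y5 ≤ Y := le_trans (le_max_left _ _) (le_trans (le_max_right _ _) hYY)
  have g6 : Y6 ≤ Y := le_trans (le_max_right _ _) (le_trans (le_max_right _ _) hYY)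
  obtain ⟨h1000, hL1, hL2, hL3⟩ := hY2 Y g2
  have hL1a : 1 ≤ Real.log Y := le_trans (le_max_left _ _) hL1
  have hL1b : (4 * κ) ^ 2 ≤ Real.log Y := le_trans (le_max_right _ _) hL1
  obtain ⟨hv8, hv2, hvlog⟩ := E11_vY hκ h1000 hL1b hL1a hL2 hL3
  have hvs := C9_vY_sqrt hκ h1000 hL1a hL2 hL3
  have hsv := hY1 Y g1
  have hdb := hY3 Y g3
  have hbad := hY4 Y g4
  have hvq : q ≤ vY κ Y := by
    have h1 := hY5 Y g5
    have h2 := (hY6 Y g6).2.1
    rw [pow_one] at h1
    exact_mod_cast h2.trans h1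
  set v := vY κ Y with hv
  set N := hY c Y with hN
  set N3 := hY (3 * c) Y with hN3
  set P1 : Finset ℕ := (prs v).filter (fun p => 2 * K < p ∧ p ≠ p1 ∧ ¬ p ∣ q) with hP1
  have hP1p : ∀ p ∈ P1, p.Prime := fun p hp => (mem_prs.1 (mem_filter.1 hp).1).1
  set J0 : Finset ℕ := (range (N + 1) \ H).filter (fun j => (a + j).Coprime q) with hJ0
  set A : Finset ℕ := Surv N3 v (Y / 8) with hA
  have hGG0 : ∀ j, 0 ≤ GG H P1 j := by
    intro j
    refine Finset.prod_nonneg fun p hp => ?_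
    have hp2 : (2 : ℝ) ≤ p := by exact_mod_cast (hP1p p hp).two_le
    split_ifs
    · rw [inv_nonneg, sub_nonneg, div_le_one (by linarith)]
      linarith
    · exact zero_le_one
  obtain ⟨t, ht, hsum⟩ := shift_avg N J0 A (GG H P1) fun j _ => hGG0 j
  rw [mem_Icc] at ht
  have hN1 : (0 : ℝ) < (N : ℝ) + 1 := by positivity
  have hqR : (0 : ℝ) < q := by exact_mod_cast (show 0 < q from hq)
  have hφR : (0 : ℝ) < q.totient := by exact_mod_cast Nat.totient_pos.2 (show 0 < q from hq)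
  have hsum2 : ∑ j ∈ J0.filter (fun j => j + t ∈ A), GG H P1 j ≤ A.card * (CG * (q.totient / q)) := by
    refine hsum.trans ?_
    have h1 := hGG H P1 N q a hq hHK hHN
      (fun p hp => ⟨⟨hP1p p hp, (mem_filter.1 hp).2.1⟩, (mem_filter.1 hp).2.2.2⟩)
      (hgrow P1 fun p hp => ⟨hP1p p hp, (mem_prs.1 (mem_filter.1 hp).1).2⟩)
    calc (A.card : ℝ) / (N + 1) * ∑ j ∈ J0, GG H P1 j ≤
        (A.card : ℝ) / (N + 1) * (CG * (q.totient / q) * (N + 1)) :=
          mul_le_mul_of_nonneg_left h1 (by positivity)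
      _ = A.card * (CG * (q.totient / q)) := by
          field_simp
  set S : Finset ℕ := J0.filter (fun j => j + t ∈ A) with hSd
  have hAl : ∀ p : ℕ, p.Prime → (Al H p).Nonempty := fun p hp =>
    Al_nonempty H p hp.pos (hAdm p hp)
  obtain ⟨c1, hc1, hcnt⟩ := classes_avg S P1 (fun p hp => (hP1p p hp).pos) (Al H)
    (fun p hp => ⟨hAl p (hP1p p hp), Finset.filter_subset _ _⟩) (fun _ => 1) fun _ _ => zero_le_one
  have hlogv : 0 < Real.log (v : ℝ) := Real.log_pos (by
    have : (2 : ℝ) ≤ (v : ℝ) := by exact_mod_cast hv2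
    linarith)
  have hmain : (((S.filter (fun j => ∀ p ∈ P1, ¬ j ≡ c1 p [MOD p])).card : ℕ) : ℝ) ≤
      C4 * (q / q.totient) / Real.log v * (A.card * (CG * (q.totient / q))) := by
    have h1 : (((S.filter (fun j => ∀ p ∈ P1, ¬ j ≡ c1 p [MOD p])).card : ℕ) : ℝ) =
        ∑ _j ∈ S.filter (fun j => ∀ p ∈ P1, ¬ j ≡ c1 p [MOD p]), (1 : ℝ) := by
      simp
    rw [h1]
    refine hcnt.trans ?_
    have hpr0 : 0 ≤ ∏ p ∈ P1, (1 - 1 / (p : ℝ)) := by
      refine Finset.prod_nonneg fun p hp => ?_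
      have hp2 : (2 : ℝ) ≤ p := by exact_mod_cast (hP1p p hp).two_le
      rw [sub_nonneg, div_le_one (by linarith)]
      linarith
    calc ∑ j ∈ S, 1 * ∏ p ∈ P1, (1 - if j % p ∈ Al H p then 1 / ((Al H p).card : ℝ) else 0)
        ≤ ∑ j ∈ S, (∏ p ∈ P1, (1 - 1 / (p : ℝ))) * GG H P1 j := by
          refine Finset.sum_le_sum fun j _ => ?_
          rw [one_mul]
          exact prod_factor_le H P1 j hP1p
      _ = (∏ p ∈ P1, (1 - 1 / (p : ℝ))) * ∑ j ∈ S, GG H P1 j := by rw [Finset.mul_sum]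
      _ ≤ C4 * (q / q.totient) / Real.log v * (A.card * (CG * (q.totient / q))) := by
          refine mul_le_mul (hpr v p1 hv2) hsum2 (Finset.sum_nonneg fun j _ => hGG0 j) (by positivity)
  -- the class function
  choose! r hr using fun (p : ℕ) (hp : p.Prime) => hAl p hp
  set cc : ℕ → ℕ := fun p => if p ∈ P1 then c1 p else
    if p ≤ v then r p else if ∃ h ∈ H, p ∣ h + t then r p else p - t % p with hcc
  have hPM : ∀ p ∈ PM q Y E p1, p.Prime ∧ ¬ p ∣ q := fun p hp =>
    ⟨(mem_prs.1 (mem_filter.1 hp).1).1, (mem_filter.1 hp).2.2.2⟩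
  obtain ⟨n0, hn0, hcl⟩ := crt_q q hq (PM q Y E p1) hPM a cc
  have hcop : ∀ b : ℕ, (n0 + b).Coprime (M0 q Y E p1) → ∀ p ∈ PM q Y E p1, ¬ p ∣ n0 + b := by
    intro b hb p hp hpd
    have hpp := (hPM p hp).1
    have h1 : p ∣ M0 q Y E p1 := Dvd.dvd.mul_left (Finset.dvd_prod_of_mem (fun p => p) hp) q
    have h2 := Nat.dvd_gcd hpd h1
    rw [hb] at h2
    exact hpp.one_lt.ne' (Nat.dvd_one.1 h2)
  refine ⟨n0, hn0, ?_, ?_⟩
  · intro h hh
    rw [M0]
    refine Nat.Coprime.mul_right ?_ ?_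
    · have h1 : (n0 + h) ≡ (a + h) [MOD q] := Nat.ModEq.add_right h hn0
      have h2 : Nat.gcd (n0 + h) q = Nat.gcd (a + h) q := Nat.ModEq.gcd_eq h1
      rw [Nat.Coprime, h2]
      exact hHq h hh
    · rw [Nat.coprime_prod_right_iff]
      intro p hp
      have hpp := (hPM p hp).1
      rw [Nat.coprime_comm, Nat.Prime.coprime_iff_not_dvd hpp, hcl p hp h]
      intro hmod
      have hr' := hr p hpp
      rw [Al, mem_filter] at hr'
      simp only [hcc] at hmod
      split_ifs at hmod with i1 i2 i3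
      · have h1 := hc1 p i1
        rw [Al, mem_filter] at h1
        exact h1.2 h hh hmod
      · exact hr'.2 h hh hmod
      · exact hr'.2 h hh hmod
      · exact i3 ⟨h, hh, (C9_shift hpp.pos).1 hmod⟩
  · set B : Finset ℕ := E ∪ ((insert p1
      ((prs Y).filter (fun p => ∃ h ∈ H, p ∣ h + t))).filter fun p => v < p) with hB
    have hsub : ((range (N + 1)).filter fun j => j ∉ H ∧ (n0 + j).Coprime (M0 q Y E p1)) ⊆
        (S.filter (fun j => ∀ p ∈ P1, ¬ j ≡ c1 p [MOD p])) ∪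
          ((range (N + 1)).filter fun j => ∃ p ∈ B, p ∣ j + t) := by
      intro j hj
      rw [mem_filter] at hj
      obtain ⟨hjN, hjH, hjc⟩ := hj
      rw [mem_union]
      by_cases hb : ∃ p ∈ B, p ∣ j + t
      · right
        rw [mem_filter]
        exact ⟨hjN, hb⟩
      left
      have hjq : (a + j).Coprime q := by
        have h1 : (n0 + j).Coprime q := Nat.Coprime.coprime_mul_right_right (by
          have h2 := hjc
          rw [M0] at h2
          exact h2)
        have h2 : (n0 + j) ≡ (a + j) [MOD q] := Nat.ModEq.add_right j hn0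
        have h3 : Nat.gcd (n0 + j) q = Nat.gcd (a + j) q := Nat.ModEq.gcd_eq h2
        rw [Nat.Coprime, ← h3]
        exact h1
      rw [mem_filter, hSd, mem_filter, hJ0, mem_filter, mem_sdiff]
      refine ⟨⟨⟨⟨hjN, hjH⟩, hjq⟩, ?_⟩, ?_⟩
      · rw [hA, Surv, mem_filter, mem_Icc]
        rw [mem_range] at hjN
        refine ⟨⟨by omega, by omega⟩, ?_⟩
        intro p hp hpv
        have hpp := Nat.prime_of_mem_primeFactors hp
        have hpd := Nat.dvd_of_mem_primeFactors hp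
        have hpY : p ≤ Y := hpv.2.trans (Nat.div_le_self _ _)
        have hpB : p ∉ B := fun h => hb ⟨p, h, hpd⟩
        rw [hB, mem_union, mem_filter, mem_insert, mem_filter, mem_prs] at hpB
        have hpE : p ∉ E := fun h => hpB (Or.inl h)
        have hp1 : p ≠ p1 := fun h => hpB (Or.inr ⟨Or.inl h, hpv.1⟩)
        have hpH : ¬ ∃ h ∈ H, p ∣ h + t := fun h => hpB (Or.inr ⟨Or.inr ⟨⟨hpp, hpY⟩, h⟩, hpv.1⟩)
        have hpq : ¬ p ∣ q := fun h => by
          have := Nat.le_of_dvd hq h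
          omega
        have hpPM : p ∈ PM q Y E p1 := by
          rw [PM, mem_filter, mem_prs]
          exact ⟨⟨hpp, hpY⟩, hpE, hp1, hpq⟩
        apply hcop j hjc p hpPM
        rw [hcl p hpPM j]
        have hpP1 : p ∉ P1 := fun h => by
          have := (mem_prs.1 (mem_filter.1 h).1).2
          omega
        have hcp : cc p = p - t % p := by
          simp only [hcc]
          rw [if_neg hpP1, if_neg (by omega), if_neg hpH]
        rw [hcp, C9_shift hpp.pos]
        exact hpd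
      · intro p hp hmod
        have hpv := (mem_prs.1 (mem_filter.1 hp).1).2
        have hpE : p ∉ E := fun h => by
          have h1 := hEY p h
          have h2 : (p : ℝ) ≤ v := by exact_mod_cast hpv
          linarith
        have hpPM : p ∈ PM q Y E p1 := by
          rw [PM, mem_filter, mem_prs]
          have hf := (mem_filter.1 hp).2
          refine ⟨⟨hP1p p hp, ?_⟩, hpE, hf.2.1, hf.2.2⟩
          have : v ≤ Y := hv8.trans (Nat.div_le_self _ _)
          omega
        apply hcop j hjc p hpPM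
        rw [hcl p hpPM j]
        have hcp : cc p = c1 p := by
          simp only [hcc]
          rw [if_pos hp]
        rw [hcp]
        exact hmod
    have hcard : ((((range (N + 1)).filter fun j => j ∉ H ∧ (n0 + j).Coprime (M0 q Y E p1)).card : ℕ) : ℝ) ≤
        ((S.filter (fun j => ∀ p ∈ P1, ¬ j ≡ c1 p [MOD p])).card : ℝ) +
          (((range (N + 1)).filter fun j => ∃ p ∈ B, p ∣ j + t).card : ℝ) := by
      exact_mod_cast (Finset.card_le_card hsub).trans (Finset.card_union_le _ _)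
    have hb1 := C9_bad K Y N t v E p1 H hHK hE hEY (by omega) hHN ht.1 ht.2 (by omega)
    have hb2 := hb1.trans hbad
    have hsv2 : (A.card : ℝ) ≤ C1 * N3 * Real.log (Real.log Y) / Real.log Y := hsv
    set L1 := Real.log Y with hL1d
    set L2 := Real.log L1 with hL2d
    set L3 := Real.log L2 with hL3d
    have hN3le : (N3 : ℝ) ≤ (3 * c) * Y * L1 ^ 2 * L3 / L2 ^ 2 := by
      rw [hN3, hY]
      exact Nat.floor_le (by positivity)
    have hcancel : C4 * (q / q.totient) / Real.log v * (A.card * (CG * (q.totient / q))) =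
        C4 / Real.log v * (A.card * CG) := by
      field_simp
    rw [hcancel] at hmain
    have hfin : C4 / Real.log v * (A.card * CG) ≤ D * c * Y := by
      have hL1p : 0 < L1 := by linarith
      have hL2p : 0 < L2 := by linarith
      have hL3p : 0 < L3 := by linarith
      have e1 : C4 / Real.log v ≤ C4 / (L1 * L3 / (2 * κ * L2)) :=
        div_le_div_of_nonneg_left hC4.le (by positivity) hvlog
      have e2 : (A.card : ℝ) * CG ≤ (C1 * ((3 * c) * Y * L1 ^ 2 * L3 / L2 ^ 2) * L2 / L1) * CG := by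
        refine mul_le_mul_of_nonneg_right (hsv2.trans ?_) (by linarith)
        gcongr
      calc C4 / Real.log v * (A.card * CG) ≤
          C4 / (L1 * L3 / (2 * κ * L2)) * ((C1 * ((3 * c) * Y * L1 ^ 2 * L3 / L2 ^ 2) * L2 / L1) * CG) :=
            mul_le_mul e1 e2 (by positivity) (by positivity)
        _ = D * c * Y := by
            rw [hD]
            field_simp
            ring
    have hfin2 : D * c * Y ≤ ε / 2 * Y := mul_le_mul_of_nonneg_right hDc (Nat.cast_nonneg _)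
    linarith

end Pool.Agent.LibT63
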