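import Pool.Agent.LibT63.D1

/-!
Block D of Theorem T, row D2: the sums `G1s`, `G2s`, `L2s` only see the primes `≤ w^(q0 a^I)`; output `sumsP`
for any set `P` of primes `> w` which contains all primes in `(w, w^(q0 a^I)]`.
-/

open Finset Filter

namespace Pool.Agent.LibT63

open Pool.Agent.LibRG87 Pool.Agent.LibLG5 Pool.Agent.LibPL63

theorem D2_sum (P P' : Finset ℕ) (h : P' ⊆ P) (F : Finset ℕ → ℝ)
    (hF : ∀ A ⊆ P, F A ≠ 0 → A ⊆ P') :
    ∑ A ∈ P.powerset, F A = ∑ A ∈ P'.powerset, F A := by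
  symm
  apply Finset.sum_subset (Finset.powerset_mono.2 h)
  intro A hA hA'
  by_contra hne
  exact hA' (Finset.mem_powerset.2 (hF A (Finset.mem_powerset.1 hA) hne))

theorem D2_mem {P : Finset ℕ} {w k : ℕ} (hP : ∀ p ∈ P, p.Prime ∧ w < p) {A : Finset ℕ} (hA : A ⊆ P)
    (hr : rr A ≤ (w : ℝ) ^ k) : A ⊆ PL w k 0 := by
  intro p hp
  have h1 := hP p (hA hp)
  have h2 : (p : ℝ) ≤ rr A := by
    unfold rr
    have h3 : ∀ q ∈ A, (1 : ℝ) ≤ (q : ℝ) := fun q hq => by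
      exact_mod_cast (hP q (hA hq)).1.one_le
    rw [← Finset.mul_prod_erase A _ hp]
    have h4 : (1 : ℝ) ≤ ∏ q ∈ A.erase p, (q : ℝ) := by
      calc (1 : ℝ) = ∏ _q ∈ A.erase p, (1 : ℝ) := by simp
        _ ≤ _ := Finset.prod_le_prod (fun _ _ => zero_le_one) fun q hq =>
          h3 q (Finset.mem_of_mem_erase hq)
    nlinarith [h3 p hp]
  have h5 : p ≤ w ^ k := by exact_mod_cast h2.trans hr
  unfold PL PP
  rw [Finset.mem_erase, Finset.mem_filter, Finset.mem_Ioc]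
  exact ⟨h1.1.ne_zero, ⟨h1.2, h5⟩, h1.1⟩

theorem D2_supp {w q0 a I : ℕ} {A : Finset ℕ} (h : g1 w q0 a I A ≠ 0) :
    rr A ≤ (w : ℝ) ^ (q0 * a ^ I) := g1_ne h

/-- the sums of a general set of primes -/
theorem sumsGen {a C : ℕ} {c : ℝ} (hS : SumsU a C c) {I q0 w : ℕ} (hI : 1 ≤ I) (hq0 : 1 ≤ q0)
    (hw : 2 ≤ w) (P : Finset ℕ) (hP : ∀ p ∈ P, p.Prime ∧ w < p)
    (hP' : ∀ p, p.Prime → w < p → p ≤ w ^ (q0 * a ^ I) → p ∈ P) :
    c * I * q0 ≤ G1s P w q0 a I ∧ G1s P w q0 a I ≤ C * (I + 1) * q0 ∧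
    c * q0 ≤ G2s P w q0 a I ∧ G2s P w q0 a I ≤ C * q0 ∧
    L2s P w q0 a I ≤ C * (I + 1) * q0 ^ 2 * Real.log w := by
  have hsub : PL w (q0 * a ^ I) 0 ⊆ P := by
    intro p hp
    unfold PL PP at hp
    rw [Finset.mem_erase, Finset.mem_filter, Finset.mem_Ioc] at hp
    exact hP' p hp.2.2 hp.2.1.1 hp.2.1.2
  have e1 : G1s P w q0 a I = G1s (PL w (q0 * a ^ I) 0) w q0 a I := by
    unfold G1s
    refine D2_sum P _ hsub _ fun A hA hne => D2_mem hP hA (D2_supp (a := a) fun h0 => hne ?_)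
    rw [h0, zero_div]
  have e2 : G2s P w q0 a I = G2s (PL w (q0 * a ^ I) 0) w q0 a I := by
    unfold G2s
    refine D2_sum P _ hsub _ fun A hA hne => D2_mem hP hA (D2_supp (a := a) fun h0 => hne ?_)
    rw [h0]; ring
  have e3 : L2s P w q0 a I = L2s (PL w (q0 * a ^ I) 0) w q0 a I := by
    unfold L2s
    refine D2_sum P _ hsub _ fun A hA hne => D2_mem hP hA (D2_supp (a := a) fun h0 => hne ?_)
    rw [h0]; ring
  rw [e1, e2, e3]
  exact hS.2.2.2.2 I q0 w hI hq0 hw 0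

end Pool.Agent.LibT63
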