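import Pool.Agent.LibT63.CDefs

/-!
LibT63 (MP_ff81b6_nt, Theorem T), block E, row E1: the size of the modulus `M0` and of its totient.
-/

set_option autoImplicit false

namespace Pool.Agent.LibT63

open Finset Pool.Agent.LibRG87

theorem E1_M0_ne (q Y : ℕ) (hq : 1 ≤ q) (E : Finset ℕ) (p1 : ℕ) : M0 q Y E p1 ≠ 0 := by
  unfold M0
  refine mul_ne_zero (by omega) (Finset.prod_ne_zero_iff.2 fun p hp => ?_)
  unfold PM at hp
  exact (mem_prs.1 (Finset.mem_filter.1 hp).1).1.ne_zero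

theorem E1_dvd {q Y : ℕ} {E : Finset ℕ} {p1 p : ℕ} (hp : p.Prime) (hY : p ≤ Y) (hE : p ∉ E)
    (h1 : p ≠ p1) : p ∣ M0 q Y E p1 := by
  unfold M0
  by_cases h : p ∣ q
  · exact h.mul_right _
  · refine Dvd.dvd.mul_left (Finset.dvd_prod_of_mem _ ?_) _
    unfold PM
    exact Finset.mem_filter.2 ⟨mem_prs.2 ⟨hp, hY⟩, hE, h1, h⟩

/-- a prime divisor of `M0` is at most `Y` or divides `q` -/
theorem E1_le {q Y : ℕ} {E : Finset ℕ} {p1 p : ℕ} (hp : p.Prime) (h : p ∣ M0 q Y E p1) :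
    p ≤ Y ∨ p ∣ q := by
  unfold M0 at h
  rcases (hp.dvd_mul).1 h with h | h
  · exact Or.inr h
  · left
    obtain ⟨r, hr, hpr⟩ := (hp.prime.dvd_finset_prod_iff _).1 h
    unfold PM at hr
    have hr' := mem_prs.1 (Finset.mem_filter.1 hr).1
    rw [(Nat.prime_dvd_prime_iff_eq hp hr'.1).1 hpr]
    exact hr'.2

/-- the modulus is at most `exp (2 Y)` -/
theorem E1_size (q : ℕ) (hq : 1 ≤ q) : ∃ Y0 : ℕ, ∀ Y : ℕ, Y0 ≤ Y → ∀ (E : Finset ℕ) (p1 : ℕ),
    (M0 q Y E p1 : ℝ) ≤ Real.exp (2 * Y) := by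
  refine ⟨2 * q, fun Y hY E p1 => ?_⟩
  have h1 : ∏ p ∈ PM q Y E p1, p ≤ 4 ^ Y := by
    refine le_trans ?_ (primorial_le_four_pow Y)
    unfold primorial
    refine Finset.prod_le_prod_of_subset_of_one_le' ?_ ?_
    · intro p hp
      unfold PM prs at hp
      rw [Finset.mem_filter, Finset.mem_filter] at hp
      rw [Finset.mem_filter]
      exact hp.1
    · intro p hp _
      exact (Finset.mem_filter.1 hp).2.one_le
  have h2 : (M0 q Y E p1 : ℝ) ≤ q * 4 ^ Y := by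
    unfold M0
    have : q * ∏ p ∈ PM q Y E p1, p ≤ q * 4 ^ Y := Nat.mul_le_mul_left q h1
    exact_mod_cast this
  refine h2.trans ?_
  have h3 : (q : ℝ) ≤ Real.exp (Y / 2) := by
    have h4 := Real.add_one_le_exp ((Y : ℝ) / 2)
    have h5 : (2 * q : ℝ) ≤ Y := by exact_mod_cast hY
    linarith
  have h4 : (4 : ℝ) ^ Y ≤ Real.exp (3 / 2 * Y) := by
    have h5 : (4 : ℝ) ≤ Real.exp (3 / 2) := by
      have h6 := Real.exp_one_gt_d9
      have h7 : Real.exp (3 / 2) = Real.exp (1 / 2) * Real.exp 1 := by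
        rw [← Real.exp_add]; norm_num
      have h8 : (3 : ℝ) / 2 ≤ Real.exp (1 / 2) := by
        have := Real.add_one_le_exp (1 / 2 : ℝ)
        linarith
      nlinarith
    calc (4 : ℝ) ^ Y ≤ (Real.exp (3 / 2)) ^ Y := pow_le_pow_left₀ (by norm_num) h5 Y
      _ = Real.exp (3 / 2 * Y) := by rw [← Real.exp_nat_mul]; ring_nf
  calc (q : ℝ) * 4 ^ Y ≤ Real.exp (Y / 2) * Real.exp (3 / 2 * Y) :=
        mul_le_mul h3 h4 (by positivity) (Real.exp_pos _).le
    _ = Real.exp (2 * Y) := by rw [← Real.exp_add]; ring_nf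

/-- the totient of the modulus -/
theorem E1_tot : ∃ Y0 : ℕ, ∀ Y : ℕ, Y0 ≤ Y → ∀ (q : ℕ) (_ : 1 ≤ q) (E : Finset ℕ) (p1 : ℕ),
    (E.card : ℝ) ≤ (Real.log Y) ^ 4 → (∀ p ∈ E, Real.sqrt Y < p) →
    ((M0 q Y E p1).totient : ℝ) ≤ 4 / Real.log Y * (M0 q Y E p1 : ℝ) := by
  classical
  -- `2 (log Y)^4 ≤ sqrt Y` for large `Y`
  have hlim : ∀ᶠ t : ℝ in Filter.atTop, 2 * t ^ 4 ≤ Real.exp (t / 2) := by
    have h := (isLittleO_pow_exp_pos_mul_atTop 4 (show (0 : ℝ) < 1 / 2 by norm_num)).bound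
      (show (0 : ℝ) < 1 / 2 by norm_num)
    filter_upwards [h, Filter.eventually_ge_atTop (0 : ℝ)] with t h1 h2
    rw [Real.norm_of_nonneg (by positivity), Real.norm_of_nonneg (Real.exp_pos _).le] at h1
    have e : Real.exp (1 / 2 * t) = Real.exp (t / 2) := by ring_nf
    rw [e] at h1
    linarith
  have hlim2 := (Real.tendsto_log_atTop.comp tendsto_natCast_atTop_atTop).eventually
    (hlim.and (Filter.eventually_ge_atTop (1 : ℝ)))
  obtain ⟨Y1, hY1⟩ := Filter.eventually_atTop.1 hlim2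
  refine ⟨max Y1 3, fun Y hY q hq E p1 hE hEY => ?_⟩
  obtain ⟨h2, h3⟩ := hY1 Y (le_trans (le_max_left _ _) hY)
  simp only [Function.comp_apply] at h2 h3
  have hY3 : 3 ≤ Y := le_trans (le_max_right _ _) hY
  have hYp : (0 : ℝ) < Y := by exact_mod_cast (by omega : 0 < Y)
  set L := Real.log Y with hL
  have hsq : Real.exp (L / 2) = Real.sqrt Y := by
    rw [Real.sqrt_eq_rpow, Real.rpow_def_of_pos hYp, ← hL]
    ring_nf
  rw [hsq] at h2
  have hs0 : 0 < Real.sqrt Y := Real.sqrt_pos.2 hYp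
  set M := M0 q Y E p1 with hM
  have hMne : M ≠ 0 := E1_M0_ne q Y hq E p1
  have htot : (M.totient : ℝ) = M * ∏ p ∈ M.primeFactors, (1 - 1 / (p : ℝ)) := by
    have h := Nat.totient_eq_mul_prod_factors M
    have h' : ((M.totient : ℚ) : ℝ) = ((M * ∏ p ∈ M.primeFactors, (1 - (p : ℚ)⁻¹) : ℚ) : ℝ) := by
      rw [h]
    push_cast at h'
    simpa only [one_div] using h'
  have hf : ∀ p : ℕ, p.Prime → 0 < 1 - 1 / (p : ℝ) ∧ 1 - 1 / (p : ℝ) ≤ 1 := by
    intro p hp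
    have h5 : (1 : ℝ) < p := by exact_mod_cast hp.one_lt
    constructor
    · rw [sub_pos, div_lt_one (by linarith)]
      exact h5
    · have : 0 ≤ 1 / (p : ℝ) := by positivity
      linarith
  set A : Finset ℕ := (prs Y).filter fun p => p ∉ E ∧ p ≠ p1 with hA
  have hAM : A ⊆ M.primeFactors := by
    intro p hp
    rw [hA, Finset.mem_filter, mem_prs] at hp
    rw [Nat.mem_primeFactors]
    exact ⟨hp.1.1, E1_dvd hp.1.1 hp.1.2 hp.2.1 hp.2.2, hMne⟩
  have h4 : ∏ p ∈ M.primeFactors, (1 - 1 / (p : ℝ)) ≤ ∏ p ∈ A, (1 - 1 / (p : ℝ)) := by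
    rw [← Finset.prod_sdiff hAM]
    refine mul_le_of_le_one_left (Finset.prod_nonneg fun p hp =>
      (hf p (Nat.prime_of_mem_primeFactors (hAM hp))).1.le) ?_
    refine Finset.prod_le_one (fun p hp => ?_) (fun p hp => ?_)
    · exact (hf p (Nat.prime_of_mem_primeFactors (Finset.mem_sdiff.1 hp).1)).1.le
    · exact (hf p (Nat.prime_of_mem_primeFactors (Finset.mem_sdiff.1 hp).1)).2
  -- the removed primes
  set B : Finset ℕ := (prs Y).filter fun p => ¬ (p ∉ E ∧ p ≠ p1) with hB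
  have h5 : (∏ p ∈ A, (1 - 1 / (p : ℝ))) * ∏ p ∈ B, (1 - 1 / (p : ℝ)) =
      ∏ p ∈ prs Y, (1 - 1 / (p : ℝ)) := Finset.prod_filter_mul_prod_filter_not _ _ _
  have h6 : (1 : ℝ) / 4 ≤ ∏ p ∈ B, (1 - 1 / (p : ℝ)) := by
    have hBs : B ⊆ (E ∩ prs Y) ∪ ({p1} : Finset ℕ).filter Nat.Prime := by
      intro p hp
      rw [hB, Finset.mem_filter] at hp
      rw [Finset.mem_union, Finset.mem_inter, Finset.mem_filter, Finset.mem_singleton]
      by_cases h : p ∈ E
      · exact Or.inl ⟨h, hp.1⟩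
      · right
        refine ⟨?_, (mem_prs.1 hp.1).1⟩
        by_contra hne
        exact hp.2 ⟨h, hne⟩
    have hpr : ∀ p ∈ (E ∩ prs Y) ∪ ({p1} : Finset ℕ).filter Nat.Prime, p.Prime := by
      intro p hp
      rw [Finset.mem_union, Finset.mem_inter, Finset.mem_filter] at hp
      rcases hp with hp | hp
      · exact (mem_prs.1 hp.2).1
      · exact hp.2
    have h7 : ∏ p ∈ (E ∩ prs Y) ∪ ({p1} : Finset ℕ).filter Nat.Prime, (1 - 1 / (p : ℝ)) ≤
        ∏ p ∈ B, (1 - 1 / (p : ℝ)) := by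
      rw [← Finset.prod_sdiff hBs]
      refine mul_le_of_le_one_left (Finset.prod_nonneg fun p hp => (hf p (hpr p (hBs hp))).1.le) ?_
      refine Finset.prod_le_one (fun p hp => ?_) (fun p hp => ?_)
      · exact (hf p (hpr p (Finset.mem_sdiff.1 hp).1)).1.le
      · exact (hf p (hpr p (Finset.mem_sdiff.1 hp).1)).2
    refine le_trans ?_ h7
    have h8 : (∏ p ∈ E ∩ prs Y, (1 - 1 / (p : ℝ))) *
        ∏ p ∈ ({p1} : Finset ℕ).filter Nat.Prime, (1 - 1 / (p : ℝ)) ≤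
        ∏ p ∈ (E ∩ prs Y) ∪ ({p1} : Finset ℕ).filter Nat.Prime, (1 - 1 / (p : ℝ)) := by
      rw [← Finset.prod_union_inter]
      refine mul_le_of_le_one_right (Finset.prod_nonneg fun p hp => (hf p (hpr p hp)).1.le) ?_
      refine Finset.prod_le_one (fun p hp => ?_) (fun p hp => ?_)
      · exact (hf p (hpr p (Finset.mem_union_left _ (Finset.mem_inter.1 hp).1))).1.le
      · exact (hf p (hpr p (Finset.mem_union_left _ (Finset.mem_inter.1 hp).1))).2
    refine le_trans ?_ h8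
    have h9 : (1 : ℝ) / 2 ≤ ∏ p ∈ ({p1} : Finset ℕ).filter Nat.Prime, (1 - 1 / (p : ℝ)) := by
      by_cases hp1 : p1.Prime
      · rw [Finset.filter_singleton, if_pos hp1, Finset.prod_singleton]
        have h10 : (2 : ℝ) ≤ p1 := by exact_mod_cast hp1.two_le
        have : 1 / (p1 : ℝ) ≤ 1 / 2 := one_div_le_one_div_of_le (by norm_num) h10
        linarith
      · rw [Finset.filter_singleton, if_neg hp1, Finset.prod_empty]
        norm_num
    have h10 : (1 : ℝ) / 2 ≤ ∏ p ∈ E ∩ prs Y, (1 - 1 / (p : ℝ)) := by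
      have h11 : 1 - ∑ p ∈ E ∩ prs Y, 1 / (p : ℝ) ≤ ∏ p ∈ E ∩ prs Y, (1 - 1 / (p : ℝ)) := by
        have : ∀ S : Finset ℕ, (∀ p ∈ S, p.Prime) →
            1 - ∑ p ∈ S, 1 / (p : ℝ) ≤ ∏ p ∈ S, (1 - 1 / (p : ℝ)) ∧
              0 ≤ ∏ p ∈ S, (1 - 1 / (p : ℝ)) ∧ ∏ p ∈ S, (1 - 1 / (p : ℝ)) ≤ 1 := by
          intro S hS
          induction S using Finset.induction_on with
          | empty => simp
          | insert p S hpS ih =>
            obtain ⟨i1, i2, i3⟩ := ih fun r hr => hS r (Finset.mem_insert_of_mem hr)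
            obtain ⟨j1, j2⟩ := hf p (hS p (Finset.mem_insert_self _ _))
            rw [Finset.sum_insert hpS, Finset.prod_insert hpS]
            refine ⟨?_, mul_nonneg j1.le i2, mul_le_one₀ j2 i2 i3⟩
            have : 0 ≤ 1 / (p : ℝ) := by positivity
            nlinarith
        exact (this _ fun p hp => hpr p (Finset.mem_union_left _ hp)).1
      have h12 : ∑ p ∈ E ∩ prs Y, 1 / (p : ℝ) ≤ ∑ _p ∈ E ∩ prs Y, 1 / Real.sqrt Y := by
        refine Finset.sum_le_sum fun p hp => ?_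
        exact one_div_le_one_div_of_le hs0 (hEY p (Finset.mem_inter.1 hp).1).le
      rw [Finset.sum_const, nsmul_eq_mul] at h12
      have h13 : ((E ∩ prs Y).card : ℝ) ≤ L ^ 4 :=
        le_trans (by exact_mod_cast Finset.card_le_card Finset.inter_subset_left) hE
      have h14 : ((E ∩ prs Y).card : ℝ) * (1 / Real.sqrt Y) ≤ 1 / 2 := by
        rw [mul_one_div, div_le_iff₀ hs0]
        linarith
      linarith
    calc (1 : ℝ) / 4 = 1 / 2 * (1 / 2) := by norm_num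
      _ ≤ _ := mul_le_mul h10 h9 (by norm_num) (by linarith)
  have h7 : ∏ p ∈ prs Y, (1 - 1 / (p : ℝ)) ≤ 1 / L := prod_prs_le Y (by omega)
  have hA0 : 0 ≤ ∏ p ∈ A, (1 - 1 / (p : ℝ)) :=
    Finset.prod_nonneg fun p hp => (hf p (Nat.prime_of_mem_primeFactors (hAM hp))).1.le
  have h8 : (∏ p ∈ A, (1 - 1 / (p : ℝ))) * (1 / 4) ≤ 1 / L :=
    (mul_le_mul_of_nonneg_left h6 hA0).trans (h5.le.trans h7)
  have h9 : ∏ p ∈ M.primeFactors, (1 - 1 / (p : ℝ)) ≤ 4 / L := by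
    refine h4.trans ?_
    have e : 4 / L = 4 * (1 / L) := by ring
    rw [e]
    linarith
  rw [htot, mul_comm (4 / L)]
  exact mul_le_mul_of_nonneg_left h9 (Nat.cast_nonneg M)

end Pool.Agent.LibT63
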