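import Pool.Agent.LibT63.EP3

/-!
LibT63 (Theorem T), block E, row E3 (the parameter lemma).
`w = (D Y)^12`, `z = w^(2^J)` with `J = ⌊log Y / 8⌋` (EP2), `T = exp Y`, `U = exp (D Y / 100)`,
`g = g1 w q0 a I`, `V = w^(q0 a^I)`, `I = ⌊log K / log a⌋` (EP3).
-/

set_option autoImplicit false

namespace Pool.Agent.LibT63

open Finset Filter Pool.Agent.LibRG87 Pool.Agent.LibLG5 Pool.Agent.LibPL63

/-- the fields `c1`, `c2`, `c5` (first part): numbers -/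
theorem E3_num {X Y W L K N LT : ℝ} (hY : 2048 ≤ Y) (hX : Y ≤ X) (hW : X ^ 12 ≤ W)
    (hL : 1 ≤ L) (hK0 : 0 ≤ K) (hN0 : 0 ≤ N) (hKN : K + N + 1 ≤ Y) (hLT0 : 0 ≤ LT) (hLT : LT ≤ X) :
    16 * (K + N) ^ 2 ≤ W - 1 ∧ 64 * ((K + N + 1) * LT) ≤ (W - 1) * L ∧
      64 * K * (N * (2 * LT / ((W - 1) * L)) ^ 2) ≤ 1 / 2 := by
  have hX0 : 0 < X := by linarith
  have hX11 : 2048 ^ 9 * X ^ 2 ≤ X ^ 11 := by
    have e : X ^ 11 = X ^ 9 * X ^ 2 := by ring
    have h1 : (2048 : ℝ) ^ 9 ≤ X ^ 9 := pow_le_pow_left₀ (by norm_num) (by linarith) 9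
    rw [e]
    exact mul_le_mul_of_nonneg_right h1 (by positivity)
  have hWX : X ^ 11 ≤ W - 1 := by
    have e : X ^ 12 = X * X ^ 11 := by ring
    have h1 : (1 : ℝ) ≤ X ^ 11 := one_le_pow₀ (by linarith)
    nlinarith
  have hW1 : 0 < W - 1 := lt_of_lt_of_le (by positivity) hWX
  have hWL : X ^ 11 ≤ (W - 1) * L := by nlinarith
  have hD : 0 < (W - 1) * L := lt_of_lt_of_le (by positivity) hWL
  have hX2 : 0 < X ^ 2 := by positivity
  refine ⟨?_, ?_, ?_⟩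
  · have h1 : (K + N) ^ 2 ≤ X ^ 2 := pow_le_pow_left₀ (by positivity) (by linarith) 2
    norm_num at hX11
    linarith
  · have h1 : (K + N + 1) * LT ≤ X * X := mul_le_mul (by linarith) hLT hLT0 hX0.le
    norm_num at hX11
    nlinarith
  · have h1 : 2 * LT / ((W - 1) * L) ≤ 1 / X ^ 2 := by
      rw [div_le_div_iff₀ hD hX2]
      have h2 : 2 * LT * X ^ 2 ≤ 2 * X * X ^ 2 := by gcongr
      have h3 : 2 * X * X ^ 2 ≤ X ^ 11 := by
        have e : X ^ 11 = X ^ 8 * X ^ 3 := by ring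
        have h4 : (2048 : ℝ) ^ 8 ≤ X ^ 8 := pow_le_pow_left₀ (by norm_num) (by linarith) 8
        have h5 : (2 : ℝ) ≤ X ^ 8 := le_trans (by norm_num) h4
        rw [e]
        calc 2 * X * X ^ 2 = 2 * X ^ 3 := by ring
          _ ≤ _ := mul_le_mul_of_nonneg_right h5 (by positivity)
      linarith
    have h2 : 0 ≤ 2 * LT / ((W - 1) * L) := by positivity
    have h3 : (2 * LT / ((W - 1) * L)) ^ 2 ≤ (1 / X ^ 2) ^ 2 := pow_le_pow_left₀ h2 h1 2
    have h4 : K ≤ X := by linarith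
    have h5 : N ≤ X := by linarith
    calc 64 * K * (N * (2 * LT / ((W - 1) * L)) ^ 2)
        ≤ 64 * X * (X * (1 / X ^ 2) ^ 2) := by gcongr
      _ = 64 / X ^ 2 := by field_simp
      _ ≤ 1 / 2 := by
        rw [div_le_iff₀ (by positivity)]
        nlinarith

/-- the field `c5` (second part) -/
theorem E3_exp {t Y K N Z lz : ℝ} (hexp : Real.exp t = Y) (hlz0 : 0 < lz)
    (hlz : lz ≤ Real.exp (t / 4)) (hZ : 0 < Z) (hK0 : 0 ≤ K) (hN0 : 0 ≤ N) (hNY : N ≤ Y)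
    (hc3 : 8 * N ≤ Z * Y) (l3 : 128 * K * (Y * Real.exp (1 - 3 / 80 * Real.exp (3 * t / 4))) ≤ 1) :
    64 * K * (N * Real.exp (-((Y - lz) / lz) + 2 * (N * (1 / Z) / lz))) ≤ 1 / 2 := by
  have hY0 : 0 < Y := by rw [← hexp]; exact Real.exp_pos t
  have h2 : N * (1 / Z) ≤ Y / 8 := by
    rw [mul_one_div, div_le_iff₀ hZ]
    linarith
  have h3 : -((Y - lz) / lz) + 2 * (N * (1 / Z) / lz) ≤ 1 - 3 / 80 * Real.exp (3 * t / 4) := by
    have h4 : 2 * (N * (1 / Z) / lz) ≤ 2 * (Y / 8 / lz) := by gcongr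
    have h5 : Real.exp (3 * t / 4) ≤ Y / lz := by
      rw [le_div_iff₀ hlz0]
      calc Real.exp (3 * t / 4) * lz ≤ Real.exp (3 * t / 4) * Real.exp (t / 4) :=
            mul_le_mul_of_nonneg_left hlz (Real.exp_pos _).le
        _ = Y := by rw [← Real.exp_add, ← hexp]; congr 1; ring
    have h6 : -((Y - lz) / lz) + 2 * (Y / 8 / lz) = 1 - 3 / 4 * (Y / lz) := by
      field_simp
      ring
    have h7 : 0 < Real.exp (3 * t / 4) := Real.exp_pos _
    linarith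
  have h4 := Real.exp_le_exp.2 h3
  calc 64 * K * (N * Real.exp (-((Y - lz) / lz) + 2 * (N * (1 / Z) / lz)))
      ≤ 64 * K * (Y * Real.exp (1 - 3 / 80 * Real.exp (3 * t / 4))) := by gcongr
    _ ≤ 1 / 2 := by linarith

theorem E3_par : ∃ ε C : ℝ, 0 < ε ∧ 0 < C ∧ ∀ m K : ℕ, 1 ≤ m → Real.exp (C * m) ≤ K →
    ∀ D : ℕ, 200 ≤ D → ∃ Y0 : ℕ, ∀ Y : ℕ, Y0 ≤ Y → ∀ N : ℕ, (N : ℝ) ≤ ε * Y →
    ∃ (z V : ℝ) (g : Finset ℕ → ℝ),
      ParT (PE D Y) (wE D Y) z (Real.exp Y) (Real.exp ((D : ℝ) * Y / 100)) V g K N ∧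
      G2 (PE D Y) g ≤ (D : ℝ) * Y ∧
      128 * (m * (((D : ℝ) * Y) * ((4 / Real.log Y) * G2 (PE D Y) g))) ≤
        K * G1 (PE D Y) g ^ 2 := by
  obtain ⟨a, C, c, hS⟩ := sumsU
  have ha2 : 2 ≤ a := hS.1
  have hC1 : 1 ≤ C := hS.2.1
  have hc : 0 < c := hS.2.2.1
  have hC1' : (1 : ℝ) ≤ C := by exact_mod_cast hC1
  have ha2' : (2 : ℝ) ≤ a := by exact_mod_cast ha2
  have hla : 0 < Real.log a := Real.log_pos (by linarith)
  obtain ⟨c0, hc0, hz⟩ := EP2_z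
  obtain ⟨κ, hκ, hκ1⟩ : ∃ κ : ℝ, 1 ≤ κ ∧ 1331200 * (C * (16 * C / c + 3)) ≤ κ * c ^ 2 := by
    refine ⟨max 1 (1331200 * (C * (16 * C / c + 3)) / c ^ 2), le_max_left _ _, ?_⟩
    rw [← div_le_iff₀ (by positivity)]
    exact le_max_right _ _
  refine ⟨min (c0 / 8) (1 / 4), (κ + 1) * Real.log a, lt_min (by positivity) (by norm_num),
    by positivity, fun m K hm hKm D hD => ?_⟩
  have hm' : (1 : ℝ) ≤ m := by exact_mod_cast hm
  have hK0' : (0 : ℝ) < K := lt_of_lt_of_le (Real.exp_pos _) hKm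
  have hK1 : 1 ≤ K := by
    have : 0 < K := by exact_mod_cast hK0'
    omega
  have hlK : (κ + 1) * Real.log a * m ≤ Real.log K := by
    rw [← Real.log_exp ((κ + 1) * Real.log a * m)]
    exact Real.log_le_log (Real.exp_pos _) hKm
  -- `I`
  obtain ⟨I, hIκ, haK⟩ : ∃ I : ℕ, κ * m ≤ I ∧ a ^ I ≤ K := by
    refine ⟨⌊Real.log K / Real.log a⌋₊, ?_, ?_⟩
    · have h1 := Nat.lt_floor_add_one (Real.log K / Real.log a)
      have h2 : (κ + 1) * m ≤ Real.log K / Real.log a := by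
        rw [le_div_iff₀ hla]
        linarith
      linarith
    · have h0 : 0 ≤ Real.log K / Real.log a :=
        div_nonneg (Real.log_nonneg (by exact_mod_cast hK1)) hla.le
      have h1 := Nat.floor_le h0
      rw [le_div_iff₀ hla] at h1
      generalize ⌊Real.log K / Real.log a⌋₊ = n at h1 ⊢
      have ha0 : (0 : ℝ) < (a : ℝ) ^ n := by positivity
      have h2 : (a : ℝ) ^ n ≤ K := by
        rw [← Real.log_le_log_iff ha0 hK0', Real.log_pow]
        exact h1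
      exact_mod_cast h2
  have hI1' : (1 : ℝ) ≤ I := by nlinarith
  have hI1 : 1 ≤ I := by exact_mod_cast hI1'
  have hmI : 1331200 * (m * C * (16 * C / c + 3)) ≤ I * c ^ 2 := by
    calc 1331200 * (m * C * (16 * C / c + 3)) = m * (1331200 * (C * (16 * C / c + 3))) := by ring
      _ ≤ m * (κ * c ^ 2) := mul_le_mul_of_nonneg_left hκ1 (by positivity)
      _ = (κ * m) * c ^ 2 := by ring
      _ ≤ I * c ^ 2 := mul_le_mul_of_nonneg_right hIκ (by positivity)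
  obtain ⟨Y1, h1⟩ := hz D (by omega)
  obtain ⟨Y2, h2⟩ := EP3_g hS hI1 haK D hD
  obtain ⟨Y3, h3⟩ := EP2_w D (by omega)
  have hev := (Real.tendsto_log_atTop.comp tendsto_natCast_atTop_atTop).eventually
    (EP2_large K)
  obtain ⟨Y4, h4⟩ := eventually_atTop.1 hev
  refine ⟨max (max Y1 Y2) (max (max Y3 Y4) (4 * K + 4)), fun Y hY N hN => ?_⟩
  have hYY1 : Y1 ≤ Y := le_trans (le_trans (le_max_left _ _) (le_max_left _ _)) hY
  have hYY2 : Y2 ≤ Y := le_trans (le_trans (le_max_right _ _) (le_max_left _ _)) hY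
  have hYY3 : Y3 ≤ Y := le_trans (le_trans (le_max_left _ _)
    (le_trans (le_max_left _ _) (le_max_right _ _))) hY
  have hYY4 : Y4 ≤ Y := le_trans (le_trans (le_max_right _ _)
    (le_trans (le_max_left _ _) (le_max_right _ _))) hY
  have hYK : 4 * K + 4 ≤ Y := le_trans (le_trans (le_max_right _ _) (le_max_right _ _)) hY
  obtain ⟨z, hz1, hlz, hZ1, hZ2⟩ := h1 Y hYY1
  obtain ⟨V, g, hV1, hVU, hgok, hc4, hG2, hfin⟩ := h2 Y hYY2
  obtain ⟨hw3, hlw1, hlw2, ht1, hYb⟩ := h3 Y hYY3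
  obtain ⟨-, -, l3, -⟩ := h4 Y hYY4
  simp only [Function.comp] at l3
  have hYR : (2048 : ℝ) ≤ Y := by exact_mod_cast hYb
  have hYpos : (0 : ℝ) < Y := by linarith
  have hexp : Real.exp (Real.log Y) = Y := Real.exp_log hYpos
  rw [hexp] at l3
  have hYKR : 4 * (K : ℝ) + 4 ≤ Y := by exact_mod_cast hYK
  have hDR : (200 : ℝ) ≤ D := by exact_mod_cast hD
  have hXY : 200 * (Y : ℝ) ≤ D * Y := mul_le_mul_of_nonneg_right hDR hYpos.le
  have hN1 : (N : ℝ) ≤ c0 / 8 * Y :=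
    hN.trans (mul_le_mul_of_nonneg_right (min_le_left _ _) hYpos.le)
  have hN2 : (N : ℝ) ≤ 1 / 4 * Y :=
    hN.trans (mul_le_mul_of_nonneg_right (min_le_right _ _) hYpos.le)
  have hN0 : (0 : ℝ) ≤ N := Nat.cast_nonneg N
  have hZpos : 0 < ZZ (PE D Y) z := lt_of_lt_of_le hc0 hZ1
  have hlz0 : 0 < Real.log z := Real.log_pos hz1
  have hz0 : 0 < z := by linarith
  have hc3 : 8 * (N : ℝ) ≤ ZZ (PE D Y) z * Y := by
    have := mul_le_mul_of_nonneg_right hZ1 hYpos.le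
    linarith
  have hWX : ((D : ℝ) * Y) ^ 12 ≤ (wE D Y : ℝ) := by
    unfold wE
    push_cast
    exact le_rfl
  have hLT : Real.log (Real.exp Y * Real.exp ((D : ℝ) * Y / 100)) = Y + D * Y / 100 := by
    rw [← Real.exp_add, Real.log_exp]
  obtain ⟨n1, n2, n3⟩ := E3_num (X := (D : ℝ) * Y) (Y := Y) (W := wE D Y)
    (L := Real.log (wE D Y)) (K := K) (N := N) (LT := Y + D * Y / 100) hYR (by linarith) hWX
    (by linarith) hK0'.le hN0 (by linarith) (by linarith) (by linarith)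
  have hTz : Real.log (Real.exp Y / z) = Y - Real.log z := by
    rw [Real.log_div (Real.exp_pos _).ne' hz0.ne', Real.log_exp]
  have n4 := E3_exp (t := Real.log Y) (Y := Y) (K := K) (N := N) (Z := ZZ (PE D Y) z)
    (lz := Real.log z) hexp hlz0 hlz hZpos hK0'.le hN0 (by linarith) hc3 l3
  refine ⟨z, V, g, ?_, hG2, hfin m hmI⟩
  refine ⟨fun p hp => (Finset.mem_filter.1 hp).2, hw3,
    fun p hp => (Finset.mem_Ioc.1 (Finset.mem_filter.1 hp).1).1, hz1, ?_, hV1, hVU, hgok, hZ2,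
    hK1, ?_, ?_, ?_, hc4, ?_⟩
  · rw [Real.one_lt_exp_iff]
    exact hYpos
  · push_cast
    exact n1
  · push_cast
    rw [hLT]
    exact n2
  · rw [Real.log_exp]
    exact hc3
  · rw [hLT, hTz, mul_add, mul_add]
    linarith

end Pool.Agent.LibT63
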