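import Pool.Agent.LibT63.S13
import Pool.Agent.LibT63.CU4
import Pool.Agent.LibT63.E1
import Pool.Agent.LibT63.E3
import Pool.Agent.LibRG87.F2
import Pool.Agent.LibRG87.F3

/-!
LibT63 (Theorem T), block E, row E4 (assembly).
-/

set_option autoImplicit false

namespace Pool.Agent.LibT63

open Finset Pool.Agent.LibRG87 Pool.Agent.LibLG5 Pool.Agent.LibPL63 Pool.Agent.LibMaier

/-- the output of block B (good moduli) -/
def GoodMod (D : ℕ) : Prop :=
  ∀ q : ℕ, 1 ≤ q → ∃ Y0 : ℕ, ∀ Y : ℕ, Y0 ≤ Y → ∃ (E : Finset ℕ) (p1 : ℕ),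
    (E.card : ℝ) ≤ (Real.log Y) ^ 4 ∧ (∀ p ∈ E, Real.sqrt Y < p) ∧
    csum ((D : ℝ) * Y) (M0 q Y E p1) ≤ 1 / 8

/-- the positions -/
def bE (H S : Finset ℕ) : H ⊕ S → ℕ := Sum.elim (fun h => h.1) (fun s => s.1)

/-- from a good `n` of the sieve to the conclusion -/
theorem E4_good {Y q a n0 n h1 m : ℕ} {y : ℝ} {E H S P : Finset ℕ} {p1 : ℕ} (hq : 1 ≤ q) (hqY : q ≤ Y)
    (hS : ∀ j, j ≤ h1 → j ∉ H → (n0 + j).Coprime (M0 q Y E p1) → j ∈ S)
    (hn0 : n0 ≡ a [MOD q]) (hn : n ≡ n0 [MOD M0 q Y E p1]) (hny : y < n) (hYy : (Y : ℝ) ≤ y)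
    (hP : ∀ p ∈ P, p.Prime ∧ (p : ℝ) ≤ y)
    (hnm : m ≤ (univ.filter fun h : H => (n + bE H S (Sum.inl h)).Prime).card)
    (hnS : ∀ i : S, ∃ p ∈ P, p ∣ n + bE H S (Sum.inr i)) :
    n ≡ a [MOD q] ∧ m ≤ (H.filter fun h => (n + h).Prime).card ∧
      ∀ j : ℕ, j ≤ h1 → j ∉ H → ¬ (n + j).Prime := by
  have hqM : q ∣ M0 q Y E p1 := by
    unfold M0
    exact dvd_mul_right _ _
  refine ⟨(hn.of_dvd hqM).trans hn0, ?_, ?_⟩
  · refine hnm.trans (le_of_eq ?_)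
    rw [← Finset.card_map (Function.Embedding.subtype (· ∈ H))]
    congr 1
    ext h
    simp only [Finset.mem_map, Finset.mem_filter, Finset.mem_univ, true_and,
      Function.Embedding.coe_subtype, Subtype.exists, exists_and_right, exists_eq_right]
    constructor
    · rintro ⟨h1, h2⟩
      exact ⟨h1, h2⟩
    · rintro ⟨h1, h2⟩
      exact ⟨h1, h2⟩
  · intro j hj hjH hpr
    have hsmall : ∀ p : ℕ, p.Prime → (p : ℝ) ≤ y → ¬ p ∣ n + j := by
      intro p hp hple hd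
      have h1 : p = n + j := (Nat.prime_dvd_prime_iff_eq hp hpr).1 hd
      have h2 : (p : ℝ) < n := lt_of_le_of_lt hple hny
      have h3 : p < n := by exact_mod_cast h2
      omega
    by_cases hjS : j ∈ S
    · obtain ⟨p, hp, hpd⟩ := hnS ⟨j, hjS⟩
      exact hsmall p (hP p hp).1 (hP p hp).2 hpd
    · have hnc' : ¬ (n0 + j).Coprime (M0 q Y E p1) := fun hco => hjS (hS j hj hjH hco)
      obtain ⟨p, hp, hpj, hpM⟩ := Nat.Prime.not_coprime_iff_dvd.1 hnc'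
      have hpY : p ≤ Y := by
        rcases E1_le hp hpM with h | h
        · exact h
        · exact (Nat.le_of_dvd (by omega) h).trans hqY
      refine hsmall p hp ?_ ?_
      · have h1 : (p : ℝ) ≤ Y := by exact_mod_cast hpY
        exact h1.trans hYy
      · have h1 : n + j ≡ n0 + j [MOD p] := (hn.of_dvd hpM).add_right j
        exact (h1.dvd_iff (dvd_refl p)).2 hpj

/-- the theorem in terms of `Y`: there are many good `n` -/
theorem E4_main (D : ℕ) (hD : 1000 ≤ D) (hB : GoodMod D) :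
    ∃ C : ℝ, 0 < C ∧ ∀ m K : ℕ, 1 ≤ m → Real.exp (C * m) ≤ K → ∃ c : ℝ, 0 < c ∧
    ∀ q : ℕ, 1 ≤ q → ∀ η : ℝ, 0 < η → η ≤ 1 / 20 → ∃ Y0 : ℕ, ∀ Y : ℕ, Y0 ≤ Y →
    ∀ (a : ℕ) (H : Finset ℕ), H.card = K → (∀ h ∈ H, h ≤ hY c Y) →
    (∀ p : ℕ, p.Prime → ∃ r : ℕ, ∀ h ∈ H, ¬ h ≡ r [MOD p]) → (∀ h ∈ H, (a + h).Coprime q) →
    ∃ G : Finset ℕ,
      Real.exp ((1 - η) * ((D : ℝ) * Y)) ≤ 9 * K * Real.exp (46 / 1000 * ((D : ℝ) * Y)) * (G.card : ℝ) ∧
      ∀ n ∈ G, Real.exp ((1 - η) * ((D : ℝ) * Y)) < n ∧ (n : ℝ) ≤ Real.exp ((1 + η) * ((D : ℝ) * Y)) ∧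
        n ≡ a [MOD q] ∧ m ≤ (H.filter fun h => (n + h).Prime).card ∧
        ∀ j : ℕ, j ≤ hY c Y → j ∉ H → ¬ (n + j).Prime := by
  classical
  obtain ⟨ε, C, hε, hC, hpar⟩ := E3_par
  refine ⟨C, hC, fun m K hm hmK => ?_⟩
  obtain ⟨c, hc, hcl⟩ := classesU K (min ε 1) (lt_min hε one_pos)
  refine ⟨c, hc, fun q hq η hη hη1 => ?_⟩
  obtain ⟨Y1, hcl⟩ := hcl q hq
  obtain ⟨Y2, hY2⟩ := hpar m K hm hmK D (by omega)
  obtain ⟨Y3, hY3⟩ := hB q hq
  obtain ⟨Y4, hsize⟩ := E1_size q hq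
  obtain ⟨Y5, htot⟩ := E1_tot
  obtain ⟨Y6, hY6⟩ := hY_le c
  obtain ⟨x0, hsv⟩ := sieveXe η hη hη1
  -- a lower bound for `Y` for the elementary inequalities
  have hw4 : ∀ᶠ Y : ℕ in Filter.atTop, ((wE D Y : ℕ) : ℝ) ≤ Real.exp ((D : ℝ) * Y / 4) := by
    have hD0 : (0 : ℝ) < D := by exact_mod_cast (by omega : 0 < D)
    have h1 := (isLittleO_pow_exp_pos_mul_atTop 12 (show (0 : ℝ) < 1 / 4 by norm_num)).bound
      (show (0 : ℝ) < 1 by norm_num)
    have h2 : Filter.Tendsto (fun Y : ℕ => (D : ℝ) * Y) Filter.atTop Filter.atTop :=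
      (tendsto_natCast_atTop_atTop).const_mul_atTop hD0
    filter_upwards [h2.eventually h1] with Y h3
    rw [Real.norm_of_nonneg (by positivity), Real.norm_of_nonneg (Real.exp_pos _).le, one_mul] at h3
    unfold wE
    push_cast
    refine h3.trans (le_of_eq ?_)
    congr 1
    ring
  obtain ⟨Y7, hY7⟩ := Filter.eventually_atTop.1 hw4
  refine ⟨Y1 + Y2 + Y3 + Y4 + Y5 + Y6 + Y7 + q + ⌈x0⌉₊ + ⌈ε⌉₊ + K + 3, ?_⟩
  intro Y hYY a H hH hHle hadm hcop
  obtain ⟨E, p1, hE, hEY, hcs⟩ := hY3 Y (by omega)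
  obtain ⟨n0, hn0, hn0c, hn0s⟩ := hcl Y (by omega) E p1 a H hE hEY hH hHle hadm hcop
  set M : ℕ := M0 q Y E p1 with hM
  have hMne : M ≠ 0 := E1_M0_ne q Y hq E p1
  have hM1 : 1 ≤ M := Nat.one_le_iff_ne_zero.2 hMne
  set S : Finset ℕ := (range (hY c Y + 1)).filter fun j => j ∉ H ∧ (n0 + j).Coprime M with hS
  have hY0 : (0 : ℝ) ≤ Y := Nat.cast_nonneg Y
  have hYq : q < Y := by omega
  have hS0 : (S.card : ℝ) ≤ min ε 1 * Y := by
    refine le_trans (le_of_eq ?_) hn0s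
    congr 2
  have hS1 : (S.card : ℝ) ≤ ε * Y := hS0.trans (mul_le_mul_of_nonneg_right (min_le_left _ _) hY0)
  have hS2 : (S.card : ℝ) ≤ Y := by
    have h1 := hS0.trans (mul_le_mul_of_nonneg_right (min_le_right _ _) hY0)
    rwa [one_mul] at h1
  obtain ⟨z, V, g, hP, hG2, hmain⟩ := hY2 Y (by omega) S.card hS1
  set x : ℝ := (D : ℝ) * Y with hx
  have hD1000 : (1000 : ℝ) ≤ D := by exact_mod_cast hD
  have hD200 : (200 : ℝ) ≤ D := by linarith
  have hYx : (Y : ℝ) ≤ x := by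
    rw [hx]
    nlinarith
  have hx0 : x0 ≤ x := by
    refine (Nat.le_ceil x0).trans (le_trans ?_ hYx)
    exact_mod_cast (by omega : ⌈x0⌉₊ ≤ Y)
  have hxpos : 0 < x := by
    have : (0 : ℝ) < Y := by exact_mod_cast (by omega : 0 < Y)
    linarith
  -- the sieve primes
  have hPE : ∀ p ∈ PE D Y, p.Prime ∧ wE D Y < p ∧ (p : ℝ) ≤ Real.exp (x / 4) := by
    intro p hp
    unfold PE PP at hp
    rw [Finset.mem_filter, Finset.mem_Ioc] at hp
    refine ⟨hp.2, hp.1.1, ?_⟩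
    have h1 : (p : ℝ) ≤ (⌊Real.exp ((D : ℝ) * Y / 4)⌋₊ : ℕ) := Nat.cast_le.2 hp.1.2
    exact h1.trans (Nat.floor_le (Real.exp_pos _).le)
  have hYw : Y < wE D Y := by
    unfold wE
    have h1 : Y < D * Y := by nlinarith
    exact lt_of_lt_of_le h1 (Nat.le_self_pow (by norm_num) _)
  have hY2w : Y ^ 2 ≤ wE D Y := by
    unfold wE
    have h1 : Y ≤ D * Y := by nlinarith
    have h2 : 1 ≤ D * Y := by nlinarith
    calc Y ^ 2 ≤ (D * Y) ^ 2 := Nat.pow_le_pow_left h1 2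
      _ ≤ (D * Y) ^ 12 := Nat.pow_le_pow_right h2 (by norm_num)
  have hPM : ∀ p ∈ PE D Y, ¬ p ∣ M := by
    intro p hp hpM
    obtain ⟨h1, h2, _⟩ := hPE p hp
    rcases E1_le h1 hpM with h | h
    · omega
    · have := Nat.le_of_dvd (by omega) h
      omega
  -- the positions
  have hSm : ∀ j ∈ S, j ≤ hY c Y ∧ j ∉ H ∧ (n0 + j).Coprime M := by
    intro j hj
    rw [hS, Finset.mem_filter, Finset.mem_range] at hj
    exact ⟨by omega, hj.2⟩
  have hcardH : Fintype.card H = K := by rw [Fintype.card_coe, hH]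
  have hcardS : Fintype.card S = S.card := Fintype.card_coe S
  have hbinj : Function.Injective (bE H S) := by
    rintro (h | s) (h' | s') he
    · exact congrArg Sum.inl (Subtype.ext he)
    · exfalso
      have h1 : (h : ℕ) = s' := he
      exact (hSm s'.1 s'.2).2.1 (h1 ▸ h.2)
    · exfalso
      have h1 : (s : ℕ) = h' := he
      exact (hSm s.1 s.2).2.1 (h1 ▸ h'.2)
    · exact congrArg Sum.inr (Subtype.ext he)
  have hhY : hY c Y ≤ Y ^ 2 := hY6 Y (by omega)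
  have hble : ∀ i, bE H S i ≤ hY c Y := by
    rintro (h | s)
    · exact hHle h.1 h.2
    · exact (hSm s.1 s.2).1
  have hA : (M : ℝ) * (Real.exp Y * Real.exp (x / 100)) ^ 2 ≤ Real.exp (x / 24) := by
    have h1 := hsize Y (by omega) E p1
    rw [← hM] at h1
    rw [← Real.exp_add, ← Real.exp_nat_mul]
    calc (M : ℝ) * Real.exp ((2 : ℕ) * ((Y : ℝ) + x / 100))
        ≤ Real.exp (2 * Y) * Real.exp ((2 : ℕ) * ((Y : ℝ) + x / 100)) :=
          mul_le_mul_of_nonneg_right h1 (Real.exp_pos _).le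
      _ = Real.exp (4 * Y + x / 50) := by
          rw [← Real.exp_add]
          congr 1
          push_cast
          ring
      _ ≤ Real.exp (x / 24) := by
          apply Real.exp_le_exp.2
          rw [hx]
          nlinarith
  have hB1 : x ^ 12 ≤ (wE D Y : ℕ) := by
    unfold wE
    push_cast
    exact le_rfl
  have hB2 : ((wE D Y : ℕ) : ℝ) ≤ Real.exp (x / 4) := hY7 Y (by omega)
  have hB3 : ((Fintype.card H + Fintype.card S : ℕ) : ℝ) ≤ x := by
    rw [hcardH, hcardS]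
    push_cast
    have h1 : (K : ℝ) ≤ Y := by exact_mod_cast (by omega : K ≤ Y)
    rw [hx]
    nlinarith
  have hB4 : 128 * (m * (x * ((M.totient : ℝ) * G2 (PE D Y) g))) ≤
      Fintype.card H * ((M : ℝ) * G1 (PE D Y) g ^ 2) := by
    rw [hcardH]
    have h1 := htot Y (by omega) q hq E p1 hE hEY
    rw [← hM] at h1
    have hG20 : 0 ≤ G2 (PE D Y) g :=
      zero_le_one.trans (Q17_one_le_G2 (PE D Y) hP.prime hP.gok.one)
    have hM0 : (0 : ℝ) ≤ M := Nat.cast_nonneg M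
    calc 128 * (m * (x * ((M.totient : ℝ) * G2 (PE D Y) g)))
        ≤ 128 * (m * (x * ((4 / Real.log Y * (M : ℝ)) * G2 (PE D Y) g))) := by
          gcongr
      _ = (M : ℝ) * (128 * (m * (x * ((4 / Real.log Y) * G2 (PE D Y) g)))) := by ring
      _ ≤ (M : ℝ) * (K * G1 (PE D Y) g ^ 2) := mul_le_mul_of_nonneg_left hmain hM0
      _ = _ := by ring
  have hYx4 : (Y : ℝ) ≤ Real.exp (x / 4) := by
    have h2 : (Y : ℝ) ≤ x / 4 := by
      rw [hx]
      nlinarith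
    have h3 := Real.add_one_le_exp (x / 4)
    linarith
  have hcount := hsv x hx0 M n0 hM1 hcs (PE D Y) (wE D Y) z (Real.exp Y)
    (Real.exp (x / 100)) V g H S (by rw [hcardH, hcardS]; exact hP)
    (fun p hp => ⟨(hPE p hp).2.2, hPM p hp⟩) hA hB1 hB2 hB3 hG2 (bE H S) hbinj
    (fun i => (hble i).trans (hhY.trans hY2w)) (fun h => hn0c h.1 h.2) m hm hB4
  refine ⟨(sTe η x M n0).filter fun n => m ≤ (univ.filter fun h : H => (n + bE H S (Sum.inl h)).Prime).card ∧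
        ∀ i : S, ∃ p ∈ PE D Y, p ∣ n + bE H S (Sum.inr i), ?_, ?_⟩
  · refine hcount.trans ?_
    rw [hcardH]
    have h1 := hsize Y (by omega) E p1
    rw [← hM] at h1
    have h2 : (M : ℝ) * (Real.exp Y * Real.exp (x / 100)) ^ 4 ≤ Real.exp (46 / 1000 * x) := by
      rw [← Real.exp_add, ← Real.exp_nat_mul]
      calc (M : ℝ) * Real.exp ((4 : ℕ) * ((Y : ℝ) + x / 100))
          ≤ Real.exp (2 * Y) * Real.exp ((4 : ℕ) * ((Y : ℝ) + x / 100)) :=
            mul_le_mul_of_nonneg_right h1 (Real.exp_pos _).le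
        _ = Real.exp (6 * Y + x / 25) := by
            rw [← Real.exp_add]
            congr 1
            push_cast
            ring
        _ ≤ Real.exp (46 / 1000 * x) := by
            apply Real.exp_le_exp.2
            rw [hx]
            nlinarith
    have h3 : 9 * ((K : ℝ) * ((M : ℝ) * (Real.exp Y * Real.exp (x / 100)) ^ 4)) ≤
        9 * K * Real.exp (46 / 1000 * x) := by
      have := mul_le_mul_of_nonneg_left h2 (by positivity : (0 : ℝ) ≤ 9 * K)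
      calc _ = 9 * K * ((M : ℝ) * (Real.exp Y * Real.exp (x / 100)) ^ 4) := by ring
        _ ≤ _ := this
    exact mul_le_mul_of_nonneg_right h3 (Nat.cast_nonneg _)
  · -- the conclusion
    intro n hn
    rw [Finset.mem_filter] at hn
    obtain ⟨hn, hnm, hnS⟩ := hn
    unfold sTe clsU at hn
    rw [Finset.mem_filter, Finset.mem_filter] at hn
    obtain ⟨hn1, hn2, hn3⟩ := hn
    have h4 : Real.exp (x / 4) ≤ Real.exp ((1 - η) * x) := Real.exp_le_exp.2 (by nlinarith)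
    refine ⟨hn2, hn3, E4_good hq hYq.le (fun j hj hjH hco => ?_) hn0 hn1.2
      (lt_of_le_of_lt h4 hn2) hYx4 (fun p hp => ⟨(hPE p hp).1, (hPE p hp).2.2⟩) hnm hnS⟩
    rw [hS, Finset.mem_filter, Finset.mem_range]
    exact ⟨by omega, hjH, hco⟩

end Pool.Agent.LibT63
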