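import Pool.Agent.LibT63.E4

/-!
LibT63 (Theorem T), block E, row E5 (the final form in terms of `X`). `Y = ⌊log X / ((1 + η) D)⌋`.
-/

set_option autoImplicit false

namespace Pool.Agent.LibT63

open Finset Pool.Agent.LibRG87 Filter

/-- `R(X)` -/
noncomputable def RX (X : ℝ) : ℝ :=
  Real.log X * (Real.log (Real.log X)) ^ 2 * Real.log (Real.log (Real.log (Real.log X))) /
    (Real.log (Real.log (Real.log X))) ^ 2

/-- `LibRG87.hY_ge` with an explicit constant -/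
theorem E5_hY {κ c₀ : ℝ} (hκ : 0 < κ) (hκ1 : κ ≤ 1) (hc : 0 < c₀) :
    ∀ᶠ X : ℝ in atTop, 0 ≤ RX X ∧ c₀ * κ / 32 * RX X ≤ (hY c₀ ⌊κ * Real.log X⌋₊ : ℝ) := by
  have hL1 := Real.tendsto_log_atTop
  have hL2 := hL1.comp hL1
  have hL3 := hL1.comp hL2
  have hL4 := hL1.comp hL3
  filter_upwards [hL1.eventually_ge_atTop (max (32 / (c₀ * κ)) (4 / κ)),
    hL2.eventually_ge_atTop (2 * |Real.log (κ / 2)|),
    hL3.eventually_ge_atTop (2 * Real.log 2), hL3.eventually_ge_atTop 1,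
    hL4.eventually_ge_atTop (2 * Real.log 2), hL4.eventually_ge_atTop 1,
    hL2.eventually_ge_atTop 1] with X h1 h2 h3 h3' h4 h4' h2'
  simp only [Function.comp_apply] at h2 h3 h3' h4 h4' h2'
  set L := Real.log X with hL
  set l2 := Real.log L with hl2
  set l3 := Real.log l2 with hl3
  set l4 := Real.log l3 with hl4
  have h1a : 32 / (c₀ * κ) ≤ L := le_trans (le_max_left _ _) h1
  have h1b : 4 / κ ≤ L := le_trans (le_max_right _ _) h1
  have hLκ : 4 ≤ L * κ := by rwa [div_le_iff₀ hκ] at h1b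
  have hLpos : 0 < L := by
    have : 0 < 4 / κ := by positivity
    linarith
  have hlog2 : 0 < Real.log 2 := Real.log_pos (by norm_num)
  -- `Y`
  set Y : ℕ := ⌊κ * L⌋₊ with hYd
  have hY1 : (Y : ℝ) ≤ κ * L := Nat.floor_le (by positivity)
  have hY2 : κ * L - 1 < Y := by
    have := Nat.lt_floor_add_one (κ * L)
    linarith
  have hY3 : κ * L / 2 ≤ Y := by linarith
  have hY4 : (Y : ℝ) ≤ L := le_trans hY1 (by nlinarith)
  have hYpos : (0 : ℝ) < Y := lt_of_lt_of_le (by positivity) hY3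
  -- `log Y`
  have hlY1 : Real.log Y ≤ l2 := Real.log_le_log hYpos hY4
  have hlY2 : l2 / 2 ≤ Real.log Y := by
    have e1 : Real.log (κ * L / 2) ≤ Real.log Y := Real.log_le_log (by positivity) hY3
    have e2 : Real.log (κ * L / 2) = Real.log (κ / 2) + l2 := by
      rw [show κ * L / 2 = κ / 2 * L by ring, Real.log_mul (by positivity) hLpos.ne']
    have e3 := neg_abs_le (Real.log (κ / 2))
    linarith
  have hlYpos : 0 < Real.log Y := by linarith
  -- `log log Y`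
  have hllY1 : Real.log (Real.log Y) ≤ l3 := Real.log_le_log hlYpos hlY1
  have hllY2 : l3 / 2 ≤ Real.log (Real.log Y) := by
    have e1 : Real.log (l2 / 2) ≤ Real.log (Real.log Y) := Real.log_le_log (by linarith) hlY2
    have e2 : Real.log (l2 / 2) = l3 - Real.log 2 := by
      rw [Real.log_div (by linarith) (by norm_num)]
    linarith
  have hllYpos : 0 < Real.log (Real.log Y) := by linarith
  -- `log log log Y`
  have hlllY : l4 / 2 ≤ Real.log (Real.log (Real.log Y)) := by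
    have e1 : Real.log (l3 / 2) ≤ Real.log (Real.log (Real.log Y)) :=
      Real.log_le_log (by linarith) hllY2
    have e2 : Real.log (l3 / 2) = l4 - Real.log 2 := by
      rw [Real.log_div (by linarith) (by norm_num)]
    linarith
  have hl3pos : 0 < l3 := by linarith
  have hl4pos : 0 < l4 := by linarith
  -- the record function
  have hRX : RX X = L * l2 ^ 2 * l4 / l3 ^ 2 := rfl
  have hRXL : L ≤ RX X := by
    rw [hRX, le_div_iff₀ (by positivity)]
    have e1 : l3 ≤ l2 := by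
      have := Real.log_le_sub_one_of_pos (show 0 < l2 by linarith)
      linarith
    have e2 : l3 ^ 2 ≤ l2 ^ 2 := pow_le_pow_left₀ hl3pos.le e1 2
    have e3 : L * l2 ^ 2 * 1 ≤ L * l2 ^ 2 * l4 :=
      mul_le_mul_of_nonneg_left h4' (by positivity)
    calc L * l3 ^ 2 ≤ L * l2 ^ 2 := mul_le_mul_of_nonneg_left e2 hLpos.le
      _ = L * l2 ^ 2 * 1 := (mul_one _).symm
      _ ≤ _ := e3
  have hbig : 1 ≤ c₀ * κ / 32 * RX X := by
    have e1 : 32 ≤ L * (c₀ * κ) := by rwa [div_le_iff₀ (by positivity)] at h1a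
    have e2 : c₀ * κ / 32 * L ≤ c₀ * κ / 32 * RX X :=
      mul_le_mul_of_nonneg_left hRXL (by positivity)
    linarith
  have hval : c₀ * κ / 16 * RX X ≤ c₀ * Y * (Real.log Y) ^ 2 *
      Real.log (Real.log (Real.log Y)) / (Real.log (Real.log Y)) ^ 2 := by
    rw [hRX]
    have e1 : c₀ * κ / 16 * (L * l2 ^ 2 * l4 / l3 ^ 2)
        = c₀ * (κ * L / 2) * (l2 / 2) ^ 2 * (l4 / 2) / l3 ^ 2 := by ring
    rw [e1]
    have e2 : c₀ * (κ * L / 2) ≤ c₀ * Y := mul_le_mul_of_nonneg_left hY3 hc.le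
    have e3 : (l2 / 2) ^ 2 ≤ (Real.log Y) ^ 2 := pow_le_pow_left₀ (by linarith) hlY2 2
    have e4 : c₀ * (κ * L / 2) * (l2 / 2) ^ 2 ≤ c₀ * Y * (Real.log Y) ^ 2 :=
      mul_le_mul e2 e3 (by positivity) (by positivity)
    have e5 : c₀ * (κ * L / 2) * (l2 / 2) ^ 2 * (l4 / 2)
        ≤ c₀ * Y * (Real.log Y) ^ 2 * Real.log (Real.log (Real.log Y)) :=
      mul_le_mul e4 hlllY (by positivity) (by positivity)
    have e6 : (Real.log (Real.log Y)) ^ 2 ≤ l3 ^ 2 := pow_le_pow_left₀ hllYpos.le hllY1 2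
    exact div_le_div₀ (le_trans (by positivity) e5) e5 (by positivity) e6
  have hfl : c₀ * Y * (Real.log Y) ^ 2 *
      Real.log (Real.log (Real.log Y)) / (Real.log (Real.log Y)) ^ 2 < (hY c₀ Y : ℝ) + 1 := by
    unfold Pool.Agent.LibRG87.hY
    exact Nat.lt_floor_add_one _
  exact ⟨hLpos.le.trans hRXL, by linarith⟩

open scoped Classical in
theorem E5_final (D : ℕ) (hD : 1000 ≤ D) (hB : GoodMod D) :
    ∃ C : ℝ, ∀ m K : ℕ, 1 ≤ m → Real.exp (C * m) ≤ K → ∃ c : ℝ, 0 < c ∧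
    ∀ q : ℕ, 1 ≤ q → ∀ η : ℝ, 0 < η → ∃ X₀ : ℝ, ∀ X : ℝ, X₀ ≤ X → ∀ (a : ℕ) (H : Finset ℕ),
    H.card = K →
    (∀ h ∈ H, (h : ℝ) ≤ c * Real.log X * (Real.log (Real.log X)) ^ 2 *
      Real.log (Real.log (Real.log (Real.log X))) / (Real.log (Real.log (Real.log X))) ^ 2) →
    (∀ h ∈ H, (a + h).Coprime q) →
    (∀ p : ℕ, p.Prime → ¬ p ∣ q → ∃ r : ℕ, ∀ h ∈ H, ¬ h ≡ r [MOD p]) →
    X ^ (19 / 20 : ℝ) ≤ (((Finset.Icc 1 ⌊X⌋₊).filter fun n : ℕ => X ^ (1 - η) ≤ n ∧ n ≡ a [MOD q] ∧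
      m ≤ (H.filter fun h => (n + h).Prime).card ∧
      ∀ j : ℕ, (j : ℝ) ≤ c * Real.log X * (Real.log (Real.log X)) ^ 2 *
        Real.log (Real.log (Real.log (Real.log X))) / (Real.log (Real.log (Real.log X))) ^ 2 →
        j ∉ H → ¬ (n + j).Prime).card : ℝ) := by
  obtain ⟨C, hC, hmain⟩ := E4_main D hD hB
  have hD0 : (0 : ℝ) < D := by exact_mod_cast (by omega : 0 < D)
  have hD1 : (1000 : ℝ) ≤ D := by exact_mod_cast hD
  refine ⟨C, fun m K hm hmK => ?_⟩
  obtain ⟨c₀, hc₀, hm2⟩ := hmain m K hm hmK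
  have hK1 : (1 : ℝ) ≤ K := (Real.one_le_exp (by positivity)).trans hmK
  refine ⟨c₀ / (40 * D), by positivity, fun q hq η hη => ?_⟩
  set δ : ℝ := min (η / 3) (1 / 1000) with hδ
  have hδ0 : 0 < δ := lt_min (by positivity) (by norm_num)
  have hδ1 : δ ≤ 1 / 1000 := min_le_right _ _
  have hδη : δ ≤ η / 3 := min_le_left _ _
  obtain ⟨Y0, hY0⟩ := hm2 q hq δ hδ0 (by linarith)
  set θ : ℝ := 1 / ((1 + δ) * D) with hθ
  have hθ0 : 0 < θ := by positivity
  have hθD : θ * ((1 + δ) * D) = 1 := by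
    rw [hθ]
    field_simp
  have hθ1 : θ ≤ 1 := by
    rw [hθ, div_le_one (by positivity)]
    nlinarith
  have hθ2 : 1 / (40 * (D : ℝ)) ≤ θ / 32 := by
    rw [hθ, div_div]
    apply one_div_le_one_div_of_le (by positivity)
    nlinarith
  obtain ⟨X1, hX1⟩ := Filter.eventually_atTop.1 (E5_hY hθ0 hθ1 hc₀)
  refine ⟨max (max X1 1) (Real.exp (max (max ((Y0 + 1) / θ) (3 * D / δ)) (1000 * (D + Real.log (9 * K))))), ?_⟩
  intro X hX a H hH hHle hcop hadm
  have hXa : X1 ≤ X := (le_max_left _ _).trans ((le_max_left _ _).trans hX)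
  have hXb : 1 ≤ X := (le_max_right _ _).trans ((le_max_left _ _).trans hX)
  have hXc := (le_max_right _ _).trans hX
  have hX0 : 0 < X := by linarith
  obtain ⟨hR0, h1⟩ := hX1 X hXa
  set L := Real.log X with hL
  have hL1 : max (max ((Y0 + 1) / θ) (3 * D / δ)) (1000 * (D + Real.log (9 * K))) ≤ L := by
    rw [hL, Real.le_log_iff_exp_le hX0]
    exact hXc
  have hLa : (Y0 + 1) / θ ≤ L := (le_max_left _ _).trans ((le_max_left _ _).trans hL1)
  have hLb : 3 * (D : ℝ) / δ ≤ L := (le_max_right _ _).trans ((le_max_left _ _).trans hL1)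
  have hLc : 1000 * (D + Real.log (9 * K)) ≤ L := (le_max_right _ _).trans hL1
  have hLb' : 3 * (D : ℝ) ≤ δ * L := by
    rw [div_le_iff₀ hδ0] at hLb
    linarith
  have hL0 : 0 < L := lt_of_lt_of_le (by positivity) hLb
  have hexpL : Real.exp L = X := Real.exp_log hX0
  set Y : ℕ := ⌊θ * L⌋₊ with hYd
  have hθL : (Y0 + 1 : ℝ) ≤ θ * L := by
    rw [div_le_iff₀ hθ0] at hLa
    linarith
  have hYY : Y0 ≤ Y := by
    apply Nat.le_floor
    linarith
  have hY1 : (Y : ℝ) ≤ θ * L := Nat.floor_le (by positivity)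
  have hY2 : θ * L < Y + 1 := Nat.lt_floor_add_one _
  have hle : ∀ j : ℕ, (j : ℝ) ≤ c₀ / (40 * D) * L * (Real.log L) ^ 2 *
      Real.log (Real.log (Real.log L)) / (Real.log (Real.log L)) ^ 2 → j ≤ hY c₀ Y := by
    intro j hj
    have e1 : c₀ / (40 * D) * L * (Real.log L) ^ 2 *
        Real.log (Real.log (Real.log L)) / (Real.log (Real.log L)) ^ 2 = c₀ * (1 / (40 * D)) * RX X := by
      unfold RX
      ring
    have e2 : c₀ * (1 / (40 * D)) * RX X ≤ c₀ * θ / 32 * RX X := by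
      apply mul_le_mul_of_nonneg_right _ hR0
      calc c₀ * (1 / (40 * D)) ≤ c₀ * (θ / 32) := mul_le_mul_of_nonneg_left hθ2 hc₀.le
        _ = c₀ * θ / 32 := by ring
    rw [e1] at hj
    have : (j : ℝ) ≤ (hY c₀ Y : ℝ) := hj.trans (e2.trans h1)
    exact_mod_cast this
  obtain ⟨G, hG1, hG2⟩ := hY0 Y hYY a H hH (fun h hh => hle h (hHle h hh))
    (fun p hp => by
      by_cases hpq : p ∣ q
      · refine ⟨a * (p - 1), fun h hh hc => ?_⟩
        have h1 : a + h ≡ a + a * (p - 1) [MOD p] := Nat.ModEq.add_left a hc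
        have h2 : a + a * (p - 1) = a * p := by
          obtain ⟨r, hr⟩ := Nat.exists_eq_add_of_le hp.one_le
          rw [hr, Nat.add_sub_cancel_left]
          ring
        rw [h2] at h1
        have h3 : p ∣ a + h := (h1.dvd_iff (dvd_refl p)).2 (dvd_mul_left _ _)
        have h4 : p ∣ 1 := by
          rw [← hcop h hh]
          exact Nat.dvd_gcd h3 hpq
        exact hp.one_lt.ne' (Nat.dvd_one.1 h4)
      · exact hadm p hp hpq) hcop
  have e3 : (D : ℝ) * (θ * L) = L / (1 + δ) := by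
    rw [eq_div_iff (by positivity)]
    calc (D : ℝ) * (θ * L) * (1 + δ) = (θ * ((1 + δ) * D)) * L := by ring
      _ = L := by rw [hθD, one_mul]
  have hDY1 : L * (1 - δ) - D ≤ D * Y := by
    have h2 : (D : ℝ) * (θ * L) ≤ D * (Y + 1) := mul_le_mul_of_nonneg_left hY2.le hD0.le
    rw [e3] at h2
    have h3 : L * (1 - δ) ≤ L / (1 + δ) := by
      rw [le_div_iff₀ (by positivity)]
      nlinarith [mul_nonneg hL0.le (sq_nonneg δ)]
    linarith
  have hDY2 : (1 + δ) * ((D : ℝ) * Y) ≤ L := by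
    have h2 : (D : ℝ) * Y ≤ D * (θ * L) := mul_le_mul_of_nonneg_left hY1 hD0.le
    rw [e3, le_div_iff₀ (by positivity)] at h2
    linarith
  have hlow : X ^ (1 - η) ≤ Real.exp ((1 - δ) * ((D : ℝ) * Y)) := by
    rw [Real.rpow_def_of_pos hX0, ← hL]
    apply Real.exp_le_exp.2
    have h5 : (1 - δ) * (L * (1 - δ) - D) ≤ (1 - δ) * (D * Y) :=
      mul_le_mul_of_nonneg_left hDY1 (by linarith)
    refine le_trans ?_ h5
    nlinarith [mul_nonneg hL0.le (sq_nonneg δ), mul_le_mul_of_nonneg_left hδη hL0.le]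
  -- the set `G` is contained in the set of the statement
  have hsub : G.card ≤ ((Finset.Icc 1 ⌊X⌋₊).filter fun n : ℕ => X ^ (1 - η) ≤ n ∧ n ≡ a [MOD q] ∧
      m ≤ (H.filter fun h => (n + h).Prime).card ∧
      ∀ j : ℕ, (j : ℝ) ≤ c₀ / (40 * D) * L * (Real.log L) ^ 2 *
        Real.log (Real.log (Real.log L)) / (Real.log (Real.log L)) ^ 2 →
        j ∉ H → ¬ (n + j).Prime).card := by
    apply Finset.card_le_card
    intro n hn
    obtain ⟨hn1, hn2, hn3, hn4, hn5⟩ := hG2 n hn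
    rw [Finset.mem_filter, Finset.mem_Icc]
    have hnpos : (0 : ℝ) < n := lt_trans (Real.exp_pos _) hn1
    refine ⟨⟨by exact_mod_cast hnpos, Nat.le_floor ?_⟩, hlow.trans hn1.le, hn3, hn4,
      fun j hj hjH => hn5 j (hle j hj) hjH⟩
    refine hn2.trans ?_
    rw [← hexpL]
    exact Real.exp_le_exp.2 hDY2
  refine le_trans ?_ (Nat.cast_le.2 hsub)
  -- the number of elements
  have h9K : (0 : ℝ) < 9 * K := by positivity
  have e4 : 9 * (K : ℝ) = Real.exp (Real.log (9 * K)) := (Real.exp_log h9K).symm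
  have e5 : X ^ (19 / 20 : ℝ) * (9 * K * Real.exp (46 / 1000 * ((D : ℝ) * Y))) ≤
      Real.exp ((1 - δ) * ((D : ℝ) * Y)) := by
    rw [e4, Real.rpow_def_of_pos hX0, ← hL, ← Real.exp_add, ← Real.exp_add]
    apply Real.exp_le_exp.2
    have hl0 : 0 ≤ Real.log (9 * K) := Real.log_nonneg (by linarith)
    have h6 : (953 / 1000 : ℝ) * (L * (999 / 1000) - D) ≤ (954 / 1000 - δ) * (D * Y) := by
      have h7 : L * (999 / 1000) - D ≤ D * Y := by
        nlinarith
      have h8 : 0 ≤ (D : ℝ) * Y := by positivity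
      calc (953 / 1000 : ℝ) * (L * (999 / 1000) - D) ≤ 953 / 1000 * (D * Y) :=
            mul_le_mul_of_nonneg_left h7 (by norm_num)
        _ ≤ _ := mul_le_mul_of_nonneg_right (by linarith) h8
    linarith
  have hpos : 0 < 9 * (K : ℝ) * Real.exp (46 / 1000 * ((D : ℝ) * Y)) := by positivity
  have e6 : X ^ (19 / 20 : ℝ) * (9 * K * Real.exp (46 / 1000 * ((D : ℝ) * Y))) ≤
      (G.card : ℝ) * (9 * K * Real.exp (46 / 1000 * ((D : ℝ) * Y))) := by
    refine e5.trans (hG1.trans (le_of_eq (mul_comm _ _)))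
  exact le_of_mul_le_mul_right e6 hpos

end Pool.Agent.LibT63
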