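import Pool.Agent.LibT63.E5
import Pool.Agent.LibT63.B10

/-!
LibT63 (Theorem T), block E, row E6: the good moduli.
-/

set_option autoImplicit false

namespace Pool.Agent.LibT63

open Finset Pool.Agent.LibRG87 Pool.Agent.LibPL63

theorem E6_good : GoodMod 1000 := by
  intro q hq
  obtain ⟨Y0, h⟩ := good_moduli q hq
  refine ⟨Y0, fun Y hY => ?_⟩
  obtain ⟨E, p1, h1, h2, _, h4⟩ := h Y hY
  refine ⟨E, p1, h1, h2, ?_⟩
  have e : ((1000 : ℕ) : ℝ) * (Y : ℝ) = 1000 * (Y : ℝ) := by norm_num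
  rw [e]
  exact h4

end Pool.Agent.LibT63
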