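import Pool.Agent.LibT63.QDefs
import Pool.Agent.LibT63.E1

/-!
LibT63 (Theorem T), block E (assembly): the parameters.
-/

set_option autoImplicit false

namespace Pool.Agent.LibT63

open Finset Pool.Agent.LibRG87

/-- the roughness level `w = (D Y)^12` -/
def wE (D Y : ℕ) : ℕ := (D * Y) ^ 12

/-- the primes of the sieve: `w < p ≤ exp (D Y / 4)` -/
noncomputable def PE (D Y : ℕ) : Finset ℕ := PP (wE D Y) ⌊Real.exp ((D : ℝ) * Y / 4)⌋₊

end Pool.Agent.LibT63
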