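import Pool.Agent.LibT63.QDefs
import Pool.Agent.LibT63.D2
import Pool.Agent.LibRG87.Z

/-!
Theorem T, the parameters: lemmas on `ZZ`, `g1`.
-/

open Finset Filter

namespace Pool.Agent.LibT63

open Pool.Agent.LibRG87 Pool.Agent.LibLG5 Pool.Agent.LibPL63

theorem EP1_le_rr {P : Finset ℕ} (hP : ∀ p ∈ P, p.Prime) {A : Finset ℕ} (hA : A ⊆ P) {p : ℕ}
    (hp : p ∈ A) : (p : ℝ) ≤ rr A := by
  unfold rr
  rw [← Finset.mul_prod_erase A _ hp]
  have h4 : (1 : ℝ) ≤ ∏ q ∈ A.erase p, (q : ℝ) := by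
    calc (1 : ℝ) = ∏ _q ∈ A.erase p, (1 : ℝ) := by simp
      _ ≤ _ := Finset.prod_le_prod (fun _ _ => zero_le_one) fun q hq => by
        exact_mod_cast (hP q (hA (Finset.mem_of_mem_erase hq))).one_le
  have h5 : (0 : ℝ) ≤ p := Nat.cast_nonneg p
  nlinarith

open scoped Classical in
theorem EP1_ZZ {w R z : ℕ} (h : z ≤ R) : ZZ (PP w R) (z : ℝ) = ZZ (PP w z) (z : ℝ) := by
  unfold ZZ
  apply Finset.sum_congr _ (fun _ _ => rfl)
  ext A
  simp only [Finset.mem_filter, Finset.mem_powerset]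
  constructor
  · rintro ⟨h1, h2, h3⟩
    refine ⟨fun p hp => ?_, h2, h3⟩
    have h4 := h1 hp
    unfold PP at h4 ⊢
    rw [Finset.mem_filter, Finset.mem_Ioc] at h4 ⊢
    have h5 : (p : ℝ) ≤ rr A := EP1_le_rr (P := PP w R) (fun q hq => (Finset.mem_filter.1 hq).2) h1 hp
    have h6 : p ≤ z := by exact_mod_cast h5.trans h3
    exact ⟨⟨h4.1.1, h6⟩, h4.2⟩
  · rintro ⟨h1, h2, h3⟩
    refine ⟨h1.trans fun p hp => ?_, h2, h3⟩
    unfold PP at hp ⊢
    rw [Finset.mem_filter, Finset.mem_Ioc] at hp ⊢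
    exact ⟨⟨hp.1.1, hp.1.2.trans h⟩, hp.2⟩

theorem EP1_gok {P : Finset ℕ} (hP : ∀ p ∈ P, p.Prime) {w : ℕ} (hw : 1 ≤ w) (q0 I : ℕ) {a : ℕ}
    (ha : 1 ≤ a) : GOK P (g1 w q0 a I) ((w : ℝ) ^ (q0 * a ^ I)) where
  one := g1_empty hw
  nonneg := fun A _ => g1_nonneg _ _ _ _ A
  dec := by
    intro A hA p hp hpA
    apply g1_anti ha
    unfold rr
    rw [Finset.prod_insert hpA]
    have h4 : (0 : ℝ) ≤ ∏ q ∈ A, (q : ℝ) := Finset.prod_nonneg fun _ _ => Nat.cast_nonneg _
    have h5 : (1 : ℝ) ≤ p := by exact_mod_cast (hP p hp).one_le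
    nlinarith
  supp := fun A _ h => g1_ne h

/-- the asymptotic facts in `t = log Y` -/
theorem EP2_large (K : ℝ) : ∀ᶠ t : ℝ in atTop, 13 * t * Real.exp (t / 8) ≤ Real.exp (t / 4) ∧
    80 * Real.exp (t / 4) ≤ Real.exp t ∧
    128 * K * (Real.exp t * Real.exp (1 - 3 / 80 * Real.exp (3 * t / 4))) ≤ 1 ∧
    K * (13 * t) ≤ Real.exp t := by
  have hA : Tendsto (fun t : ℝ => t ^ 1 / Real.exp t) atTop (nhds 0) := by
    have := Real.tendsto_pow_mul_exp_neg_atTop_nhds_zero 1
    refine this.congr fun t => ?_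
    rw [Real.exp_neg]
    rfl
  have h1 : ∀ᶠ t : ℝ in atTop, 13 * t * Real.exp (t / 8) ≤ Real.exp (t / 4) := by
    have hB : Tendsto (fun t : ℝ => t / 8) atTop atTop := tendsto_id.atTop_div_const (by norm_num)
    have hC := (hA.comp hB).eventually_lt_const (show (0 : ℝ) < 1 / 104 by norm_num)
    filter_upwards [hC] with t ht
    simp only [Function.comp, pow_one] at ht
    rw [div_lt_iff₀ (Real.exp_pos _)] at ht
    have e : Real.exp (t / 4) = Real.exp (t / 8) * Real.exp (t / 8) := by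
      rw [← Real.exp_add]; congr 1; ring
    rw [e]
    have : 13 * t ≤ Real.exp (t / 8) := by linarith
    exact mul_le_mul_of_nonneg_right this (Real.exp_pos _).le
  have h2 : ∀ᶠ t : ℝ in atTop, 80 * Real.exp (t / 4) ≤ Real.exp t := by
    filter_upwards [eventually_ge_atTop (200 : ℝ)] with t ht
    have e : Real.exp t = Real.exp (t / 4) * Real.exp (3 * t / 4) := by
      rw [← Real.exp_add]; congr 1; ring
    have h3 : 80 ≤ Real.exp (3 * t / 4) := by
      have := Real.add_one_le_exp (3 * t / 4)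
      linarith
    rw [e, mul_comm]
    exact mul_le_mul_of_nonneg_left h3 (Real.exp_pos _).le
  have h3 : ∀ᶠ t : ℝ in atTop, 128 * K * (Real.exp t * Real.exp (1 - 3 / 80 * Real.exp (3 * t / 4))) ≤ 1 := by
    -- `exp (3t/4) ≥ (80/3) (2 t)` eventually, so the product is at most `exp (1 - t)`
    have hB : Tendsto (fun t : ℝ => 3 * t / 4) atTop atTop :=
      (tendsto_id.const_mul_atTop (by norm_num : (0 : ℝ) < 3)).atTop_div_const (by norm_num)
    have hC := (hA.comp hB).eventually_lt_const (show (0 : ℝ) < 1 / 100 by norm_num)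
    have hD : Tendsto (fun t : ℝ => 128 * K * Real.exp (1 - t)) atTop (nhds 0) := by
      have h0 : Tendsto (fun t : ℝ => Real.exp (1 - t)) atTop (nhds 0) :=
        Real.tendsto_exp_atBot.comp (tendsto_atBot_add_const_left _ 1 tendsto_neg_atTop_atBot)
      have := h0.const_mul (128 * K)
      rwa [mul_zero] at this
    filter_upwards [hC, hD.eventually_lt_const (show (0 : ℝ) < 1 by norm_num),
      eventually_ge_atTop (0 : ℝ)] with t ht ht2 ht0
    simp only [Function.comp, pow_one] at ht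
    rw [div_lt_iff₀ (Real.exp_pos _)] at ht
    have h4 : Real.exp t * Real.exp (1 - 3 / 80 * Real.exp (3 * t / 4)) ≤ Real.exp (1 - t) := by
      rw [← Real.exp_add]
      apply Real.exp_le_exp.2
      linarith
    rcases le_or_gt 0 K with hK | hK
    · exact (mul_le_mul_of_nonneg_left h4 (by positivity)).trans ht2.le
    · have : 128 * K * (Real.exp t * Real.exp (1 - 3 / 80 * Real.exp (3 * t / 4))) ≤ 0 :=
        mul_nonpos_of_nonpos_of_nonneg (by linarith) (by positivity)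
      linarith
  have h4 : ∀ᶠ t : ℝ in atTop, K * (13 * t) ≤ Real.exp t := by
    have hC : Tendsto (fun t : ℝ => K * 13 * (t ^ 1 / Real.exp t)) atTop (nhds 0) := by
      have := hA.const_mul (K * 13)
      rwa [mul_zero] at this
    filter_upwards [hC.eventually_lt_const (show (0 : ℝ) < 1 by norm_num)] with t ht
    rw [pow_one, ← mul_div_assoc, div_lt_one (Real.exp_pos _)] at ht
    linarith
  filter_upwards [h1, h2, h3, h4] with t a b c d
  exact ⟨a, b, c, d⟩

/-- the final inequality -/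
theorem EP1_fin {m D C c t K I B q0 Y β : ℝ} (hmC : 0 ≤ m * C) (hI0 : 0 ≤ I) (ht : 0 < t)
    (hB2 : B ≤ β * I) (hI2 : 1331200 * (m * C * β) ≤ I * c ^ 2)
    (h4 : D * Y ≤ 2600 * (K * B * t * q0)) (hq : 0 ≤ q0) (hK : 0 ≤ K) :
    128 * (m * ((D * Y) * ((4 / t) * (C * q0)))) ≤ K * (c * I * q0) ^ 2 := by
  have h5 : 1331200 * (m * C * B) ≤ I ^ 2 * c ^ 2 := by
    calc 1331200 * (m * C * B) = 1331200 * (m * C) * B := by ring
      _ ≤ 1331200 * (m * C) * (β * I) := mul_le_mul_of_nonneg_left hB2 (by positivity)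
      _ = (1331200 * (m * C * β)) * I := by ring
      _ ≤ (I * c ^ 2) * I := mul_le_mul_of_nonneg_right hI2 hI0
      _ = _ := by ring
  calc 128 * (m * ((D * Y) * ((4 / t) * (C * q0))))
      = (512 * (m * C) * q0 / t) * (D * Y) := by ring
    _ ≤ (512 * (m * C) * q0 / t) * (2600 * (K * B * t * q0)) :=
        mul_le_mul_of_nonneg_left h4 (by positivity)
    _ = (1331200 * (m * C * B)) * (K * q0 ^ 2) := by field_simp; ring
    _ ≤ (I ^ 2 * c ^ 2) * (K * q0 ^ 2) :=
        mul_le_mul_of_nonneg_right h5 (by positivity)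
    _ = _ := by ring

end Pool.Agent.LibT63
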