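import Pool.Agent.LibT63.EP1
import Pool.Agent.LibT63.EDefs

/-!
Theorem T, the parameters: the level `w` and the covering part (`z`).
-/

open Finset Filter

namespace Pool.Agent.LibT63

open Pool.Agent.LibRG87 Pool.Agent.LibLG5 Pool.Agent.LibPL63

/-- the logarithm of `w` -/
theorem EP2_w (D : ℕ) (hD : 1 ≤ D) : ∃ Y0 : ℕ, ∀ Y : ℕ, Y0 ≤ Y → 3 ≤ wE D Y ∧
    12 * Real.log Y ≤ Real.log (wE D Y) ∧ Real.log (wE D Y) ≤ 13 * Real.log Y ∧
    1 ≤ Real.log Y ∧ 2048 ≤ Y := by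
  have hev := (Real.tendsto_log_atTop.comp tendsto_natCast_atTop_atTop).eventually
    ((eventually_ge_atTop (1 : ℝ)).and (eventually_ge_atTop (12 * Real.log D)))
  obtain ⟨Y1, hY1⟩ := eventually_atTop.1 hev
  refine ⟨max Y1 2048, fun Y hY => ?_⟩
  obtain ⟨h1, h2⟩ := hY1 Y ((le_max_left _ _).trans hY)
  simp only [Function.comp] at h1 h2
  have hY2 : 2048 ≤ Y := (le_max_right _ _).trans hY
  have hDY : 3 ≤ D * Y := by nlinarith
  have e : Real.log (wE D Y) = 12 * (Real.log D + Real.log Y) := by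
    unfold wE
    push_cast
    rw [Real.log_pow, Real.log_mul]
    · norm_num
    · exact_mod_cast (by omega : D ≠ 0)
    · exact_mod_cast (by omega : Y ≠ 0)
  have hlD : 0 ≤ Real.log D := Real.log_nonneg (by exact_mod_cast hD)
  refine ⟨?_, ?_, ?_, h1, hY2⟩
  · unfold wE
    calc 3 ≤ D * Y := hDY
      _ = (D * Y) ^ 1 := (pow_one _).symm
      _ ≤ (D * Y) ^ 12 := Nat.pow_le_pow_right (by omega) (by norm_num)
  · rw [e]; linarith
  · rw [e]; linarith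

/-- the number `z` -/
theorem EP2_z : ∃ c0 : ℝ, 0 < c0 ∧ ∀ D : ℕ, 1 ≤ D → ∃ Y0 : ℕ, ∀ Y : ℕ, Y0 ≤ Y → ∃ z : ℝ, 1 < z ∧
    Real.log z ≤ Real.exp (Real.log Y / 4) ∧ c0 ≤ ZZ (PE D Y) z ∧
    1 ≤ ZZ (PE D Y) z * Real.log (wE D Y) := by
  obtain ⟨cZ, hcZ, hZ⟩ := Z_lower
  refine ⟨cZ / 416, by positivity, fun D hD => ?_⟩
  obtain ⟨Y2, hY2⟩ := EP2_w D hD
  have hev := (Real.tendsto_log_atTop.comp tendsto_natCast_atTop_atTop).eventually
    ((EP2_large 1).and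
      ((eventually_ge_atTop (16 * (cZ + 1) / cZ)).and (eventually_ge_atTop (48 / cZ))))
  obtain ⟨Y1, hY1⟩ := eventually_atTop.1 hev
  refine ⟨max Y1 Y2, fun Y hY => ?_⟩
  obtain ⟨⟨l1, l2, -, -⟩, ht2, ht3⟩ := hY1 Y ((le_max_left _ _).trans hY)
  obtain ⟨hw3, hlw1, hlw2, ht1, hYb⟩ := hY2 Y ((le_max_right _ _).trans hY)
  simp only [Function.comp] at l1 l2 ht2 ht3
  have hYR : (2048 : ℝ) ≤ Y := by exact_mod_cast hYb
  have hYpos : (0 : ℝ) < Y := by linarith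
  have hexp : Real.exp (Real.log Y) = Y := Real.exp_log hYpos
  unfold PE
  generalize wE D Y = w at *
  rw [hexp] at l2
  generalize Real.log (Y : ℝ) = t at *
  have hw2 : 2 ≤ w := by omega
  have hℓ0 : 0 < Real.log (w : ℝ) := by linarith
  have hJ1 : t / 8 - 1 ≤ (⌊t / 8⌋₊ : ℝ) := by
    have := Nat.lt_floor_add_one (t / 8)
    linarith
  have hJ2 : (⌊t / 8⌋₊ : ℝ) ≤ t / 8 := Nat.floor_le (by positivity)
  generalize ⌊t / 8⌋₊ = J at *
  have hZJ := hZ w hw2 J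
  have hlz : Real.log ((w ^ (2 ^ J) : ℕ) : ℝ) = 2 ^ J * Real.log w := by
    push_cast
    rw [Real.log_pow]
    push_cast
    ring
  have h2J : (2 : ℝ) ^ J ≤ Real.exp (t / 8) := by
    have h1 : (2 : ℝ) ^ J ≤ (Real.exp 1) ^ J :=
      pow_le_pow_left₀ (by norm_num) (by have := Real.exp_one_gt_d9; linarith) J
    rw [← Real.exp_nat_mul, mul_one] at h1
    exact le_trans h1 (Real.exp_le_exp.2 hJ2)
  have h2J1 : (1 : ℝ) ≤ 2 ^ J := one_le_pow₀ (by norm_num)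
  generalize w ^ (2 ^ J) = zn at *
  have hlz0 : 0 < Real.log (zn : ℝ) := by rw [hlz]; positivity
  have hlz1 : Real.log (zn : ℝ) ≤ Real.exp (t / 4) := by
    rw [hlz]
    calc (2 : ℝ) ^ J * Real.log w ≤ Real.exp (t / 8) * (13 * t) :=
          mul_le_mul h2J hlw2 hℓ0.le (Real.exp_pos _).le
      _ = 13 * t * Real.exp (t / 8) := by ring
      _ ≤ _ := l1
  have hlz2 : 80 * Real.log (zn : ℝ) ≤ Y := by linarith
  have hzn1 : (1 : ℝ) < zn := (Real.log_pos_iff (Nat.cast_nonneg _)).1 hlz0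
  have hzn0 : (0 : ℝ) < zn := by linarith
  have hD1 : (1 : ℝ) ≤ D := by exact_mod_cast hD
  have hznR : zn ≤ ⌊Real.exp ((D : ℝ) * Y / 4)⌋₊ := by
    apply Nat.le_floor
    rw [← Real.exp_log hzn0]
    apply Real.exp_le_exp.2
    have : (1 : ℝ) * Y ≤ D * Y := mul_le_mul_of_nonneg_right hD1 hYpos.le
    linarith
  have hZ2 : cZ / 416 ≤ ZZ (PP w ⌊Real.exp ((D : ℝ) * Y / 4)⌋₊) (zn : ℝ) := by
    rw [EP1_ZZ hznR]
    refine le_trans ?_ hZJ
    have h2 : 16 * (cZ + 1) ≤ t * cZ := by rwa [div_le_iff₀ hcZ] at ht2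
    have h3 : cZ * (t / 8 - 1) ≤ cZ * J := mul_le_mul_of_nonneg_left hJ1 hcZ.le
    rw [le_div_iff₀ (by positivity)]
    have h4 : cZ / 416 * (2 * Real.log w) ≤ cZ / 416 * (2 * (13 * t)) := by gcongr
    nlinarith
  refine ⟨zn, hzn1, hlz1, hZ2, ?_⟩
  have h1 : 48 ≤ t * cZ := by rwa [div_le_iff₀ hcZ] at ht3
  calc (1 : ℝ) ≤ cZ / 416 * (12 * t) := by linarith
    _ ≤ ZZ (PP w ⌊Real.exp ((D : ℝ) * Y / 4)⌋₊) (zn : ℝ) * Real.log w :=
      mul_le_mul hZ2 hlw1 (by positivity) (le_trans (by positivity) hZ2)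

end Pool.Agent.LibT63
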