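import Pool.Agent.LibT63.EP2

/-!
Theorem T, the parameters: the Maynard part (`g`).
-/

open Finset Filter

namespace Pool.Agent.LibT63

open Pool.Agent.LibRG87 Pool.Agent.LibLG5 Pool.Agent.LibPL63

/-- the Maynard function at one level -/
theorem EP3_g {a C : ℕ} {c : ℝ} (hS : SumsU a C c) {I K : ℕ} (hI : 1 ≤ I) (haK : a ^ I ≤ K)
    (D : ℕ) (hD : 200 ≤ D) : ∃ Y0 : ℕ, ∀ Y : ℕ, Y0 ≤ Y → ∃ (V : ℝ) (g : Finset ℕ → ℝ),
      1 ≤ V ∧ V < Real.exp ((D : ℝ) * Y / 100) ∧ GOK (PE D Y) g V ∧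
      8 * (K * G3 (PE D Y) g) ≤ G2 (PE D Y) g * Real.log (Real.exp ((D : ℝ) * Y / 100) / V) ∧
      G2 (PE D Y) g ≤ (D : ℝ) * Y ∧
      ∀ m : ℕ, 1331200 * (m * C * (16 * C / c + 3)) ≤ I * c ^ 2 →
        128 * (m * (((D : ℝ) * Y) * ((4 / Real.log Y) * G2 (PE D Y) g))) ≤
          K * G1 (PE D Y) g ^ 2 := by
  have ha2 : 2 ≤ a := hS.1
  have hC1 : 1 ≤ C := hS.2.1
  have hc : 0 < c := hS.2.2.1
  have hcle : c ≤ 1 := hS.2.2.2.1
  have hC1' : (1 : ℝ) ≤ C := by exact_mod_cast hC1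
  have hI1' : (1 : ℝ) ≤ I := by exact_mod_cast hI
  have hK1 : 1 ≤ K := (Nat.one_le_pow _ _ (by omega)).trans haK
  have hK1' : (1 : ℝ) ≤ K := by exact_mod_cast hK1
  have haK' : ((a ^ I : ℕ) : ℝ) ≤ K := by exact_mod_cast haK
  obtain ⟨B, hB0', hB1, hB2⟩ : ∃ B : ℕ, 2 ≤ B ∧ 8 * C * (I + 1) / c + 2 ≤ (B : ℝ) ∧
      (B : ℝ) ≤ (16 * C / c + 3) * I := by
    refine ⟨⌈8 * C * (I + 1) / c⌉₊ + 2, by omega, ?_, ?_⟩
    · push_cast
      have := Nat.le_ceil (8 * (C : ℝ) * (I + 1) / c)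
      linarith
    · push_cast
      have h0 : (0 : ℝ) ≤ 8 * (C : ℝ) * (I + 1) / c := by positivity
      have h1 := Nat.ceil_lt_add_one h0
      have h2 : 8 * (C : ℝ) * (I + 1) / c ≤ 16 * C / c * I := by
        rw [div_mul_eq_mul_div]
        apply div_le_div_of_nonneg_right _ hc.le
        nlinarith
      nlinarith
  have hBC : (C : ℝ) ≤ B := by
    have : (C : ℝ) ≤ 8 * C * (I + 1) / c := by
      rw [le_div_iff₀ hc]
      nlinarith
    linarith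
  have hB0 : (0 : ℝ) < B := by linarith
  obtain ⟨Y2, hY2⟩ := EP2_w D (by omega)
  have hev := (Real.tendsto_log_atTop.comp tendsto_natCast_atTop_atTop).eventually
    (EP2_large (K * B))
  obtain ⟨Y1, hY1⟩ := eventually_atTop.1 hev
  refine ⟨max Y1 Y2, fun Y hY => ?_⟩
  obtain ⟨-, -, -, l4⟩ := hY1 Y ((le_max_left _ _).trans hY)
  obtain ⟨hw3, hlw1, hlw2, ht1, hYb⟩ := hY2 Y ((le_max_right _ _).trans hY)
  simp only [Function.comp] at l4
  have hYR : (2048 : ℝ) ≤ Y := by exact_mod_cast hYb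
  have hYpos : (0 : ℝ) < Y := by linarith
  rw [Real.exp_log hYpos] at l4
  have hDR : (200 : ℝ) ≤ D := by exact_mod_cast hD
  unfold PE
  obtain ⟨X, hX⟩ : ∃ X : ℝ, X = (D : ℝ) * Y := ⟨_, rfl⟩
  have hXY : 200 * (Y : ℝ) ≤ X := by rw [hX]; exact mul_le_mul_of_nonneg_right hDR hYpos.le
  rw [← hX]
  generalize wE D Y = w at *
  generalize Real.log (Y : ℝ) = t at *
  obtain ⟨ℓ, hℓ⟩ : ∃ ℓ : ℝ, ℓ = Real.log w := ⟨_, rfl⟩
  rw [← hℓ] at hlw1 hlw2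
  have ht0 : 0 < t := by linarith
  have hℓ1 : 1 ≤ ℓ := by linarith
  have hℓ0 : 0 < ℓ := by linarith
  have hw2 : 2 ≤ w := by omega
  have hw1R : (1 : ℝ) < w := by exact_mod_cast (by omega : 1 < w)
  have hw0R : (0 : ℝ) < w := by linarith
  -- `q0`
  obtain ⟨q0, hq01, hq0c, hq0d⟩ : ∃ q0 : ℕ, 1 ≤ q0 ∧ q0 * (K * B * ℓ) ≤ X / 100 ∧
      X ≤ 200 * (K * B * ℓ * q0) := by
    have hden : 0 < K * B * ℓ := by positivity
    have hone : 1 ≤ X / 100 / (K * B * ℓ) := by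
      rw [le_div_iff₀ hden]
      have : K * B * ℓ ≤ K * B * (13 * t) := mul_le_mul_of_nonneg_left hlw2 (by positivity)
      linarith
    have h1 : 1 ≤ ⌊X / 100 / (K * B * ℓ)⌋₊ := Nat.le_floor (by simpa using hone)
    have h1' : (1 : ℝ) ≤ (⌊X / 100 / (K * B * ℓ)⌋₊ : ℝ) := by exact_mod_cast h1
    have h2 : (⌊X / 100 / (K * B * ℓ)⌋₊ : ℝ) ≤ X / 100 / (K * B * ℓ) :=
      Nat.floor_le (by linarith)
    have h3 := Nat.lt_floor_add_one (X / 100 / (K * B * ℓ))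
    refine ⟨⌊X / 100 / (K * B * ℓ)⌋₊, h1, ?_, ?_⟩
    · rwa [le_div_iff₀ hden] at h2
    · rw [div_lt_iff₀ hden] at h3
      nlinarith
  have hq01' : (1 : ℝ) ≤ q0 := by exact_mod_cast hq01
  have hlV : Real.log ((w : ℝ) ^ (q0 * a ^ I)) = q0 * ((a ^ I : ℕ) : ℝ) * ℓ := by
    rw [Real.log_pow, ← hℓ]
    push_cast
    ring
  have hlV1 : Real.log ((w : ℝ) ^ (q0 * a ^ I)) ≤ q0 * K * ℓ := by
    rw [hlV]
    gcongr
  have hV1 : (1 : ℝ) ≤ (w : ℝ) ^ (q0 * a ^ I) := one_le_pow₀ hw1R.le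
  have hV0 : (0 : ℝ) < (w : ℝ) ^ (q0 * a ^ I) := by linarith
  have hX0 : 0 < X := by linarith
  have hlV2 : q0 * K * ℓ ≤ X / 200 := by
    have hB2' : (2 : ℝ) ≤ B := by exact_mod_cast hB0'
    have h1 : q0 * K * ℓ * 2 ≤ q0 * K * ℓ * B := mul_le_mul_of_nonneg_left hB2' (by positivity)
    have h2 : q0 * K * ℓ * B = q0 * (K * B * ℓ) := by ring
    linarith
  have hVe : (w : ℝ) ^ (q0 * a ^ I) ≤ Real.exp (X / 200) := by
    rw [← Real.exp_log hV0]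
    exact Real.exp_le_exp.2 (hlV1.trans hlV2)
  have hPp : ∀ p ∈ PP w ⌊Real.exp (X / 4)⌋₊, p.Prime := fun p hp => (Finset.mem_filter.1 hp).2
  have hPw : ∀ p ∈ PP w ⌊Real.exp (X / 4)⌋₊, w < p := fun p hp =>
    (Finset.mem_Ioc.1 (Finset.mem_filter.1 hp).1).1
  obtain ⟨s1, s2, s3, s4, s5⟩ := sumsGen hS hI hq01 hw2 (PP w ⌊Real.exp (X / 4)⌋₊)
    (fun p hp => ⟨hPp p hp, hPw p hp⟩) (by
    intro p hp hwp hpV
    unfold PP
    rw [Finset.mem_filter, Finset.mem_Ioc]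
    refine ⟨⟨hwp, Nat.le_floor ?_⟩, hp⟩
    have h1 : (p : ℝ) ≤ (w : ℝ) ^ (q0 * a ^ I) := by exact_mod_cast hpV
    exact h1.trans (hVe.trans (Real.exp_le_exp.2 (by linarith))))
  have hgok := EP1_gok hPp (by omega : 1 ≤ w) q0 I (by omega : 1 ≤ a)
  generalize PP w ⌊Real.exp (X / 4)⌋₊ = P at *
  rw [← hℓ] at s5
  have eG1 : G1 P (g1 w q0 a I) = G1s P w q0 a I := rfl
  have eG2 : G2 P (g1 w q0 a I) = G2s P w q0 a I := rfl
  have eG3 : G3 P (g1 w q0 a I) = L2s P w q0 a I := rfl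
  refine ⟨(w : ℝ) ^ (q0 * a ^ I), g1 w q0 a I, hV1, ?_, hgok, ?_, ?_, ?_⟩
  · exact lt_of_le_of_lt hVe (Real.exp_lt_exp.2 (by linarith))
  · rw [eG3, eG2, Real.log_div (Real.exp_pos _).ne' hV0.ne', Real.log_exp]
    generalize Real.log ((w : ℝ) ^ (q0 * a ^ I)) = lV at *
    generalize L2s P w q0 a I = G3' at *
    generalize G2s P w q0 a I = G2' at *
    have h0 : K * q0 * (B - 1) * ℓ ≤ X / 100 - lV := by linarith
    have hB1' : (0 : ℝ) ≤ B - 1 := by linarith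
    have h1 : 8 * ((K : ℝ) * G3') ≤ 8 * (K * (C * (I + 1) * q0 ^ 2 * ℓ)) :=
      mul_le_mul_of_nonneg_left (mul_le_mul_of_nonneg_left s5 (by positivity)) (by norm_num)
    have h2 : c * q0 * (K * q0 * (B - 1) * ℓ) ≤ G2' * (X / 100 - lV) :=
      mul_le_mul s3 h0 (by positivity) (le_trans (by positivity) s3)
    have h3 : 8 * C * (I + 1) ≤ c * (B - 1) := by
      have h4 : 8 * C * (I + 1) / c ≤ (B : ℝ) - 1 := by linarith
      rw [div_le_iff₀ hc] at h4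
      linarith
    have h5 : 8 * ((K : ℝ) * (C * (I + 1) * q0 ^ 2 * ℓ)) ≤
        c * q0 * (K * q0 * (B - 1) * ℓ) := by
      have h6 : 0 ≤ (K : ℝ) * q0 ^ 2 * ℓ := by positivity
      calc 8 * ((K : ℝ) * (C * (I + 1) * q0 ^ 2 * ℓ))
          = (8 * C * (I + 1)) * (K * q0 ^ 2 * ℓ) := by ring
        _ ≤ (c * (B - 1)) * (K * q0 ^ 2 * ℓ) := mul_le_mul_of_nonneg_right h3 h6
        _ = _ := by ring
    linarith
  · rw [eG2]
    refine s4.trans ?_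
    calc (C : ℝ) * q0 ≤ B * q0 := mul_le_mul_of_nonneg_right hBC (by positivity)
      _ = q0 * (1 * B * 1) := by ring
      _ ≤ q0 * (K * B * ℓ) := by gcongr
      _ ≤ X / 100 := hq0c
      _ ≤ X := by linarith
  · intro m hm
    rw [eG1, eG2]
    generalize G1s P w q0 a I = G1' at *
    generalize G2s P w q0 a I = G2' at *
    have h1 : (c * I * q0) ^ 2 ≤ G1' ^ 2 := pow_le_pow_left₀ (by positivity) s1 2
    have h2 : (K : ℝ) * (c * I * q0) ^ 2 ≤ K * G1' ^ 2 :=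
      mul_le_mul_of_nonneg_left h1 (by positivity)
    refine le_trans ?_ h2
    have h3 : 128 * ((m : ℝ) * (X * ((4 / t) * G2'))) ≤ 128 * (m * (X * ((4 / t) * (C * q0)))) := by
      gcongr
    refine h3.trans ?_
    have h4 : X ≤ 2600 * (K * B * t * q0) := by
      have h5 : K * B * ℓ * q0 ≤ K * B * (13 * t) * q0 := by gcongr
      linarith
    have := EP1_fin (m := m) (D := X) (C := C) (c := c) (t := t) (K := K) (I := I) (B := B)
      (q0 := q0) (Y := 1) (β := 16 * C / c + 3) (by positivity) (by positivity) ht0 hB2 hm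
      (by linarith) (by positivity) (by positivity)
    rwa [mul_one] at this

end Pool.Agent.LibT63
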