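import Pool.Agent.LibT63.PDefs
import Pool.Agent.LibRG87.R8a

/-!
Row P1 (a coefficient vanishes if the conductor misses a prime of `E`). Let `p0 ∈ E`, `p0 ∤ cond χ`, `q = qE M E = q1 * p0`, `q1` prime to `p0`. `χ` factors through `q1` (`χ.conductor ∣ q1` because `cond ∣ q1 * p0`
and `p0 ∤ cond`; `DirichletCharacter.factorsThrough_conductor`, `changeLevel`): `χ⁻¹ a = χ1⁻¹ a` for `a` prime to `q`, `0` otherwise. So the summand at `a ∈ range (q1 * p0)` is `f1 a * f2 a` with `f1` periodic modulo `q1`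
(`f1 a = [a ≡ c + h mod M] ∏_{p ∈ E \ p0} g p (a + (q-1) h) * χ1⁻¹ a`) and `f2` periodic modulo `p0` (`f2 a = if p0 ∣ a then 0 else g p0 (a + (q-1) h)`); as in `R8a_crt` (LibRG87.R8a, copy with values in ℂ)
the sum is `(∑_{range q1} f1) (∑_{range p0} f2)` and the second factor is `0`: `y = a + (q-1) h` runs over all residues, `p0 ∣ a ↔ p0 ∣ y + h` (`p0 ∣ q`), and `∑_{y < p0} (if p0 ∣ y + h then 0 else g y) = 0` is the
hypothesis `El (lpP h) p0 (g p0) = 0` (`lpP`). Reindexing by a shift: `R8a_lin` with `W = 1`.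
-/

open Finset

namespace Pool.Agent.LibT63

open Pool.Agent.LibRG87 Pool.Agent.LibLG5 Pool.Agent.LibPL63 Pool.Agent.LibMaier

private theorem P1_mod (a : ℕ) (H : ℕ → ℂ) (hH : ∀ n, H (n + a) = H n) (n : ℕ) :
    H (n % a) = H n := by
  have h : ∀ t n, H (n + a * t) = H n := by
    intro t
    induction t with
    | zero => intro n; simp
    | succ t ih =>
      intro n
      rw [Nat.mul_succ, ← Nat.add_assoc, hH, ih]
  conv_rhs => rw [← Nat.mod_add_div n a]
  rw [h]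

private theorem P1_crt (a b : ℕ) (ha : 0 < a) (hb : 0 < b) (hab : Nat.Coprime a b)
    (H₁ H₂ : ℕ → ℂ) (h₁ : ∀ n, H₁ (n + a) = H₁ n) (h₂ : ∀ n, H₂ (n + b) = H₂ n) :
    ∑ k ∈ range (a * b), H₁ k * H₂ k = (∑ k ∈ range a, H₁ k) * ∑ k ∈ range b, H₂ k := by
  rw [Finset.sum_mul_sum, ← Finset.sum_product']
  have hmaps : Set.MapsTo (fun k : ℕ => (k % a, k % b)) (range (a * b) : Set ℕ)
      ((range a ×ˢ range b : Finset (ℕ × ℕ)) : Set (ℕ × ℕ)) := by
    intro k _
    simp only [coe_product, coe_range, Set.mem_prod, Set.mem_Iio]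
    exact ⟨Nat.mod_lt _ ha, Nat.mod_lt _ hb⟩
  have hinj : Set.InjOn (fun k : ℕ => (k % a, k % b)) (range (a * b) : Set ℕ) := by
    intro k hk l hl hkl
    simp only [coe_range, Set.mem_Iio] at hk hl
    simp only [Prod.mk.injEq] at hkl
    have h := (Nat.modEq_and_modEq_iff_modEq_mul hab).1 ⟨hkl.1, hkl.2⟩
    have h' : k % (a * b) = l % (a * b) := h
    rwa [Nat.mod_eq_of_lt hk, Nat.mod_eq_of_lt hl] at h'
  refine Finset.sum_nbij (fun k => (k % a, k % b)) (fun k hk => ?_) hinj ?_ ?_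
  · exact hmaps (by simpa using hk)
  · exact Finset.surjOn_of_injOn_of_card_le _ hmaps hinj (by simp)
  · intro k _
    simp only
    rw [P1_mod a H₁ h₁, P1_mod b H₂ h₂]

private theorem P1_chi {q q1 p0 : ℕ} (hq : q = q1 * p0) (hp : p0.Prime)
    (χ : DirichletCharacter ℂ q) (hχ : ¬ p0 ∣ χ.conductor) :
    ∃ χ1 : DirichletCharacter ℂ q1, ∀ a : ℕ, χ⁻¹ (a : ZMod q) =
      χ1 (a : ZMod q1) * (if p0 ∣ a then 0 else 1) := by
  subst hq
  have hdvd : χ.conductor ∣ q1 := by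
    have h1 : χ.conductor ∣ q1 * p0 := χ.conductor_dvd_level
    exact Nat.Coprime.dvd_of_dvd_mul_right ((Nat.Prime.coprime_iff_not_dvd hp).2 hχ).symm h1
  obtain ⟨hc, χ0, hχ0⟩ := DirichletCharacter.factorsThrough_conductor χ
  set χ1 : DirichletCharacter ℂ q1 := DirichletCharacter.changeLevel hdvd χ0 with hχ1
  have h2 : χ = DirichletCharacter.changeLevel (Dvd.intro _ rfl : q1 ∣ q1 * p0) χ1 := by
    rw [hχ1, ← DirichletCharacter.changeLevel_trans]
    exact hχ0
  refine ⟨χ1⁻¹, fun a => ?_⟩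
  have h3 : χ⁻¹ = DirichletCharacter.changeLevel (Dvd.intro _ rfl : q1 ∣ q1 * p0) χ1⁻¹ := by
    rw [map_inv, ← h2]
  rw [h3]
  by_cases ha : Nat.Coprime a (q1 * p0)
  · have hu : IsUnit (a : ZMod (q1 * p0)) := (ZMod.isUnit_iff_coprime a (q1 * p0)).2 ha
    have hna : ¬ p0 ∣ a := fun h => by
      have := Nat.Coprime.eq_one_of_dvd ((Nat.Coprime.coprime_dvd_left h ha).symm.coprime_dvd_left
        (Dvd.intro_left _ rfl)) dvd_rfl
      exact hp.one_lt.ne' this
    obtain ⟨v, hv⟩ := hu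
    rw [← hv, DirichletCharacter.changeLevel_eq_cast_of_dvd, hv,
      ZMod.cast_natCast (Dvd.intro _ rfl : q1 ∣ q1 * p0), if_neg hna, mul_one]
  · have hnu : ¬ IsUnit (a : ZMod (q1 * p0)) := fun h => ha ((ZMod.isUnit_iff_coprime a _).1 h)
    rw [MulChar.map_nonunit _ hnu]
    by_cases hpa : p0 ∣ a
    · rw [if_pos hpa, mul_zero]
    · have hna : ¬ Nat.Coprime a q1 := fun h =>
        ha (Nat.Coprime.mul_right h ((Nat.Prime.coprime_iff_not_dvd hp).2 hpa).symm)
      have hnu1 : ¬ IsUnit (a : ZMod q1) := fun h => hna ((ZMod.isUnit_iff_coprime a _).1 h)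
      rw [MulChar.map_nonunit _ hnu1, zero_mul]

theorem coef_zero {M : ℕ} (hM : 1 ≤ M) {E : Finset ℕ} (hE : ∀ p ∈ E, p.Prime ∧ ¬ p ∣ M) (h c : ℕ) (g : ℕ → ℕ → ℝ)
    (hper : ∀ p ∈ E, Function.Periodic (g p) p) (hmz : ∀ p ∈ E, El (lpP h) p (g p) = 0)
    (χ : DirichletCharacter ℂ (qE M E)) (p0 : ℕ) (hp0 : p0 ∈ E) (hχ : ¬ p0 ∣ χ.conductor) : coef M E h c g χ = 0 := by
  have hp : p0.Prime := (hE p0 hp0).1
  set q1 : ℕ := M * ∏ p ∈ E.erase p0, p with hq1
  have hq : qE M E = q1 * p0 := by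
    rw [qE, hq1, ← Finset.mul_prod_erase E (fun p => p) hp0]
    ring
  have hq1pos : 0 < q1 := Nat.mul_pos hM
    (Finset.prod_pos fun p hp => (hE p (Finset.mem_of_mem_erase hp)).1.pos)
  have hcop : Nat.Coprime q1 p0 := by
    refine Nat.Coprime.mul_left ?_ ?_
    · exact ((Nat.Prime.coprime_iff_not_dvd hp).2 (hE p0 hp0).2).symm
    · refine Nat.Coprime.prod_left fun p hpE => ?_
      exact (Nat.coprime_primes (hE p (Finset.mem_of_mem_erase hpE)).1 hp).2
        (Finset.ne_of_mem_erase hpE)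
  obtain ⟨χ1, hχ1⟩ := P1_chi hq hp χ hχ
  set n₀ : ℕ := (qE M E - 1) * h with hn₀
  have hqpos : 0 < qE M E := by
    rw [hq]
    exact Nat.mul_pos hq1pos hp.pos
  have hn₀h : n₀ + h = qE M E * h := by
    rw [hn₀, ← Nat.succ_mul, Nat.succ_eq_add_one, Nat.sub_add_cancel hqpos]
  have hsh : ∀ p ∈ E, ∀ n t, g p (n + t * p) = g p n := fun p hpE n t => by
    have := (hper p hpE).nat_mul t n
    rwa [Nat.cast_id] at this
  unfold coef
  have hterm : ∀ a ∈ range (qE M E), (tG M E h c g a : ℂ) * χ⁻¹ (a : ZMod (qE M E)) =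
      ((if a ≡ c + h [MOD M] then ∏ p ∈ E.erase p0, ((g p (a + n₀) : ℝ) : ℂ) else 0) *
        χ1 (a : ZMod q1)) * ((if p0 ∣ a then 0 else g p0 (a + n₀) : ℝ) : ℂ) := by
    intro a _
    rw [hχ1, tG, ← Finset.mul_prod_erase E (fun p => g p (a + (qE M E - 1) * h)) hp0]
    split_ifs <;> push_cast <;> ring
  rw [Finset.sum_congr rfl hterm, hq]
  rw [P1_crt q1 p0 hq1pos hp.pos hcop
    (fun a => (if a ≡ c + h [MOD M] then ∏ p ∈ E.erase p0, ((g p (a + n₀) : ℝ) : ℂ) else 0) *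
        χ1 (a : ZMod q1))
    (fun a => ((if p0 ∣ a then 0 else g p0 (a + n₀) : ℝ) : ℂ))]
  · have hG : ∑ a ∈ range p0, (if p0 ∣ a then 0 else g p0 (a + n₀) : ℝ) = 0 := by
      set G : ℕ → ℝ := fun y => if p0 ∣ y + h then 0 else g p0 y with hGdef
      have hGp : ∀ n, G (n + p0) = G n := by
        intro n
        have e1 : n + p0 + h = n + h + p0 := by ring
        simp only [hGdef, e1, Nat.dvd_add_self_right, hper p0 hp0 n]
      have e2 : ∀ a ∈ range p0, (if p0 ∣ a then 0 else g p0 (a + n₀) : ℝ) = G (n₀ + 1 * a) := by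
        intro a _
        simp only [hGdef]
        have e3 : n₀ + 1 * a + h = a + qE M E * h := by rw [← hn₀h]; ring
        have e4 : p0 ∣ a + qE M E * h ↔ p0 ∣ a := by
          refine (Nat.dvd_add_iff_left ?_).symm
          rw [hq]
          exact Dvd.dvd.mul_right (Dvd.intro_left _ rfl) _
        rw [e3]
        simp only [e4]
        rw [one_mul, Nat.add_comm a n₀]
      rw [Finset.sum_congr rfl e2, R8a_lin p0 hp.pos G hGp 1 n₀ (Nat.coprime_one_right p0)]
      have h5 := hmz p0 hp0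
      unfold El at h5
      have hp1 : ((p0 : ℝ) - 1) ≠ 0 := by
        have : (1 : ℝ) < p0 := by exact_mod_cast hp.one_lt
        linarith
      have e6 : ∑ x ∈ range p0, lpP h p0 x * g p0 x = 1 / ((p0 : ℝ) - 1) * ∑ x ∈ range p0, G x := by
        rw [Finset.mul_sum]
        refine Finset.sum_congr rfl fun x _ => ?_
        simp only [hGdef, lpP]
        split_ifs <;> ring
      rw [e6] at h5
      rcases mul_eq_zero.1 h5 with h7 | h7
      · exact absurd h7 (one_div_ne_zero hp1)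
      · exact h7
    have hG' : ∑ a ∈ range p0, ((if p0 ∣ a then 0 else g p0 (a + n₀) : ℝ) : ℂ) = 0 := by
      rw [← Complex.ofReal_sum, hG, Complex.ofReal_zero]
    rw [hG', mul_zero]
  · intro n
    have e1 : (n + q1 ≡ c + h [MOD M]) ↔ (n ≡ c + h [MOD M]) := by
      have : n + q1 ≡ n [MOD M] := by
        rw [hq1]
        exact Nat.ModEq.symm ((Nat.modEq_iff_dvd' (Nat.le_add_right _ _)).2 (by simp))
      exact ⟨fun h => this.symm.trans h, fun h => this.trans h⟩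
    have e2 : ((n + q1 : ℕ) : ZMod q1) = (n : ZMod q1) := by simp
    have e3 : ∏ p ∈ E.erase p0, ((g p (n + q1 + n₀) : ℝ) : ℂ) =
        ∏ p ∈ E.erase p0, ((g p (n + n₀) : ℝ) : ℂ) := by
      refine Finset.prod_congr rfl fun p hpE => ?_
      obtain ⟨t, ht⟩ := Finset.dvd_prod_of_mem (fun p : ℕ => p) hpE
      have ht' : ∏ p ∈ E.erase p0, p = p * t := ht
      have e4 : n + q1 + n₀ = (n + n₀) + (M * t) * p := by
        rw [hq1, ht']
        ring
      rw [e4, hsh p (Finset.mem_of_mem_erase hpE)]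
    simp only [e1, e2, e3]
  · intro n
    have e1 : n + p0 + n₀ = n + n₀ + p0 := by ring
    simp only [e1, Nat.dvd_add_self_right, hper p0 hp0 (n + n₀)]

end Pool.Agent.LibT63
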