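import Pool.Agent.LibT63.PDefs

/-!
Row P11 (pointwise). `omU x n = gw (log n - x) / n`, `wp x (n + h) = log (n+h) gw (log (n+h) - x) / (n+h)` for a prime `n + h`. For `n ∈ sT`, `h ≤ e^{x/4}`: `u = log n - x`, `|u| ≤ x/20`, `0 ≤ δ = log (n+h) - log n ≤ h/n ≤ e^{x/4 - 19x/20} ≤ 1/x`, so
`gw (u + δ) = gw u * exp (-(u δ + δ^2/2)) ≤ 2 gw u` for large `x`; `log (n+h) ≤ 2 x`; `1/(n+h) ≤ 1/n`. `prime_ok`: `wp ≠ 0` means prime; `n + h > e^{19x/20} > e^{x/4} ≥ p`.
-/

open Finset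

namespace Pool.Agent.LibT63

open Pool.Agent.LibRG87 Pool.Agent.LibLG5 Pool.Agent.LibPL63 Pool.Agent.LibMaier

theorem wp_le_omU : ∃ x0 : ℝ, ∀ x : ℝ, x0 ≤ x → ∀ (M c h : ℕ), (h : ℝ) ≤ Real.exp (x / 4) → ∀ n ∈ sT x M c,
    wp x (n + h) ≤ 4 * x * omU x n := by
  refine ⟨2, ?_⟩
  intro x hx M c h hh n hn
  have hx0 : 0 < x := by linarith
  rw [sT, mem_filter] at hn
  obtain ⟨_, hn1, hn2⟩ := hn
  have hnR : (0 : ℝ) < n := (Real.exp_pos _).trans hn1
  have hn0 : n ≠ 0 := by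
    rintro rfl
    simp at hnR
  have hom : 0 ≤ omU x n := div_nonneg (gw_nonneg _) hnR.le
  rw [wp]
  split_ifs with hp
  · have hm0 : n + h ≠ 0 := by omega
    have hmR : (0 : ℝ) < ((n + h : ℕ) : ℝ) := by exact_mod_cast Nat.pos_of_ne_zero hm0
    have hle : (n : ℝ) ≤ ((n + h : ℕ) : ℝ) := by exact_mod_cast Nat.le_add_right n h
    have hl1 : Real.log n ≤ Real.log ((n + h : ℕ) : ℝ) := Real.log_le_log hnR hle
    have hl2 : Real.log ((n + h : ℕ) : ℝ) - Real.log n ≤ (h : ℝ) / n := by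
      rw [← Real.log_div hmR.ne' hnR.ne']
      have h1 : ((n + h : ℕ) : ℝ) / n = 1 + (h : ℝ) / n := by
        push_cast
        field_simp
      rw [h1]
      have h2 : (0 : ℝ) < 1 + (h : ℝ) / n := by positivity
      linarith [Real.log_le_sub_one_of_pos h2]
    have hd : (h : ℝ) / n ≤ Real.exp (-(7 / 10 * x)) := by
      rw [div_le_iff₀ hnR]
      have h1 : Real.exp (x / 4) = Real.exp (-(7 / 10 * x)) * Real.exp (19 / 20 * x) := by
        rw [← Real.exp_add]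
        congr 1
        ring
      have h2 : Real.exp (-(7 / 10 * x)) * Real.exp (19 / 20 * x) ≤
          Real.exp (-(7 / 10 * x)) * n := mul_le_mul_of_nonneg_left hn1.le (Real.exp_pos _).le
      linarith
    have he1 : Real.exp (-(7 / 10 * x)) ≤ 1 := Real.exp_le_one_iff.2 (by linarith)
    have he2 : x * Real.exp (-(7 / 10 * x)) ≤ 10 / 7 := by
      rw [Real.exp_neg, ← div_eq_mul_inv, div_le_iff₀ (Real.exp_pos _)]
      linarith [Real.add_one_le_exp (7 / 10 * x)]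
    have hlog1 : 19 / 20 * x ≤ Real.log n := by
      rw [Real.le_log_iff_exp_le hnR]
      exact hn1.le
    have hlog2 : Real.log n ≤ 21 / 20 * x := by
      rw [Real.log_le_iff_le_exp hnR]
      exact hn2
    set δ : ℝ := Real.log ((n + h : ℕ) : ℝ) - Real.log n with hδ
    have hδ0 : 0 ≤ δ := by linarith
    have hδ1 : δ ≤ Real.exp (-(7 / 10 * x)) := hl2.trans hd
    have hL : Real.log ((n + h : ℕ) : ℝ) ≤ 2 * x := by
      have : Real.log ((n + h : ℕ) : ℝ) = Real.log n + δ := by rw [hδ]; ring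
      rw [this]
      linarith
    have hr := gw_ratio (y := x) hn0 hm0
    have hexp : Real.exp (-(Real.log ((n + h : ℕ) : ℝ) - Real.log n) *
        ((Real.log ((n + h : ℕ) : ℝ) + Real.log n) / 2 - x + 1)) ≤ 2 := by
      have h3 : -(Real.log ((n + h : ℕ) : ℝ) - Real.log n) *
        ((Real.log ((n + h : ℕ) : ℝ) + Real.log n) / 2 - x + 1) ≤ 1 / 14 := by
        rw [← hδ]
        have h4 : -(x / 20) ≤ (Real.log ((n + h : ℕ) : ℝ) + Real.log n) / 2 - x + 1 := by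
          linarith
        have h5 : δ * (-(x / 20)) ≤
            δ * ((Real.log ((n + h : ℕ) : ℝ) + Real.log n) / 2 - x + 1) :=
          mul_le_mul_of_nonneg_left h4 hδ0
        have h6 : δ * x ≤ Real.exp (-(7 / 10 * x)) * x := mul_le_mul_of_nonneg_right hδ1 hx0.le
        linarith
      calc _ ≤ Real.exp (1 / 14) := Real.exp_le_exp.2 h3
        _ ≤ Real.exp (Real.log 2) := Real.exp_le_exp.2 (by linarith [Real.log_two_gt_d9])
        _ = 2 := Real.exp_log (by norm_num)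
    have hw : gw (Real.log ((n + h : ℕ) : ℝ) - x) / ((n + h : ℕ) : ℝ) ≤ omU x n * 2 := by
      rw [hr]
      exact mul_le_mul_of_nonneg_left hexp hom
    have hw0 : 0 ≤ gw (Real.log ((n + h : ℕ) : ℝ) - x) / ((n + h : ℕ) : ℝ) :=
      div_nonneg (gw_nonneg _) hmR.le
    rw [mul_div_assoc]
    calc Real.log ((n + h : ℕ) : ℝ) * (gw (Real.log ((n + h : ℕ) : ℝ) - x) / ((n + h : ℕ) : ℝ))
        ≤ (2 * x) * (gw (Real.log ((n + h : ℕ) : ℝ) - x) / ((n + h : ℕ) : ℝ)) :=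
          mul_le_mul_of_nonneg_right hL hw0
      _ ≤ (2 * x) * (omU x n * 2) := mul_le_mul_of_nonneg_left hw (by positivity)
      _ = 4 * x * omU x n := by ring
  · positivity

theorem prime_ok {x : ℝ} (hx : 0 ≤ x) {M c h n : ℕ} (hn : n ∈ sT x M c) (hw : wp x (n + h) ≠ 0) :
    (n + h).Prime ∧ ∀ p : ℕ, p.Prime → (p : ℝ) ≤ Real.exp (x / 4) → ¬ p ∣ n + h := by
  have hp : (n + h).Prime := by
    by_contra hp
    exact hw (by rw [wp, if_neg hp])
  refine ⟨hp, ?_⟩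
  intro p hpp hple hdvd
  have h1 : p = n + h := (Nat.prime_dvd_prime_iff_eq hpp hp).1 hdvd
  rw [sT, mem_filter] at hn
  have h2 : (n : ℝ) ≤ p := by
    rw [h1]
    exact_mod_cast Nat.le_add_right n h
  have h3 : Real.exp (x / 4) ≤ Real.exp (19 / 20 * x) := Real.exp_le_exp.2 (by linarith)
  linarith [hn.2.1]

end Pool.Agent.LibT63
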