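import Pool.Agent.LibT63.PDefs
import Pool.Agent.LibRG87.R8a

/-!
Row P2 (size of the coefficients, and of the test function). `‖coef‖ ≤ ∑_{a < q, a ≡ c + h mod M} ∏ |g p (a + (q-1) h)|`; the `a < M e` (`e = ∏ E`, prime to `M`) with `a ≡ c + h mod M` are `r + M k`, `k < e` (`r = (c+h) % M`), and
`∑_{k < e} ∏_{p ∈ E} |g p (r + (q-1) h + M k)| = ∏_{p ∈ E} ∑_{y < p} |g p y|` by `R8a_full` (LibRG87.R8a). `abs_prod_le`: one value is at most the sum over a period (`R8a_mod`).
-/

open Finset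

namespace Pool.Agent.LibT63

open Pool.Agent.LibRG87 Pool.Agent.LibLG5 Pool.Agent.LibPL63 Pool.Agent.LibMaier

theorem norm_coef_le {M : ℕ} (hM : 1 ≤ M) {E : Finset ℕ} (hE : ∀ p ∈ E, p.Prime ∧ ¬ p ∣ M) (h c : ℕ) (g : ℕ → ℕ → ℝ)
    (hper : ∀ p ∈ E, Function.Periodic (g p) p) (χ : DirichletCharacter ℂ (qE M E)) :
    ‖coef M E h c g χ‖ ≤ ∏ p ∈ E, tot p (g p) := by
  classical
  set e : ℕ := ∏ p ∈ E, p with he
  have hqe : qE M E = M * e := rfl
  have hM0 : 0 < M := hM
  set r : ℕ := (c + h) % M with hr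
  have hrM : r < M := Nat.mod_lt _ hM0
  set n₀ : ℕ := r + (qE M E - 1) * h with hn₀
  have h1 : ‖coef M E h c g χ‖ ≤ ∑ a ∈ range (qE M E), |tG M E h c g a| := by
    unfold coef
    refine (norm_sum_le _ _).trans (Finset.sum_le_sum fun a _ => ?_)
    rw [norm_mul, Complex.norm_real, Real.norm_eq_abs]
    exact mul_le_of_le_one_right (abs_nonneg _) (DirichletCharacter.norm_le_one _ _)
  refine h1.trans (le_of_eq ?_)
  have hinj : Set.InjOn (fun k : ℕ => r + M * k) (range e : Finset ℕ) := by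
    intro x _ y _ hxy
    simp only at hxy
    have : M * x = M * y := by omega
    exact Nat.eq_of_mul_eq_mul_left hM0 this
  have hsub : (range e).image (fun k : ℕ => r + M * k) ⊆ range (qE M E) := by
    intro a ha
    obtain ⟨k, hk, rfl⟩ := Finset.mem_image.1 ha
    rw [Finset.mem_range] at hk ⊢
    rw [hqe]
    calc r + M * k < M + M * k := by omega
      _ = M * (k + 1) := by ring
      _ ≤ M * e := Nat.mul_le_mul_left _ hk
  have h2 : ∑ a ∈ range (qE M E), |tG M E h c g a| =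
      ∑ k ∈ range e, |tG M E h c g (r + M * k)| := by
    rw [← Finset.sum_subset hsub, Finset.sum_image hinj]
    intro a ha hna
    unfold tG
    rw [if_neg, abs_zero]
    intro hmod
    apply hna
    rw [Finset.mem_image]
    have h3 : a % M = r := hmod
    refine ⟨a / M, ?_, ?_⟩
    · rw [Finset.mem_range] at ha ⊢
      rw [hqe] at ha
      exact Nat.div_lt_of_lt_mul ha
    · show r + M * (a / M) = a
      rw [← h3]
      exact Nat.mod_add_div a M
  rw [h2]
  have h3 : ∀ k, |tG M E h c g (r + M * k)| = ∏ p ∈ E, |g p (n₀ + M * k)| := by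
    intro k
    unfold tG
    rw [if_pos, Finset.abs_prod]
    · refine Finset.prod_congr rfl fun p _ => ?_
      congr 2
      rw [hn₀]
      ring
    · show (r + M * k) % M = (c + h) % M
      rw [Nat.add_mul_mod_self_left, hr, Nat.mod_mod]
  simp only [h3]
  rw [he, R8a_full E (fun p hp => (hE p hp).1) (fun p y => |g p y|)
    (fun p hp n => by
      have := hper p hp n
      simp only [this]) M n₀ (fun p hp => (Nat.Prime.coprime_iff_not_dvd (hE p hp).1).2 (hE p hp).2)]
  rfl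

theorem abs_prod_le {E : Finset ℕ} (hE : ∀ p ∈ E, p.Prime) (g : ℕ → ℕ → ℝ)
    (hper : ∀ p ∈ E, Function.Periodic (g p) p) (n : ℕ) : |∏ p ∈ E, g p n| ≤ ∏ p ∈ E, tot p (g p) := by
  rw [Finset.abs_prod]
  refine Finset.prod_le_prod (fun p _ => abs_nonneg _) fun p hp => ?_
  have h1 : g p (n % p) = g p n := R8a_mod p (g p) (fun m => hper p hp m) n
  rw [← h1]
  unfold tot
  exact Finset.single_le_sum (f := fun x => |g p x|) (fun x _ => abs_nonneg _)
    (Finset.mem_range.2 (Nat.mod_lt _ (hE p hp).pos))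

theorem abs_tG_le {M : ℕ} {E : Finset ℕ} (hE : ∀ p ∈ E, p.Prime) (h c : ℕ) (g : ℕ → ℕ → ℝ)
    (hper : ∀ p ∈ E, Function.Periodic (g p) p) (m : ℕ) : |tG M E h c g m| ≤ ∏ p ∈ E, tot p (g p) := by
  unfold tG
  split_ifs
  · exact abs_prod_le hE g hper _
  · rw [abs_zero]
    refine Finset.prod_nonneg fun p _ => ?_
    unfold tot
    exact Finset.sum_nonneg fun x _ => abs_nonneg _

end Pool.Agent.LibT63
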