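import Pool.Agent.LibT63.PDefs

/-!
Row P3 (expansion in characters). `tG` is periodic modulo `q = qE M E` (`M ∣ q`, every `p ∈ E` divides `q`), so `tG m = ∑_{a < q} tG a [a ≡ m mod q]`; for `m` prime to `q`:
`∑_χ χ⁻¹ a χ m = φ(q) [a ≡ m]` (`DirichletCharacter.sum_char_inv_mul_char_eq`, for `a` a unit: `χ a⁻¹ = χ⁻¹ a`, `MulChar.inv_apply`; for `a` not a unit `χ⁻¹ a = 0` and `a ≢ m`). Exchange the sums.
-/

open Finset

namespace Pool.Agent.LibT63

open Pool.Agent.LibRG87 Pool.Agent.LibLG5 Pool.Agent.LibPL63 Pool.Agent.LibMaier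

/-- `tG` depends only on the class modulo `q` -/
theorem P3_tG_mod {M : ℕ} {E : Finset ℕ} (h c : ℕ) (g : ℕ → ℕ → ℝ)
    (hper : ∀ p ∈ E, Function.Periodic (g p) p) (m : ℕ) :
    tG M E h c g (m % qE M E) = tG M E h c g m := by
  have hmod : m % qE M E ≡ m [MOD qE M E] := Nat.mod_modEq _ _
  have hM : m % qE M E ≡ m [MOD M] := hmod.of_dvd (Dvd.intro _ rfl)
  have hprod : ∏ p ∈ E, g p (m % qE M E + (qE M E - 1) * h) = ∏ p ∈ E, g p (m + (qE M E - 1) * h) := by
    refine Finset.prod_congr rfl fun p hp => ?_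
    have hpq : p ∣ qE M E := (Finset.dvd_prod_of_mem _ hp).mul_left M
    have h1 : (m % qE M E + (qE M E - 1) * h) % p = (m + (qE M E - 1) * h) % p :=
      (hmod.of_dvd hpq).add_right _
    rw [← (hper p hp).map_mod_nat, h1, (hper p hp).map_mod_nat]
  unfold tG
  rw [hprod]
  by_cases h1 : m ≡ c + h [MOD M]
  · rw [if_pos h1, if_pos (hM.trans h1)]
  · rw [if_neg h1, if_neg fun h2 => h1 (hM.symm.trans h2)]

/-- orthogonality with `χ⁻¹ a` -/
theorem P3_orth {q : ℕ} [NeZero q] (m : ℕ) (hm : m.Coprime q) (a : ℕ) (ha : a < q) :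
    ∑ χ : DirichletCharacter ℂ q, χ⁻¹ (a : ZMod q) * χ (m : ZMod q) =
      if a = m % q then (q.totient : ℂ) else 0 := by
  classical
  have hiff : (a : ZMod q) = (m : ZMod q) ↔ a = m % q := by
    rw [ZMod.natCast_eq_natCast_iff']
    rw [Nat.mod_eq_of_lt ha]
  by_cases hu : IsUnit (a : ZMod q)
  · have h1 := DirichletCharacter.sum_char_inv_mul_char_eq ℂ hu (m : ZMod q)
    have h2 : ∀ χ : DirichletCharacter ℂ q, χ⁻¹ (a : ZMod q) = χ (a : ZMod q)⁻¹ := by
      intro χ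
      rw [MulChar.inv_apply]
      congr 1
      exact hu.mul_right_cancel ((Ring.inverse_mul_cancel _ hu).trans (ZMod.inv_mul_of_unit _ hu).symm)
    simp_rw [h2]
    rw [h1]
    by_cases h3 : a = m % q
    · rw [if_pos h3, if_pos (hiff.2 h3)]
    · rw [if_neg h3, if_neg fun h4 => h3 (hiff.1 h4)]
  · have h3 : a ≠ m % q := by
      intro h4
      apply hu
      rw [hiff.2 h4]
      exact (ZMod.isUnit_iff_coprime _ _).2 hm
    rw [if_neg h3]
    refine Finset.sum_eq_zero fun χ _ => ?_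
    rw [MulChar.map_nonunit _ hu, zero_mul]

theorem tG_expand {M : ℕ} {E : Finset ℕ} [NeZero (qE M E)] (h c : ℕ) (g : ℕ → ℕ → ℝ)
    (hper : ∀ p ∈ E, Function.Periodic (g p) p) (m : ℕ) (hm : m.Coprime (qE M E)) :
    (tG M E h c g m : ℂ) = 1 / ((qE M E).totient : ℂ) *
      ∑ χ : DirichletCharacter ℂ (qE M E), coef M E h c g χ * χ (m : ZMod (qE M E)) := by
  have hq0 : 0 < qE M E := Nat.pos_of_ne_zero (NeZero.ne _)
  have hφ : ((qE M E).totient : ℂ) ≠ 0 := by
    exact_mod_cast (Nat.totient_pos.2 hq0).ne'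
  have h1 : ∑ χ : DirichletCharacter ℂ (qE M E), coef M E h c g χ * χ (m : ZMod (qE M E)) =
      ∑ a ∈ range (qE M E), (tG M E h c g a : ℂ) *
        ∑ χ : DirichletCharacter ℂ (qE M E), χ⁻¹ (a : ZMod (qE M E)) * χ (m : ZMod (qE M E)) := by
    unfold coef
    simp_rw [Finset.sum_mul, Finset.mul_sum]
    rw [Finset.sum_comm]
    refine Finset.sum_congr rfl fun a _ => Finset.sum_congr rfl fun χ _ => ?_
    ring
  rw [h1]
  have h2 : ∀ a ∈ range (qE M E), (tG M E h c g a : ℂ) *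
        ∑ χ : DirichletCharacter ℂ (qE M E), χ⁻¹ (a : ZMod (qE M E)) * χ (m : ZMod (qE M E)) =
      if a = m % qE M E then (tG M E h c g m : ℂ) * ((qE M E).totient : ℂ) else 0 := by
    intro a ha
    rw [P3_orth m hm a (Finset.mem_range.1 ha)]
    by_cases h3 : a = m % qE M E
    · rw [if_pos h3, if_pos h3, h3, P3_tG_mod h c g hper m]
    · rw [if_neg h3, if_neg h3, mul_zero]
  rw [Finset.sum_congr rfl h2, Finset.sum_ite_eq', if_pos (Finset.mem_range.2 (Nat.mod_lt _ hq0))]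
  field_simp

end Pool.Agent.LibT63
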