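import Pool.Agent.LibT63.P1
import Pool.Agent.LibT63.P2
import Pool.Agent.LibT63.P3

/-!
Row P4 (the full sum over primes). `Tt := ∏ tot`. Split `m` prime to `q` or not: the second part is `≤ Tt * ∑' (if m.Coprime q then 0 else wn x m) ≤ Tt * 4 ω(q) e^{-x/4}` (`tsum_not_coprime_le` in B0b, `wp ≤ wn`, `abs_tG_le`).
First part: `tG_expand` and exchange: `(1/φ(q)) ∑_χ coef χ ∑'_m wp x m χ(m)` (for `m` not prime to `q`, `χ(m) = 0`), `‖∑'_m wp x m χ(m)‖ ≤ ‖SS χ x‖ + Kpp e^{-x/4}` (`wn_sub_prime_le` in B4, `SS` is the sum of `wn x m * χ m`),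
`‖SS χ x‖ ≤ ‖SS χ.primitiveCharacter x‖ + 4 ω(q) e^{-x/4}` (`norm_SS_sub_primitive`). `coef_zero`: only the `χ` with `∀ p ∈ E, p ∣ χ.conductor` contribute; `norm_coef_le`; the number of all `χ` is `φ(q)`
(`DirichletCharacter.card_eq_totient_of_hasEnoughRootsOfUnity` or `card_chars_le` of LibMaier.Density style, as used in LibPL63).
-/

open Finset

namespace Pool.Agent.LibT63

open Pool.Agent.LibRG87 Pool.Agent.LibLG5 Pool.Agent.LibPL63 Pool.Agent.LibMaier
open scoped ArithmeticFunction.vonMangoldt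

theorem P4_summable_W {q : ℕ} (χ : DirichletCharacter ℂ q) (x : ℝ) :
    Summable fun m : ℕ => ((wp x m : ℝ) : ℂ) * χ (m : ZMod q) := by
  refine Summable.of_norm_bounded (summable_wn x) fun n => ?_
  rw [norm_mul, Complex.norm_real, Real.norm_eq_abs, abs_of_nonneg (wp_nonneg' x n)]
  exact (mul_le_of_le_one_right (wp_nonneg' x n) (χ.norm_le_one _)).trans (wp_le_wn x n)

theorem P4_norm_W {q : ℕ} [NeZero q] (χ : DirichletCharacter ℂ q) (x : ℝ) :
    ‖∑' m : ℕ, ((wp x m : ℝ) : ℂ) * χ (m : ZMod q)‖ ≤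
      ‖SS χ.primitiveCharacter x‖ + (4 * q.primeFactors.card + Kpp) * Real.exp (-x / 4) := by
  have hs := summable_SS χ x
  have hsw := P4_summable_W χ x
  have h1 : ‖SS χ x - ∑' m : ℕ, ((wp x m : ℝ) : ℂ) * χ (m : ZMod q)‖ ≤ Kpp * Real.exp (-x / 4) := by
    unfold LibMaier.SS
    rw [← hs.tsum_sub hsw]
    have h2 : HasSum (fun n => Real.exp (-x / 4) * gpp n) (Real.exp (-x / 4) * Kpp) :=
      summable_gpp.hasSum.mul_left _
    refine (tsum_of_norm_bounded h2 fun n => ?_).trans_eq (mul_comm _ _)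
    have h3 : (Λ n : ℂ) * χ (n : ZMod q) * ((gw (Real.log n - x) / n : ℝ) : ℂ) -
        ((wp x n : ℝ) : ℂ) * χ (n : ZMod q) = ((wn x n - wp x n : ℝ) : ℂ) * χ (n : ZMod q) := by
      unfold wn
      push_cast
      ring
    rw [h3, norm_mul, Complex.norm_real, Real.norm_eq_abs, abs_of_nonneg (sub_nonneg.2 (wp_le_wn x n))]
    refine (mul_le_of_le_one_right (sub_nonneg.2 (wp_le_wn x n)) (χ.norm_le_one _)).trans ?_
    rw [wp_eq]
    exact wn_sub_prime_le x n
  have h5 := norm_SS_sub_primitive χ x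
  set W := ∑' m : ℕ, ((wp x m : ℝ) : ℂ) * χ (m : ZMod q) with hW
  have h6 : W = SS χ.primitiveCharacter x + (SS χ x - SS χ.primitiveCharacter x) - (SS χ x - W) := by ring
  calc ‖W‖ = ‖SS χ.primitiveCharacter x + (SS χ x - SS χ.primitiveCharacter x) - (SS χ x - W)‖ := by
        rw [← h6]
    _ ≤ ‖SS χ.primitiveCharacter x‖ + ‖SS χ x - SS χ.primitiveCharacter x‖ + ‖SS χ x - W‖ :=
        (norm_sub_le _ _).trans (add_le_add_left (norm_add_le _ _) _)
    _ ≤ _ := by linarith

theorem full_sum {M : ℕ} (hM : 1 ≤ M) {E : Finset ℕ} (hE : ∀ p ∈ E, p.Prime ∧ ¬ p ∣ M) (h c : ℕ) (g : ℕ → ℕ → ℝ)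
    (hper : ∀ p ∈ E, Function.Periodic (g p) p) (hmz : ∀ p ∈ E, El (lpP h) p (g p) = 0) (x : ℝ) :
    |∑' m : ℕ, wp x m * tG M E h c g m| ≤
      (1 / ((qE M E).totient : ℝ) * cE x M E + (8 * (qE M E).primeFactors.card + Kpp) * Real.exp (-x / 4)) *
        ∏ p ∈ E, tot p (g p) := by
  classical
  have hq0 : 0 < qE M E := Nat.mul_pos hM (Finset.prod_pos fun p hp => (hE p hp).1.pos)
  haveI : NeZero (qE M E) := ⟨hq0.ne'⟩
  have hcE : cE x M E = ∑ χ : DirichletCharacter ℂ (qE M E) with (∀ p ∈ E, p ∣ χ.conductor),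
      ‖SS χ.primitiveCharacter x‖ := by
    unfold cE
    rw [dif_neg hq0.ne']
  have hφ : 0 < (qE M E).totient := Nat.totient_pos.2 hq0
  have hφR : (0 : ℝ) < (qE M E).totient := by exact_mod_cast hφ
  have hTt : 0 ≤ ∏ p ∈ E, tot p (g p) :=
    Finset.prod_nonneg fun p _ => Finset.sum_nonneg fun _ _ => abs_nonneg _
  have hb : ∀ m, |tG M E h c g m| ≤ ∏ p ∈ E, tot p (g p) := abs_tG_le (fun p hp => (hE p hp).1) h c g hper
  set Tt := ∏ p ∈ E, tot p (g p) with hTtdef
  set e := Real.exp (-x / 4) with he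
  have he0 : 0 < e := Real.exp_pos _
  set ω : ℝ := ((qE M E).primeFactors.card : ℝ) with hω
  have hω0 : 0 ≤ ω := Nat.cast_nonneg _
  have hK := Kpp_nonneg
  -- the two parts
  have hsA : Summable fun m : ℕ => (if m.Coprime (qE M E) then wp x m * tG M E h c g m else 0) := by
    refine Summable.of_norm_bounded ((summable_wn x).mul_right Tt) fun m => ?_
    rw [Real.norm_eq_abs]
    split_ifs
    · rw [abs_mul, abs_of_nonneg (wp_nonneg' x m)]
      exact mul_le_mul (wp_le_wn x m) (hb m) (abs_nonneg _) (wn_nonneg x m)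
    · rw [abs_zero]
      exact mul_nonneg (wn_nonneg x m) hTt
  have hs3 : Summable fun n : ℕ => (if n.Coprime (qE M E) then 0 else wn x n) := by
    refine Summable.of_nonneg_of_le (fun n => ?_) (fun n => ?_) (summable_wn x)
    · split_ifs
      · exact le_rfl
      · exact wn_nonneg x n
    · split_ifs
      · exact wn_nonneg x n
      · exact le_rfl
  have hbB : ∀ m : ℕ, ‖(if m.Coprime (qE M E) then 0 else wp x m * tG M E h c g m)‖ ≤
      (if m.Coprime (qE M E) then 0 else wn x m) * Tt := by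
    intro m
    rw [Real.norm_eq_abs]
    split_ifs
    · rw [abs_zero, zero_mul]
    · rw [abs_mul, abs_of_nonneg (wp_nonneg' x m)]
      exact mul_le_mul (wp_le_wn x m) (hb m) (abs_nonneg _) (wn_nonneg x m)
  have hsB : Summable fun m : ℕ => (if m.Coprime (qE M E) then 0 else wp x m * tG M E h c g m) :=
    Summable.of_norm_bounded (hs3.mul_right Tt) hbB
  have hsplit : ∑' m : ℕ, wp x m * tG M E h c g m =
      (∑' m : ℕ, (if m.Coprime (qE M E) then wp x m * tG M E h c g m else 0)) +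
      ∑' m : ℕ, (if m.Coprime (qE M E) then 0 else wp x m * tG M E h c g m) := by
    rw [← hsA.tsum_add hsB]
    apply tsum_congr
    intro m
    split_ifs
    · rw [add_zero]
    · rw [zero_add]
  have hB : |∑' m : ℕ, (if m.Coprime (qE M E) then 0 else wp x m * tG M E h c g m)| ≤ 4 * ω * e * Tt := by
    have h1 := tsum_of_norm_bounded (hs3.mul_right Tt).hasSum hbB
    rw [Real.norm_eq_abs] at h1
    refine h1.trans ?_
    rw [tsum_mul_right]
    exact mul_le_mul_of_nonneg_right (tsum_not_coprime_le hq0.ne' x) hTt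
  have hA : |∑' m : ℕ, (if m.Coprime (qE M E) then wp x m * tG M E h c g m else 0)| ≤
      (1 / ((qE M E).totient : ℝ) * cE x M E + (4 * ω + Kpp) * e) * Tt := by
    have hid : ((∑' m : ℕ, (if m.Coprime (qE M E) then wp x m * tG M E h c g m else 0) : ℝ) : ℂ) =
        1 / ((qE M E).totient : ℂ) * ∑ χ : DirichletCharacter ℂ (qE M E), coef M E h c g χ *
          ∑' m : ℕ, ((wp x m : ℝ) : ℂ) * χ (m : ZMod (qE M E)) := by
      simp_rw [← tsum_mul_left]
      rw [← Summable.tsum_finsetSum (fun χ _ => (P4_summable_W χ x).mul_left _), Complex.ofReal_tsum,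
        ← tsum_mul_left]
      apply tsum_congr
      intro m
      by_cases hm : m.Coprime (qE M E)
      · rw [if_pos hm]
        push_cast
        rw [tG_expand h c g hper m hm]
        rw [Finset.mul_sum, Finset.mul_sum, Finset.mul_sum]
        refine Finset.sum_congr rfl fun χ _ => ?_
        ring
      · rw [if_neg hm]
        have hu : ¬ IsUnit (m : ZMod (qE M E)) := fun hu => hm ((ZMod.isUnit_iff_coprime _ _).1 hu)
        have hz : ∑ χ : DirichletCharacter ℂ (qE M E), coef M E h c g χ *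
            (((wp x m : ℝ) : ℂ) * χ (m : ZMod (qE M E))) = 0 := by
          refine Finset.sum_eq_zero fun χ _ => ?_
          rw [MulChar.map_nonunit _ hu, mul_zero, mul_zero]
        rw [hz, mul_zero, Complex.ofReal_zero]
    have hcoef : ∀ χ : DirichletCharacter ℂ (qE M E), ‖coef M E h c g χ *
          ∑' m : ℕ, ((wp x m : ℝ) : ℂ) * χ (m : ZMod (qE M E))‖ ≤
        if (∀ p ∈ E, p ∣ χ.conductor) then Tt * (‖SS χ.primitiveCharacter x‖ + (4 * ω + Kpp) * e) else 0 := by
      intro χ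
      split_ifs with hχ
      · rw [norm_mul]
        exact mul_le_mul (norm_coef_le hM hE h c g hper χ) (P4_norm_W χ x) (norm_nonneg _) hTt
      · push Not at hχ
        obtain ⟨p0, hp0, hnd⟩ := hχ
        rw [coef_zero hM hE h c g hper hmz χ p0 hp0 hnd, zero_mul, norm_zero]
    have hcard : ((Finset.univ.filter fun χ : DirichletCharacter ℂ (qE M E) => ∀ p ∈ E, p ∣ χ.conductor).card : ℝ) ≤
        ((qE M E).totient : ℝ) := by
      have h1 : Nat.card (DirichletCharacter ℂ (qE M E)) = (qE M E).totient :=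
        DirichletCharacter.card_eq_totient_of_hasEnoughRootsOfUnity ℂ (qE M E)
      have h2 : (Finset.univ.filter fun χ : DirichletCharacter ℂ (qE M E) => ∀ p ∈ E, p ∣ χ.conductor).card ≤
          (qE M E).totient := by
        rw [← h1, Nat.card_eq_fintype_card]
        exact Finset.card_le_univ _
      exact_mod_cast h2
    have hsum : ‖∑ χ : DirichletCharacter ℂ (qE M E), coef M E h c g χ *
          ∑' m : ℕ, ((wp x m : ℝ) : ℂ) * χ (m : ZMod (qE M E))‖ ≤
        Tt * (cE x M E + ((qE M E).totient : ℝ) * ((4 * ω + Kpp) * e)) := by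
      refine (norm_sum_le _ _).trans ((Finset.sum_le_sum fun χ _ => hcoef χ).trans ?_)
      rw [← Finset.sum_filter, ← Finset.mul_sum, Finset.sum_add_distrib, Finset.sum_const, nsmul_eq_mul, hcE]
      refine mul_le_mul_of_nonneg_left ?_ hTt
      have h0 : 0 ≤ (4 * ω + Kpp) * e := by positivity
      refine add_le_add (le_of_eq ?_) (mul_le_mul_of_nonneg_right ((le_of_eq ?_).trans hcard) h0)
      · congr
      · congr
    have habs : |∑' m : ℕ, (if m.Coprime (qE M E) then wp x m * tG M E h c g m else 0)| =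
        1 / ((qE M E).totient : ℝ) * ‖∑ χ : DirichletCharacter ℂ (qE M E), coef M E h c g χ *
          ∑' m : ℕ, ((wp x m : ℝ) : ℂ) * χ (m : ZMod (qE M E))‖ := by
      rw [← Real.norm_eq_abs, ← Complex.norm_real, hid, norm_mul, norm_div, norm_one, Complex.norm_natCast]
    rw [habs]
    calc 1 / ((qE M E).totient : ℝ) * ‖∑ χ : DirichletCharacter ℂ (qE M E), coef M E h c g χ *
          ∑' m : ℕ, ((wp x m : ℝ) : ℂ) * χ (m : ZMod (qE M E))‖
        ≤ 1 / ((qE M E).totient : ℝ) * (Tt * (cE x M E + ((qE M E).totient : ℝ) * ((4 * ω + Kpp) * e))) :=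
          mul_le_mul_of_nonneg_left hsum (by positivity)
      _ = _ := by field_simp
  rw [hsplit]
  refine (abs_add_le _ _).trans ((add_le_add hA hB).trans (le_of_eq ?_))
  ring

end Pool.Agent.LibT63
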