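import Pool.Agent.LibT63.PDefs

/-!
Row P8 (all characters are controlled by the large sieve). The map `(E, χ) ↦ ⟨χ.conductor, χ.primitiveCharacter⟩` on the pairs with `E ⊆ P`, `E ≠ ∅`, `rr E ≤ Q`, `χ` modulo `qE M E` with `p ∣ χ.conductor` for `p ∈ E` is injective: `E = {p ∈ P : p ∣ cond}`
(`cond ∣ M ∏ E`; a prime `p ∈ P` dividing it is in `E`), and `χ = changeLevel _ primitiveCharacter` (`changeLevel_primitiveCharacter`; see the proof of `csum_le` in LibPL63.B3 for the injectivity). The conductors are `≥ 2` (divisible by a prime) and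
`≤ M ∏ E = M rr E ≤ M Q ≤ e^{x/24}`, primitive: `sum_SS_le` (LibPL63.B0i): `≤ 10^7 x^6 ≤ x^7`.
-/

open Finset

namespace Pool.Agent.LibT63

open Pool.Agent.LibRG87 Pool.Agent.LibLG5 Pool.Agent.LibPL63 Pool.Agent.LibMaier

open DirichletCharacter

open scoped Classical in
/-- the primitive characters which come from the characters of `cE` -/
private noncomputable def P8_X (M : ℕ) (E : Finset ℕ) : Finset PC :=
  if h : qE M E = 0 then ∅ else
    haveI : NeZero (qE M E) := ⟨h⟩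
    ((univ : Finset (DirichletCharacter ℂ (qE M E))).filter fun χ => ∀ p ∈ E, p ∣ χ.conductor).image
      fun χ => (⟨χ.conductor, χ.primitiveCharacter⟩ : PC)

private theorem P8_inj {q : ℕ} {χ ψ : DirichletCharacter ℂ q}
    (h : (⟨χ.conductor, χ.primitiveCharacter⟩ : PC) = ⟨ψ.conductor, ψ.primitiveCharacter⟩) :
    χ = ψ := by
  have hgen : ∀ (r : PC) (hr : r.1 ∣ q) (s : PC) (hs : s.1 ∣ q), r = s →
      changeLevel hr r.2 = changeLevel hs s.2 := by
    rintro r hr s hs rfl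
    rfl
  have h1 := hgen ⟨χ.conductor, χ.primitiveCharacter⟩ χ.conductor_dvd_level
    ⟨ψ.conductor, ψ.primitiveCharacter⟩ ψ.conductor_dvd_level h
  have h2 : changeLevel χ.conductor_dvd_level χ.primitiveCharacter =
      changeLevel ψ.conductor_dvd_level ψ.primitiveCharacter := h1
  rw [changeLevel_primitiveCharacter, changeLevel_primitiveCharacter] at h2
  exact h2

open scoped Classical in
private theorem P8_cE (x : ℝ) (M : ℕ) (E : Finset ℕ) :
    cE x M E = ∑ r ∈ P8_X M E, ‖SS r.2 x‖ := by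
  unfold cE P8_X
  by_cases h : qE M E = 0
  · rw [dif_pos h, dif_pos h, Finset.sum_empty]
  · rw [dif_neg h, dif_neg h]
    symm
    apply Finset.sum_image
    intro χ _ ψ _ hh
    exact P8_inj hh

private theorem P8_mf {α : Type} {p : α → Prop} (inst : DecidablePred p) {s : Finset α} {a : α}
    (h : a ∈ @Finset.filter α p inst s) : p a := (Finset.mem_filter.1 h).2

open scoped Classical in
private theorem P8_mem {M : ℕ} {E : Finset ℕ} {r : PC} (hr : r ∈ P8_X M E) :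
    qE M E ≠ 0 ∧ r.1 ∣ qE M E ∧ (∀ p ∈ E, p ∣ r.1) ∧ r.2.IsPrimitive := by
  unfold P8_X at hr
  by_cases h : qE M E = 0
  · rw [dif_pos h] at hr
    exact absurd hr (Finset.notMem_empty _)
  · rw [dif_neg h, Finset.mem_image] at hr
    obtain ⟨χ, hχ, rfl⟩ := hr
    exact ⟨h, χ.conductor_dvd_level, P8_mf _ hχ, primitiveCharacter_isPrimitive χ⟩

private theorem P8_sub {M : ℕ} {P E E' : Finset ℕ} (hP : ∀ p ∈ P, p.Prime ∧ ¬ p ∣ M)
    (hE : E ⊆ P) (hE' : E' ⊆ P) {r : PC} (hr : r ∈ P8_X M E) (hr' : r ∈ P8_X M E') : E ⊆ E' := by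
  intro p hp
  have h1 : p ∣ M * ∏ p ∈ E', p := ((P8_mem hr).2.2.1 p hp).trans (P8_mem hr').2.1
  obtain ⟨hpp, hpM⟩ := hP p (hE hp)
  have h2 : p ∣ ∏ p ∈ E', p := (hpp.dvd_mul.1 h1).resolve_left hpM
  obtain ⟨p', hp', hd⟩ := (hpp.prime.dvd_finsetProd_iff _).1 h2
  have h3 : p = p' := (Nat.prime_dvd_prime_iff_eq hpp (hP p' (hE' hp')).1).1 hd
  rwa [h3]

open scoped Classical in
theorem sum_cE_le {x : ℝ} (hx : 10 ^ 7 ≤ x) {M : ℕ} (hM : 1 ≤ M) {P : Finset ℕ} {Q : ℝ} (hP : ∀ p ∈ P, p.Prime ∧ ¬ p ∣ M)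
    (hQ : (M : ℝ) * Q ≤ Real.exp (x / 24)) :
    ∑ E ∈ P.powerset with (E.Nonempty ∧ rr E ≤ Q), cE x M E ≤ x ^ 7 := by
  have h1 : ∑ E ∈ P.powerset with (E.Nonempty ∧ rr E ≤ Q), cE x M E =
      ∑ r ∈ (P.powerset.filter fun E => E.Nonempty ∧ rr E ≤ Q).biUnion (P8_X M),
        ‖SS r.2 x‖ := by
    rw [Finset.sum_biUnion]
    · exact Finset.sum_congr rfl fun E _ => P8_cE x M E
    · intro E hE E' hE' hne
      have hE1 := Finset.mem_powerset.1 (Finset.mem_filter.1 (Finset.mem_coe.1 hE)).1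
      have hE2 := Finset.mem_powerset.1 (Finset.mem_filter.1 (Finset.mem_coe.1 hE')).1
      refine Finset.disjoint_left.2 fun r hr hr' => hne ?_
      exact Finset.Subset.antisymm (P8_sub hP hE1 hE2 hr hr') (P8_sub hP hE2 hE1 hr' hr)
  rw [h1]
  have hx60 : (60 : ℝ) ≤ x := by linarith
  refine (sum_SS_le hx60 _ fun r hr => ?_).trans ?_
  · obtain ⟨E, hE, hrE⟩ := Finset.mem_biUnion.1 hr
    obtain ⟨hEP, ⟨p, hp⟩, hEQ⟩ := Finset.mem_filter.1 hE
    have hEP' := Finset.mem_powerset.1 hEP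
    obtain ⟨hq, hdvd, hall, hprim⟩ := P8_mem hrE
    have hr0 : r.1 ≠ 0 := fun h0 => hq (Nat.eq_zero_of_zero_dvd (h0 ▸ hdvd))
    have hp2 : 2 ≤ p := (hP p (hEP' hp)).1.two_le
    have hpr : p ≤ r.1 := Nat.le_of_dvd (Nat.pos_of_ne_zero hr0) (hall p hp)
    refine ⟨by omega, ?_, hprim⟩
    have h2 : (r.1 : ℝ) ≤ (qE M E : ℝ) := by
      exact_mod_cast Nat.le_of_dvd (Nat.pos_of_ne_zero hq) hdvd
    have h3 : (qE M E : ℝ) = M * rr E := by
      unfold qE rr
      push_cast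
      rfl
    rw [h3] at h2
    exact (h2.trans (mul_le_mul_of_nonneg_left hEQ (Nat.cast_nonneg M))).trans hQ
  · have h2 : 0 ≤ x ^ 6 := by positivity
    calc (10 : ℝ) ^ 7 * x ^ 6 ≤ x * x ^ 6 := mul_le_mul_of_nonneg_right hx h2
      _ = x ^ 7 := by ring

end Pool.Agent.LibT63
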