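import Pool.Agent.LibT63.P8

/-!
Row P9 (the total errors). `count`: `(22 N)^|E| ≤ w^|E| ≤ rr E ≤ Q` and the number of the `E` is `≤ Q` (`E ↦ ∏ p` is injective on sets of primes, values in `[1, Q]`; `Nat.primeFactors_prod`). `etot_P`: for `E ≠ ∅`:
`(22 N)^|E| / |ph E| ≤ 22 N / w` (`p - 1 ≥ w ≥ 22 N`), so the first part of `Etot` is `≤ (1/φ(M)) (22 N / w) ∑ cE ≤ (1/φ(M)) 22 x^8/x^12` (`sum_cE_le`), the second `≤ Q^2 e^{-x/5}` with `Q ≤ M Q ≤ e^{x/24}`, `φ(M) ≤ M ≤ e^{x/24}`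
(`Q ≥ 1` unless the sum is empty). Compare with `1/(256 x φ(M))` twice. `etot_U`: `64 K (N+1) 6 e^{-x} Q^2 ≤ 64 x (x+1) 6 e^{-x + x/12} ≤ 2 e^{-x/24} ≤ 2/M`.
-/

open Finset

namespace Pool.Agent.LibT63

open Pool.Agent.LibRG87 Pool.Agent.LibLG5 Pool.Agent.LibPL63 Pool.Agent.LibMaier

private theorem P9_pow_le {E : Finset ℕ} {w : ℕ} {t : ℝ} (ht : 0 ≤ t) (htw : t ≤ w)
    (hE : ∀ p ∈ E, w < p) : t ^ E.card ≤ ∏ p ∈ E, ((p : ℝ) - 1) := by
  rw [← prod_const]
  refine prod_le_prod (fun _ _ => ht) (fun p hp => ?_)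
  have h1 : ((w + 1 : ℕ) : ℝ) ≤ p := by exact_mod_cast hE p hp
  push_cast at h1
  linarith

private theorem P9_ph_le_rr {E : Finset ℕ} (hE : ∀ p ∈ E, 1 ≤ p) :
    ∏ p ∈ E, ((p : ℝ) - 1) ≤ rr E := by
  unfold rr
  refine prod_le_prod (fun p hp => ?_) (fun p _ => by linarith)
  have h1 : (1 : ℝ) ≤ p := by exact_mod_cast hE p hp
  linarith

open scoped Classical in
theorem count {P : Finset ℕ} {w N : ℕ} (hP : ∀ p ∈ P, p.Prime ∧ w < p) (hN : 22 * N ≤ w) {Q : ℝ} (hQ : 0 ≤ Q) :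
    ∑ E ∈ P.powerset with (E.Nonempty ∧ rr E ≤ Q), (22 * (N : ℝ)) ^ E.card ≤ Q ^ 2 := by
  set S := P.powerset.filter (fun E => E.Nonempty ∧ rr E ≤ Q) with hS
  have hNw : 22 * (N : ℝ) ≤ w := by exact_mod_cast hN
  have h1 : ∀ E ∈ S, (22 * (N : ℝ)) ^ E.card ≤ Q := by
    intro E hE
    rw [hS, mem_filter, mem_powerset] at hE
    have h2 := P9_pow_le (E := E) (w := w) (t := 22 * (N : ℝ)) (by positivity) hNw
      (fun p hp => (hP p (hE.1 hp)).2)
    exact (h2.trans (P9_ph_le_rr fun p hp => (hP p (hE.1 hp)).1.one_le)).trans hE.2.2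
  have h2 : (S.card : ℝ) ≤ Q := by
    have h3 : S.card ≤ (Icc 1 ⌊Q⌋₊).card := by
      refine card_le_card_of_injOn (fun E => ∏ p ∈ E, p) ?_ ?_
      · intro E hE
        have hE' := hE
        rw [mem_coe, hS, mem_filter, mem_powerset] at hE'
        show (∏ p ∈ E, p) ∈ (Icc 1 ⌊Q⌋₊ : Finset ℕ)
        rw [mem_Icc]
        constructor
        · exact Nat.succ_le_of_lt (prod_pos fun p hp => (hP p (hE'.1 hp)).1.pos)
        · apply Nat.le_floor
          rw [Nat.cast_prod]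
          exact hE'.2.2
      · intro E hE E' hE' heq
        rw [mem_coe, hS, mem_filter, mem_powerset] at hE hE'
        have h4 := Nat.primeFactors_prod (s := E) fun p hp => (hP p (hE.1 hp)).1
        have h5 := Nat.primeFactors_prod (s := E') fun p hp => (hP p (hE'.1 hp)).1
        have heq' : ∏ p ∈ E, p = ∏ p ∈ E', p := heq
        rw [← h4, heq', h5]
    rw [Nat.card_Icc, Nat.add_sub_cancel] at h3
    calc (S.card : ℝ) ≤ (⌊Q⌋₊ : ℝ) := by exact_mod_cast h3
      _ ≤ Q := Nat.floor_le hQ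
  calc ∑ E ∈ S, (22 * (N : ℝ)) ^ E.card ≤ ∑ _E ∈ S, Q := sum_le_sum h1
    _ = S.card * Q := by rw [sum_const, nsmul_eq_mul]
    _ ≤ Q * Q := mul_le_mul_of_nonneg_right h2 hQ
    _ = Q ^ 2 := (sq Q).symm

private theorem P9_cE_nonneg (x : ℝ) (M : ℕ) (E : Finset ℕ) : 0 ≤ cE x M E := by
  unfold cE
  split_ifs
  · exact le_rfl
  · exact sum_nonneg fun _ _ => norm_nonneg _

private theorem P9_size {x : ℝ} (hx : 10 ^ 7 ≤ x) : 256 * x * Real.exp (-(7 / 60 * x)) ≤ 1 := by
  have h1 := Real.quadratic_le_exp_of_nonneg (x := 7 / 60 * x) (by linarith)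
  rw [Real.exp_neg, ← div_eq_mul_inv, div_le_one (Real.exp_pos _)]
  refine le_trans ?_ h1
  nlinarith

private theorem P9_size2 {x : ℝ} (hx : 10 ^ 7 ≤ x) :
    192 * (x * (x + 1)) * Real.exp (-(11 / 12 * x)) ≤ 1 := by
  have h1 := Real.quadratic_le_exp_of_nonneg (x := 11 / 24 * x) (by linarith)
  rw [Real.exp_neg, ← div_eq_mul_inv, div_le_one (Real.exp_pos _)]
  have h2 : Real.exp (11 / 12 * x) = Real.exp (11 / 24 * x) * Real.exp (11 / 24 * x) := by
    rw [← Real.exp_add]; congr 1; ring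
  have h3 : 200 * (x + 1) ≤ Real.exp (11 / 24 * x) := by
    refine le_trans ?_ h1
    nlinarith
  rw [h2]
  have h4 : 192 * (x * (x + 1)) ≤ (200 * (x + 1)) * (200 * (x + 1)) := by nlinarith
  refine h4.trans (mul_le_mul h3 h3 (by linarith) (Real.exp_pos _).le)

private theorem P9_pow12 {x : ℝ} (hx : 10 ^ 7 ≤ x) : 22 * x ≤ x ^ 12 := by
  have h1 : (22 : ℝ) ≤ x := by linarith
  have h2 : x ^ 2 ≤ x ^ 12 := pow_le_pow_right₀ (by linarith) (by norm_num)
  nlinarith

theorem etot_P : ∃ x0 : ℝ, ∀ x : ℝ, x0 ≤ x → ∀ M : ℕ, 1 ≤ M → ∀ (P : Finset ℕ) (Q : ℝ) (w N : ℕ),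
    (∀ p ∈ P, p.Prime ∧ ¬ p ∣ M ∧ w < p) → x ^ 12 ≤ w → (N : ℝ) ≤ x → (M : ℝ) * Q ≤ Real.exp (x / 24) →
    Etot P Q N (erP x M) ≤ 1 / (128 * x * (M.totient : ℝ)) := by
  refine ⟨10 ^ 7, fun x hx M hM P Q w N hP hw hN hMQ => ?_⟩
  have hx0 : 0 < x := by linarith
  have hM' : (1 : ℝ) ≤ M := by exact_mod_cast hM
  have hφ : (0 : ℝ) < (M.totient : ℝ) := by exact_mod_cast Nat.totient_pos.2 hM
  have hφM : (M.totient : ℝ) ≤ M := by exact_mod_cast Nat.totient_le M
  have hw22 : 22 * (N : ℝ) ≤ w := by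
    have := P9_pow12 hx
    linarith
  have hw22' : 22 * N ≤ w := by exact_mod_cast hw22
  have hw0 : (0 : ℝ) < w := lt_of_lt_of_le (by positivity) hw
  classical
  rcases lt_or_ge Q 0 with hQ | hQ
  · have h1 : Etot P Q N (erP x M) = 0 := by
      unfold Etot
      apply sum_eq_zero
      intro E hE
      exfalso
      rw [mem_filter, mem_powerset] at hE
      have h2 : 0 < rr E := rr_pos P (fun p hp => (hP p hp).1) hE.1
      linarith [hE.2.2]
    rw [h1]
    positivity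
  · have hPp : ∀ p ∈ P, p.Prime ∧ w < p := fun p hp => ⟨(hP p hp).1, (hP p hp).2.2⟩
    have hc := count hPp hw22' hQ
    have hs := sum_cE_le hx hM (P := P) (Q := Q) (fun p hp => ⟨(hP p hp).1, (hP p hp).2.1⟩) hMQ
    have h1 : Etot P Q N (erP x M) ≤
        (1 / (M.totient : ℝ)) * (22 * x / x ^ 12) *
            ∑ E ∈ P.powerset with (E.Nonempty ∧ rr E ≤ Q), cE x M E +
          (∑ E ∈ P.powerset with (E.Nonempty ∧ rr E ≤ Q), (22 * (N : ℝ)) ^ E.card) *
            Real.exp (-x / 5) := by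
      unfold Etot
      rw [mul_sum, sum_mul, ← sum_add_distrib]
      refine le_trans (le_of_eq (sum_congr ?_ fun _ _ => rfl)) (sum_le_sum
        (s := P.powerset.filter (fun E => E.Nonempty ∧ rr E ≤ Q))
        (f := fun E => (22 * (N : ℝ)) ^ E.card * erP x M E) fun E hE => ?_)
      · ext E
        simp only [mem_filter]
      · rw [mem_filter, mem_powerset] at hE
        have hEP := hE.1
        have hcE := P9_cE_nonneg x M E
        have hcard : 1 ≤ E.card := card_pos.2 hE.2.1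
        have hph : (w : ℝ) ^ E.card ≤ ph E :=
          P9_pow_le (Nat.cast_nonneg w) le_rfl fun p hp => (hP p (hEP hp)).2.2
        have hph0 : 0 < ph E := lt_of_lt_of_le (pow_pos hw0 _) hph
        have h2 : (22 * (N : ℝ)) ^ E.card / |ph E| ≤ 22 * x / x ^ 12 := by
          rw [abs_of_pos hph0]
          calc (22 * (N : ℝ)) ^ E.card / ph E ≤ (22 * (N : ℝ)) ^ E.card / (w : ℝ) ^ E.card :=
                div_le_div_of_nonneg_left (by positivity) (pow_pos hw0 _) hph
            _ = (22 * (N : ℝ) / w) ^ E.card := by rw [div_pow]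
            _ ≤ (22 * (N : ℝ) / w) ^ 1 :=
                pow_le_pow_of_le_one (by positivity) ((div_le_one hw0).2 hw22) hcard
            _ = 22 * (N : ℝ) / w := pow_one _
            _ ≤ 22 * x / x ^ 12 := by
                apply div_le_div₀ (by positivity) (by linarith) (by positivity) hw
        have h3 : (22 * (N : ℝ)) ^ E.card * (1 / ((M.totient : ℝ) * |ph E|) * cE x M E) =
            (1 / (M.totient : ℝ)) * ((22 * (N : ℝ)) ^ E.card / |ph E|) * cE x M E := by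
          have : |ph E| ≠ 0 := abs_ne_zero.2 hph0.ne'
          field_simp
        show (22 * (N : ℝ)) ^ E.card * erP x M E ≤ _
        unfold erP
        rw [mul_add, h3]
        refine add_le_add ?_ le_rfl
        refine mul_le_mul_of_nonneg_right ?_ hcE
        exact mul_le_mul_of_nonneg_left h2 (by positivity)
    have h2 : (1 / (M.totient : ℝ)) * (22 * x / x ^ 12) *
            ∑ E ∈ P.powerset with (E.Nonempty ∧ rr E ≤ Q), cE x M E ≤
        1 / (256 * x * (M.totient : ℝ)) := by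
      calc _ ≤ (1 / (M.totient : ℝ)) * (22 * x / x ^ 12) * x ^ 7 :=
            mul_le_mul_of_nonneg_left hs (by positivity)
        _ = (22 / x ^ 4) * (1 / (M.totient : ℝ)) := by field_simp
        _ ≤ (1 / (256 * x)) * (1 / (M.totient : ℝ)) := by
            refine mul_le_mul_of_nonneg_right ?_ (by positivity)
            rw [div_le_div_iff₀ (by positivity) (by positivity)]
            have h5 : (5632 : ℝ) ≤ x ^ 3 := by
              calc (5632 : ℝ) ≤ (10 ^ 7) ^ 3 := by norm_num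
                _ ≤ x ^ 3 := pow_le_pow_left₀ (by norm_num) hx 3
            nlinarith
        _ = _ := by field_simp
    have h3 : (∑ E ∈ P.powerset with (E.Nonempty ∧ rr E ≤ Q), (22 * (N : ℝ)) ^ E.card) *
            Real.exp (-x / 5) ≤ 1 / (256 * x * (M.totient : ℝ)) := by
      rw [le_div_iff₀ (by positivity)]
      have h4 : Q ^ 2 * (M.totient : ℝ) ≤ Real.exp (x / 12) := by
        calc Q ^ 2 * (M.totient : ℝ) ≤ Q ^ 2 * (M : ℝ) :=
              mul_le_mul_of_nonneg_left hφM (sq_nonneg _)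
          _ ≤ (M * Q) * (M * Q) := by nlinarith [mul_nonneg (sq_nonneg Q) (by linarith : (0:ℝ) ≤ M)]
          _ ≤ Real.exp (x / 24) * Real.exp (x / 24) :=
              mul_le_mul hMQ hMQ (by positivity) (Real.exp_pos _).le
          _ = Real.exp (x / 12) := by rw [← Real.exp_add]; congr 1; ring
      calc _ ≤ Q ^ 2 * Real.exp (-x / 5) * (256 * x * (M.totient : ℝ)) := by
            refine mul_le_mul_of_nonneg_right ?_ (by positivity)
            exact mul_le_mul_of_nonneg_right hc (Real.exp_pos _).le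
        _ = (Q ^ 2 * (M.totient : ℝ)) * (256 * x * Real.exp (-x / 5)) := by ring
        _ ≤ Real.exp (x / 12) * (256 * x * Real.exp (-x / 5)) :=
            mul_le_mul_of_nonneg_right h4 (by positivity)
        _ = 256 * x * (Real.exp (x / 12) * Real.exp (-x / 5)) := by ring
        _ = 256 * x * Real.exp (-(7 / 60 * x)) := by
            rw [← Real.exp_add]; congr 2; ring
        _ ≤ 1 := P9_size hx
    have h4 : 1 / (128 * x * (M.totient : ℝ)) =
        1 / (256 * x * (M.totient : ℝ)) + 1 / (256 * x * (M.totient : ℝ)) := by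
      field_simp
      norm_num
    rw [h4]
    linarith

theorem etot_U : ∃ x0 : ℝ, ∀ x : ℝ, x0 ≤ x → ∀ M : ℕ, 1 ≤ M → ∀ (P : Finset ℕ) (Q : ℝ) (w K N : ℕ), 0 ≤ Q →
    (∀ p ∈ P, p.Prime ∧ w < p) → x ^ 12 ≤ w → ((K + N : ℕ) : ℝ) ≤ x → (M : ℝ) * Q ≤ Real.exp (x / 24) →
    64 * (K * ((N + 1) * Etot P Q (K + N) (fun _ => 6 * Real.exp (-x)))) ≤ 2 / (M : ℝ) := by
  refine ⟨10 ^ 7, fun x hx M hM P Q w K N hQ hP hw hKN hMQ => ?_⟩
  have hx0 : 0 < x := by linarith
  have hM' : (1 : ℝ) ≤ M := by exact_mod_cast hM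
  have hw22 : 22 * ((K + N : ℕ) : ℝ) ≤ w := by
    have := P9_pow12 hx
    linarith
  have hw22' : 22 * (K + N) ≤ w := by exact_mod_cast hw22
  classical
  have hc := count hP hw22' hQ
  have hE : Etot P Q (K + N) (fun _ => 6 * Real.exp (-x)) ≤ Q ^ 2 * (6 * Real.exp (-x)) := by
    unfold Etot
    rw [← sum_mul]
    refine mul_le_mul_of_nonneg_right (le_trans (le_of_eq (sum_congr ?_ fun _ _ => rfl)) hc)
      (by positivity)
    ext E
    simp only [mem_filter]
  have hKx : (K : ℝ) ≤ x := by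
    have : (K : ℝ) ≤ ((K + N : ℕ) : ℝ) := by exact_mod_cast Nat.le_add_right K N
    linarith
  have hNx : (N : ℝ) ≤ x := by
    have : (N : ℝ) ≤ ((K + N : ℕ) : ℝ) := by exact_mod_cast Nat.le_add_left N K
    linarith
  have hE0 : 0 ≤ Q ^ 2 * (6 * Real.exp (-x)) := by positivity
  rw [le_div_iff₀ (by linarith)]
  have h4 : Q ^ 2 * (M : ℝ) ≤ Real.exp (x / 12) := by
    calc Q ^ 2 * (M : ℝ) ≤ (M * Q) * (M * Q) := by
          nlinarith [mul_nonneg (sq_nonneg Q) (by linarith : (0:ℝ) ≤ M)]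
      _ ≤ Real.exp (x / 24) * Real.exp (x / 24) :=
          mul_le_mul hMQ hMQ (by positivity) (Real.exp_pos _).le
      _ = Real.exp (x / 12) := by rw [← Real.exp_add]; congr 1; ring
  have h5 : (K : ℝ) * ((N + 1) * Etot P Q (K + N) (fun _ => 6 * Real.exp (-x))) ≤
      x * ((x + 1) * (Q ^ 2 * (6 * Real.exp (-x)))) := by
    have h6 : ((N : ℝ) + 1) * Etot P Q (K + N) (fun _ => 6 * Real.exp (-x)) ≤
        (x + 1) * (Q ^ 2 * (6 * Real.exp (-x))) :=
      (mul_le_mul_of_nonneg_left hE (by positivity)).trans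
        (mul_le_mul_of_nonneg_right (by linarith) hE0)
    exact (mul_le_mul_of_nonneg_left h6 (Nat.cast_nonneg K)).trans
      (mul_le_mul_of_nonneg_right hKx (by positivity))
  calc 64 * ((K : ℝ) * ((N + 1) * Etot P Q (K + N) (fun _ => 6 * Real.exp (-x)))) * M
      ≤ 64 * (x * ((x + 1) * (Q ^ 2 * (6 * Real.exp (-x))))) * M :=
        mul_le_mul_of_nonneg_right (mul_le_mul_of_nonneg_left h5 (by norm_num)) (by linarith)
    _ = (Q ^ 2 * (M : ℝ)) * (384 * (x * (x + 1)) * Real.exp (-x)) := by ring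
    _ ≤ Real.exp (x / 12) * (384 * (x * (x + 1)) * Real.exp (-x)) :=
        mul_le_mul_of_nonneg_right h4 (by positivity)
    _ = 2 * (192 * (x * (x + 1)) * (Real.exp (x / 12) * Real.exp (-x))) := by ring
    _ = 2 * (192 * (x * (x + 1)) * Real.exp (-(11 / 12 * x))) := by
        rw [← Real.exp_add]; congr 3; ring
    _ ≤ 2 * 1 := mul_le_mul_of_nonneg_left (P9_size2 hx) (by norm_num)
    _ = 2 := by norm_num

end Pool.Agent.LibT63
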