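import Pool.Agent.LibT63.QDefs
import Pool.Agent.LibPL63.BV
import Pool.Agent.LibPL63.SA8

/-!
LibT63 (Theorem T), block P (prime data and integer data for the sieve theorem): definitions.

`x` large real, centre of the Gaussian weight in `log n`; `M` the modulus (all small primes), `n ≡ c` modulo `M`; `P` primes which do not divide `M`; `E ⊆ P`; `q = M ∏_{p ∈ E} p`.
-/

open Finset

namespace Pool.Agent.LibT63

open Pool.Agent.LibRG87 Pool.Agent.LibLG5 Pool.Agent.LibPL63 Pool.Agent.LibMaier

/-- the modulus -/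
def qE (M : ℕ) (E : Finset ℕ) : ℕ := M * ∏ p ∈ E, p

/-- the numbers of the average used for the primes -/
noncomputable def sT (x : ℝ) (M c : ℕ) : Finset ℕ :=
  (clsU x M c).filter fun n => Real.exp (19 / 20 * x) < n ∧ (n : ℝ) ≤ Real.exp (21 / 20 * x)

/-- the test function as a function of `m = n + h` (periodic modulo `qE M E`; `(q - 1) h ≡ -h`) -/
noncomputable def tG (M : ℕ) (E : Finset ℕ) (h c : ℕ) (g : ℕ → ℕ → ℝ) (m : ℕ) : ℝ :=
  if m ≡ c + h [MOD M] then ∏ p ∈ E, g p (m + (qE M E - 1) * h) else 0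

/-- its coefficients (without the factor `1 / φ(q)`) -/
noncomputable def coef (M : ℕ) (E : Finset ℕ) (h c : ℕ) (g : ℕ → ℕ → ℝ) (χ : DirichletCharacter ℂ (qE M E)) : ℂ :=
  ∑ a ∈ range (qE M E), (tG M E h c g a : ℂ) * χ⁻¹ (a : ZMod (qE M E))

open scoped Classical in
/-- the sum over the characters modulo `q` whose conductor is divisible by all primes of `E` -/
noncomputable def cE (x : ℝ) (M : ℕ) (E : Finset ℕ) : ℝ :=
  if h : qE M E = 0 then 0 else
    haveI : NeZero (qE M E) := ⟨h⟩
    ∑ χ : DirichletCharacter ℂ (qE M E) with (∀ p ∈ E, p ∣ χ.conductor), ‖SS χ.primitiveCharacter x‖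

/-- the error function of the prime average -/
noncomputable def erP (x : ℝ) (M : ℕ) (E : Finset ℕ) : ℝ :=
  1 / ((M.totient : ℝ) * |ph E|) * cE x M E + Real.exp (-x / 5)

end Pool.Agent.LibT63
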