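import Pool.Agent.LibT63.QDefs
import Pool.Agent.LibLG5.Q1

/-!
Row Q1 (local row sums). All from `LocT`; `loc b p none = 1`, `loc b p (some i) n = psi p (n + b i)` (by `rfl`).
`row_main`: `o = none`: `o' = none` gives `El 1 = 1` (`LocT.sum`), `o' = some j` gives `≤ 1/(p-1)^2` (`m1`): total `≤ 1 + N/(p-1)^2`.
`o = some i`: `o' = none`: `≤ 1/(p-1)^2` (`m1`); `o' = some i`: `1/(p-1) + 1/(p-1)^2` (`m2`); `o' = some j`, `j ≠ i`: `≤ 2/(p-1)^2` (`m3`), at most `N` of them:
total `≤ (1/(p-1)) (1 + (2 N + 2)/(p-1))`.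
`row_dev`: `tot (dv) ≤ tot (ll) + p |El (ll)|`. `o = o' = none`: `dv = 0`. `(none, some j)`: `2 + p/(p-1)^2 ≤ 3` (`LibPL63.Q1_sum_psi` in LibLG5.Q1: `∑ |psi| ≤ 2`;
`p/(p-1)^2 ≤ 3/4`). `(some i, some i)`: `2 + p (1/(p-1) + 1/(p-1)^2) = 2 + p^2/(p-1)^2 ≤ 2 + 9/4`. `(some i, some j)`, `i ≠ j`: `tot (ll) ≤ 3 p/(p-1)^2` because
`|psi psi'| ≤ -psi psi' + 2/(p-1)^2` pointwise (incongruent positions: never both `-1`; `II_zero` or directly) and `sum_psi_psi` (LibPL63.SA9); `p |El| ≤ 2 p/(p-1)^2`; so `≤ 5 p/(p-1)^2 ≤ 7.5/(p-1)`,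
times `N ≤ p - 1`: `≤ 7.5`. Total for `some i`: `3 + 4.25 + 7.5 ≤ 17`; for `none`: `3 N ≤ 5 N`. (`LibLG5.tot_le`: all `tot (ll) ≤ 2` unless both are `none`.)
-/

open Finset

namespace Pool.Agent.LibT63

open Pool.Agent.LibRG87 Pool.Agent.LibLG5 Pool.Agent.LibPL63

set_option linter.unusedSectionVars false

variable {ι : Type} [DecidableEq ι] {P : Finset ℕ} {lp : ℕ → ℕ → ℝ} {b : ι → ℕ} {J : Finset ι}

private theorem Q1_three (hL : LocT P lp b J) {p : ℕ} (hp : p ∈ P) : (2 : ℝ) ≤ (p : ℝ) - 1 := by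
  have h : (3 : ℝ) ≤ p := by exact_mod_cast hL.three p hp
  linarith

private theorem Q1_nn (hL : LocT P lp b J) {p : ℕ} (hp : p ∈ P) : El lp p (ll b p none none) = 1 := by
  have h := hL.sum p hp
  unfold El ll
  simp only [loc, mul_one]
  exact h

private theorem Q1_ns (hL : LocT P lp b J) {p : ℕ} (hp : p ∈ P) {j : ι} (hj : j ∈ J) :
    |El lp p (ll b p none (some j))| ≤ 1 / ((p : ℝ) - 1) ^ 2 := by
  have h := hL.m1 p hp j hj
  have e : ll b p none (some j) = fun n => psi p (n + b j) := by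
    funext n
    unfold ll
    simp only [loc, one_mul]
  rw [e]
  exact h

private theorem Q1_sn (hL : LocT P lp b J) {p : ℕ} (hp : p ∈ P) {j : ι} (hj : j ∈ J) :
    |El lp p (ll b p (some j) none)| ≤ 1 / ((p : ℝ) - 1) ^ 2 := by
  have h := hL.m1 p hp j hj
  have e : ll b p (some j) none = fun n => psi p (n + b j) := by
    funext n
    unfold ll
    simp only [loc, mul_one]
  rw [e]
  exact h

private theorem Q1_ii (hL : LocT P lp b J) {p : ℕ} (hp : p ∈ P) {i : ι} (hi : i ∈ J) :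
    |El lp p (ll b p (some i) (some i)) - 1 / ((p : ℝ) - 1)| ≤ 1 / ((p : ℝ) - 1) ^ 2 :=
  hL.m2 p hp i hi

private theorem Q1_ij (hL : LocT P lp b J) {p : ℕ} (hp : p ∈ P) {i j : ι} (hi : i ∈ J) (hj : j ∈ J)
    (hij : i ≠ j) : |El lp p (ll b p (some i) (some j))| ≤ 2 / ((p : ℝ) - 1) ^ 2 :=
  hL.m3 p hp i hi j hj hij

private theorem Q1_sum_le {f : ι → ℝ} {c d : ℝ} (hc : 0 ≤ c) {N : ℕ} (hN : J.card ≤ N) {i : ι} (hi : i ∈ J)
    (h : ∀ j ∈ J, f j ≤ c + if j = i then d else 0) : ∑ j ∈ J, f j ≤ N * c + d := by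
  refine (Finset.sum_le_sum h).trans ?_
  rw [Finset.sum_add_distrib, Finset.sum_const, Finset.sum_ite_eq' J i, if_pos hi, nsmul_eq_mul]
  have h1 : (J.card : ℝ) ≤ N := by exact_mod_cast hN
  have h2 := mul_le_mul_of_nonneg_right h1 hc
  linarith

private theorem Q1_sum_le' {f : ι → ℝ} {c : ℝ} (hc : 0 ≤ c) {N : ℕ} (hN : J.card ≤ N)
    (h : ∀ j ∈ J, f j ≤ c) : ∑ j ∈ J, f j ≤ N * c := by
  refine (Finset.sum_le_sum h).trans ?_
  rw [Finset.sum_const, nsmul_eq_mul]
  have h1 : (J.card : ℝ) ≤ N := by exact_mod_cast hN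
  exact mul_le_mul_of_nonneg_right h1 hc

theorem row_main (hL : LocT P lp b J) {p : ℕ} (hp : p ∈ P) {N : ℕ} (hN : J.card ≤ N) {o : Option ι} (ho : o ∈ insertNone J) :
    ∑ o' ∈ insertNone J, (dg p o o' + |El lp p (ll b p o o') - dg p o o'|) ≤ fi p o * ro N p o := by
  have hq := Q1_three hL hp
  have hq0 : (0 : ℝ) < (p : ℝ) - 1 := by linarith
  have hq2 : (0 : ℝ) ≤ 1 / ((p : ℝ) - 1) ^ 2 := by positivity
  rw [Finset.sum_insertNone]
  cases o with
  | none =>
    have h0 : dg p (none : Option ι) none + |El lp p (ll b p none none) - dg p (none : Option ι) none| = 1 := by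
      rw [Q1_nn hL hp]
      simp [dg, fi]
    have h1 : ∑ j ∈ J, (dg p none (some j) + |El lp p (ll b p none (some j)) - dg p none (some j)|) ≤
        N * (1 / ((p : ℝ) - 1) ^ 2) := by
      refine Q1_sum_le' hq2 hN fun j hj => ?_
      have h2 := Q1_ns hL hp hj
      simp only [dg, reduceCtorEq, if_false, zero_add, sub_zero]
      exact h2
    rw [h0]
    simp only [fi, ro]
    have e : (N : ℝ) / ((p : ℝ) - 1) ^ 2 = N * (1 / ((p : ℝ) - 1) ^ 2) := by ring
    rw [e]
    linarith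
  | some i =>
    have hi : i ∈ J := by simpa using ho
    have h0 : dg p (some i) none + |El lp p (ll b p (some i) none) - dg p (some i) none| ≤
        1 / ((p : ℝ) - 1) ^ 2 := by
      have h2 := Q1_sn hL hp hi
      simp only [dg, reduceCtorEq, if_false, zero_add, sub_zero]
      exact h2
    have h1 : ∑ j ∈ J, (dg p (some i) (some j) + |El lp p (ll b p (some i) (some j)) - dg p (some i) (some j)|) ≤
        N * (2 / ((p : ℝ) - 1) ^ 2) + 1 / ((p : ℝ) - 1) := by
      refine Q1_sum_le (by positivity) hN hi fun j hj => ?_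
      by_cases hij : i = j
      · subst hij
        have h2 := Q1_ii hL hp hi
        have h3 : dg p (some i) (some i) = 1 / ((p : ℝ) - 1) := by simp [dg, fi]
        rw [h3, if_pos rfl]
        have h4 : (2 : ℝ) / ((p : ℝ) - 1) ^ 2 = 1 / ((p : ℝ) - 1) ^ 2 + 1 / ((p : ℝ) - 1) ^ 2 := by ring
        rw [h4]
        linarith
      · have h2 := Q1_ij hL hp hi hj hij
        have h3 : dg p (some i) (some j) = 0 := by
          unfold dg
          rw [if_neg]
          intro h
          exact hij (Option.some_injective _ h)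
        rw [h3, if_neg (fun h => hij h.symm), zero_add, sub_zero, add_zero]
        exact h2
    simp only [fi, ro]
    have e : 1 / ((p : ℝ) - 1) * (1 + (2 * N + 2) / ((p : ℝ) - 1)) =
        1 / ((p : ℝ) - 1) + N * (2 / ((p : ℝ) - 1) ^ 2) + 2 * (1 / ((p : ℝ) - 1) ^ 2) := by
      field_simp
      ring
    rw [e]
    linarith

private theorem Q1_dv {p : ℕ} (o o' : Option ι) :
    tot p (dv lp b p o o') ≤ tot p (ll b p o o') + p * |El lp p (ll b p o o')| := by
  unfold tot dv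
  have h : ∀ x ∈ range p, |ll b p o o' x - El lp p (ll b p o o')| ≤
      |ll b p o o' x| + |El lp p (ll b p o o')| := fun x _ => abs_sub _ _
  refine (Finset.sum_le_sum h).trans ?_
  rw [Finset.sum_add_distrib, Finset.sum_const, Finset.card_range, nsmul_eq_mul]

private theorem Q1_tot_some {p : ℕ} (hp : p.Prime) (i : ι) (o : Option ι) :
    tot p (ll b p (some i) o) ≤ 2 := by
  unfold tot ll
  refine le_trans (Finset.sum_le_sum fun c _ => ?_) (Q1_sum_psi hp (b i))
  rw [abs_mul]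
  refine mul_le_of_le_one_right (abs_nonneg _) ?_
  cases o with
  | none => simp [loc]
  | some j => exact Q1_psi_le hp _

private theorem Q1_tot_none {p : ℕ} (hp : p.Prime) (i : ι) :
    tot p (ll b p none (some i)) ≤ 2 := by
  unfold tot ll
  refine le_trans (Finset.sum_le_sum fun c _ => ?_) (Q1_sum_psi hp (b i))
  rw [abs_mul]
  refine mul_le_of_le_one_left (abs_nonneg _) ?_
  simp [loc]

private theorem Q1_tot_ij {p : ℕ} (hp3 : 3 ≤ p) {i j : ι} (hij : ¬ b i ≡ b j [MOD p]) :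
    tot p (ll b p (some i) (some j)) ≤ 3 * (p : ℝ) / ((p : ℝ) - 1) ^ 2 := by
  have h2 : (3 : ℝ) ≤ p := by exact_mod_cast hp3
  have hq0 : (0 : ℝ) < (p : ℝ) - 1 := by linarith
  have h3 : (p : ℝ) - 1 ≠ 0 := hq0.ne'
  unfold tot
  have h : ∀ x ∈ range p, |ll b p (some i) (some j) x| ≤
      -(psi p (x + b i) * psi p (x + b j)) + 2 / ((p : ℝ) - 1) ^ 2 := by
    intro x _
    change |psi p (x + b i) * psi p (x + b j)| ≤ _
    unfold psi
    split_ifs with h1 h2
    · exfalso
      apply hij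
      have h4 : x + b i ≡ 0 [MOD p] := (Nat.modEq_zero_iff_dvd).2 h1
      have h5 : x + b j ≡ 0 [MOD p] := (Nat.modEq_zero_iff_dvd).2 h2
      exact Nat.ModEq.add_left_cancel' x (h4.trans h5.symm)
    · have h4 : (0 : ℝ) ≤ 1 / ((p : ℝ) - 1) := by positivity
      have h5 : (0 : ℝ) ≤ 2 / ((p : ℝ) - 1) ^ 2 := by positivity
      rw [abs_of_nonpos (by linarith)]
      linarith
    · have h4 : (0 : ℝ) ≤ 1 / ((p : ℝ) - 1) := by positivity
      have h5 : (0 : ℝ) ≤ 2 / ((p : ℝ) - 1) ^ 2 := by positivity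
      rw [abs_of_nonpos (by linarith)]
      linarith
    · have h4 : (0 : ℝ) ≤ 1 / ((p : ℝ) - 1) := by positivity
      rw [abs_of_nonneg (by positivity)]
      apply le_of_eq
      field_simp
      ring
  refine (Finset.sum_le_sum h).trans ?_
  rw [Finset.sum_add_distrib, Finset.sum_neg_distrib, sum_psi_psi hp3 hij, Finset.sum_const,
    Finset.card_range, nsmul_eq_mul]
  apply le_of_eq
  ring

theorem row_dev (hL : LocT P lp b J) {p : ℕ} (hp : p ∈ P) {N : ℕ} (hN : J.card ≤ N) (hNp : (N : ℝ) ≤ (p : ℝ) - 1)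
    {o : Option ι} (ho : o ∈ insertNone J) :
    ∑ o' ∈ insertNone J, tot p (dv lp b p o o') ≤ fi p o * uo N p o := by
  have hq := Q1_three hL hp
  have hpr := hL.prime p hp
  have hq0 : (0 : ℝ) < (p : ℝ) - 1 := by linarith
  have hp0 : (0 : ℝ) ≤ (p : ℝ) := by linarith
  have hq2 : (0 : ℝ) ≤ 1 / ((p : ℝ) - 1) ^ 2 := by positivity
  have hA : (p : ℝ) * (1 / ((p : ℝ) - 1) ^ 2) ≤ 1 := by
    rw [mul_one_div, div_le_one (by positivity)]
    nlinarith
  have hA1 : (p : ℝ) * (1 / ((p : ℝ) - 1)) ≤ 3 / 2 := by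
    rw [mul_one_div, div_le_iff₀ hq0]
    linarith
  rw [Finset.sum_insertNone]
  cases o with
  | none =>
    have h0 : tot p (dv lp b p (none : Option ι) none) = 0 := by
      unfold tot dv
      rw [Q1_nn hL hp]
      apply Finset.sum_eq_zero
      intro x _
      simp [ll, loc]
    have h1 : ∑ j ∈ J, tot p (dv lp b p none (some j)) ≤ N * 3 := by
      refine Q1_sum_le' (by norm_num) hN fun j hj => ?_
      have h2 := Q1_dv (p := p) (lp := lp) (b := b) none (some j)
      have h3 := Q1_ns hL hp hj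
      have h4 := Q1_tot_none (b := b) hpr j
      have h5 := mul_le_mul_of_nonneg_left h3 hp0
      linarith
    rw [h0]
    simp only [fi, uo]
    have : (0 : ℝ) ≤ N := Nat.cast_nonneg _
    linarith
  | some i =>
    have hi : i ∈ J := by simpa using ho
    have h0 : tot p (dv lp b p (some i) none) ≤ 3 := by
      have h2 := Q1_dv (p := p) (lp := lp) (b := b) (some i) none
      have h3 := Q1_sn hL hp hi
      have h4 := Q1_tot_some (b := b) hpr i none
      have h5 := mul_le_mul_of_nonneg_left h3 hp0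
      linarith
    have hc : (0 : ℝ) ≤ 15 / 2 * (1 / ((p : ℝ) - 1)) := by positivity
    have h1 : ∑ j ∈ J, tot p (dv lp b p (some i) (some j)) ≤
        N * (15 / 2 * (1 / ((p : ℝ) - 1))) + 5 := by
      refine Q1_sum_le hc hN hi fun j hj => ?_
      have h2 := Q1_dv (p := p) (lp := lp) (b := b) (some i) (some j)
      by_cases hij : i = j
      · subst hij
        have h3 := Q1_ii hL hp hi
        have h4 := Q1_tot_some (b := b) hpr i (some i)
        have h6 : |El lp p (ll b p (some i) (some i))| ≤ 1 / ((p : ℝ) - 1) ^ 2 + 1 / ((p : ℝ) - 1) := by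
          have h7 : (0 : ℝ) ≤ 1 / ((p : ℝ) - 1) := by positivity
          rw [abs_le] at h3 ⊢
          constructor <;> linarith
        have h5 := mul_le_mul_of_nonneg_left h6 hp0
        rw [mul_add] at h5
        rw [if_pos rfl]
        linarith
      · have h3 := Q1_ij hL hp hi hj hij
        have h4 := Q1_tot_ij (hL.three p hp) (hL.inc p hp i hi j hj hij)
        have h5 := mul_le_mul_of_nonneg_left h3 hp0
        rw [if_neg (fun h => hij h.symm), add_zero]
        have h6 : 3 * (p : ℝ) / ((p : ℝ) - 1) ^ 2 + p * (2 / ((p : ℝ) - 1) ^ 2) =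
            5 * ((p : ℝ) * (1 / ((p : ℝ) - 1))) * (1 / ((p : ℝ) - 1)) := by
          field_simp
          ring
        have h7 : 5 * ((p : ℝ) * (1 / ((p : ℝ) - 1))) * (1 / ((p : ℝ) - 1)) ≤
            15 / 2 * (1 / ((p : ℝ) - 1)) := by
          apply mul_le_mul_of_nonneg_right _ (by positivity)
          linarith
        linarith
    have h2 : N * (15 / 2 * (1 / ((p : ℝ) - 1))) ≤ 15 / 2 := by
      have e : N * (15 / 2 * (1 / ((p : ℝ) - 1))) = 15 / 2 * (N / ((p : ℝ) - 1)) := by ring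
      rw [e]
      have : (N : ℝ) / ((p : ℝ) - 1) ≤ 1 := by
        rw [div_le_one hq0]
        exact hNp
      linarith
    simp only [fi, uo]
    have e : 1 / ((p : ℝ) - 1) * (17 * ((p : ℝ) - 1)) = 17 := by
      field_simp
    rw [e]
    linarith

end Pool.Agent.LibT63
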