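import Pool.Agent.LibT63.QDefs

/-!
Row Q11 (Markov for a family, one position frozen). For the position `h` the function is `1[A = ∅]`, for the others `F`; `B < ∏ rr (A i)` implies `1 ≤ (∑ i, log rr (A i))/log B`, and the position `h` has `log rr ∅ = 0`.
`∑_A (∏_{i ≠ h} F (A i)) log rr (A i') = S^(K-2) σ` for `i' ≠ h` (`Finset.prod_univ_sum`; K = card κ), `K - 1` of them; multiply by `S ≥ 1`: total `≤ S^(K-1) * K * σ/(S log B)`. Stated with `S` multiplied out.
See LibRG87.R3 (`markov`).
-/

open Finset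

namespace Pool.Agent.LibT63

open Pool.Agent.LibRG87 Pool.Agent.LibLG5 Pool.Agent.LibPL63

theorem Q11_inner {κ : Type} [Fintype κ] [DecidableEq κ] (P : Finset ℕ) (f : κ → Finset ℕ → ℝ)
    (g : Finset ℕ → ℝ) (i : κ) :
    ∑ A ∈ Fintype.piFinset (fun _ : κ => P.powerset), g (A i) * ∏ j, f j (A j) =
      (∑ A ∈ P.powerset, g A * f i A) * ∏ j ∈ Finset.univ.erase i, ∑ A ∈ P.powerset, f j A := by
  have h1 : ∀ A : κ → Finset ℕ, g (A i) * ∏ j, f j (A j)
      = ∏ j, (if j = i then g (A j) * f j (A j) else f j (A j)) := by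
    intro A
    rw [← Finset.mul_prod_erase Finset.univ _ (Finset.mem_univ i),
      ← Finset.mul_prod_erase Finset.univ (fun j => if j = i then g (A j) * f j (A j) else f j (A j))
        (Finset.mem_univ i)]
    rw [if_pos rfl, ← mul_assoc]
    congr 1
    apply Finset.prod_congr rfl
    intro j hj
    rw [if_neg (Finset.ne_of_mem_erase hj)]
  rw [Finset.sum_congr rfl (fun A _ => h1 A),
    ← Finset.prod_univ_sum (fun _ : κ => P.powerset)
      (fun j A => if j = i then g A * f j A else f j A),
    ← Finset.mul_prod_erase Finset.univ _ (Finset.mem_univ i)]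
  simp only [if_true]
  congr 1
  apply Finset.prod_congr rfl
  intro j hj
  simp only [if_neg (Finset.ne_of_mem_erase hj)]

open scoped Classical in
theorem markovH {κ : Type} [Fintype κ] [DecidableEq κ] (P : Finset ℕ) (hP : ∀ p ∈ P, Nat.Prime p) (F : Finset ℕ → ℝ)
    (hF : ∀ A ∈ P.powerset, 0 ≤ F A) (hS : 1 ≤ ∑ A ∈ P.powerset, F A) {B : ℝ} (hB : 1 < B) (h : κ) :
    ∑ A ∈ Fintype.piFinset (fun _ : κ => P.powerset) with B < ∏ i, rr (A i),
        ∏ i, (if i = h then (if A i = ∅ then 1 else 0) else F (A i)) ≤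
      (∑ A ∈ P.powerset, F A) ^ (Fintype.card κ - 1) *
        (Fintype.card κ * ((∑ A ∈ P.powerset, F A * Real.log (rr A)) / ∑ A ∈ P.powerset, F A) / Real.log B) := by
  have hlT : 0 < Real.log B := Real.log_pos hB
  set S : ℝ := ∑ A ∈ P.powerset, F A with hSdef
  set σ : ℝ := ∑ A ∈ P.powerset, F A * Real.log (rr A) with hσdef
  have hS0 : 0 < S := by linarith
  have hl : ∀ A ∈ P.powerset, 0 ≤ Real.log (rr A) := fun A hA =>
    Real.log_nonneg (one_le_rr P hP (Finset.mem_powerset.1 hA))
  have hσ : 0 ≤ σ := Finset.sum_nonneg (fun A hA => mul_nonneg (hF A hA) (hl A hA))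
  set f : κ → Finset ℕ → ℝ := fun i A => if i = h then (if A = ∅ then 1 else 0) else F A with hf
  have hf0 : ∀ i, ∀ A ∈ P.powerset, 0 ≤ f i A := by
    intro i A hA
    simp only [hf]
    split_ifs
    · norm_num
    · norm_num
    · exact hF A hA
  have hprod : ∀ A ∈ Fintype.piFinset (fun _ : κ => P.powerset), 0 ≤ ∏ i, f i (A i) := by
    intro A hA
    rw [Fintype.mem_piFinset] at hA
    exact Finset.prod_nonneg (fun i _ => hf0 i _ (hA i))
  have hsl : ∀ A ∈ Fintype.piFinset (fun _ : κ => P.powerset), 0 ≤ ∑ i, Real.log (rr (A i)) := by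
    intro A hA
    rw [Fintype.mem_piFinset] at hA
    exact Finset.sum_nonneg (fun i _ => hl _ (hA i))
  have hfh : ∑ A ∈ P.powerset, f h A = 1 := by
    simp only [hf, if_true]
    rw [Finset.sum_ite_eq' P.powerset ∅ (fun _ => (1 : ℝ)), if_pos (Finset.empty_mem_powerset P)]
  have hfi : ∀ i, i ≠ h → ∑ A ∈ P.powerset, f i A = S := by
    intro i hi
    simp only [hf, if_neg hi, hSdef]
  -- the inner sums
  have inner : ∀ i : κ, ∑ A ∈ Fintype.piFinset (fun _ : κ => P.powerset),
      Real.log (rr (A i)) * ∏ j, f j (A j) ≤ S ^ (Fintype.card κ - 1) * (σ / S) := by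
    intro i
    rw [Q11_inner P f (fun A => Real.log (rr A)) i]
    by_cases hi : i = h
    · have h0 : ∑ A ∈ P.powerset, Real.log (rr A) * f i A = 0 := by
        apply Finset.sum_eq_zero
        intro A _
        simp only [hf, if_pos hi]
        by_cases hA : A = ∅
        · rw [hA, rr_empty, Real.log_one, zero_mul]
        · rw [if_neg hA, mul_zero]
      rw [h0, zero_mul]
      positivity
    · have h1 : ∑ A ∈ P.powerset, Real.log (rr A) * f i A = σ := by
        simp only [hf, if_neg hi, hσdef]
        exact Finset.sum_congr rfl fun A _ => mul_comm _ _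
      have hmem : h ∈ Finset.univ.erase i := Finset.mem_erase.mpr ⟨fun hh => hi hh.symm, Finset.mem_univ h⟩
      rw [h1, ← Finset.mul_prod_erase _ _ hmem, hfh, one_mul]
      have h2 : ∏ j ∈ (Finset.univ.erase i).erase h, ∑ A ∈ P.powerset, f j A =
          S ^ ((Finset.univ.erase i).erase h).card := by
        rw [← Finset.prod_const]
        exact Finset.prod_congr rfl fun j hj => hfi j (Finset.ne_of_mem_erase hj)
      have h3 : ((Finset.univ.erase i).erase h).card = Fintype.card κ - 1 - 1 := by
        rw [Finset.card_erase_of_mem hmem, Finset.card_erase_of_mem (Finset.mem_univ i), Finset.card_univ]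
      have h4 : 2 ≤ Fintype.card κ := by
        have : 0 < (Finset.univ.erase i).card := Finset.card_pos.mpr ⟨h, hmem⟩
        rw [Finset.card_erase_of_mem (Finset.mem_univ i), Finset.card_univ] at this
        omega
      rw [h2, h3]
      have h5 : S ^ (Fintype.card κ - 1) = S ^ (Fintype.card κ - 1 - 1) * S := by
        rw [← pow_succ]
        congr 1
        omega
      rw [h5]
      apply le_of_eq
      field_simp
  have step1 : ∑ A ∈ Fintype.piFinset (fun _ : κ => P.powerset) with B < ∏ i, rr (A i), ∏ i, f i (A i) ≤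
      ∑ A ∈ Fintype.piFinset (fun _ : κ => P.powerset),
        (∑ i, Real.log (rr (A i))) / Real.log B * ∏ j, f j (A j) := by
    rw [Finset.sum_filter]
    apply Finset.sum_le_sum
    intro A hA
    have hA' := hA
    rw [Fintype.mem_piFinset] at hA'
    split_ifs with h
    · have h2 : Real.log B ≤ ∑ i, Real.log (rr (A i)) := by
        rw [← Real.log_prod (fun i _ => (rr_pos P hP (Finset.mem_powerset.1 (hA' i))).ne')]
        exact Real.log_le_log (by linarith) h.le
      have h3 : 1 ≤ (∑ i, Real.log (rr (A i))) / Real.log B := (one_le_div hlT).2 h2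
      calc ∏ i, f i (A i) = 1 * ∏ i, f i (A i) := (one_mul _).symm
        _ ≤ _ := mul_le_mul_of_nonneg_right h3 (hprod A hA)
    · exact mul_nonneg (div_nonneg (hsl A hA) hlT.le) (hprod A hA)
  have step2 : ∑ A ∈ Fintype.piFinset (fun _ : κ => P.powerset),
        (∑ i, Real.log (rr (A i))) / Real.log B * ∏ j, f j (A j)
      ≤ (Fintype.card κ * (S ^ (Fintype.card κ - 1) * (σ / S))) / Real.log B := by
    have h1 : ∀ A : κ → Finset ℕ, (∑ i, Real.log (rr (A i))) / Real.log B * ∏ j, f j (A j)
        = (∑ i, Real.log (rr (A i)) * ∏ j, f j (A j)) / Real.log B := by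
      intro A
      rw [← Finset.sum_mul]; ring
    rw [Finset.sum_congr rfl (fun A _ => h1 A), ← Finset.sum_div, Finset.sum_comm]
    apply div_le_div_of_nonneg_right _ hlT.le
    calc ∑ i, ∑ A ∈ Fintype.piFinset (fun _ : κ => P.powerset), Real.log (rr (A i)) * ∏ j, f j (A j)
        ≤ ∑ _i : κ, S ^ (Fintype.card κ - 1) * (σ / S) := Finset.sum_le_sum fun i _ => inner i
      _ = _ := by rw [Finset.sum_const, Finset.card_univ, nsmul_eq_mul]
  refine (step1.trans step2).trans (le_of_eq ?_)
  ring

end Pool.Agent.LibT63
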