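import Pool.Agent.LibT63.Q8
import Pool.Agent.LibT63.Q10

/-!
Row Q12 (upper bounds for the diagonal forms). `yJ β ^ 2 / ph (sp β) ≤ (∏_κ g^2/ph)(∏_ν FF)` (`ph_sp`, `Fintype.prod_sum_type`) and `sum_pair_le`, `sum_fam_prod` (LibRG87.R1): `DD_yJ_le`.
`DD_yS_le`: as `DD_yc_le` in LibRG87.R12: `yS ^ 2 ≤ yJ ^ 2 * cc ^ 2`; with `T' = T * rL β`: `T < rR β` iff `T' < rr (sp β)`; if `rR β * z ≤ T` then `cc_small` (R6) for `T'`: `cc ≤ 2 |sp β|/(w-1) ≤ 2 log (TU)/((w-1) log w)`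
(`card_sp_le` and `rr (sp β) = rL rR ≤ U T`); otherwise `0 ≤ cc ≤ 1` (`cc_nonneg`, `cc_le_one`) and `T / z < rR β`, the sum over these is by `sum_pair_le` with `H2 A = 1[T/z < ∏ rr (A i)] ∏ FF (A i)` and `chernoff` (LibRG87.R4) +
`sum_FF_log` (LibRG87.R5).
-/

open Finset

namespace Pool.Agent.LibT63

open Pool.Agent.LibRG87 Pool.Agent.LibLG5 Pool.Agent.LibPL63

variable {κ ν : Type} [Fintype κ] [DecidableEq κ] [Fintype ν] [DecidableEq ν] (P : Finset ℕ)

theorem Q12_pr (g : Finset ℕ → ℝ) (z : ℝ) (β : P → Option (κ ⊕ ν)) :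
    pr P g z β ^ 2 / ph (sp P β) =
      (∏ i : κ, g (fb P β (Sum.inl i)) ^ 2 / ph (fb P β (Sum.inl i))) *
        ∏ i : ν, FF P z (fb P β (Sum.inr i)) := by
  rw [ph_sp, Fintype.prod_sum_type]
  unfold pr
  simp only [FF]
  rw [Finset.prod_div_distrib, Finset.prod_div_distrib, Finset.prod_pow, Finset.prod_pow, mul_pow,
    div_mul_div_comm]

theorem Q12_g_nonneg (hP : ∀ p ∈ P, p.Prime) (g : Finset ℕ → ℝ) {A : Finset ℕ} (hA : A ⊆ P) :
    0 ≤ g A ^ 2 / ph A := div_nonneg (sq_nonneg _) (ph_pos P hP hA).le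

theorem Q12_H1_nonneg (hP : ∀ p ∈ P, p.Prime) (g : Finset ℕ → ℝ) :
    ∀ A ∈ Fintype.piFinset (fun _ : κ => P.powerset), 0 ≤ ∏ i, g (A i) ^ 2 / ph (A i) := fun _ hA =>
  Finset.prod_nonneg fun i _ =>
    Q12_g_nonneg P hP g (Finset.mem_powerset.1 (Fintype.mem_piFinset.1 hA i))

theorem Q12_H2_nonneg (hP : ∀ p ∈ P, p.Prime) (z : ℝ) :
    ∀ A ∈ Fintype.piFinset (fun _ : ν => P.powerset), 0 ≤ ∏ i, FF P z (A i) := fun _ hA =>
  Finset.prod_nonneg fun i _ =>
    FF_nonneg P hP z (Finset.mem_powerset.1 (Fintype.mem_piFinset.1 hA i))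

theorem Q12_full (hP : ∀ p ∈ P, p.Prime) (g : Finset ℕ → ℝ) (z : ℝ) :
    ∑ β : P → Option (κ ⊕ ν),
      (∏ i : κ, g (fb P β (Sum.inl i)) ^ 2 / ph (fb P β (Sum.inl i))) *
        ∏ i : ν, FF P z (fb P β (Sum.inr i)) ≤
      G2 P g ^ Fintype.card κ * SS P z ^ Fintype.card ν := by
  have h := sum_pair_le P (fun A : κ → Finset ℕ => ∏ i, g (A i) ^ 2 / ph (A i))
    (fun A : ν → Finset ℕ => ∏ i, FF P z (A i)) (Q12_H1_nonneg P hP g) (Q12_H2_nonneg P hP z)
  rw [sum_fam_prod P (fun A => g A ^ 2 / ph A), sum_fam_prod P (FF P z)] at h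
  exact h

theorem DD_yJ_le {w : ℕ} {z T U V : ℝ} {g : Finset ℕ → ℝ} (hp : ParT P w z T U V g (Fintype.card κ) (Fintype.card ν)) :
    DD P (yJ P g z T U : (P → Option (κ ⊕ ν)) → ℝ) ≤ G2 P g ^ Fintype.card κ * SS P z ^ Fintype.card ν := by
  refine le_trans ?_ (Q12_full (κ := κ) (ν := ν) P hp.prime g z)
  unfold DD
  refine Finset.sum_le_sum fun β _ => ?_
  have hn1 : 0 ≤ ∏ i : κ, g (fb P β (Sum.inl i)) ^ 2 / ph (fb P β (Sum.inl i)) :=
    Finset.prod_nonneg fun i _ => Q12_g_nonneg P hp.prime g (fb_subset P β _)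
  have hn2 : 0 ≤ ∏ i : ν, FF P z (fb P β (Sum.inr i)) :=
    Finset.prod_nonneg fun i _ => FF_nonneg P hp.prime z (fb_subset P β _)
  unfold yJ
  split_ifs
  · rw [Q12_pr]
  · simp only [ne_eq, OfNat.ofNat_ne_zero, not_false_eq_true, zero_pow, zero_div]
    exact mul_nonneg hn1 hn2

theorem DD_yS_le {w : ℕ} {z T U V : ℝ} {g : Finset ℕ → ℝ} (hp : ParT P w z T U V g (Fintype.card κ) (Fintype.card ν)) (s : ν) :
    DD P (yS P g z T U s : (P → Option (κ ⊕ ν)) → ℝ) ≤ G2 P g ^ Fintype.card κ * SS P z ^ Fintype.card ν *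
      ((2 * Real.log (T * U) / (((w : ℝ) - 1) * Real.log w)) ^ 2 +
        Real.exp (-(Real.log (T / z) / Real.log z) +
          2 * (Fintype.card ν * (1 / ZZ P z) / Real.log z))) := by
  classical
  have hP := hp.prime
  have hw3 : (3 : ℝ) ≤ (w : ℝ) := by exact_mod_cast hp.hw
  have hw : (1 : ℝ) < (w : ℝ) := by linarith
  have hPw : ∀ p ∈ P, (w : ℝ) < (p : ℝ) := fun p hpp => by exact_mod_cast hp.lt p hpp
  have hZ := hp.hZ
  have hz := hp.hz
  have hT := hp.hT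
  have hU : 1 < U := lt_of_le_of_lt hp.hV hp.hUV
  have hlw : 0 < Real.log (w : ℝ) := Real.log_pos hw
  have hF : ∀ A ∈ P.powerset, 0 ≤ FF P z A := fun A hA =>
    FF_nonneg P hP z (Finset.mem_powerset.1 hA)
  have hFz : ∀ A ∈ P.powerset, FF P z A ≠ 0 → rr A ≤ z := by
    intro A _ h
    by_cases hA0 : A = ∅
    · subst hA0
      simp [rr, hz.le]
    · apply ff_le_rr P hA0
      intro h0
      apply h
      simp [FF, h0]
  have h2 := chernoff (ι := ν) P hP (FF P z) hF (one_le_SS P hP z) hz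
    (div_pos (by linarith : (0:ℝ) < T) (by linarith : (0:ℝ) < z)) hFz
  rw [sum_FF_log P hP hw hPw hZ, Finset.sum_filter] at h2
  have hG2 : 0 ≤ G2 P g ^ Fintype.card κ := pow_nonneg
    (Finset.sum_nonneg fun A hA => Q12_g_nonneg P hP g (Finset.mem_powerset.1 hA)) _
  have h3 := sum_pair_le P (fun A : κ → Finset ℕ => ∏ i, g (A i) ^ 2 / ph (A i))
    (fun A : ν → Finset ℕ => if T / z < ∏ i, rr (A i) then ∏ i, FF P z (A i) else 0)
    (Q12_H1_nonneg P hP g) (fun A hA => by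
      split_ifs
      · exact Q12_H2_nonneg P hP z A hA
      · exact le_rfl)
  rw [sum_fam_prod P (fun A => g A ^ 2 / ph A)] at h3
  have h4 := Q12_full (κ := κ) (ν := ν) P hP g z
  set ε : ℝ := 2 * Real.log (T * U) / (((w : ℝ) - 1) * Real.log w) with hε
  have hTU : 1 < T * U := by nlinarith
  have hT0 : 0 < Real.log (T * U) := Real.log_pos hTU
  have hε0 : 0 ≤ ε := by
    rw [hε]
    have : 0 < (w : ℝ) - 1 := by linarith
    positivity
  have h5 : DD P (yS P g z T U s : (P → Option (κ ⊕ ν)) → ℝ) ≤ ∑ β : P → Option (κ ⊕ ν),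
      (ε ^ 2 * ((∏ i : κ, g (fb P β (Sum.inl i)) ^ 2 / ph (fb P β (Sum.inl i))) *
        ∏ i : ν, FF P z (fb P β (Sum.inr i))) +
      ((∏ i : κ, g (fb P β (Sum.inl i)) ^ 2 / ph (fb P β (Sum.inl i))) *
        (if T / z < ∏ i : ν, rr (fb P β (Sum.inr i)) then ∏ i : ν, FF P z (fb P β (Sum.inr i)) else 0))) := by
    unfold DD
    refine Finset.sum_le_sum fun β _ => ?_
    have hn1 : 0 ≤ ∏ i : κ, g (fb P β (Sum.inl i)) ^ 2 / ph (fb P β (Sum.inl i)) :=
      Finset.prod_nonneg fun i _ => Q12_g_nonneg P hp.prime g (fb_subset P β _)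
    have hn2 : 0 ≤ ∏ i : ν, FF P z (fb P β (Sum.inr i)) :=
      Finset.prod_nonneg fun i _ => FF_nonneg P hp.prime z (fb_subset P β _)
    have hn := mul_nonneg hn1 hn2
    have hn3 : 0 ≤ (∏ i : κ, g (fb P β (Sum.inl i)) ^ 2 / ph (fb P β (Sum.inl i))) *
        (if T / z < ∏ i : ν, rr (fb P β (Sum.inr i)) then ∏ i : ν, FF P z (fb P β (Sum.inr i)) else 0) := by
      split_ifs
      · exact hn
      · simp
    have hrhs := add_nonneg (mul_nonneg (sq_nonneg ε) hn) hn3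
    unfold yS
    by_cases hs : ∀ p, β p ≠ some (Sum.inr s)
    swap
    · rw [if_neg hs]
      simp only [ne_eq, OfNat.ofNat_ne_zero, not_false_eq_true, zero_pow, zero_div]
      exact hrhs
    rw [if_pos hs]
    unfold yJ
    by_cases hJ : rL P β ≤ U ∧ rR P β ≤ T
    swap
    · rw [if_neg hJ]
      simp only [zero_mul, ne_eq, OfNat.ofNat_ne_zero, not_false_eq_true, zero_pow, zero_div]
      exact hrhs
    rw [if_pos hJ, mul_pow, mul_div_right_comm, Q12_pr]
    set X : ℝ := (∏ i : κ, g (fb P β (Sum.inl i)) ^ 2 / ph (fb P β (Sum.inl i))) *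
        ∏ i : ν, FF P z (fb P β (Sum.inr i)) with hX
    have hc1 := cc_le_one P hP hw hPw hZ (T := T * rL P β) β
    have hc0 := cc_nonneg P hP hw hPw hZ (T := T * rL P β) β
    by_cases hb : T / z < ∏ i : ν, rr (fb P β (Sum.inr i))
    · rw [if_pos hb, ← hX]
      have : cc P z (T * rL P β) β ^ 2 ≤ 1 := by nlinarith
      nlinarith [mul_nonneg (sq_nonneg ε) hn]
    · rw [if_neg hb, mul_zero, add_zero]
      have hrL1 : 1 ≤ rL P β := by
        unfold rL
        exact Finset.prod_induction _ (fun x : ℝ => 1 ≤ x) (fun a b ha hb => one_le_mul_of_one_le_of_one_le ha hb)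
          le_rfl fun i _ => one_le_rr P hP (fb_subset P β _)
      have hrR1 : 1 ≤ rR P β := by
        unfold rR
        exact Finset.prod_induction _ (fun x : ℝ => 1 ≤ x) (fun a b ha hb => one_le_mul_of_one_le_of_one_le ha hb)
          le_rfl fun i _ => one_le_rr P hP (fb_subset P β _)
      have hb1 : rR P β ≤ T / z := not_lt.1 hb
      rw [le_div_iff₀ (by linarith)] at hb1
      have hb' : rr (sp P β) * z ≤ T * rL P β := by
        rw [rr_sp_eq]
        nlinarith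
      have hc := cc_small P hP hw hPw hZ β hb' hz
      have hr0 := rr_pos P hP (sp_subset P β)
      have hcard := card_sp_le P hP hw hPw β
      have hr : Real.log (rr (sp P β)) ≤ Real.log (T * U) := by
        apply Real.log_le_log hr0
        rw [rr_sp_eq, mul_comm T U]
        exact mul_le_mul hJ.1 hJ.2 (by linarith) (by linarith)
      have hc2 : cc P z (T * rL P β) β ≤ ε := by
        refine hc.trans ?_
        rw [hε, div_le_div_iff₀ (by linarith) (mul_pos (by linarith) hlw)]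
        have : 0 ≤ (w : ℝ) - 1 := by linarith
        nlinarith [mul_le_mul_of_nonneg_left (hcard.trans hr) this]
      have : cc P z (T * rL P β) β ^ 2 ≤ ε ^ 2 := by nlinarith
      nlinarith
  rw [Finset.sum_add_distrib, ← Finset.mul_sum] at h5
  have h6 : 0 ≤ ε ^ 2 := sq_nonneg ε
  have h7 := mul_le_mul_of_nonneg_left h4 h6
  change _ ≤ SS P z ^ _ * _ at h2
  have h9 := mul_le_mul_of_nonneg_left h2 hG2
  change _ ≤ G2 P g ^ _ * _ at h3
  have h8 : G2 P g ^ Fintype.card κ * SS P z ^ Fintype.card ν *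
      (ε ^ 2 + Real.exp (-(Real.log (T / z) / Real.log z) +
          2 * (Fintype.card ν * (1 / ZZ P z) / Real.log z))) =
      ε ^ 2 * (G2 P g ^ Fintype.card κ * SS P z ^ Fintype.card ν) +
      G2 P g ^ Fintype.card κ * (SS P z ^ Fintype.card ν * Real.exp (-(Real.log (T / z) / Real.log z) +
          2 * (Fintype.card ν * (1 / ZZ P z) / Real.log z))) := by ring
  rw [h8]
  linarith

end Pool.Agent.LibT63
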