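import Pool.Agent.LibT63.Q8
import Pool.Agent.LibT63.Q10
import Pool.Agent.LibT63.Q11
import Pool.Agent.LibRG87.R9

/-!
Row Q13 (lower bound for the diagonal form at a prime position). `gH_ge`: if `rL β * V ≤ U` then the truncation in `gH` is inactive (`GOK.supp`), so
`gH = ∑_{A ⊆ P \ sp β} g A / ph A ≥ G1 - ∑_{p ∈ sp β} ∑_{A ∋ p} g A / ph A ≥ G1 (1 - |sp β|/w)` (`GOK.dec`: `∑_{A ∋ p} g A / ph A ≤ (1/(p-1)) ∑_{A ∌ p} g A / ph A`, `p - 1 ≥ w`).
`DD_yH_ge`: with `F (inl i) = if i = h then 1[A = ∅] else g^2/ph`, `F (inr i) = FF`: `∑_β ∏ F (fb β i)` is over the `β` avoiding `h`, `sum_beta_geG` (`(K+N)^2 ∑ 1/(p-1)^2 ≤ (K+N)^2/(w-1) ≤ 1/16`, `sum_inv_sq` in R9, `c1`;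
hypothesis `hp` of `sum_beta_geG`: `sum_FF_mem` (LibRG87.R5) and the same for `g^2/ph`), minus the `β` with `U / V < rL β` (`sum_pair_le`, `markovH`, `c4`: `≤ 1/8`), minus those with `T < rR β`
(`sum_pair_le`, `markov`, `sum_FF_log`, `c3`: `≤ 1/8`). On the rest `yH ^ 2 / ph = (∏ F) gH ^ 2 ≥ (∏ F) (63/64)^2 G1^2`: `|sp β| ≤ log (TU)/log w ≤ (w-1)/64` (`card_sp_le`, `c2`).
`(11/16)(63/64)^2 ≥ 1/2`.
-/

open Finset

namespace Pool.Agent.LibT63

open Pool.Agent.LibRG87 Pool.Agent.LibLG5 Pool.Agent.LibPL63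

variable {κ ν : Type} [Fintype κ] [DecidableEq κ] [Fintype ν] [DecidableEq ν] (P : Finset ℕ)

theorem Q13_mem {w : ℕ} {z T U V : ℝ} {g : Finset ℕ → ℝ} {K N : ℕ} (hp : ParT P w z T U V g K N)
    (e : ℕ) {p : ℕ} (hpP : p ∈ P) :
    ∑ A ∈ P.powerset with p ∈ A, g A ^ (e + 1) / ph A ≤
      (∑ A ∈ P.powerset, g A ^ (e + 1) / ph A) * ((p : ℝ) - 1)⁻¹ := by
  classical
  have hp1 : 0 < (p : ℝ) - 1 := by
    have := (hp.prime p hpP).one_lt
    have h : (1 : ℝ) < (p : ℝ) := by exact_mod_cast this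
    linarith
  have h := sum_mem_le (P := P) (p := p) (fun A => g A ^ (e + 1) / ph A)
    (fun A hA => div_nonneg (pow_nonneg (hp.gok.nonneg A (Finset.mem_powerset.1 hA)) _)
      (ph_pos P hp.prime (Finset.mem_powerset.1 hA)).le) _ (inv_nonneg.2 hp1.le) ?_
  · convert h
  · intro A hA hpA
    have hA' := Finset.mem_powerset.1 hA
    have hE : A.erase p ⊆ P := (Finset.erase_subset p A).trans hA'
    have h0 := ph_pos P hp.prime hE
    have h1 : g A ≤ g (A.erase p) := by
      have := hp.gok.dec (A.erase p) hE p hpP (Finset.notMem_erase p A)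
      rwa [Finset.insert_erase hpA] at this
    have h2 : g A ^ (e + 1) ≤ g (A.erase p) ^ (e + 1) :=
      pow_le_pow_left₀ (hp.gok.nonneg A hA') h1 _
    show g A ^ (e + 1) / ph A ≤ g (A.erase p) ^ (e + 1) / ph (A.erase p) * ((p : ℝ) - 1)⁻¹
    rw [ph_erase hpA]
    calc g A ^ (e + 1) / (((p : ℝ) - 1) * ph (A.erase p))
        ≤ g (A.erase p) ^ (e + 1) / (((p : ℝ) - 1) * ph (A.erase p)) :=
          div_le_div_of_nonneg_right h2 (by positivity)
      _ = g (A.erase p) ^ (e + 1) / ph (A.erase p) * ((p : ℝ) - 1)⁻¹ := by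
          field_simp

theorem Q13_term_nonneg {w : ℕ} {z T U V : ℝ} {g : Finset ℕ → ℝ} {K N : ℕ}
    (hp : ParT P w z T U V g K N) {A : Finset ℕ} (hA : A ⊆ P) : 0 ≤ g A / ph A :=
  div_nonneg (hp.gok.nonneg A hA) (ph_pos P hp.prime hA).le

theorem Q13_G1_nonneg {w : ℕ} {z T U V : ℝ} {g : Finset ℕ → ℝ} {K N : ℕ}
    (hp : ParT P w z T U V g K N) : 0 ≤ G1 P g :=
  Finset.sum_nonneg fun _ hA => Q13_term_nonneg P hp (Finset.mem_powerset.1 hA)

theorem gH_ge {w : ℕ} {z T U V : ℝ} {g : Finset ℕ → ℝ} {K N : ℕ} (hp : ParT P w z T U V g K N)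
    (β : P → Option (κ ⊕ ν)) (h : rL P β * V ≤ U) :
    G1 P g * (1 - (sp P β).card / (w : ℝ)) ≤ gH P g U β := by
  classical
  have hL : 0 < rL P β := Finset.prod_pos fun i _ => rr_pos P hp.prime (fb_subset P β _)
  have hw0 : (0 : ℝ) < w := by
    have := hp.hw
    have h3 : (3 : ℝ) ≤ (w : ℝ) := by exact_mod_cast this
    linarith
  have hG0 := Q13_G1_nonneg P hp
  -- the truncation is inactive
  have h1 : gH P g U β = ∑ A ∈ (P \ sp P β).powerset, g A / ph A := by
    unfold gH
    rw [Finset.sum_filter]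
    refine Finset.sum_congr rfl fun A hA => ?_
    have hA' : A ⊆ P := (Finset.mem_powerset.1 hA).trans Finset.sdiff_subset
    split_ifs with hc
    · rfl
    · by_cases hg : g A = 0
      · rw [hg, zero_div]
      · exfalso
        apply hc
        have h2 := hp.gok.supp A hA' hg
        calc rr A * rL P β ≤ V * rL P β := mul_le_mul_of_nonneg_right h2 hL.le
          _ = rL P β * V := mul_comm _ _
          _ ≤ U := h
  -- all sets
  have h2 : G1 P g ≤ (∑ A ∈ (P \ sp P β).powerset, g A / ph A) +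
      ∑ p ∈ sp P β, ∑ A ∈ P.powerset with p ∈ A, g A / ph A := by
    unfold G1
    have hsub : (P \ sp P β).powerset ⊆ P.powerset :=
      Finset.powerset_mono.2 Finset.sdiff_subset
    rw [← Finset.sum_sdiff hsub, add_comm]
    refine add_le_add le_rfl ?_
    have h3 : ∑ A ∈ P.powerset \ (P \ sp P β).powerset, g A / ph A ≤
        ∑ A ∈ P.powerset, ∑ p ∈ sp P β, (if p ∈ A then g A / ph A else 0) := by
      have h4 : ∀ A ∈ P.powerset, 0 ≤ ∑ p ∈ sp P β, (if p ∈ A then g A / ph A else 0) := by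
        intro A hA
        refine Finset.sum_nonneg fun p _ => ?_
        split_ifs
        · exact Q13_term_nonneg P hp (Finset.mem_powerset.1 hA)
        · exact le_rfl
      refine le_trans (Finset.sum_le_sum fun A hA => ?_)
        (Finset.sum_le_sum_of_subset_of_nonneg Finset.sdiff_subset fun A hA _ => h4 A hA)
      obtain ⟨hA1, hA2⟩ := Finset.mem_sdiff.1 hA
      have hA1' := Finset.mem_powerset.1 hA1
      obtain ⟨p, hpA, hpS⟩ : ∃ p ∈ A, p ∈ sp P β := by
        by_contra hcon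
        push Not at hcon
        exact hA2 (Finset.mem_powerset.2 fun q hq =>
          Finset.mem_sdiff.2 ⟨hA1' hq, hcon q hq⟩)
      have h5 : ∀ q ∈ sp P β, 0 ≤ (if q ∈ A then g A / ph A else 0) := by
        intro q _
        split_ifs
        · exact Q13_term_nonneg P hp hA1'
        · exact le_rfl
      calc g A / ph A = if p ∈ A then g A / ph A else 0 := (if_pos hpA).symm
        _ ≤ ∑ p ∈ sp P β, (if p ∈ A then g A / ph A else 0) :=
          Finset.single_le_sum (f := fun p => if p ∈ A then g A / ph A else 0) h5 hpS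
    refine h3.trans (le_of_eq ?_)
    rw [Finset.sum_comm]
    exact Finset.sum_congr rfl fun p _ => (Finset.sum_filter _ _).symm
  have h3 : ∑ p ∈ sp P β, ∑ A ∈ P.powerset with p ∈ A, g A / ph A ≤
      (sp P β).card * (G1 P g / w) := by
    rw [← nsmul_eq_mul]
    refine Finset.sum_le_card_nsmul _ _ _ fun p hpS => ?_
    have hpP := sp_subset P β hpS
    have h4 := Q13_mem P hp 0 hpP
    simp only [zero_add, pow_one] at h4
    refine h4.trans ?_
    rw [div_eq_mul_inv]
    refine mul_le_mul_of_nonneg_left ?_ hG0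
    have h5 : (w : ℝ) + 1 ≤ p := by exact_mod_cast hp.lt p hpP
    exact inv_anti₀ hw0 (by linarith)
  rw [h1]
  have h5 : G1 P g * (1 - (sp P β).card / (w : ℝ)) = G1 P g - (sp P β).card * (G1 P g / w) := by
    ring
  rw [h5]
  linarith

theorem gH_le {w : ℕ} {z T U V : ℝ} {g : Finset ℕ → ℝ} {K N : ℕ} (hp : ParT P w z T U V g K N)
    (β : P → Option (κ ⊕ ν)) : 0 ≤ gH P g U β ∧ gH P g U β ≤ G1 P g := by
  classical
  unfold gH G1
  have hsub : ((P \ sp P β).powerset.filter fun A => rr A * rL P β ≤ U) ⊆ P.powerset :=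
    (Finset.filter_subset _ _).trans (Finset.powerset_mono.2 Finset.sdiff_subset)
  constructor
  · exact Finset.sum_nonneg fun A hA =>
      Q13_term_nonneg P hp (Finset.mem_powerset.1 (hsub (by convert hA)))
  · refine Finset.sum_le_sum_of_subset_of_nonneg (by convert hsub) fun A hA _ =>
      Q13_term_nonneg P hp (Finset.mem_powerset.1 hA)

/-- the functions at the positions, `h` frozen -/
noncomputable def Q13_F (g : Finset ℕ → ℝ) (z : ℝ) (h : κ) : κ ⊕ ν → Finset ℕ → ℝ
  | Sum.inl i, A => if i = h then (if A = ∅ then 1 else 0) else g A ^ 2 / ph A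
  | Sum.inr _, A => FF P z A

theorem Q13_F_nonneg {w : ℕ} {z T U V : ℝ} {g : Finset ℕ → ℝ} {K N : ℕ}
    (hp : ParT P w z T U V g K N) (h : κ) (i : κ ⊕ ν) {A : Finset ℕ} (hA : A ⊆ P) :
    0 ≤ Q13_F P g z h i A := by
  rcases i with i | i
  · simp only [Q13_F]
    split_ifs
    · exact zero_le_one
    · exact le_rfl
    · exact div_nonneg (sq_nonneg _) (ph_pos P hp.prime hA).le
  · exact FF_nonneg P hp.prime z hA

theorem Q13_fb_empty (β : P → Option (κ ⊕ ν)) (i : κ ⊕ ν) :
    fb P β i = ∅ ↔ ∀ p, β p ≠ some i := by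
  constructor
  · intro h p hpi
    have : (p : ℕ) ∈ fb P β i := (mem_fb P).2 ⟨p.2, hpi⟩
    rw [h] at this
    exact Finset.notMem_empty _ this
  · intro h
    rw [Finset.eq_empty_iff_forall_notMem]
    intro p hpi
    obtain ⟨hpP, hβ⟩ := (mem_fb P).1 hpi
    exact h _ hβ

theorem Q13_prod {w : ℕ} {z T U V : ℝ} {g : Finset ℕ → ℝ} {K N : ℕ}
    (hp : ParT P w z T U V g K N) (h : κ) (β : P → Option (κ ⊕ ν))
    (hβ : ∀ p, β p ≠ some (Sum.inl h)) :
    ∏ i, Q13_F P g z h i (fb P β i) = pr P g z β ^ 2 / ph (sp P β) := by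
  have hemp := (Q13_fb_empty P β (Sum.inl h)).2 hβ
  rw [ph_sp, Fintype.prod_sum_type, Fintype.prod_sum_type]
  unfold pr
  rw [mul_pow, ← Finset.prod_pow, ← Finset.prod_pow, mul_div_mul_comm, ← Finset.prod_div_distrib,
    ← Finset.prod_div_distrib]
  congr 1
  refine Finset.prod_congr rfl fun i _ => ?_
  simp only [Q13_F]
  split_ifs with h1 h2
  · rw [h1, hemp, hp.gok.one, ph_empty]
    norm_num
  · exact absurd (h1 ▸ hemp) h2
  · rfl

theorem Q13_zero {z : ℝ} {g : Finset ℕ → ℝ} (h : κ) (β : P → Option (κ ⊕ ν))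
    (hβ : ¬ ∀ p, β p ≠ some (Sum.inl h)) :
    ∏ i, Q13_F P g z h i (fb P β i) = 0 := by
  refine Finset.prod_eq_zero (Finset.mem_univ (Sum.inl h)) ?_
  have h1 : fb P β (Sum.inl h) ≠ ∅ := fun h2 => hβ ((Q13_fb_empty P β (Sum.inl h)).1 h2)
  simp [Q13_F, h1]

theorem Q13_pr_nonneg {w : ℕ} {z T U V : ℝ} {g : Finset ℕ → ℝ} {K N : ℕ}
    (hp : ParT P w z T U V g K N) (h : κ) (β : P → Option (κ ⊕ ν)) :
    0 ≤ ∏ i, Q13_F P g z h i (fb P β i) :=
  Finset.prod_nonneg fun i _ => Q13_F_nonneg P hp h i (fb_subset P β i)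

theorem Q13_sumF {w : ℕ} {z T U V : ℝ} {g : Finset ℕ → ℝ} {K N : ℕ}
    (_hp : ParT P w z T U V g K N) (h i : κ) :
    ∑ A ∈ P.powerset, Q13_F (ν := ν) P g z h (Sum.inl i) A = if i = h then 1 else G2 P g := by
  simp only [Q13_F]
  split_ifs with h1
  · rw [Finset.sum_ite_eq' P.powerset ∅ (fun _ => (1 : ℝ))]
    simp
  · rfl

theorem Q13_prodF {w : ℕ} {z T U V : ℝ} {g : Finset ℕ → ℝ} {K N : ℕ}
    (hp : ParT P w z T U V g K N) (h : κ) :
    ∏ i : κ, ∑ A ∈ P.powerset, Q13_F (ν := ν) P g z h (Sum.inl i) A =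
      G2 P g ^ (Fintype.card κ - 1) := by
  rw [← Finset.mul_prod_erase Finset.univ _ (Finset.mem_univ h), Q13_sumF P hp, if_pos rfl,
    one_mul]
  rw [Finset.prod_congr rfl (g := fun _ => G2 P g)]
  · rw [Finset.prod_const, Finset.card_erase_of_mem (Finset.mem_univ h), Finset.card_univ]
  · intro i hi
    rw [Q13_sumF P hp, if_neg (Finset.ne_of_mem_erase hi)]

theorem Q13_point {w : ℕ} {z T U V : ℝ} {g : Finset ℕ → ℝ} {K N : ℕ}
    (hp : ParT P w z T U V g K N) (h : κ) (β : P → Option (κ ⊕ ν)) :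
    (63 / 64 * G1 P g) ^ 2 * ∏ i, Q13_F P g z h i (fb P β i) ≤
      yH P g z T U h β ^ 2 / ph (sp P β) +
      (63 / 64 * G1 P g) ^ 2 * ((if U / V < rL P β then ∏ i, Q13_F P g z h i (fb P β i) else 0) +
        (if T < rR P β then ∏ i, Q13_F P g z h i (fb P β i) else 0)) := by
  have hn := Q13_pr_nonneg P hp h β
  have hG0 := Q13_G1_nonneg P hp
  have hph := ph_pos P hp.prime (sp_subset P β)
  have hy : 0 ≤ yH P g z T U h β ^ 2 / ph (sp P β) := div_nonneg (sq_nonneg _) hph.le
  have hc : 0 ≤ (63 / 64 * G1 P g) ^ 2 := sq_nonneg _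
  by_cases hβ : ∀ p, β p ≠ some (Sum.inl h)
  · by_cases hL : U / V < rL P β
    · rw [if_pos hL]
      have h1 : 0 ≤ (if T < rR P β then ∏ i, Q13_F P g z h i (fb P β i) else 0) := by
        split_ifs
        · exact hn
        · exact le_rfl
      have h2 := mul_nonneg hc h1
      rw [mul_add]
      linarith
    · by_cases hR : T < rR P β
      · rw [if_neg hL, if_pos hR, zero_add]
        linarith
      · rw [if_neg hL, if_neg hR, add_zero, mul_zero, add_zero]
        have hV : 0 < V := by linarith [hp.hV]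
        have hL0 : 0 < rL P β := Finset.prod_pos fun i _ => rr_pos P hp.prime (fb_subset P β _)
        have hR0 : 0 < rR P β := Finset.prod_pos fun i _ => rr_pos P hp.prime (fb_subset P β _)
        have hLV : rL P β * V ≤ U := by
          rw [not_lt, le_div_iff₀ hV] at hL
          exact hL
        have hLU : rL P β ≤ U := by nlinarith [hp.hV]
        rw [not_lt] at hR
        have hyH : yH P g z T U h β = pr P g z β * gH P g U β := by
          unfold yH
          rw [if_pos hβ]
          unfold yJ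
          rw [if_pos ⟨hLU, hR⟩]
        have hdiv : (pr P g z β * gH P g U β) ^ 2 / ph (sp P β) =
            pr P g z β ^ 2 / ph (sp P β) * gH P g U β ^ 2 := by ring
        rw [hyH, hdiv, ← Q13_prod P hp h β hβ, mul_comm]
        refine mul_le_mul_of_nonneg_left ?_ hn
        refine pow_le_pow_left₀ (by positivity) ?_ 2
        refine le_trans ?_ (gH_ge P hp β hLV)
        rw [mul_comm]
        refine mul_le_mul_of_nonneg_left ?_ hG0
        -- the number of primes which are used
        have hw3 : (3 : ℝ) ≤ w := by exact_mod_cast hp.hw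
        have hlw : 0 < Real.log w := Real.log_pos (by linarith)
        have hcard := card_sp_le P hp.prime (by linarith : (1 : ℝ) < w)
          (fun p hpP => by exact_mod_cast hp.lt p hpP) β
        have hsp : rr (sp P β) ≤ T * U := by
          rw [rr_sp_eq]
          calc rL P β * rR P β ≤ U * T := mul_le_mul hLU hR hR0.le (by linarith)
            _ = T * U := mul_comm _ _
        have hlog : Real.log (rr (sp P β)) ≤ Real.log (T * U) :=
          Real.log_le_log (rr_pos P hp.prime (sp_subset P β)) hsp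
        have hTU : 0 ≤ Real.log (T * U) := by
          refine Real.log_nonneg ?_
          nlinarith [hp.hT, hp.hUV, hp.hV]
        have hc2 := hp.c2
        have hKN : (1 : ℝ) ≤ ((K + N + 1 : ℕ) : ℝ) := by
          push_cast
          have h1 : (0 : ℝ) ≤ K := Nat.cast_nonneg K
          have h2 : (0 : ℝ) ≤ N := Nat.cast_nonneg N
          linarith
        have h1 : 64 * Real.log (T * U) ≤ ((w : ℝ) - 1) * Real.log w := by
          have := mul_le_mul_of_nonneg_right hKN hTU
          linarith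
        have h2 : 64 * ((sp P β).card : ℝ) ≤ (w : ℝ) := by
          have h3 : 64 * ((sp P β).card : ℝ) * Real.log w ≤ ((w : ℝ) - 1) * Real.log w := by
            nlinarith
          have h4 := le_of_mul_le_mul_right h3 hlw
          linarith
        have h3 : ((sp P β).card : ℝ) / w ≤ 1 / 64 := by
          rw [div_le_div_iff₀ (by linarith) (by norm_num)]
          linarith
        linarith
  · rw [Q13_zero P h β hβ, mul_zero]
    have h1 : (if U / V < rL P β then (0 : ℝ) else 0) + (if T < rR P β then (0 : ℝ) else 0) = 0 := by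
      split_ifs <;> simp
    rw [h1, mul_zero, add_zero]
    exact hy

theorem DD_yH_ge {w : ℕ} {z T U V : ℝ} {g : Finset ℕ → ℝ} (hp : ParT P w z T U V g (Fintype.card κ) (Fintype.card ν)) (h : κ) :
    1 / 2 * (G1 P g ^ 2 * (G2 P g ^ (Fintype.card κ - 1) * SS P z ^ Fintype.card ν)) ≤
      DD P (yH P g z T U h : (P → Option (κ ⊕ ν)) → ℝ) := by
  classical
  have hG0 := Q13_G1_nonneg P hp
  have hw3 : (3 : ℝ) ≤ w := by exact_mod_cast hp.hw
  have hw1 : (1 : ℝ) < w := by linarith
  have hPw : ∀ p ∈ P, (w : ℝ) < p := fun p hpP => by exact_mod_cast hp.lt p hpP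
  have hG2 : 1 ≤ G2 P g := by
    unfold G2
    have h1 : g ∅ ^ 2 / ph ∅ = 1 := by rw [hp.gok.one, ph_empty]; norm_num
    rw [← h1]
    exact Finset.single_le_sum (f := fun A => g A ^ 2 / ph A)
      (fun A hA => div_nonneg (sq_nonneg _) (ph_pos P hp.prime (Finset.mem_powerset.1 hA)).le)
      (Finset.empty_mem_powerset P)
  have hSS := one_le_SS P hp.prime z
  have hFF : ∀ A ∈ P.powerset, 0 ≤ FF P z A := fun A hA =>
    FF_nonneg P hp.prime z (Finset.mem_powerset.1 hA)
  set M : ℝ := G2 P g ^ (Fintype.card κ - 1) * SS P z ^ Fintype.card ν with hM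
  have hM0 : 0 ≤ M := by positivity
  -- the whole sum
  have hprodall : ∏ i : κ ⊕ ν, ∑ A ∈ P.powerset, Q13_F P g z h i A = M := by
    rw [Fintype.prod_sum_type, Q13_prodF P hp h]
    simp only [Q13_F, Finset.prod_const, Finset.card_univ]
    rfl
  have h1 := sum_beta_geG (ι := κ ⊕ ν) P hp.prime (Q13_F P g z h)
    (fun i A hA => Q13_F_nonneg P hp h i (Finset.mem_powerset.1 hA)) (fun i p hpP => by
      have hp1 : 0 < (p : ℝ) - 1 := by linarith [hPw p hpP]
      rcases i with i | i
      · simp only [Q13_F]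
        split_ifs with hi
        · have h2 : ∑ A ∈ P.powerset with p ∈ A, (if A = ∅ then (1 : ℝ) else 0) = 0 := by
            refine Finset.sum_eq_zero fun A hA => ?_
            rw [if_neg]
            rintro rfl
            exact Finset.notMem_empty _ (Finset.mem_filter.1 hA).2
          have h3 : (0 : ℝ) ≤ (∑ A ∈ P.powerset, (if A = ∅ then (1 : ℝ) else 0)) / ((p : ℝ) - 1) :=
            div_nonneg (Finset.sum_nonneg fun A _ => by split_ifs <;> norm_num) hp1.le
          refine le_trans (le_of_eq ?_) h3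
          convert h2
        · have h2 := Q13_mem P hp 1 hpP
          rw [div_eq_mul_inv]
          convert h2
      · have h2 := sum_FF_mem P hp.prime hw1 hPw hp.hZ hpP
        simp only [Q13_F]
        convert h2)
  rw [hprodall] at h1
  have hcardsum : (Fintype.card (κ ⊕ ν) : ℝ) = ((Fintype.card κ + Fintype.card ν : ℕ) : ℝ) := by
    rw [Fintype.card_sum]
  have h2 : (Fintype.card (κ ⊕ ν) : ℝ) ^ 2 * ∑ p ∈ P, 1 / ((p : ℝ) - 1) ^ 2 ≤ 1 / 16 := by
    rw [hcardsum]
    have hsq := sum_inv_sq P (by have := hp.hw; omega : 2 ≤ w) hp.lt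
    refine (mul_le_mul_of_nonneg_left hsq (sq_nonneg _)).trans ?_
    rw [mul_one_div, div_le_iff₀ (by linarith)]
    have := hp.c1
    linarith
  have h3 : M * (15 / 16) ≤ ∑ β : P → Option (κ ⊕ ν), ∏ i, Q13_F P g z h i (fb P β i) := by
    refine le_trans (mul_le_mul_of_nonneg_left ?_ hM0) h1
    linarith
  -- sums over families
  have hK1 : ∀ A : κ → Finset ℕ, ∏ i : κ, Q13_F (ν := ν) P g z h (Sum.inl i) (A i) =
      ∏ i, (if i = h then (if A i = ∅ then 1 else 0) else g (A i) ^ 2 / ph (A i)) := fun A => rfl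
  have hsumK : ∑ A ∈ Fintype.piFinset (fun _ : κ => P.powerset),
      ∏ i : κ, Q13_F (ν := ν) P g z h (Sum.inl i) (A i) = G2 P g ^ (Fintype.card κ - 1) := by
    rw [← Finset.prod_univ_sum (fun _ : κ => P.powerset)
      (fun i A => Q13_F (ν := ν) P g z h (Sum.inl i) A), Q13_prodF P hp h]
  have hsumN : ∑ A ∈ Fintype.piFinset (fun _ : ν => P.powerset), ∏ i, FF P z (A i) =
      SS P z ^ Fintype.card ν := sum_fam_prod P (FF P z)
  have hnonK : ∀ A ∈ Fintype.piFinset (fun _ : κ => P.powerset),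
      0 ≤ ∏ i : κ, Q13_F (ν := ν) P g z h (Sum.inl i) (A i) := fun A hA =>
    Finset.prod_nonneg fun i _ => Q13_F_nonneg P hp h _
      (Finset.mem_powerset.1 (Fintype.mem_piFinset.1 hA i))
  have hnonN : ∀ A ∈ Fintype.piFinset (fun _ : ν => P.powerset), 0 ≤ ∏ i, FF P z (A i) :=
    fun A hA => Finset.prod_nonneg fun i _ => hFF _ (Fintype.mem_piFinset.1 hA i)
  have hsplit : ∀ β : P → Option (κ ⊕ ν), ∏ i, Q13_F P g z h i (fb P β i) =
      (∏ i : κ, Q13_F (ν := ν) P g z h (Sum.inl i) (fb P β (Sum.inl i))) *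
        ∏ i : ν, FF P z (fb P β (Sum.inr i)) := fun β => Fintype.prod_sum_type _
  -- first exceptional set
  have hb1 : ∑ β : P → Option (κ ⊕ ν),
      (if U / V < rL P β then ∏ i, Q13_F P g z h i (fb P β i) else 0) ≤ 1 / 8 * M := by
    have e1 := sum_pair_le (κ := κ) (ν := ν) P
      (fun A => if U / V < ∏ i, rr (A i) then
        ∏ i : κ, Q13_F (ν := ν) P g z h (Sum.inl i) (A i) else 0)
      (fun A => ∏ i, FF P z (A i)) (fun A hA => by
        split_ifs
        · exact hnonK A hA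
        · exact le_rfl) hnonN
    have e2 : ∑ β : P → Option (κ ⊕ ν),
        (if U / V < rL P β then ∏ i, Q13_F P g z h i (fb P β i) else 0) =
        ∑ β : P → Option (κ ⊕ ν),
          (if U / V < ∏ i : κ, rr (fb P β (Sum.inl i)) then
            ∏ i : κ, Q13_F (ν := ν) P g z h (Sum.inl i) (fb P β (Sum.inl i)) else 0) *
          ∏ i : ν, FF P z (fb P β (Sum.inr i)) := by
      refine Finset.sum_congr rfl fun β _ => ?_
      rw [hsplit β, ite_mul, zero_mul]
      rfl
    rw [e2]
    refine e1.trans ?_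
    rw [hsumN]
    have hUV : 1 < U / V := by
      rw [lt_div_iff₀ (by linarith [hp.hV]), one_mul]
      exact hp.hUV
    have e3 := markovH (κ := κ) P hp.prime (fun A => g A ^ 2 / ph A)
      (fun A hA => div_nonneg (sq_nonneg _) (ph_pos P hp.prime (Finset.mem_powerset.1 hA)).le)
      hG2 hUV h
    rw [Finset.sum_filter] at e3
    have e4 : ∑ A ∈ Fintype.piFinset (fun _ : κ => P.powerset),
        (if U / V < ∏ i, rr (A i) then
          ∏ i : κ, Q13_F (ν := ν) P g z h (Sum.inl i) (A i) else 0) ≤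
        G2 P g ^ (Fintype.card κ - 1) * (1 / 8) := by
      refine le_trans (le_of_eq ?_) (e3.trans ?_)
      · refine Finset.sum_congr rfl fun A _ => ?_
        rw [hK1]
      · change G2 P g ^ (Fintype.card κ - 1) *
          (Fintype.card κ * (G3 P g / G2 P g) / Real.log (U / V)) ≤ _
        refine mul_le_mul_of_nonneg_left ?_ (by positivity)
        have hl : 0 < Real.log (U / V) := Real.log_pos hUV
        have hc4 := hp.c4
        have hG2' : 0 < G2 P g := by linarith
        rw [div_le_iff₀ hl, ← mul_div_assoc, div_le_iff₀ hG2']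
        linarith
    calc _ ≤ (G2 P g ^ (Fintype.card κ - 1) * (1 / 8)) * SS P z ^ Fintype.card ν :=
          mul_le_mul_of_nonneg_right e4 (by positivity)
      _ = 1 / 8 * M := by rw [hM]; ring
  -- second exceptional set
  have hb2 : ∑ β : P → Option (κ ⊕ ν),
      (if T < rR P β then ∏ i, Q13_F P g z h i (fb P β i) else 0) ≤ 1 / 8 * M := by
    have e1 := sum_pair_le (κ := κ) (ν := ν) P
      (fun A => ∏ i : κ, Q13_F (ν := ν) P g z h (Sum.inl i) (A i))
      (fun A => if T < ∏ i, rr (A i) then ∏ i, FF P z (A i) else 0) hnonK (fun A hA => by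
        split_ifs
        · exact hnonN A hA
        · exact le_rfl)
    have e2 : ∑ β : P → Option (κ ⊕ ν),
        (if T < rR P β then ∏ i, Q13_F P g z h i (fb P β i) else 0) =
        ∑ β : P → Option (κ ⊕ ν),
          (∏ i : κ, Q13_F (ν := ν) P g z h (Sum.inl i) (fb P β (Sum.inl i))) *
          (if T < ∏ i : ν, rr (fb P β (Sum.inr i)) then
            ∏ i : ν, FF P z (fb P β (Sum.inr i)) else 0) := by
      refine Finset.sum_congr rfl fun β _ => ?_
      rw [hsplit β, mul_ite, mul_zero]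
      rfl
    rw [e2]
    refine e1.trans ?_
    rw [hsumK]
    have e3 := markov (ι := ν) P hp.prime (FF P z) hFF hSS hp.hT
    rw [sum_FF_log P hp.prime hw1 hPw hp.hZ, Finset.sum_filter] at e3
    have e4 : ∑ A ∈ Fintype.piFinset (fun _ : ν => P.powerset),
        (if T < ∏ i, rr (A i) then ∏ i, FF P z (A i) else 0) ≤
        SS P z ^ Fintype.card ν * (1 / 8) := by
      refine le_trans (le_of_eq ?_) (e3.trans ?_)
      · exact Finset.sum_congr rfl fun A _ => by congr!
      · change SS P z ^ Fintype.card ν * (Fintype.card ν * (1 / ZZ P z) / Real.log T) ≤ _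
        refine mul_le_mul_of_nonneg_left ?_ (by positivity)
        have hl : 0 < Real.log T := Real.log_pos hp.hT
        have hZ0 : 0 < ZZ P z := ZZ_pos_of hw1 hp.hZ
        have hc3 := hp.c3
        rw [div_le_iff₀ hl, mul_one_div, div_le_iff₀ hZ0]
        linarith
    calc _ ≤ G2 P g ^ (Fintype.card κ - 1) * (SS P z ^ Fintype.card ν * (1 / 8)) :=
          mul_le_mul_of_nonneg_left e4 (by positivity)
      _ = 1 / 8 * M := by rw [hM]; ring
  -- conclusion
  have hfin := Finset.sum_le_sum fun (β : P → Option (κ ⊕ ν)) (_ : β ∈ Finset.univ) =>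
    Q13_point P hp h β
  rw [← Finset.mul_sum, Finset.sum_add_distrib, ← Finset.mul_sum, Finset.sum_add_distrib] at hfin
  have hc : 0 ≤ (63 / 64 * G1 P g) ^ 2 := sq_nonneg _
  have e5 := mul_le_mul_of_nonneg_left h3 hc
  have e6 := mul_le_mul_of_nonneg_left (add_le_add hb1 hb2) hc
  have e7 : (63 / 64 * G1 P g) ^ 2 * (M * (11 / 16)) ≤
      ∑ β : P → Option (κ ⊕ ν), yH P g z T U h β ^ 2 / ph (sp P β) := by
    nlinarith
  refine le_trans ?_ e7
  have e8 : 0 ≤ G1 P g ^ 2 * M := by positivity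
  nlinarith

end Pool.Agent.LibT63
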