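import Pool.Agent.LibT63.Q9
import Pool.Agent.LibT63.Q13
import Pool.Agent.LibRG87.R9

/-!
Row Q14 (the conditions of QF for the three coefficient functions). `ro_le`: `∏_{p:P} ro ≤ exp (N' ∑_{p ∈ P} 1/(p-1)^2 + |sp β| (2 N' + 2)/w)`, `N' = K + N`: `N' /(w-1) ≤ 1/16` (`sum_inv_sq`, `c1`),
`|sp β| ≤ log (TU)/log w`, `c2`: `≤ 1/32`; `exp (3/32) ≤ 9/8`. `abs_yS_le`: `0 ≤ cc ≤ 1`. `abs_yH_le`: `gH_le`. Supports: `yJ ≠ 0` gives `rL ≤ U`, `rR ≤ T`.
-/

open Finset

namespace Pool.Agent.LibT63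

open Pool.Agent.LibRG87 Pool.Agent.LibLG5 Pool.Agent.LibPL63

variable {κ ν : Type} [Fintype κ] [DecidableEq κ] [Fintype ν] [DecidableEq ν] (P : Finset ℕ)

theorem ro_le {w : ℕ} {z T U V : ℝ} {g : Finset ℕ → ℝ} {K N : ℕ} (hp : ParT P w z T U V g K N)
    (β : P → Option (κ ⊕ ν)) (h : rr (sp P β) ≤ T * U) : ∏ p : P, ro (K + N) (p : ℕ) (β p) ≤ 1 + 1 / 8 := by
  classical
  have hw3 : (3 : ℝ) ≤ w := by exact_mod_cast hp.hw
  have hw1 : (1 : ℝ) < w := by linarith
  have hPw : ∀ p ∈ P, (w : ℝ) < p := fun p hpP => by exact_mod_cast hp.lt p hpP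
  set N' : ℝ := ((K + N : ℕ) : ℝ) with hN'
  have hN1 : 1 ≤ N' := by
    rw [hN']
    have := hp.hK
    exact_mod_cast (by omega : 1 ≤ K + N)
  have hlogw : 0 < Real.log w := Real.log_pos hw1
  set f : ℕ → ℝ := fun p => N' / ((p : ℝ) - 1) ^ 2 with hf
  set q : P → ℝ := fun p => if β p ≠ none then (2 * N' + 2) / (w : ℝ) else 0 with hq
  have h1 : ∏ p : P, ro (K + N) (p : ℕ) (β p) ≤ ∏ p : P, Real.exp (f p + q p) := by
    refine Finset.prod_le_prod ?_ ?_
    · intro p _
      have hp1 := hPw p p.2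
      unfold ro
      cases β p with
      | none => positivity
      | some i =>
        have : 0 < (p : ℝ) - 1 := by linarith
        simp only
        positivity
    · intro p _
      have hp1 := hPw p p.2
      have hp2 : (w : ℝ) ≤ (p : ℝ) - 1 := by
        have : w + 1 ≤ (p : ℕ) := hp.lt p p.2
        have h3 : ((w + 1 : ℕ) : ℝ) ≤ ((p : ℕ) : ℝ) := by exact_mod_cast this
        push_cast at h3
        linarith
      have hp0 : 0 < (p : ℝ) - 1 := by linarith
      rcases hβ : β p with _ | i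
      · have hqp : q p = 0 := by simp [hq, hβ]
        rw [hqp, add_zero]
        have := Real.add_one_le_exp (f p)
        have e : ro (ι := κ ⊕ ν) (K + N) (p : ℕ) none = f p + 1 := by
          simp only [ro, hf]; rw [← hN']; ring
        rw [e]
        exact this
      · have hqp : q p = (2 * N' + 2) / (w : ℝ) := by simp [hq, hβ]
        rw [hqp]
        have e : ro (ι := κ ⊕ ν) (K + N) (p : ℕ) (some i) = (2 * N' + 2) / ((p : ℝ) - 1) + 1 := by
          simp only [ro]; rw [← hN']; ring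
        rw [e]
        have h4 : (2 * N' + 2) / ((p : ℝ) - 1) ≤ (2 * N' + 2) / (w : ℝ) :=
          div_le_div_of_nonneg_left (by linarith) (by linarith) hp2
        have h5 : 0 ≤ f p := by simp only [hf]; positivity
        have := Real.add_one_le_exp (f p + (2 * N' + 2) / (w : ℝ))
        linarith
  have h2 : ∏ p : P, Real.exp (f p + q p) = Real.exp (∑ p ∈ P, f p + ((sp P β).card : ℝ) * ((2 * N' + 2) / w)) := by
    rw [← Real.exp_sum, Finset.sum_add_distrib, Finset.sum_coe_sort P f]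
    congr 2
    rw [hq, Finset.sum_ite, Finset.sum_const, Finset.sum_const_zero, add_zero, nsmul_eq_mul]
    congr 2
    unfold sp
    rw [Finset.card_image_of_injective _ Subtype.val_injective]
  have h3 : ∑ p ∈ P, f p ≤ 1 / 16 := by
    have h4 : ∑ p ∈ P, f p = N' * ∑ p ∈ P, 1 / ((p : ℝ) - 1) ^ 2 := by
      rw [Finset.mul_sum]
      refine Finset.sum_congr rfl fun p _ => ?_
      simp only [hf]; ring
    have h5 := sum_inv_sq P (w := w) (by have := hp.hw; omega) hp.lt
    rw [h4]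
    calc N' * ∑ p ∈ P, 1 / ((p : ℝ) - 1) ^ 2 ≤ N' * (1 / ((w : ℝ) - 1)) :=
          mul_le_mul_of_nonneg_left h5 (by linarith)
      _ ≤ 1 / 16 := by
          have h6 := hp.c1
          rw [← hN'] at h6
          rw [mul_one_div, div_le_div_iff₀ (by linarith) (by norm_num)]
          nlinarith
  have h4 : ((sp P β).card : ℝ) * ((2 * N' + 2) / w) ≤ 1 / 32 := by
    have h5 := card_sp_le P hp.prime hw1 hPw β
    have h6 : Real.log (rr (sp P β)) ≤ Real.log (T * U) :=
      Real.log_le_log (rr_pos P hp.prime (sp_subset P β)) h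
    have h7 := hp.c2
    have h8 : ((K + N + 1 : ℕ) : ℝ) = N' + 1 := by rw [hN']; push_cast; ring
    rw [h8] at h7
    have h9 : (0 : ℝ) ≤ (sp P β).card := by positivity
    have h10 : ((sp P β).card : ℝ) * Real.log w * (64 * (N' + 1)) ≤ ((w : ℝ) - 1) * Real.log w := by
      calc ((sp P β).card : ℝ) * Real.log w * (64 * (N' + 1)) ≤ Real.log (T * U) * (64 * (N' + 1)) :=
            mul_le_mul_of_nonneg_right (h5.trans h6) (by linarith)
        _ = 64 * ((N' + 1) * Real.log (T * U)) := by ring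
        _ ≤ _ := h7
    have h11 : ((sp P β).card : ℝ) * (64 * (N' + 1)) ≤ (w : ℝ) - 1 := by
      by_contra hc
      push Not at hc
      have := mul_lt_mul_of_pos_right hc hlogw
      linarith
    rw [← mul_div_assoc, div_le_div_iff₀ (by linarith) (by norm_num)]
    nlinarith
  calc ∏ p : P, ro (K + N) (p : ℕ) (β p) ≤ Real.exp (∑ p ∈ P, f p + ((sp P β).card : ℝ) * ((2 * N' + 2) / w)) := by
        rw [← h2]; exact h1
    _ ≤ Real.exp (3 / 32) := Real.exp_le_exp.mpr (by linarith)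
    _ ≤ 1 + 1 / 8 := by
        have h5 := Real.add_one_le_exp (-(3 / 32) : ℝ)
        have h6 : Real.exp (3 / 32) * Real.exp (-(3 / 32)) = 1 := by
          rw [← Real.exp_add]; norm_num
        have h7 := Real.exp_pos (3 / 32 : ℝ)
        nlinarith

theorem yJ_supp {w : ℕ} {z T U V : ℝ} {g : Finset ℕ → ℝ} {K N : ℕ} (hp : ParT P w z T U V g K N)
    (β : P → Option (κ ⊕ ν)) (h : yJ P g z T U β ≠ 0) : rr (sp P β) ≤ T * U := by
  classical
  have h1 : rL P β ≤ U ∧ rR P β ≤ T := by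
    by_contra hc
    exact h (by unfold yJ; rw [if_neg hc])
  have h2 : rr (sp P β) = rL P β * rR P β := by
    rw [rr_sp, Fintype.prod_sum_type]
    rfl
  have h3 : 0 ≤ rL P β := Finset.prod_nonneg fun i _ => (rr_pos P hp.prime (fb_subset P β _)).le
  have h4 : 0 ≤ rR P β := Finset.prod_nonneg fun i _ => (rr_pos P hp.prime (fb_subset P β _)).le
  rw [h2, mul_comm T U]
  exact mul_le_mul h1.1 h1.2 h4 (h3.trans h1.1)

theorem abs_yS_le {w : ℕ} {z T U V : ℝ} {g : Finset ℕ → ℝ} {K N : ℕ} (hp : ParT P w z T U V g K N) (s : ν)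
    (β : P → Option (κ ⊕ ν)) : |yS P g z T U s β| ≤ |yJ P g z T U β| := by
  classical
  have hw3 : (3 : ℝ) ≤ w := by exact_mod_cast hp.hw
  have hw1 : (1 : ℝ) < w := by linarith
  have hPw : ∀ p ∈ P, (w : ℝ) < p := fun p hpP => by exact_mod_cast hp.lt p hpP
  unfold yS
  split_ifs with h1
  · rw [abs_mul]
    have h2 := cc_nonneg P hp.prime hw1 hPw hp.hZ (T := T * rL P β) β
    have h3 := cc_le_one P hp.prime hw1 hPw hp.hZ (T := T * rL P β) β
    rw [abs_of_nonneg h2]
    exact mul_le_of_le_one_right (abs_nonneg _) h3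
  · rw [abs_zero]
    exact abs_nonneg _

theorem abs_yH_le {w : ℕ} {z T U V : ℝ} {g : Finset ℕ → ℝ} {K N : ℕ} (hp : ParT P w z T U V g K N) (h : κ)
    (β : P → Option (κ ⊕ ν)) : |yH P g z T U h β| ≤ G1 P g * |yJ P g z T U β| := by
  classical
  obtain ⟨h2, h3⟩ := gH_le P hp β
  unfold yH
  split_ifs with h1
  · rw [abs_mul, abs_of_nonneg h2, mul_comm]
    exact mul_le_mul_of_nonneg_right h3 (abs_nonneg _)
  · rw [abs_zero]
    exact mul_nonneg (h2.trans h3) (abs_nonneg _)

theorem yH_alw {z T U : ℝ} {g : Finset ℕ → ℝ} (h : κ) (β : P → Option (κ ⊕ ν)) (hy : yH P g z T U h β ≠ 0) :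
    alw P (univ.erase (Sum.inl h)) β := by
  classical
  have h1 : ∀ p, β p ≠ some (Sum.inl h) := by
    by_contra hc
    exact hy (by unfold yH; rw [if_neg hc])
  intro p i hi
  rw [Finset.mem_erase]
  refine ⟨?_, Finset.mem_univ _⟩
  rintro rfl
  exact h1 p hi

end Pool.Agent.LibT63
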