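import Pool.Agent.LibT63.QDefs

/-!
Row Q15 (local hypotheses). `LibPL63.SA9`: `sum_psi`, `sum_psi_sq`, `sum_psi_psi`, `Q_psi`, `Q_psi_sq`, `Q_psi_psi`, `not_modEq`; see `locOK_avgU`, `locOK_avgQ` there. `∑ lpP = 1`: `lpP_eq` (or `lpP_sum`).
-/

open Finset

namespace Pool.Agent.LibT63

open Pool.Agent.LibRG87 Pool.Agent.LibLG5 Pool.Agent.LibPL63

variable {ι : Type} [Fintype ι] [DecidableEq ι] (P : Finset ℕ)

private theorem Q15_El_U (p : ℕ) (g : ℕ → ℝ) : El lpU p g = (∑ x ∈ range p, g x) / p := by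
  unfold El lpU
  rw [sum_div]
  refine sum_congr rfl fun x _ => ?_
  ring

private theorem Q15_sum_lpP {p : ℕ} (hp3 : 3 ≤ p) (a : ℕ) : ∑ x ∈ range p, lpP a p x = 1 := by
  have h2 : (3 : ℝ) ≤ p := by exact_mod_cast hp3
  have h3 : (p : ℝ) - 1 ≠ 0 := by linarith
  simp only [lpP_eq]
  rw [← sum_mul, sum_sub_distrib, R8b_sum_I (by omega)]
  simp only [sum_const, card_range, nsmul_eq_mul]
  field_simp

omit [Fintype ι] [DecidableEq ι] in
private theorem Q15_three {w : ℕ} (hw : 3 ≤ w) (hPw : ∀ p ∈ P, w < p) : ∀ p ∈ P, 3 ≤ p := by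
  intro p hp
  have := hPw p hp
  omega

theorem locT_U (hP : ∀ p ∈ P, p.Prime) {w : ℕ} (hw : 3 ≤ w) (hPw : ∀ p ∈ P, w < p) (b : ι → ℕ)
    (hb : Function.Injective b) (hbw : ∀ i, b i ≤ w) : LocT P lpU b univ where
  prime := hP
  three := Q15_three P hw hPw
  sum := fun p hp => by
    have h1 := Q15_three P hw hPw p hp
    have h2 : (p : ℝ) ≠ 0 := by
      have : p ≠ 0 := by omega
      exact_mod_cast this
    unfold lpU
    rw [sum_const, card_range, nsmul_eq_mul, mul_one_div, div_self h2]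
  nonneg := fun p _ x => by
    unfold lpU
    positivity
  inc := fun p hp i _ j _ hij => not_modEq (hPw p hp) (hbw i) (hbw j) (hb.ne hij)
  m1 := fun p hp i _ => by
    have h1 := Q15_three P hw hPw p hp
    rw [Q15_El_U, sum_psi h1, zero_div, abs_zero]
    positivity
  m2 := fun p hp i _ => by
    have h1 := Q15_three P hw hPw p hp
    have h2 : (3 : ℝ) ≤ p := by exact_mod_cast h1
    have h3 : (p : ℝ) - 1 ≠ 0 := by linarith
    have h4 : (p : ℝ) ≠ 0 := by linarith
    rw [Q15_El_U, sum_psi_sq h1]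
    have h5 : (p : ℝ) / ((p : ℝ) - 1) / p - 1 / ((p : ℝ) - 1) = 0 := by
      field_simp
      ring
    rw [h5, abs_zero]
    positivity
  m3 := fun p hp i _ j _ hij => by
    have h1 := Q15_three P hw hPw p hp
    have h2 : (3 : ℝ) ≤ p := by exact_mod_cast h1
    have h3 : (p : ℝ) - 1 ≠ 0 := by linarith
    have h4 : (p : ℝ) ≠ 0 := by linarith
    rw [Q15_El_U, sum_psi_psi h1 (not_modEq (hPw p hp) (hbw i) (hbw j) (hb.ne hij))]
    have h5 : -((p : ℝ) / ((p : ℝ) - 1) ^ 2) / p = -(1 / ((p : ℝ) - 1) ^ 2) := by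
      field_simp
    rw [h5, abs_neg, abs_of_nonneg (by positivity)]
    exact div_le_div_of_nonneg_right (by norm_num) (by positivity)

theorem locT_P (hP : ∀ p ∈ P, p.Prime) {w : ℕ} (hw : 3 ≤ w) (hPw : ∀ p ∈ P, w < p) (b : ι → ℕ)
    (hb : Function.Injective b) (hbw : ∀ i, b i ≤ w) (i0 : ι) : LocT P (lpP (b i0)) b (univ.erase i0) where
  prime := hP
  three := Q15_three P hw hPw
  sum := fun p hp => Q15_sum_lpP (Q15_three P hw hPw p hp) (b i0)
  nonneg := fun p hp x => by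
    have h1 := Q15_three P hw hPw p hp
    have h2 : (3 : ℝ) ≤ p := by exact_mod_cast h1
    unfold lpP
    split_ifs
    · exact le_rfl
    · exact div_nonneg zero_le_one (by linarith)
  inc := fun p hp i _ j _ hij => not_modEq (hPw p hp) (hbw i) (hbw j) (hb.ne hij)
  m1 := fun p hp i hi => by
    have h1 := Q15_three P hw hPw p hp
    have hne : i0 ≠ i := (ne_of_mem_erase hi).symm
    unfold El
    rw [Q_psi h1 (not_modEq (hPw p hp) (hbw i0) (hbw i) (hb.ne hne)), abs_neg,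
      abs_of_nonneg (by positivity)]
  m2 := fun p hp i hi => by
    have h1 := Q15_three P hw hPw p hp
    have hne : i0 ≠ i := (ne_of_mem_erase hi).symm
    have h2 : (3 : ℝ) ≤ p := by exact_mod_cast h1
    have h3 : (0 : ℝ) < (p : ℝ) - 1 := by linarith
    unfold El
    rw [Q_psi_sq h1 (not_modEq (hPw p hp) (hbw i0) (hbw i) (hb.ne hne))]
    have h5 : (((p : ℝ) / ((p : ℝ) - 1)) - 1 / ((p : ℝ) - 1) ^ 2) / ((p : ℝ) - 1) -
        1 / ((p : ℝ) - 1) = ((p : ℝ) - 2) / ((p : ℝ) - 1) ^ 3 := by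
      field_simp
      ring
    rw [h5, abs_of_nonneg (div_nonneg (by linarith) (by positivity)),
      div_le_div_iff₀ (by positivity) (by positivity)]
    nlinarith [pow_pos h3 2]
  m3 := fun p hp i hi j hj hij => by
    have h1 := Q15_three P hw hPw p hp
    have hni : i0 ≠ i := (ne_of_mem_erase hi).symm
    have hnj : i0 ≠ j := (ne_of_mem_erase hj).symm
    have h2 : (3 : ℝ) ≤ p := by exact_mod_cast h1
    have h3 : (0 : ℝ) < (p : ℝ) - 1 := by linarith
    unfold El
    rw [Q_psi_psi h1 (not_modEq (hPw p hp) (hbw i0) (hbw i) (hb.ne hni))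
      (not_modEq (hPw p hp) (hbw i0) (hbw j) (hb.ne hnj))
      (not_modEq (hPw p hp) (hbw i) (hbw j) (hb.ne hij)), abs_neg,
      abs_of_nonneg (by positivity), div_le_div_iff₀ (by positivity) (by positivity)]
    nlinarith [pow_pos h3 2, pow_pos h3 3]

end Pool.Agent.LibT63
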