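import Pool.Agent.LibT63.QDefs

/-!
Row Q7 (collapse for general coefficients). As `collapse` in LibRG87.R10 (same proof, `Finset.sum_fiberwise` over `R10_rem P i0`, bijection `β ↦ fb P β i0`, `A ↦ R10_ins P i0 A β'`), with
`R10_ee` : `ee P b β n = ee P b (R10_rem P i0 β) n * (ph (fb P β i0))⁻¹`; a `β` in the fibre of `β'` is `R10_ins P i0 (fb P β i0) β'`.
-/

open Finset

namespace Pool.Agent.LibT63

open Pool.Agent.LibRG87 Pool.Agent.LibLG5 Pool.Agent.LibPL63

variable {ι : Type} [Fintype ι] [DecidableEq ι] (P : Finset ℕ)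

theorem collapseG (b : ι → ℕ) (y : (P → Option ι) → ℝ) (i0 : ι) (n : ℕ) (hn : ∀ p ∈ P, ¬ p ∣ n + b i0) :
    PhiF P b y n = PhiF P b (yCo P i0 y) n := by
  classical
  unfold PhiF
  rw [← Finset.sum_fiberwise univ (R10_rem P i0) (fun β => y β * ee P b β n)]
  refine Finset.sum_congr rfl fun β' _ => ?_
  by_cases hβ' : ∀ p, β' p ≠ some i0
  · have h1 : yCo P i0 y β' =
        ∑ A ∈ (P \ sp P β').powerset, y (R10_ins P i0 A β') / ph A := by
      unfold yCo
      rw [if_pos hβ']
    rw [h1]
    have hinv : ∀ β : P → Option ι, R10_rem P i0 β = β' →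
        R10_ins P i0 (fb P β i0) β' = β := by
      intro β hβ2
      funext p
      unfold R10_ins
      by_cases hp : β p = some i0
      · rw [if_pos ((mem_fb P).2 ⟨p.2, hp⟩), hp]
      · have h3 : (p : ℕ) ∉ fb P β i0 := by
          intro h4
          obtain ⟨_, h5⟩ := (mem_fb P).1 h4
          exact hp h5
        rw [if_neg h3, ← hβ2]
        unfold R10_rem
        rw [if_neg hp]
    have h2 : ∑ β ∈ univ with R10_rem P i0 β = β', y β * ee P b β n =
        ∑ A ∈ (P \ sp P β').powerset, y (R10_ins P i0 A β') / ph A * ee P b β' n := by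
      refine Finset.sum_nbij' (fun β => fb P β i0) (fun A => R10_ins P i0 A β') ?_ ?_ ?_ ?_ ?_
      · intro β hβ
        have hβ2 := (Finset.mem_filter.1 hβ).2
        rw [Finset.mem_powerset]
        intro q hq
        obtain ⟨hqP, h3⟩ := (mem_fb P).1 hq
        rw [Finset.mem_sdiff]
        refine ⟨hqP, fun h4 => ?_⟩
        obtain ⟨_, h5⟩ := (mem_sp P).1 h4
        apply h5
        rw [← hβ2]
        unfold R10_rem
        rw [if_pos h3]
      · intro A hA
        rw [Finset.mem_powerset] at hA
        rw [Finset.mem_filter]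
        refine ⟨mem_univ _, ?_⟩
        funext p
        unfold R10_rem R10_ins
        by_cases hp : (p : ℕ) ∈ A
        · rw [if_pos hp, if_pos rfl]
          have h3 := (Finset.mem_sdiff.1 (hA hp)).2
          rw [mem_sp] at h3
          by_contra h4
          exact h3 ⟨p.2, fun h5 => h4 h5.symm⟩
        · rw [if_neg hp, if_neg (hβ' p)]
      · intro β hβ
        exact hinv β (Finset.mem_filter.1 hβ).2
      · intro A hA
        rw [Finset.mem_powerset] at hA
        ext q
        rw [mem_fb]
        constructor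
        · rintro ⟨hq, h3⟩
          unfold R10_ins at h3
          by_contra h4
          rw [if_neg h4] at h3
          exact hβ' _ h3
        · intro hq
          refine ⟨(Finset.mem_sdiff.1 (hA hq)).1, ?_⟩
          unfold R10_ins
          rw [if_pos hq]
      · intro β hβ
        have hβ2 := (Finset.mem_filter.1 hβ).2
        have h3 := R10_ee P b i0 n hn β
        show y β * ee P b β n =
          y (R10_ins P i0 (fb P β i0) β') / ph (fb P β i0) * ee P b β' n
        rw [hinv β hβ2, h3, hβ2]
        ring
    rw [h2, ← Finset.sum_mul]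
  · have h1 : yCo P i0 y β' = 0 := by
      unfold yCo
      rw [if_neg hβ']
    rw [h1, zero_mul]
    push Not at hβ'
    obtain ⟨p, hp⟩ := hβ'
    refine Finset.sum_eq_zero fun β hβ => ?_
    have hβ2 := (Finset.mem_filter.1 hβ).2
    exfalso
    rw [← hβ2] at hp
    exact R10_rem_ne P i0 β p hp

end Pool.Agent.LibT63
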