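import Pool.Agent.LibT63.Q6
import Pool.Agent.LibT63.Q7
import Pool.Agent.LibT63.Q12
import Pool.Agent.LibT63.Q14
import Pool.Agent.LibT63.Q15

/-!
Row Q16 (the three averages). `QF` with `δ = 1/8`, `N := K + N = card (κ ⊕ ν)`, `R0 = T U`, `mj = |yJ|` (`yJ_mono`; `DD P |yJ| = DD P yJ`), for `yH`: `mj = G1 |yJ|`.
`M := G2 ^ K * SS ^ N`.
-/

open Finset

namespace Pool.Agent.LibT63

open Pool.Agent.LibRG87 Pool.Agent.LibLG5 Pool.Agent.LibPL63

variable {κ ν : Type} [Fintype κ] [DecidableEq κ] [Fintype ν] [DecidableEq ν] (P : Finset ℕ)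

private theorem Q16_N {w : ℕ} {z T U V : ℝ} {g : Finset ℕ → ℝ} {K N : ℕ} (hp : ParT P w z T U V g K N) :
    ∀ p ∈ P, ((K + N : ℕ) : ℝ) ≤ (p : ℝ) - 1 := by
  intro p hpP
  have h1 : ((w : ℕ) : ℝ) < p := by exact_mod_cast hp.lt p hpP
  have h2 := hp.c1
  have h3 : ((K + N : ℕ) : ℝ) ≤ 16 * (((K + N : ℕ) : ℝ)) ^ 2 := by
    rcases Nat.eq_zero_or_pos (K + N) with h0 | h0
    · rw [h0]
      norm_num
    · have h4 : (1 : ℝ) ≤ ((K + N : ℕ) : ℝ) := by exact_mod_cast h0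
      nlinarith
  linarith

private theorem Q16_DD_abs {ι : Type} [Fintype ι] [DecidableEq ι] (y : (P → Option ι) → ℝ) :
    DD P (fun β => |y β|) = DD P y := by
  unfold DD
  refine Finset.sum_congr rfl fun β _ => ?_
  rw [sq_abs]

private theorem Q16_DD_G {ι : Type} [Fintype ι] [DecidableEq ι] (G : ℝ) (y : (P → Option ι) → ℝ) :
    DD P (fun β => G * |y β|) = G ^ 2 * DD P y := by
  unfold DD
  rw [Finset.mul_sum]
  refine Finset.sum_congr rfl fun β _ => ?_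
  rw [mul_pow, sq_abs, mul_div_assoc]

private theorem Q16_ph {A : Finset ℕ} (hP : ∀ p ∈ P, p.Prime) (hA : A ⊆ P) : 0 ≤ ph A := by
  unfold ph
  refine Finset.prod_nonneg fun p hp => ?_
  have : (1 : ℝ) ≤ p := by exact_mod_cast (hP p (hA hp)).one_le
  linarith

private theorem Q16_G2 (hP : ∀ p ∈ P, p.Prime) (g : Finset ℕ → ℝ) : 0 ≤ G2 P g := by
  unfold G2
  exact Finset.sum_nonneg fun A hA =>
    div_nonneg (sq_nonneg _) (Q16_ph P hP (Finset.mem_powerset.1 hA))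

private theorem Q16_SS (hP : ∀ p ∈ P, p.Prime) (z : ℝ) : 0 ≤ SS P z := by
  unfold SS FF
  exact Finset.sum_nonneg fun A hA =>
    div_nonneg (sq_nonneg _) (Q16_ph P hP (Finset.mem_powerset.1 hA))

private theorem Q16_Etot {Q : ℝ} {N : ℕ} {er : Finset ℕ → ℝ} (her : ∀ E, 0 ≤ er E) :
    0 ≤ Etot P Q N er := by
  classical
  unfold Etot
  refine Finset.sum_nonneg fun E _ => mul_nonneg (by positivity) (her E)

/-- the form of `QF` which is used -/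
private theorem Q16_QF {w : ℕ} {z T U V : ℝ} {g : Finset ℕ → ℝ}
    (hp : ParT P w z T U V g (Fintype.card κ) (Fintype.card ν)) {lp : ℕ → ℕ → ℝ} {b : κ ⊕ ν → ℕ}
    {J : Finset (κ ⊕ ν)} (hL : LocT P lp b J) (s : Finset ℕ) (F : ℕ → ℝ) (er : Finset ℕ → ℝ)
    (hM : MZ P s F lp ((T * U) ^ 2) er) (y : (P → Option (κ ⊕ ν)) → ℝ) (G : ℝ)
    (hy : ∀ β, |y β| ≤ G * |yJ P g z T U β|) (hal : ∀ β, y β ≠ 0 → alw P J β) :
    |∑ n ∈ s, F n * PhiF P b y n ^ 2 - (∑ n ∈ s, F n) * DD P y| ≤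
      1 / 8 * ((∑ n ∈ s, F n) * DD P y) +
        (1 + 1 / 8) * Etot P ((T * U) ^ 2) (Fintype.card κ + Fintype.card ν) er *
          (G ^ 2 * DD P (yJ P g z T U : (P → Option (κ ⊕ ν)) → ℝ)) := by
  have hw1 : (1 : ℝ) < w := by
    have := hp.hw
    exact_mod_cast (by omega : 1 < w)
  have h1 := QF P hL (N := Fintype.card κ + Fintype.card ν) (le_of_eq Fintype.card_sum)
    (Q16_N P hp) s F (R0 := T * U) er hM y (fun β => G * |yJ P g z T U β|) hy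
    (fun β hβ => yJ_supp P hp β (fun h0 => hβ (by rw [h0, abs_zero, mul_zero]))) hal
    (fun β p => by
      show (G * |yJ P g z T U β|) ^ 2 ≤ (G * |yJ P g z T U (Function.update β p none)|) ^ 2
      rw [mul_pow, mul_pow, sq_abs, sq_abs]
      exact mul_le_mul_of_nonneg_left (yJ_mono P hp.prime hw1
        (fun p hpP => by exact_mod_cast hp.lt p hpP) hp.hZ hp.gok T U β p) (sq_nonneg G))
    (δ := 1 / 8)
    (fun β hβ => ro_le P hp β (yJ_supp P hp β (fun h0 => hβ (by rw [h0, abs_zero, mul_zero]))))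
  rw [Q16_DD_G] at h1
  exact h1

/-- all numbers -/
theorem avg_all {w : ℕ} {z T U V : ℝ} {g : Finset ℕ → ℝ} (hp : ParT P w z T U V g (Fintype.card κ) (Fintype.card ν))
    (b : κ ⊕ ν → ℕ) (hb : Function.Injective b) (hbw : ∀ i, b i ≤ w) (s : Finset ℕ) (om : ℕ → ℝ) (er : Finset ℕ → ℝ)
    (hU : MZ P s om lpU ((T * U) ^ 2) er) :
    ∑ n ∈ s, om n * PhiF P b (yJ P g z T U) n ^ 2 ≤
      9 / 8 * ((∑ n ∈ s, om n) + Etot P ((T * U) ^ 2) (Fintype.card κ + Fintype.card ν) er) *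
        (G2 P g ^ Fintype.card κ * SS P z ^ Fintype.card ν) := by
  have h1 := Q16_QF P hp (locT_U P hp.prime hp.hw hp.lt b hb hbw) s om er hU
    (yJ P g z T U) 1 (fun β => by rw [one_mul]) (fun β _ p i _ => Finset.mem_univ i)
  have h2 := (abs_le.1 h1).2
  have h3 := DD_yJ_le (κ := κ) (ν := ν) P hp
  set M := G2 P g ^ Fintype.card κ * SS P z ^ Fintype.card ν with hM
  set Dy := DD P (yJ P g z T U : (P → Option (κ ⊕ ν)) → ℝ) with hDy
  set E := Etot P ((T * U) ^ 2) (Fintype.card κ + Fintype.card ν) er with hE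
  have hE0 : 0 ≤ E := Q16_Etot P hU.er_nonneg
  have hS0 : 0 ≤ ∑ n ∈ s, om n := Finset.sum_nonneg fun n hn => hU.F_nonneg n hn
  have h4 : 9 / 8 * ((∑ n ∈ s, om n) + E) * Dy ≤ 9 / 8 * ((∑ n ∈ s, om n) + E) * M :=
    mul_le_mul_of_nonneg_left h3 (by positivity)
  nlinarith

/-- the position `i` is not covered -/
theorem avg_unc {w : ℕ} {z T U V : ℝ} {g : Finset ℕ → ℝ} (hp : ParT P w z T U V g (Fintype.card κ) (Fintype.card ν))
    (b : κ ⊕ ν → ℕ) (hb : Function.Injective b) (hbw : ∀ i, b i ≤ w) (s : Finset ℕ) (om : ℕ → ℝ) (er : Finset ℕ → ℝ)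
    (hU : MZ P s om lpU ((T * U) ^ 2) er) (i : ν) :
    ∑ n ∈ s with (∀ p ∈ P, ¬ p ∣ n + b (Sum.inr i)), om n * PhiF P b (yJ P g z T U) n ^ 2 ≤
      9 / 8 * ((∑ n ∈ s, om n) * ((2 * Real.log (T * U) / (((w : ℝ) - 1) * Real.log w)) ^ 2 +
          Real.exp (-(Real.log (T / z) / Real.log z) + 2 * (Fintype.card ν * (1 / ZZ P z) / Real.log z))) +
        Etot P ((T * U) ^ 2) (Fintype.card κ + Fintype.card ν) er) *
        (G2 P g ^ Fintype.card κ * SS P z ^ Fintype.card ν) := by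
  have hyc : (yCo P (Sum.inr i) (yJ P g z T U) : (P → Option (κ ⊕ ν)) → ℝ) = yS P g z T U i :=
    funext fun β => yCo_inr P hp.prime g z T U i β
  have h0 : ∑ n ∈ s with (∀ p ∈ P, ¬ p ∣ n + b (Sum.inr i)),
      om n * PhiF P b (yJ P g z T U) n ^ 2 ≤ ∑ n ∈ s, om n * PhiF P b (yS P g z T U i) n ^ 2 := by
    calc ∑ n ∈ s with (∀ p ∈ P, ¬ p ∣ n + b (Sum.inr i)), om n * PhiF P b (yJ P g z T U) n ^ 2
        = ∑ n ∈ s with (∀ p ∈ P, ¬ p ∣ n + b (Sum.inr i)),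
            om n * PhiF P b (yS P g z T U i) n ^ 2 := by
          refine Finset.sum_congr rfl fun n hn => ?_
          rw [collapseG P b (yJ P g z T U) (Sum.inr i) n (Finset.mem_filter.1 hn).2, hyc]
      _ ≤ _ := Finset.sum_le_sum_of_subset_of_nonneg (Finset.filter_subset _ _)
          fun n hn _ => mul_nonneg (hU.F_nonneg n hn) (sq_nonneg _)
  have h1 := Q16_QF P hp (locT_U P hp.prime hp.hw hp.lt b hb hbw) s om er hU
    (yS P g z T U i) 1 (fun β => by rw [one_mul]; exact abs_yS_le P hp i β)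
    (fun β _ p j _ => Finset.mem_univ j)
  have h2 := (abs_le.1 h1).2
  have h3 := DD_yJ_le (κ := κ) (ν := ν) P hp
  have h3' := DD_yS_le (κ := κ) (ν := ν) P hp i
  set M := G2 P g ^ Fintype.card κ * SS P z ^ Fintype.card ν with hM
  set Dy := DD P (yJ P g z T U : (P → Option (κ ⊕ ν)) → ℝ) with hDy
  set Ds := DD P (yS P g z T U i : (P → Option (κ ⊕ ν)) → ℝ) with hDs
  set E := Etot P ((T * U) ^ 2) (Fintype.card κ + Fintype.card ν) er with hE
  set X := (2 * Real.log (T * U) / (((w : ℝ) - 1) * Real.log w)) ^ 2 +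
    Real.exp (-(Real.log (T / z) / Real.log z) + 2 * (Fintype.card ν * (1 / ZZ P z) / Real.log z))
    with hX
  have hE0 : 0 ≤ E := Q16_Etot P hU.er_nonneg
  have hS0 : 0 ≤ ∑ n ∈ s, om n := Finset.sum_nonneg fun n hn => hU.F_nonneg n hn
  have h4 : 9 / 8 * (∑ n ∈ s, om n) * Ds ≤ 9 / 8 * (∑ n ∈ s, om n) * (M * X) :=
    mul_le_mul_of_nonneg_left h3' (by positivity)
  have h5 : 9 / 8 * E * Dy ≤ 9 / 8 * E * M := mul_le_mul_of_nonneg_left h3 (by positivity)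
  refine h0.trans ?_
  nlinarith

/-- primes at the position `h` -/
theorem avg_prime {w : ℕ} {z T U V : ℝ} {g : Finset ℕ → ℝ} (hp : ParT P w z T U V g (Fintype.card κ) (Fintype.card ν))
    (b : κ ⊕ ν → ℕ) (hb : Function.Injective b) (hbw : ∀ i, b i ≤ w) (h : κ) (s : Finset ℕ) (F : ℕ → ℝ) (er : Finset ℕ → ℝ)
    (hU : MZ P s F (lpP (b (Sum.inl h))) ((T * U) ^ 2) er)
    (hF : ∀ n ∈ s, F n ≠ 0 → ∀ p ∈ P, ¬ p ∣ n + b (Sum.inl h))
    (he : 64 * (G2 P g * Etot P ((T * U) ^ 2) (Fintype.card κ + Fintype.card ν) er) ≤ ∑ n ∈ s, F n) :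
    1 / 4 * ((∑ n ∈ s, F n) * (G1 P g ^ 2 * (G2 P g ^ (Fintype.card κ - 1) * SS P z ^ Fintype.card ν))) ≤
      ∑ n ∈ s, F n * PhiF P b (yJ P g z T U) n ^ 2 := by
  have hyc : (yCo P (Sum.inl h) (yJ P g z T U) : (P → Option (κ ⊕ ν)) → ℝ) = yH P g z T U h :=
    funext fun β => yCo_inl P hp.prime g hp.gok.one z T U h β
  have h0 : ∑ n ∈ s, F n * PhiF P b (yJ P g z T U) n ^ 2 =
      ∑ n ∈ s, F n * PhiF P b (yH P g z T U h) n ^ 2 := by
    refine Finset.sum_congr rfl fun n hn => ?_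
    by_cases hFn : F n = 0
    · rw [hFn, zero_mul, zero_mul]
    · rw [collapseG P b (yJ P g z T U) (Sum.inl h) n (hF n hn hFn), hyc]
  have h1 := Q16_QF P hp (locT_P P hp.prime hp.hw hp.lt b hb hbw (Sum.inl h)) s F er hU
    (yH P g z T U h) (G1 P g) (fun β => abs_yH_le P hp h β) (fun β hβ => yH_alw P h β hβ)
  have h2 := (abs_le.1 h1).1
  have h3 := DD_yJ_le (κ := κ) (ν := ν) P hp
  have h3' := DD_yH_ge (κ := κ) (ν := ν) P hp h
  have hG2 : 0 ≤ G2 P g := Q16_G2 P hp.prime g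
  have hSS : 0 ≤ SS P z := Q16_SS P hp.prime z
  have hK : G2 P g ^ Fintype.card κ = G2 P g ^ (Fintype.card κ - 1) * G2 P g := by
    rw [← pow_succ]
    congr 1
    have := hp.hK
    omega
  rw [hK] at h3
  rw [h0]
  set Y := G2 P g ^ (Fintype.card κ - 1) * SS P z ^ Fintype.card ν with hY
  set Dy := DD P (yJ P g z T U : (P → Option (κ ⊕ ν)) → ℝ) with hDy
  set Dh := DD P (yH P g z T U h : (P → Option (κ ⊕ ν)) → ℝ) with hDh
  set E := Etot P ((T * U) ^ 2) (Fintype.card κ + Fintype.card ν) er with hE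
  have hY0 : 0 ≤ Y := by positivity
  have hE0 : 0 ≤ E := Q16_Etot P hU.er_nonneg
  have hS0 : 0 ≤ ∑ n ∈ s, F n := Finset.sum_nonneg fun n hn => hU.F_nonneg n hn
  set S := ∑ n ∈ s, F n with hS
  have h4 : Dy ≤ G2 P g * Y := by
    calc Dy ≤ G2 P g ^ (Fintype.card κ - 1) * G2 P g * SS P z ^ Fintype.card ν := h3
      _ = G2 P g * Y := by rw [hY]; ring
  have hB0 : 0 ≤ G1 P g ^ 2 * Y := mul_nonneg (sq_nonneg _) hY0
  have h5 : S * (1 / 2 * (G1 P g ^ 2 * Y)) ≤ S * Dh := mul_le_mul_of_nonneg_left h3' hS0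
  have h6 : E * (G1 P g ^ 2 * Dy) ≤ E * (G1 P g ^ 2 * (G2 P g * Y)) :=
    mul_le_mul_of_nonneg_left (mul_le_mul_of_nonneg_left h4 (sq_nonneg _)) hE0
  have h7 : 64 * (G2 P g * E) * (G1 P g ^ 2 * Y) ≤ S * (G1 P g ^ 2 * Y) :=
    mul_le_mul_of_nonneg_right he hB0
  have h8 : E * (G1 P g ^ 2 * (G2 P g * Y)) = (G2 P g * E) * (G1 P g ^ 2 * Y) := by ring
  rw [h8] at h6
  have h9 : 0 ≤ S * (G1 P g ^ 2 * Y) := mul_nonneg hS0 hB0
  have h10 : (1 + 1 / 8) * E * (G1 P g ^ 2 * Dy) = 9 / 8 * (E * (G1 P g ^ 2 * Dy)) := by ring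
  rw [h10] at h2
  linarith

end Pool.Agent.LibT63
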