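import Pool.Agent.LibT63.Q16

/-!
Row Q17 (the sieve theorem). `∑_{n ∈ s'} om n Φ(n)^2 (#{h : n + b h prime} - (m - 1) - K #{i : n + b i uncovered}) > 0`:
`om n * [n + b h prime] ≥ Fh h n / lam`, `avg_prime` summed over `h`, `avg_all`, `avg_unc` summed over `i` (`c5`, `e1`). A positive sum has a positive term:
then `#primes > (m-1) + K #unc`, so `#unc = 0` (`#primes ≤ K`).
-/

open Finset

namespace Pool.Agent.LibT63

open Pool.Agent.LibRG87 Pool.Agent.LibLG5 Pool.Agent.LibPL63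

theorem Q17_Etot_nonneg (P : Finset ℕ) (Q : ℝ) (N : ℕ) (er : Finset ℕ → ℝ) (her : ∀ E, 0 ≤ er E) :
    0 ≤ Etot P Q N er := by
  classical
  unfold Etot
  exact Finset.sum_nonneg fun E _ => mul_nonneg (by positivity) (her E)

theorem Q17_one_le_G2 (P : Finset ℕ) (hP : ∀ p ∈ P, p.Prime) {g : Finset ℕ → ℝ} (h0 : g ∅ = 1) : 1 ≤ G2 P g := by
  unfold G2
  have h1 : g ∅ ^ 2 / ph ∅ = 1 := by
    rw [h0]
    simp [ph]
  rw [← h1]
  exact Finset.single_le_sum (f := fun A => g A ^ 2 / ph A)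
    (fun A hA => div_nonneg (sq_nonneg _) (ph_pos P hP (Finset.mem_powerset.1 hA)).le)
    (Finset.mem_powerset.2 (Finset.empty_subset _))

variable {κ ν : Type} [Fintype κ] [DecidableEq κ] [Fintype ν] [DecidableEq ν] (P : Finset ℕ)

theorem sieveT {w : ℕ} {z T U V : ℝ} {g : Finset ℕ → ℝ} (hp : ParT P w z T U V g (Fintype.card κ) (Fintype.card ν))
    (b : κ ⊕ ν → ℕ) (hb : Function.Injective b) (hbw : ∀ i, b i ≤ w)
    (s s' : Finset ℕ) (hs : s' ⊆ s) (om : ℕ → ℝ) (Fh : κ → ℕ → ℝ) (erU : Finset ℕ → ℝ) (erP : κ → Finset ℕ → ℝ)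
    (hU : MZ P s om lpU ((T * U) ^ 2) erU)
    (hPr : ∀ h, MZ P s' (Fh h) (lpP (b (Sum.inl h))) ((T * U) ^ 2) (erP h))
    (lam : ℝ) (hlam : 0 < lam) (hFo : ∀ h, ∀ n ∈ s', Fh h n ≤ lam * om n)
    (hFp : ∀ h, ∀ n ∈ s', Fh h n ≠ 0 → (n + b (Sum.inl h)).Prime ∧ ∀ p ∈ P, ¬ p ∣ n + b (Sum.inl h))
    (XP : ℝ) (hXP : ∀ h, XP ≤ ∑ n ∈ s', Fh h n) (XU : ℝ) (hXU : ∑ n ∈ s, om n ≤ XU) (hXU0 : 0 < XU)
    (e1 : 64 * (Fintype.card κ * ((Fintype.card ν + 1) * Etot P ((T * U) ^ 2) (Fintype.card κ + Fintype.card ν) erU)) ≤ XU)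
    (e2 : ∀ h, 64 * (G2 P g * Etot P ((T * U) ^ 2) (Fintype.card κ + Fintype.card ν) (erP h)) ≤ XP)
    (m : ℕ) (hm : 1 ≤ m) (hmain : 8 * (m * (lam * (XU * G2 P g))) ≤ Fintype.card κ * (XP * G1 P g ^ 2)) :
    ∃ n ∈ s', m ≤ (univ.filter fun h : κ => (n + b (Sum.inl h)).Prime).card ∧
      ∀ i : ν, ∃ p ∈ P, p ∣ n + b (Sum.inr i) := by
  classical
  set Φ : ℕ → ℝ := fun n => PhiF P b (yJ P g z T U) n with hΦ
  set K : ℝ := (Fintype.card κ : ℝ) with hK
  set N : ℝ := (Fintype.card ν : ℝ) with hN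
  have hK1 : (1 : ℝ) ≤ K := by
    rw [hK]
    exact_mod_cast hp.hK
  have hN0 : 0 ≤ N := by rw [hN]; positivity
  have hG2 : 1 ≤ G2 P g := Q17_one_le_G2 P hp.prime hp.gok.one
  have hSS : 1 ≤ SS P z := one_le_SS P hp.prime z
  set M' : ℝ := G2 P g ^ (Fintype.card κ - 1) * SS P z ^ Fintype.card ν with hM'
  set M : ℝ := G2 P g ^ Fintype.card κ * SS P z ^ Fintype.card ν with hM
  have hM'1 : 1 ≤ M' := one_le_mul_of_one_le_of_one_le (one_le_pow₀ hG2) (one_le_pow₀ hSS)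
  have hMM : M = G2 P g * M' := by
    have h1 : Fintype.card κ = (Fintype.card κ - 1) + 1 := by
      have := hp.hK
      omega
    rw [hM, hM']
    conv_lhs => rw [h1, pow_succ]
    ring
  have hM1 : 1 ≤ M := by
    rw [hMM]
    exact one_le_mul_of_one_le_of_one_le hG2 hM'1
  set Et : ℝ := Etot P ((T * U) ^ 2) (Fintype.card κ + Fintype.card ν) erU with hEt
  have hEt0 : 0 ≤ Et := Q17_Etot_nonneg _ _ _ _ hU.er_nonneg
  have hom : ∀ n ∈ s, 0 ≤ om n := hU.F_nonneg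
  have hΦ0 : ∀ n, 0 ≤ Φ n ^ 2 := fun n => sq_nonneg _
  -- the count of primes and of uncovered positions
  set pc : ℕ → ℕ := fun n => (univ.filter fun h : κ => (n + b (Sum.inl h)).Prime).card with hpc
  set uc : ℕ → ℕ := fun n => (univ.filter fun i : ν => ∀ p ∈ P, ¬ p ∣ n + b (Sum.inr i)).card with huc
  by_contra hcon
  push Not at hcon
  have key : ∀ n ∈ s', (pc n : ℝ) ≤ ((m : ℝ) - 1) + K * uc n := by
    intro n hn
    have hm1 : (1 : ℝ) ≤ m := by exact_mod_cast hm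
    by_cases h : m ≤ pc n
    · obtain ⟨i, hi⟩ := hcon n hn h
      have h1 : 1 ≤ uc n := Finset.card_pos.2 ⟨i, Finset.mem_filter.2 ⟨Finset.mem_univ _, hi⟩⟩
      have h2 : (1 : ℝ) ≤ uc n := by exact_mod_cast h1
      have h3 : (pc n : ℝ) ≤ K := by
        rw [hK]
        exact_mod_cast (Finset.card_le_univ _)
      nlinarith
    · have h1 : (pc n : ℝ) ≤ (m : ℝ) - 1 := by
        have h2 : pc n + 1 ≤ m := by omega
        have h3 : ((pc n + 1 : ℕ) : ℝ) ≤ m := by exact_mod_cast h2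
        push_cast at h3
        linarith
      have h2 : (0 : ℝ) ≤ K * uc n := by positivity
      linarith
  -- the upper bound
  have hup : ∑ n ∈ s', om n * Φ n ^ 2 * pc n ≤
      ((m : ℝ) - 1) * (∑ n ∈ s, om n * Φ n ^ 2) +
        K * ∑ i : ν, ∑ n ∈ s with (∀ p ∈ P, ¬ p ∣ n + b (Sum.inr i)), om n * Φ n ^ 2 := by
    have hm1 : (0 : ℝ) ≤ (m : ℝ) - 1 := by
      have : (1 : ℝ) ≤ m := by exact_mod_cast hm
      linarith
    have h1 : ∑ n ∈ s', om n * Φ n ^ 2 * pc n ≤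
        ∑ n ∈ s', om n * Φ n ^ 2 * (((m : ℝ) - 1) + K * uc n) :=
      Finset.sum_le_sum fun n hn =>
        mul_le_mul_of_nonneg_left (key n hn) (mul_nonneg (hom n (hs hn)) (hΦ0 n))
    have h2 : ∑ n ∈ s', om n * Φ n ^ 2 * (((m : ℝ) - 1) + K * uc n) ≤
        ∑ n ∈ s, om n * Φ n ^ 2 * (((m : ℝ) - 1) + K * uc n) :=
      Finset.sum_le_sum_of_subset_of_nonneg hs fun n hn _ =>
        mul_nonneg (mul_nonneg (hom n hn) (hΦ0 n)) (by positivity)
    refine (h1.trans h2).trans (le_of_eq ?_)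
    have h3 : ∀ n, om n * Φ n ^ 2 * (((m : ℝ) - 1) + K * uc n) =
        ((m : ℝ) - 1) * (om n * Φ n ^ 2) +
          K * ∑ i : ν, if (∀ p ∈ P, ¬ p ∣ n + b (Sum.inr i)) then om n * Φ n ^ 2 else 0 := by
      intro n
      rw [← Finset.sum_filter, Finset.sum_const, nsmul_eq_mul]
      ring
    simp only [h3]
    rw [Finset.sum_add_distrib, ← Finset.mul_sum, ← Finset.mul_sum, Finset.sum_comm]
    congr 2
    exact Finset.sum_congr rfl fun i _ => (Finset.sum_filter _ _).symm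
  -- the lower bound
  have hlo : 1 / lam * ∑ h : κ, ∑ n ∈ s', Fh h n * Φ n ^ 2 ≤ ∑ n ∈ s', om n * Φ n ^ 2 * pc n := by
    rw [Finset.sum_comm, Finset.mul_sum]
    refine Finset.sum_le_sum fun n hn => ?_
    have h1 : ∀ h : κ, Fh h n * Φ n ^ 2 ≤
        if (n + b (Sum.inl h)).Prime then lam * (om n * Φ n ^ 2) else 0 := by
      intro h
      split_ifs with hpr
      · calc Fh h n * Φ n ^ 2 ≤ lam * om n * Φ n ^ 2 :=
              mul_le_mul_of_nonneg_right (hFo h n hn) (hΦ0 n)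
          _ = lam * (om n * Φ n ^ 2) := by ring
      · have h2 : Fh h n = 0 := by
          by_contra h3
          exact hpr (hFp h n hn h3).1
        rw [h2, zero_mul]
    have h2 : ∑ h : κ, Fh h n * Φ n ^ 2 ≤ pc n * (lam * (om n * Φ n ^ 2)) := by
      refine (Finset.sum_le_sum fun h _ => h1 h).trans (le_of_eq ?_)
      rw [← Finset.sum_filter, Finset.sum_const, nsmul_eq_mul]
    calc 1 / lam * ∑ h : κ, Fh h n * Φ n ^ 2 ≤ 1 / lam * (pc n * (lam * (om n * Φ n ^ 2))) :=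
          mul_le_mul_of_nonneg_left h2 (by positivity)
      _ = om n * Φ n ^ 2 * pc n := by
          field_simp
  -- the averages
  have a1 := avg_all P hp b hb hbw s om erU hU
  have a2 := fun i : ν => avg_unc P hp b hb hbw s om erU hU i
  have a3 : ∀ h : κ, 1 / 4 * (XP * (G1 P g ^ 2 * M')) ≤ ∑ n ∈ s', Fh h n * Φ n ^ 2 := by
    intro h
    have h1 := avg_prime P hp b hb hbw h s' (Fh h) (erP h) (hPr h) (fun n hn hF => (hFp h n hn hF).2)
      ((e2 h).trans (hXP h))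
    refine le_trans ?_ h1
    have h2 : 0 ≤ G1 P g ^ 2 * M' := by positivity
    have h3 := mul_le_mul_of_nonneg_right (hXP h) h2
    linarith
  have a4 : K * (1 / 4 * (XP * (G1 P g ^ 2 * M'))) ≤ ∑ h : κ, ∑ n ∈ s', Fh h n * Φ n ^ 2 := by
    have h1 := Finset.card_nsmul_le_sum (Finset.univ : Finset κ) (fun h => ∑ n ∈ s', Fh h n * Φ n ^ 2)
      (1 / 4 * (XP * (G1 P g ^ 2 * M'))) (fun h _ => a3 h)
    rwa [Finset.card_univ, nsmul_eq_mul, ← hK] at h1
  have a5 : 2 * (m * (XU * M)) ≤ 1 / lam * ∑ h : κ, ∑ n ∈ s', Fh h n * Φ n ^ 2 := by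
    refine le_trans ?_ (mul_le_mul_of_nonneg_left a4 (by positivity : (0 : ℝ) ≤ 1 / lam))
    have h1 := mul_le_mul_of_nonneg_right hmain (by positivity : (0 : ℝ) ≤ M' / (4 * lam))
    have h2 : 8 * (↑m * (lam * (XU * G2 P g))) * (M' / (4 * lam)) = 2 * (m * (XU * M)) := by
      rw [hMM]
      field_simp
      ring
    have h3 : K * (XP * G1 P g ^ 2) * (M' / (4 * lam)) = 1 / lam * (K * (1 / 4 * (XP * (G1 P g ^ 2 * M')))) := by
      field_simp
    rw [h2, h3] at h1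
    exact h1
  set X : ℝ := (2 * Real.log (T * U) / (((w : ℝ) - 1) * Real.log w)) ^ 2 +
          Real.exp (-(Real.log (T / z) / Real.log z) + 2 * (N * (1 / ZZ P z) / Real.log z)) with hX
  have hX0 : 0 ≤ X := by positivity
  have hc5 : 64 * (K * (N * X)) ≤ 1 := by
    have := hp.c5
    rw [hX]
    calc _ = _ := by ring
      _ ≤ _ := this
  have he1 : 64 * (K * ((N + 1) * Et)) ≤ XU := e1
  have hKN : 0 ≤ K * (N * Et) := by positivity
  have hKEt : 0 ≤ (K - 1) * Et := mul_nonneg (by linarith) hEt0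
  have hE2 : 64 * Et ≤ XU := by nlinarith
  have hE3 : 64 * (K * (N * Et)) ≤ XU := by nlinarith
  have b1 : ∑ n ∈ s, om n * Φ n ^ 2 ≤ 9 / 8 * (XU * (65 / 64)) * M := by
    refine a1.trans ?_
    apply mul_le_mul_of_nonneg_right _ (by linarith)
    apply mul_le_mul_of_nonneg_left _ (by norm_num)
    linarith
  have b2 : ∑ i : ν, ∑ n ∈ s with (∀ p ∈ P, ¬ p ∣ n + b (Sum.inr i)), om n * Φ n ^ 2 ≤
      N * (9 / 8 * (XU * X + Et) * M) := by
    have h1 : ∀ i : ν, ∑ n ∈ s with (∀ p ∈ P, ¬ p ∣ n + b (Sum.inr i)), om n * Φ n ^ 2 ≤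
        9 / 8 * (XU * X + Et) * M := by
      intro i
      refine (a2 i).trans ?_
      apply mul_le_mul_of_nonneg_right _ (by linarith)
      apply mul_le_mul_of_nonneg_left _ (by norm_num)
      have := mul_le_mul_of_nonneg_right hXU hX0
      linarith
    have h2 := Finset.sum_le_card_nsmul (Finset.univ : Finset ν)
      (fun i => ∑ n ∈ s with (∀ p ∈ P, ¬ p ∣ n + b (Sum.inr i)), om n * Φ n ^ 2) _ (fun i _ => h1 i)
    rwa [Finset.card_univ, nsmul_eq_mul, ← hN] at h2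
  have hm1 : (1 : ℝ) ≤ m := by exact_mod_cast hm
  have hXM : 0 < XU * M := mul_pos hXU0 (by linarith)
  have hfin := (a5.trans hlo).trans hup
  have c1 := mul_le_mul_of_nonneg_left b1 (by linarith : (0 : ℝ) ≤ (m : ℝ) - 1)
  have c2 := mul_le_mul_of_nonneg_left b2 (by linarith : (0 : ℝ) ≤ K)
  have c3 : K * (N * (9 / 8 * (XU * X + Et) * M)) ≤ 9 / 8 * (2 / 64) * (XU * M) := by
    have h1 : K * (N * (9 / 8 * (XU * X + Et) * M)) =
        9 / 8 * ((K * (N * X)) * (XU * M) + (K * (N * Et)) * M) := by ring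
    have h2 : (K * (N * X)) * (XU * M) ≤ 1 / 64 * (XU * M) :=
      mul_le_mul_of_nonneg_right (by linarith) hXM.le
    have h3 : (K * (N * Et)) * M ≤ (XU / 64) * M :=
      mul_le_mul_of_nonneg_right (by linarith) (by linarith)
    rw [h1]
    linarith
  have c4 : 2 * (m * (XU * M)) ≤ ((m : ℝ) - 1) * (9 / 8 * (XU * (65 / 64)) * M) + 9 / 8 * (2 / 64) * (XU * M) := by
    linarith
  have c5 : ((m : ℝ) - 1) * (9 / 8 * (XU * (65 / 64)) * M) = (9 / 8 * (65 / 64)) * (m * (XU * M)) - (9 / 8 * (65 / 64)) * (XU * M) := by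
    ring
  have c6 : XU * M ≤ m * (XU * M) := by nlinarith
  rw [c5] at c4
  linarith

end Pool.Agent.LibT63
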