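import Pool.Agent.LibT63.Q18
import Pool.Agent.LibRG87.R11

/-!
Row Q19 (pointwise bound for the weight).
-/

open Finset

namespace Pool.Agent.LibT63

open Pool.Agent.LibRG87 Pool.Agent.LibLG5 Pool.Agent.LibPL63

variable {κ ν : Type} [Fintype κ] [DecidableEq κ] [Fintype ν] [DecidableEq ν] (P : Finset ℕ)

theorem yJ_erase {w : ℕ} {z T U V : ℝ} {g : Finset ℕ → ℝ} {K N : ℕ} (hp : ParT P w z T U V g K N)
    (β : P → Option (κ ⊕ ν)) (S : Finset P) :
    yJ P g z T U β ^ 2 ≤ yJ P g z T U (fun p => if p ∈ S then none else β p) ^ 2 := by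
  classical
  have hw : (1 : ℝ) < (w : ℝ) := by
    have := hp.hw
    exact_mod_cast (by omega : 1 < w)
  induction S using Finset.induction_on with
  | empty => simp
  | insert p S hpS ih =>
    refine ih.trans ?_
    refine (yJ_mono P hp.prime hw (fun q hq => by exact_mod_cast hp.lt q hq) hp.hZ hp.gok T U _ p).trans
      (le_of_eq ?_)
    congr 2
    funext q
    by_cases hq : q = p
    · subst hq
      simp
    · rw [Function.update_of_ne hq]
      simp [Finset.mem_insert, hq]

theorem yJ_none {g : Finset ℕ → ℝ} (h1 : g ∅ = 1) (z T U : ℝ) :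
    yJ P g z T U (fun _ => none : P → Option (κ ⊕ ν)) ^ 2 ≤ 1 := by
  classical
  have h2 : ∀ i : κ ⊕ ν, fb P (fun _ => none : P → Option (κ ⊕ ν)) i = ∅ := by
    intro i
    ext q
    rw [mem_fb]
    simp
  unfold yJ
  split_ifs
  · unfold pr
    simp only [h2, h1, ff_empty]
    simp
  · norm_num

theorem abs_yJ_le {w : ℕ} {z T U V : ℝ} {g : Finset ℕ → ℝ} {K N : ℕ} (hp : ParT P w z T U V g K N)
    (β : P → Option (κ ⊕ ν)) : |yJ P g z T U β| ≤ 1 := by
  have h1 := yJ_erase P hp β Finset.univ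
  simp only [Finset.mem_univ, if_true] at h1
  have h2 := h1.trans (yJ_none P hp.gok.one z T U)
  exact abs_le_one_iff_mul_self_le_one.2 (by nlinarith)

theorem abs_PhiJ_le {w : ℕ} {z T U V : ℝ} {g : Finset ℕ → ℝ}
    (hp : ParT P w z T U V g (Fintype.card κ) (Fintype.card ν)) (b : κ ⊕ ν → ℕ) (n : ℕ) :
    |PhiF P b (yJ P g z T U) n| ≤ 3 * (T * U) ^ 2 := by
  classical
  have hTU : 1 ≤ T * U := by
    have := hp.hT
    have := hp.hV
    have := hp.hUV
    nlinarith
  have hcard : Fintype.card (κ ⊕ ν) + 1 ≤ w := by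
    have h1 := hp.c1
    have h2 := hp.hw
    rw [Fintype.card_sum]
    have h3 : ((Fintype.card κ + Fintype.card ν : ℕ) : ℝ) ≤ (w : ℝ) - 1 := by
      have h4 : (0 : ℝ) ≤ ((Fintype.card κ + Fintype.card ν : ℕ) : ℝ) := by positivity
      rcases Nat.eq_zero_or_pos (Fintype.card κ + Fintype.card ν) with h5 | h5
      · rw [h5]
        have : (3 : ℝ) ≤ w := by exact_mod_cast h2
        push_cast
        linarith
      · have h6 : (1 : ℝ) ≤ ((Fintype.card κ + Fintype.card ν : ℕ) : ℝ) := by exact_mod_cast h5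
        nlinarith
    have h7 : ((Fintype.card κ + Fintype.card ν + 1 : ℕ) : ℝ) ≤ (w : ℝ) := by
      push_cast at h3 ⊢
      linarith
    exact_mod_cast h7
  have hw2 : 2 ≤ w := by
    have := hp.hw
    omega
  refine le_trans ?_ (card_beta (ι := κ ⊕ ν) P hw2 hp.lt hcard hTU)
  unfold PhiF
  refine (Finset.abs_sum_le_sum_abs _ _).trans (Finset.sum_le_sum fun β _ => ?_)
  rw [abs_mul]
  split_ifs with h
  · have h1 := abs_yJ_le P hp β
    have h2 := abs_ee_le P hp.prime b β n
    nlinarith [abs_nonneg (yJ P g z T U β), abs_nonneg (ee P b β n)]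
  · have h1 : yJ P g z T U β = 0 := by
      by_contra h2
      exact h (yJ_supp P hp β h2)
    rw [h1]
    simp

end Pool.Agent.LibT63
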