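import Pool.Agent.LibT63.QDefs

/-!
Row Q2 (expansion). `PhiF ^ 2 = ∑_β ∑_β' y β y β' ee β n ee β' n`, `ee β n * ee β' n = ∏_{p ∈ P} ll b p (ext β p) (ext β' p) n` (`r8c_ext_coe`, `Finset.prod_coe_sort`), `ll = dv + El`,
`Finset.prod_add` (`∏_{i ∈ s} (f i + g i) = ∑_{t ∈ s.powerset} (∏_{t} f) (∏_{s \ t} g)`), `Finset.sum_comm`.
-/

open Finset

namespace Pool.Agent.LibT63

open Pool.Agent.LibRG87 Pool.Agent.LibLG5 Pool.Agent.LibPL63

variable {ι : Type} [Fintype ι] [DecidableEq ι] (P : Finset ℕ)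

private theorem Q2_ee (lp : ℕ → ℕ → ℝ) (b : ι → ℕ) (β β' : P → Option ι) (n : ℕ) :
    ee P b β n * ee P b β' n = ∑ E ∈ P.powerset,
      (∏ p ∈ E, dv lp b p (r8c_ext P β p) (r8c_ext P β' p) n) *
        ∏ p ∈ P \ E, El lp p (ll b p (r8c_ext P β p) (r8c_ext P β' p)) := by
  rw [← Finset.prod_add]
  unfold ee
  rw [← prod_mul_distrib, ← prod_coe_sort P]
  refine prod_congr rfl fun p _ => ?_
  unfold dv ll
  simp only [r8c_ext_coe]
  ring

private theorem Q2_sq (lp : ℕ → ℕ → ℝ) (b : ι → ℕ) (y : (P → Option ι) → ℝ) (n : ℕ) (c : ℝ) :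
    c * PhiF P b y n ^ 2 = ∑ E ∈ P.powerset, ∑ β, ∑ β', y β * y β' *
      ((c * ∏ p ∈ E, dv lp b p (r8c_ext P β p) (r8c_ext P β' p) n) *
        ∏ p ∈ P \ E, El lp p (ll b p (r8c_ext P β p) (r8c_ext P β' p))) := by
  have h1 : PhiF P b y n ^ 2 = ∑ β, ∑ β', y β * y β' * (ee P b β n * ee P b β' n) := by
    rw [pow_two]
    unfold PhiF
    rw [Finset.sum_mul_sum]
    refine Finset.sum_congr rfl fun β _ => Finset.sum_congr rfl fun β' _ => ?_
    ring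
  rw [h1, Finset.mul_sum, Finset.sum_comm]
  refine Finset.sum_congr rfl fun β _ => ?_
  rw [Finset.mul_sum, Finset.sum_comm]
  refine Finset.sum_congr rfl fun β' _ => ?_
  rw [Q2_ee P lp b β β' n, Finset.mul_sum, Finset.mul_sum]
  refine Finset.sum_congr rfl fun E _ => ?_
  ring

theorem expand (lp : ℕ → ℕ → ℝ) (b : ι → ℕ) (s : Finset ℕ) (F : ℕ → ℝ) (y : (P → Option ι) → ℝ) :
    ∑ n ∈ s, F n * PhiF P b y n ^ 2 = ∑ E ∈ P.powerset, ∑ β, ∑ β', y β * y β' *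
      ((∑ n ∈ s, F n * ∏ p ∈ E, dv lp b p (r8c_ext P β p) (r8c_ext P β' p) n) *
        ∏ p ∈ P \ E, El lp p (ll b p (r8c_ext P β p) (r8c_ext P β' p))) := by
  rw [Finset.sum_congr rfl fun n _ => Q2_sq P lp b y n (F n), Finset.sum_comm]
  refine Finset.sum_congr rfl fun E _ => ?_
  rw [Finset.sum_comm]
  refine Finset.sum_congr rfl fun β _ => ?_
  rw [Finset.sum_comm]
  refine Finset.sum_congr rfl fun β' _ => ?_
  rw [← Finset.mul_sum, ← Finset.sum_mul]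

end Pool.Agent.LibT63
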