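import Pool.Agent.LibT63.Q1

/-!
Row Q3 (the main term). `DD P y = ∑_β ∑_β' y β y β' ∏_{p:P} dg p (β p) (β' p)` (the off-diagonal products vanish; `∏_{p:P} fi p (β p) = 1 / ph (sp P β)`, compare R7_prod_sp in LibRG87.R7).
`|∏ l_p - ∏ d_p| ≤ ∏ (|d_p| + |l_p - d_p|) - ∏ |d_p|` (induction on the finset; `dg ≥ 0`). AM-GM: `|y β y β'| ≤ (y β ^ 2 + y β' ^ 2)/2` and the matrix is symmetric (`ll b p o o' = ll b p o' o`, `dg` symmetric), so the
sum is `≤ ∑_β y β ^ 2 ∑_{β' with values in insertNone J} (...)`, and `∑_β' ∏_p (...) = ∏_p ∑_{o' ∈ insertNone J} (...)` (`Finset.prod_univ_sum` over `Fintype.piFinset fun _ => insertNone J`), `row_main`,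
`∑_β' ∏ d_p = ∏ fi p (β p)`. Result `∑_β y β ^ 2 ∏ fi (∏ ro - 1) ≤ δ DD`.
-/

open Finset

namespace Pool.Agent.LibT63

open Pool.Agent.LibRG87 Pool.Agent.LibLG5 Pool.Agent.LibPL63

variable {ι : Type} [Fintype ι] [DecidableEq ι] (P : Finset ℕ)

private theorem Q3_prod_sp (h : ℕ → ℝ) (β : P → Option ι) :
    ∏ p ∈ sp P β, h p = ∏ p : P, if β p ≠ none then h p else 1 := by
  unfold sp
  rw [Finset.prod_image (fun a _ b _ hab => Subtype.val_injective hab), Finset.prod_filter]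

/-- the diagonal is the reciprocal of `ph` -/
theorem prod_fi (β : P → Option ι) : ∏ p : P, fi (p : ℕ) (β p) = 1 / ph (sp P β) := by
  unfold ph
  rw [Q3_prod_sp, one_div, ← Finset.prod_inv_distrib]
  refine Finset.prod_congr rfl fun p _ => ?_
  cases hβ : β p with
  | none => simp [fi]
  | some i => simp [fi]

private theorem Q3_tele {α : Type} (s : Finset α) (l d : α → ℝ) (hd : ∀ a ∈ s, 0 ≤ d a) :
    |∏ a ∈ s, l a - ∏ a ∈ s, d a| ≤ ∏ a ∈ s, (d a + |l a - d a|) - ∏ a ∈ s, d a := by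
  classical
  induction s using Finset.induction_on with
  | empty => simp
  | insert a s ha ih =>
    rw [Finset.prod_insert ha, Finset.prod_insert ha, Finset.prod_insert ha]
    have h1 := ih fun b hb => hd b (mem_insert_of_mem hb)
    have h2 : 0 ≤ ∏ b ∈ s, d b := Finset.prod_nonneg fun b hb => hd b (mem_insert_of_mem hb)
    have h3 := hd a (mem_insert_self a s)
    have h4 : |l a| ≤ d a + |l a - d a| := by
      have := abs_sub_abs_le_abs_sub (l a) (d a)
      rw [abs_of_nonneg h3] at this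
      linarith
    have e1 : l a * ∏ b ∈ s, l b - d a * ∏ b ∈ s, d b =
        l a * (∏ b ∈ s, l b - ∏ b ∈ s, d b) + (l a - d a) * ∏ b ∈ s, d b := by ring
    rw [e1]
    refine (abs_add_le _ _).trans ?_
    rw [abs_mul, abs_mul, abs_of_nonneg h2]
    have h5 : |l a| * |∏ b ∈ s, l b - ∏ b ∈ s, d b| ≤
        (d a + |l a - d a|) * (∏ b ∈ s, (d b + |l b - d b|) - ∏ b ∈ s, d b) :=
      mul_le_mul h4 h1 (abs_nonneg _) (by positivity)
    nlinarith [h5]

private theorem Q3_dg_symm (p : ℕ) (o o' : Option ι) : dg p o o' = dg p o' o := by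
  unfold dg
  by_cases h : o = o'
  · subst h
    rfl
  · rw [if_neg h, if_neg fun h' => h h'.symm]

omit [Fintype ι] [DecidableEq ι] in
private theorem Q3_ll_symm (b : ι → ℕ) (p : ℕ) (o o' : Option ι) : ll b p o o' = ll b p o' o := by
  funext n
  unfold ll
  exact mul_comm _ _

theorem main_term {lp : ℕ → ℕ → ℝ} {b : ι → ℕ} {J : Finset ι} (hL : LocT P lp b J) {N : ℕ} (hN : J.card ≤ N)
    (y : (P → Option ι) → ℝ) (hal : ∀ β, y β ≠ 0 → alw P J β)
    {δ : ℝ} (hδ : ∀ β, y β ≠ 0 → ∏ p : P, ro N (p : ℕ) (β p) ≤ 1 + δ) :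
    |∑ β, ∑ β', y β * y β' * ∏ p ∈ P, El lp p (ll b p (r8c_ext P β p) (r8c_ext P β' p)) - DD P y| ≤ δ * DD P y := by
  classical
  have hp1 : ∀ p ∈ P, (0 : ℝ) < (p : ℝ) - 1 := by
    intro p hp
    have h : (3 : ℝ) ≤ (p : ℝ) := by exact_mod_cast hL.three p hp
    linarith
  have hfi : ∀ p ∈ P, ∀ o : Option ι, 0 ≤ fi p o := by
    intro p hp o
    have h := hp1 p hp
    cases o with
    | none => exact zero_le_one
    | some i =>
      show 0 ≤ 1 / ((p : ℝ) - 1)
      positivity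
  have hdg : ∀ p ∈ P, ∀ o o' : Option ι, 0 ≤ dg p o o' := by
    intro p hp o o'
    unfold dg
    split_ifs
    · exact hfi p hp o
    · exact le_rfl
  obtain ⟨A, hA⟩ : ∃ A : Finset (P → Option ι), A = Fintype.piFinset fun _ => insertNone J := ⟨_, rfl⟩
  have hmemA : ∀ β, β ∈ A → ∀ p, β p ∈ insertNone J := by
    intro β hβ
    rw [hA] at hβ
    exact Fintype.mem_piFinset.1 hβ
  have hmem : ∀ β, y β ≠ 0 → β ∈ A := by
    intro β hβ
    rw [hA, Fintype.mem_piFinset]
    intro p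
    rw [Finset.mem_insertNone]
    intro i hi
    exact hal β hβ p i hi
  have hout : ∀ β, β ∉ A → y β = 0 := by
    intro β hβ
    by_contra h
    exact hβ (hmem β h)
  obtain ⟨W, hW⟩ : ∃ W : (P → Option ι) → (P → Option ι) → ℝ, ∀ β β', W β β' =
      ∏ p : P, (dg (p : ℕ) (β p) (β' p) + |El lp p (ll b p (β p) (β' p)) - dg (p : ℕ) (β p) (β' p)|) :=
    ⟨_, fun _ _ => rfl⟩
  obtain ⟨M, hM⟩ : ∃ M : (P → Option ι) → (P → Option ι) → ℝ, ∀ β β', M β β' =
      ∏ p : P, dg (p : ℕ) (β p) (β' p) := ⟨_, fun _ _ => rfl⟩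
  obtain ⟨L, hL'⟩ : ∃ L : (P → Option ι) → (P → Option ι) → ℝ, ∀ β β', L β β' =
      ∏ p : P, El lp p (ll b p (β p) (β' p)) := ⟨_, fun _ _ => rfl⟩
  have hext : ∀ β β', ∏ p ∈ P, El lp p (ll b p (r8c_ext P β p) (r8c_ext P β' p)) = L β β' := by
    intro β β'
    rw [hL', ← prod_coe_sort P]
    refine prod_congr rfl fun p _ => ?_
    rw [r8c_ext_coe, r8c_ext_coe]
  have hbound : ∀ β β', |L β β' - M β β'| ≤ W β β' - M β β' := by
    intro β β'
    rw [hL', hM, hW]
    exact Q3_tele _ _ _ fun p _ => hdg p p.2 _ _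
  have hWs : ∀ β β', W β β' = W β' β := by
    intro β β'
    rw [hW, hW]
    refine prod_congr rfl fun p _ => ?_
    rw [Q3_dg_symm p (β p), Q3_ll_symm b p (β p)]
  have hMs : ∀ β β', M β β' = M β' β := by
    intro β β'
    rw [hM, hM]
    exact prod_congr rfl fun p _ => Q3_dg_symm p (β p) (β' p)
  have hMd : ∀ β, M β β = ∏ p : P, fi (p : ℕ) (β p) := by
    intro β
    rw [hM]
    refine prod_congr rfl fun p _ => ?_
    unfold dg
    rw [if_pos rfl]
  have hMo : ∀ β β', β' ≠ β → M β β' = 0 := by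
    intro β β' hne
    rw [hM]
    obtain ⟨p, hp⟩ : ∃ p, β p ≠ β' p := by
      by_contra h
      push Not at h
      exact hne (funext fun p => (h p).symm)
    refine prod_eq_zero (mem_univ p) ?_
    unfold dg
    rw [if_neg hp]
  have hDD : DD P y = ∑ β, ∑ β', y β * y β' * M β β' := by
    unfold DD
    refine sum_congr rfl fun β _ => ?_
    rw [sum_eq_single β]
    · rw [hMd, prod_fi]
      ring
    · intro β' _ hne
      rw [hMo β β' hne, mul_zero]
    · intro h
      exact absurd (mem_univ β) h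
  -- the row sums
  have hrow : ∀ β, y β ≠ 0 → ∑ β' ∈ A, (W β β' - M β β') ≤ δ * ∏ p : P, fi (p : ℕ) (β p) := by
    intro β hβ
    have hβA := hmemA β (hmem β hβ)
    have e1 : ∑ β' ∈ A, W β β' = ∏ p : P, ∑ o' ∈ insertNone J,
        (dg (p : ℕ) (β p) o' + |El lp p (ll b p (β p) o') - dg (p : ℕ) (β p) o'|) := by
      rw [Finset.prod_univ_sum, hA]
      exact sum_congr rfl fun β' _ => hW β β'
    have e2 : ∑ β' ∈ A, M β β' = ∏ p : P, fi (p : ℕ) (β p) := by
      rw [sum_eq_single β, hMd]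
      · intro β' _ hne
        exact hMo β β' hne
      · intro h
        exact absurd (hmem β hβ) h
    have e3 : ∑ β' ∈ A, W β β' ≤ ∏ p : P, (fi (p : ℕ) (β p) * ro N (p : ℕ) (β p)) := by
      rw [e1]
      refine prod_le_prod (fun p _ => sum_nonneg fun o' _ => ?_) fun p _ => ?_
      · exact add_nonneg (hdg p p.2 _ _) (abs_nonneg _)
      · exact row_main hL p.2 hN (hβA p)
    rw [prod_mul_distrib] at e3
    have e4 : 0 ≤ ∏ p : P, fi (p : ℕ) (β p) := prod_nonneg fun p _ => hfi p p.2 _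
    have e5 := mul_le_mul_of_nonneg_left (hδ β hβ) e4
    rw [sum_sub_distrib, e2]
    linarith
  have hRnn : ∀ β β', 0 ≤ W β β' - M β β' := fun β β' => (abs_nonneg _).trans (hbound β β')
  -- the estimate
  have s1 : ∑ β, ∑ β', y β * y β' * ∏ p ∈ P, El lp p (ll b p (r8c_ext P β p) (r8c_ext P β' p)) -
      DD P y = ∑ β, ∑ β', y β * y β' * (L β β' - M β β') := by
    rw [hDD, ← sum_sub_distrib]
    refine sum_congr rfl fun β _ => ?_
    rw [← sum_sub_distrib]
    refine sum_congr rfl fun β' _ => ?_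
    rw [hext]
    ring
  have s2 : ∑ β, ∑ β', y β * y β' * (L β β' - M β β') =
      ∑ β ∈ A, ∑ β' ∈ A, y β * y β' * (L β β' - M β β') := by
    rw [← sum_subset (subset_univ A) fun β _ hβ => by
      simp only [hout β hβ, zero_mul, sum_const_zero]]
    refine sum_congr rfl fun β _ => ?_
    rw [← sum_subset (subset_univ A) fun β' _ hβ => by
      rw [hout β' hβ, mul_zero, zero_mul]]
  have s3 : ∑ β ∈ A, ∑ β' ∈ A, |y β * y β' * (L β β' - M β β')| ≤
      ∑ β ∈ A, ∑ β' ∈ A, (y β ^ 2 / 2 * (W β β' - M β β') + y β' ^ 2 / 2 * (W β β' - M β β')) := by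
    refine sum_le_sum fun β _ => sum_le_sum fun β' _ => ?_
    rw [abs_mul]
    have h1 : |y β * y β'| ≤ y β ^ 2 / 2 + y β' ^ 2 / 2 := by
      rw [abs_le]
      constructor
      · nlinarith [sq_nonneg (y β + y β')]
      · nlinarith [sq_nonneg (y β - y β')]
    have h2 := mul_le_mul h1 (hbound β β') (abs_nonneg _) (by positivity)
    linarith
  have s4 : ∑ β ∈ A, ∑ β' ∈ A, y β' ^ 2 / 2 * (W β β' - M β β') =
      ∑ β ∈ A, ∑ β' ∈ A, y β ^ 2 / 2 * (W β β' - M β β') := by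
    rw [sum_comm]
    refine sum_congr rfl fun β _ => sum_congr rfl fun β' _ => ?_
    rw [hWs β' β, hMs β' β]
  have s5 : ∑ β ∈ A, ∑ β' ∈ A, (y β ^ 2 / 2 * (W β β' - M β β') + y β' ^ 2 / 2 * (W β β' - M β β')) =
      ∑ β ∈ A, y β ^ 2 * ∑ β' ∈ A, (W β β' - M β β') := by
    simp only [sum_add_distrib]
    rw [s4, ← sum_add_distrib]
    refine sum_congr rfl fun β _ => ?_
    rw [← mul_sum]
    ring
  have s6 : ∑ β ∈ A, y β ^ 2 * ∑ β' ∈ A, (W β β' - M β β') ≤ δ * DD P y := by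
    have h1 : DD P y = ∑ β ∈ A, y β ^ 2 * ∏ p : P, fi (p : ℕ) (β p) := by
      unfold DD
      rw [← sum_subset (subset_univ A) fun β _ hβ => by
        rw [hout β hβ]
        simp]
      refine sum_congr rfl fun β _ => ?_
      rw [prod_fi]
      ring
    rw [h1, mul_sum]
    refine sum_le_sum fun β _ => ?_
    by_cases hβ : y β = 0
    · rw [hβ]
      simp
    · have h2 := mul_le_mul_of_nonneg_left (hrow β hβ) (sq_nonneg (y β))
      linarith
  rw [s1, s2]
  refine (abs_sum_le_sum_abs _ _).trans ?_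
  refine (sum_le_sum fun β _ => abs_sum_le_sum_abs _ _).trans ?_
  exact s3.trans (s5.le.trans s6)

end Pool.Agent.LibT63
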