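import Pool.Agent.LibT63.QDefs

/-!
Row Q4 (mass lemma). Induction on `E`: for `p0 ∉ E`, group the `β` by their values outside `p0` (`∑_β f β = ∑_{β, β p0 = none} ∑_o f (update β p0 o)`):
`∑_o w (update β p0 o) uo N p0 o ≤ w (update β p0 none) (5 N + card ι * 17) ≤ 22 N w (update β p0 none)`, the other factors `uo N p (r8c_ext P β p)`, `p ∈ E`, do not see `p0`.
-/

open Finset

namespace Pool.Agent.LibT63

open Pool.Agent.LibRG87 Pool.Agent.LibLG5 Pool.Agent.LibPL63

variable {ι : Type} [Fintype ι] [DecidableEq ι] (P : Finset ℕ)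

omit [DecidableEq ι] in
/-- grouping by the value at one prime -/
private theorem Q4_group (p0 : P) (F : (P → Option ι) → ℝ) :
    ∑ β, F β = ∑ β ∈ univ.filter (fun β : P → Option ι => β p0 = none),
      ∑ o, F (Function.update β p0 o) := by
  classical
  rw [← Finset.sum_product']
  symm
  refine Finset.sum_nbij' (fun x => Function.update x.1 p0 x.2)
    (fun β => (Function.update β p0 none, β p0)) ?_ ?_ ?_ ?_ ?_
  · intro x _
    exact mem_univ _
  · intro β _
    rw [mem_product, mem_filter]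
    exact ⟨⟨mem_univ _, Function.update_self _ _ _⟩, mem_univ _⟩
  · intro x hx
    obtain ⟨h1, _⟩ := mem_product.1 hx
    have h2 := (mem_filter.1 h1).2
    refine Prod.ext ?_ ?_
    · show Function.update (Function.update x.1 p0 x.2) p0 none = x.1
      rw [Function.update_idem, ← h2, Function.update_eq_self]
    · exact Function.update_self _ _ _
  · intro β _
    show Function.update (Function.update β p0 none) p0 (β p0) = β
    rw [Function.update_idem, Function.update_eq_self]
  · intro x _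
    rfl

omit [Fintype ι] [DecidableEq ι] in
private theorem Q4_ext (β : P → Option ι) (p0 : P) (o : Option ι) {p : ℕ} (h : p ≠ p0) :
    r8c_ext P (Function.update β p0 o) p = r8c_ext P β p := by
  unfold r8c_ext
  by_cases hp : p ∈ P
  · rw [dif_pos hp, dif_pos hp]
    exact Function.update_of_ne (fun h1 => h (congrArg Subtype.val h1)) _ _
  · rw [dif_neg hp, dif_neg hp]

theorem mass (hP : ∀ p ∈ P, 3 ≤ p) (w : (P → Option ι) → ℝ) (hw0 : ∀ β, 0 ≤ w β)
    (hw : ∀ (β : P → Option ι) (p : P) (i : ι), w (Function.update β p (some i)) ≤ w (Function.update β p none) / (((p : ℕ) : ℝ) - 1))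
    {N : ℕ} (hN : Fintype.card ι ≤ N) (E : Finset ℕ) (hE : E ⊆ P) :
    ∑ β, w β * ∏ p ∈ E, uo N p (r8c_ext P β p) ≤ (22 * (N : ℝ)) ^ E.card * ∑ β, w β := by
  classical
  have huo : ∀ p ∈ P, ∀ o : Option ι, 0 ≤ uo N p o := by
    intro p hp o
    have h3 : (3 : ℝ) ≤ p := by exact_mod_cast hP p hp
    cases o with
    | none =>
      show (0 : ℝ) ≤ 5 * N
      positivity
    | some i =>
      show (0 : ℝ) ≤ 17 * ((p : ℝ) - 1)
      linarith
  revert hE
  refine Finset.induction_on E (fun _ => ?_) fun q E' hq ih hE => ?_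
  · simp
  have hqP : q ∈ P := hE (mem_insert_self q E')
  have hE' : E' ⊆ P := fun p hp => hE (mem_insert_of_mem hp)
  have ih' := ih hE'
  obtain ⟨R, hR⟩ : ∃ R : (P → Option ι) → ℝ, R = fun β => ∏ p ∈ E', uo N p (r8c_ext P β p) :=
    ⟨_, rfl⟩
  have hR0 : ∀ β, 0 ≤ R β := by
    intro β
    rw [hR]
    exact Finset.prod_nonneg fun p hp => huo p (hE' hp) _
  have hRu : ∀ β o, R (Function.update β ⟨q, hqP⟩ o) = R β := by
    intro β o
    rw [hR]
    refine Finset.prod_congr rfl fun p hp => ?_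
    have hpq : p ≠ ((⟨q, hqP⟩ : P) : ℕ) := by
      intro h
      have h' : p = q := h
      rw [h'] at hp
      exact hq hp
    rw [Q4_ext P β ⟨q, hqP⟩ o hpq]
  have h1 : ∑ β, w β * ∏ p ∈ insert q E', uo N p (r8c_ext P β p) =
      ∑ β, w β * (uo N q (β ⟨q, hqP⟩) * R β) := by
    refine Finset.sum_congr rfl fun β _ => ?_
    rw [Finset.prod_insert hq, hR, ← r8c_ext_coe P β ⟨q, hqP⟩]
  have h2 : ∑ β, w β * ∏ p ∈ E', uo N p (r8c_ext P β p) = ∑ β, w β * R β := by
    rw [hR]
  rw [h2] at ih'
  rw [h1, Finset.card_insert_of_notMem hq, Q4_group P ⟨q, hqP⟩]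
  have hq3 : (3 : ℝ) ≤ q := by exact_mod_cast hP q hqP
  have hNc : (Fintype.card ι : ℝ) ≤ N := by exact_mod_cast hN
  have h3 : ∀ β : P → Option ι,
      ∑ o, w (Function.update β ⟨q, hqP⟩ o) *
        (uo N q (Function.update β ⟨q, hqP⟩ o ⟨q, hqP⟩) * R (Function.update β ⟨q, hqP⟩ o)) ≤
      (22 * (N : ℝ)) * (w (Function.update β ⟨q, hqP⟩ none) * R β) := by
    intro β
    have h4 : ∀ o, w (Function.update β ⟨q, hqP⟩ o) *
        (uo N q (Function.update β ⟨q, hqP⟩ o ⟨q, hqP⟩) * R (Function.update β ⟨q, hqP⟩ o)) =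
        w (Function.update β ⟨q, hqP⟩ o) * uo N q o * R β := by
      intro o
      rw [Function.update_self, hRu, mul_assoc]
    rw [Finset.sum_congr rfl fun o _ => h4 o, Fintype.sum_option]
    have h5 : w (Function.update β ⟨q, hqP⟩ none) * uo N q (none : Option ι) * R β =
        5 * (N : ℝ) * (w (Function.update β ⟨q, hqP⟩ none) * R β) := by
      show w (Function.update β ⟨q, hqP⟩ none) * (5 * (N : ℝ)) * R β = _
      ring
    have h6 : ∀ i : ι, w (Function.update β ⟨q, hqP⟩ (some i)) * uo N q (some i) * R β ≤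
        17 * (w (Function.update β ⟨q, hqP⟩ none) * R β) := by
      intro i
      have h7 := hw β ⟨q, hqP⟩ i
      have h8 : w (Function.update β ⟨q, hqP⟩ (some i)) * (17 * ((q : ℝ) - 1)) ≤
          17 * w (Function.update β ⟨q, hqP⟩ none) := by
        have h9 : (0 : ℝ) < (q : ℝ) - 1 := by linarith
        have h10 := (le_div_iff₀ h9).1 h7
        linarith
      calc w (Function.update β ⟨q, hqP⟩ (some i)) * uo N q (some i) * R β
          = w (Function.update β ⟨q, hqP⟩ (some i)) * (17 * ((q : ℝ) - 1)) * R β := rfl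
        _ ≤ 17 * w (Function.update β ⟨q, hqP⟩ none) * R β :=
            mul_le_mul_of_nonneg_right h8 (hR0 β)
        _ = _ := by ring
    rw [h5]
    have h11 : ∑ i : ι, w (Function.update β ⟨q, hqP⟩ (some i)) * uo N q (some i) * R β ≤
        (Fintype.card ι : ℝ) * (17 * (w (Function.update β ⟨q, hqP⟩ none) * R β)) := by
      refine (Finset.sum_le_sum fun i _ => h6 i).trans (le_of_eq ?_)
      rw [Finset.sum_const, Finset.card_univ, nsmul_eq_mul]
    have h12 : 0 ≤ w (Function.update β ⟨q, hqP⟩ none) * R β := mul_nonneg (hw0 _) (hR0 β)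
    have h13 : (Fintype.card ι : ℝ) * (17 * (w (Function.update β ⟨q, hqP⟩ none) * R β)) ≤
        (N : ℝ) * (17 * (w (Function.update β ⟨q, hqP⟩ none) * R β)) :=
      mul_le_mul_of_nonneg_right hNc (by positivity)
    linarith
  refine (Finset.sum_le_sum fun β _ => h3 β).trans ?_
  rw [← Finset.mul_sum]
  have h14 : ∑ β ∈ univ.filter (fun β : P → Option ι => β ⟨q, hqP⟩ = none),
      w (Function.update β ⟨q, hqP⟩ none) * R β ≤ ∑ β, w β * R β := by
    rw [Q4_group P ⟨q, hqP⟩ (fun β => w β * R β)]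
    refine Finset.sum_le_sum fun β _ => ?_
    have h15 : w (Function.update β ⟨q, hqP⟩ none) * R β =
        w (Function.update β ⟨q, hqP⟩ none) * R (Function.update β ⟨q, hqP⟩ none) := by
      rw [hRu]
    rw [h15]
    exact Finset.single_le_sum
      (f := fun o => w (Function.update β ⟨q, hqP⟩ o) * R (Function.update β ⟨q, hqP⟩ o))
      (fun o _ => mul_nonneg (hw0 _) (hR0 _)) (mem_univ none)
  calc (22 * (N : ℝ)) * ∑ β ∈ univ.filter (fun β : P → Option ι => β ⟨q, hqP⟩ = none),
      w (Function.update β ⟨q, hqP⟩ none) * R β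
      ≤ (22 * (N : ℝ)) * ((22 * (N : ℝ)) ^ E'.card * ∑ β, w β) :=
        mul_le_mul_of_nonneg_left (h14.trans ih') (by positivity)
    _ = _ := by ring

end Pool.Agent.LibT63
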