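import Pool.Agent.LibT63.Q3
import Pool.Agent.LibT63.Q4

/-!
Row Q5 (the error terms). For fixed `E`: AM-GM `|y β y β'| ≤ (y β ^ 2 + y β' ^ 2)/2` and symmetry give `≤ ∑_β y β ^ 2 ∑_{β' ∈ insertNone J} ∏_{p ∈ E} tot p (dv ..) ∏_{p ∈ P \ E} |El ..|`
`= ∑_β y β ^ 2 ∏_{p ∈ E} (∑_{o'} tot) ∏_{p ∉ E} (∑_{o'} |El|)` (`Finset.prod_univ_sum`; write the product over `p ∈ P` with `if p ∈ E then .. else ..`), `row_dev`, `row_main` (`|El| ≤ dg + |El - dg|`, `dg ≥ 0`):
`≤ ∑_β mj β ^ 2 (∏_{p:P} fi) ∏_{p ∈ E} uo N p (ext β p) ∏_{p:P} ro` (`ro ≥ 1`), `prod_fi`, `hδ`, and `mass` for `w β = mj β ^ 2 / ph (sp P β)`: `hmono` gives `hw`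
(`ph (sp (update β p (some i))) = (p - 1) ph (sp (update β p none))`, via `prod_fi`).
-/

open Finset

namespace Pool.Agent.LibT63

open Pool.Agent.LibRG87 Pool.Agent.LibLG5 Pool.Agent.LibPL63

variable {ι : Type} [Fintype ι] [DecidableEq ι] (P : Finset ℕ)

open scoped Classical in
/-- the local factor -/
private noncomputable def Q5_t {ι : Type} (lp : ℕ → ℕ → ℝ) (b : ι → ℕ) (E : Finset ℕ) (p : ℕ)
    (o o' : Option ι) : ℝ :=
  if p ∈ E then tot p (dv lp b p o o') else |El lp p (ll b p o o')|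

private theorem Q5_tot_nonneg (p : ℕ) (g : ℕ → ℝ) : 0 ≤ tot p g :=
  sum_nonneg fun _ _ => abs_nonneg _

private theorem Q5_t_nonneg {ι : Type} (lp : ℕ → ℕ → ℝ) (b : ι → ℕ) (E : Finset ℕ) (p : ℕ)
    (o o' : Option ι) : 0 ≤ Q5_t lp b E p o o' := by
  unfold Q5_t
  split_ifs
  · exact Q5_tot_nonneg _ _
  · exact abs_nonneg _

private theorem Q5_ll_comm {ι : Type} (b : ι → ℕ) (p : ℕ) (o o' : Option ι) :
    ll b p o o' = ll b p o' o := by
  funext n
  unfold ll
  exact mul_comm _ _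

private theorem Q5_t_comm {ι : Type} (lp : ℕ → ℕ → ℝ) (b : ι → ℕ) (E : Finset ℕ) (p : ℕ)
    (o o' : Option ι) : Q5_t lp b E p o o' = Q5_t lp b E p o' o := by
  unfold Q5_t
  have h1 : dv lp b p o o' = dv lp b p o' o := by
    funext n
    unfold dv
    rw [Q5_ll_comm b p o o']
  rw [h1, Q5_ll_comm b p o o']

/-- the two products are one product over `P` -/
private theorem Q5_T (lp : ℕ → ℕ → ℝ) (b : ι → ℕ) (E : Finset ℕ) (hE : E ⊆ P)
    (β β' : P → Option ι) :
    (∏ p ∈ E, tot p (dv lp b p (r8c_ext P β p) (r8c_ext P β' p))) *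
        |∏ p ∈ P \ E, El lp p (ll b p (r8c_ext P β p) (r8c_ext P β' p))| =
      ∏ p : P, Q5_t lp b E (p : ℕ) (β p) (β' p) := by
  have h1 : ∏ p : P, Q5_t lp b E (p : ℕ) (β p) (β' p) =
      ∏ p ∈ P, Q5_t lp b E p (r8c_ext P β p) (r8c_ext P β' p) := by
    rw [← prod_coe_sort P]
    refine prod_congr rfl fun p _ => ?_
    rw [r8c_ext_coe, r8c_ext_coe]
  rw [h1, ← prod_sdiff hE, mul_comm, abs_prod]
  congr 1
  · refine prod_congr rfl fun p hp => ?_
    unfold Q5_t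
    rw [if_neg (mem_sdiff.1 hp).2]
  · refine prod_congr rfl fun p hp => ?_
    unfold Q5_t
    rw [if_pos hp]

private theorem Q5_fi_nonneg {p : ℕ} (hp : 3 ≤ p) (o : Option ι) : 0 ≤ fi p o := by
  have h3 : (3 : ℝ) ≤ p := by exact_mod_cast hp
  cases o with
  | none => exact zero_le_one
  | some i =>
    show 0 ≤ 1 / ((p : ℝ) - 1)
    apply div_nonneg zero_le_one
    linarith

private theorem Q5_ro_ge {p : ℕ} (hp : 3 ≤ p) (N : ℕ) (o : Option ι) : 1 ≤ ro N p o := by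
  have h3 : (3 : ℝ) ≤ p := by exact_mod_cast hp
  have h4 : (0 : ℝ) < (p : ℝ) - 1 := by linarith
  cases o with
  | none =>
    show 1 ≤ 1 + (N : ℝ) / ((p : ℝ) - 1) ^ 2
    have : 0 ≤ (N : ℝ) / ((p : ℝ) - 1) ^ 2 := by positivity
    linarith
  | some i =>
    show 1 ≤ 1 + (2 * (N : ℝ) + 2) / ((p : ℝ) - 1)
    have : 0 ≤ (2 * (N : ℝ) + 2) / ((p : ℝ) - 1) := by positivity
    linarith

private theorem Q5_uo_nonneg {p : ℕ} (hp : 3 ≤ p) (N : ℕ) (o : Option ι) : 0 ≤ uo N p o := by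
  have h3 : (3 : ℝ) ≤ p := by exact_mod_cast hp
  have h4 : (0 : ℝ) < (p : ℝ) - 1 := by linarith
  cases o with
  | none =>
    show 0 ≤ 5 * (N : ℝ)
    positivity
  | some i =>
    show 0 ≤ 17 * ((p : ℝ) - 1)
    positivity

/-- the local row sums -/
private theorem Q5_row {lp : ℕ → ℕ → ℝ} {b : ι → ℕ} {J : Finset ι} (hL : LocT P lp b J) {N : ℕ}
    (hN : J.card ≤ N) (hNp : ∀ p ∈ P, (N : ℝ) ≤ (p : ℝ) - 1) (E : Finset ℕ) {p : ℕ} (hp : p ∈ P)
    {o : Option ι} (ho : o ∈ insertNone J) :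
    ∑ o' ∈ insertNone J, Q5_t lp b E p o o' ≤
      fi p o * (if p ∈ E then uo N p o else 1) * ro N p o := by
  have h3 := hL.three p hp
  have hfi := Q5_fi_nonneg h3 o
  have hro := Q5_ro_ge h3 N o
  by_cases hpE : p ∈ E
  · rw [if_pos hpE]
    have h1 : ∑ o' ∈ insertNone J, Q5_t lp b E p o o' ≤ fi p o * uo N p o := by
      refine le_trans (le_of_eq ?_) (row_dev hL hp hN (hNp p hp) ho)
      refine sum_congr rfl fun o' _ => ?_
      unfold Q5_t
      rw [if_pos hpE]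
    have h2 : 0 ≤ fi p o * uo N p o := mul_nonneg hfi (Q5_uo_nonneg h3 N o)
    calc _ ≤ fi p o * uo N p o := h1
      _ ≤ fi p o * uo N p o * ro N p o := le_mul_of_one_le_right h2 hro
  · rw [if_neg hpE, mul_one]
    refine le_trans (sum_le_sum fun o' _ => ?_) (row_main hL hp hN ho)
    unfold Q5_t
    rw [if_neg hpE]
    have h5 : 0 ≤ dg p o o' := by
      unfold dg
      split_ifs
      · exact hfi
      · exact le_rfl
    calc |El lp p (ll b p o o')| = |dg p o o' + (El lp p (ll b p o o') - dg p o o')| := by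
          congr 1; ring
      _ ≤ |dg p o o'| + |El lp p (ll b p o o') - dg p o o'| := abs_add_le _ _
      _ = _ := by rw [abs_of_nonneg h5]

private theorem Q5_mem_pi {J : Finset ι} {β : P → Option ι} :
    β ∈ Fintype.piFinset (fun _ : P => insertNone J) ↔ alw P J β := by
  rw [Fintype.mem_piFinset]
  unfold alw
  constructor
  · intro h p i hi
    have h1 := h p
    rw [hi] at h1
    exact some_mem_insertNone.1 h1
  · intro h p
    cases hp : β p with
    | none => exact none_mem_insertNone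
    | some i => exact some_mem_insertNone.2 (h p i hp)

/-- the weight is quasi-monotone -/
private theorem Q5_fi_update {β : P → Option ι} (p : P) (o : Option ι) :
    ∏ q : P, fi (q : ℕ) (Function.update β p o q) =
      fi (p : ℕ) o * ∏ q ∈ (univ : Finset P).erase p, fi (q : ℕ) (β q) := by
  rw [← mul_prod_erase univ (fun q : P => fi (q : ℕ) (Function.update β p o q)) (mem_univ p),
    Function.update_self]
  congr 1
  refine prod_congr rfl fun q hq => ?_
  rw [Function.update_of_ne (ne_of_mem_erase hq)]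

theorem err_term {lp : ℕ → ℕ → ℝ} {b : ι → ℕ} {J : Finset ι} (hL : LocT P lp b J) {N : ℕ} (hN : Fintype.card ι ≤ N)
    (hNp : ∀ p ∈ P, (N : ℝ) ≤ (p : ℝ) - 1)
    (y mj : (P → Option ι) → ℝ) (hy : ∀ β, |y β| ≤ mj β) (hal : ∀ β, y β ≠ 0 → alw P J β)
    (hmono : ∀ (β : P → Option ι) (p : P), mj β ^ 2 ≤ mj (Function.update β p none) ^ 2)
    {δ : ℝ} (hδ : ∀ β, mj β ≠ 0 → ∏ p : P, ro N (p : ℕ) (β p) ≤ 1 + δ) (E : Finset ℕ) (hE : E ⊆ P) :
    ∑ β, ∑ β', |y β * y β'| * ((∏ p ∈ E, tot p (dv lp b p (r8c_ext P β p) (r8c_ext P β' p))) *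
        |∏ p ∈ P \ E, El lp p (ll b p (r8c_ext P β p) (r8c_ext P β' p))|) ≤
      (1 + δ) * (22 * (N : ℝ)) ^ E.card * DD P mj := by
  have hJN : J.card ≤ N := (card_le_univ J).trans hN
  set T : (P → Option ι) → (P → Option ι) → ℝ :=
    fun β β' => ∏ p : P, Q5_t lp b E (p : ℕ) (β p) (β' p) with hT
  have hT0 : ∀ β β', 0 ≤ T β β' := fun β β' => prod_nonneg fun p _ => Q5_t_nonneg _ _ _ _ _ _
  have hTc : ∀ β β', T β β' = T β' β := fun β β' =>
    prod_congr rfl fun p _ => Q5_t_comm _ _ _ _ _ _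
  set S : Finset (P → Option ι) := Fintype.piFinset (fun _ : P => insertNone J) with hS
  have hyS : ∀ β, β ∉ S → y β = 0 := by
    intro β hβ
    by_contra h0
    exact hβ ((Q5_mem_pi P).2 (hal β h0))
  -- step 1 : reduction to `S`
  have e1 : ∑ β, ∑ β', |y β * y β'| * ((∏ p ∈ E, tot p (dv lp b p (r8c_ext P β p) (r8c_ext P β' p))) *
        |∏ p ∈ P \ E, El lp p (ll b p (r8c_ext P β p) (r8c_ext P β' p))|) =
      ∑ β ∈ S, ∑ β' ∈ S, |y β * y β'| * T β β' := by
    rw [← sum_subset (subset_univ S)]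
    · refine sum_congr rfl fun β _ => ?_
      rw [← sum_subset (subset_univ S)]
      · refine sum_congr rfl fun β' _ => ?_
        rw [Q5_T P lp b E hE β β']
      · intro β' _ hβ'
        rw [hyS β' hβ', mul_zero, abs_zero, zero_mul]
    · intro β _ hβ
      refine sum_eq_zero fun β' _ => ?_
      rw [hyS β hβ, zero_mul, abs_zero, zero_mul]
  -- step 2 : AM-GM and symmetry
  have e2 : ∑ β ∈ S, ∑ β' ∈ S, |y β * y β'| * T β β' ≤ ∑ β ∈ S, ∑ β' ∈ S, y β ^ 2 * T β β' := by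
    have h1 : ∑ β ∈ S, ∑ β' ∈ S, |y β * y β'| * T β β' ≤
        ∑ β ∈ S, ∑ β' ∈ S, (y β ^ 2 * T β β' / 2 + y β' ^ 2 * T β β' / 2) := by
      refine sum_le_sum fun β _ => sum_le_sum fun β' _ => ?_
      have h2 : |y β * y β'| ≤ (y β ^ 2 + y β' ^ 2) / 2 := by
        rw [abs_mul]
        nlinarith [sq_nonneg (|y β| - |y β'|), sq_abs (y β), sq_abs (y β')]
      have h3 := mul_le_mul_of_nonneg_right h2 (hT0 β β')
      linarith
    have h2 : ∑ β ∈ S, ∑ β' ∈ S, y β' ^ 2 * T β β' / 2 = ∑ β ∈ S, ∑ β' ∈ S, y β ^ 2 * T β β' / 2 := by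
      rw [sum_comm]
      refine sum_congr rfl fun β _ => sum_congr rfl fun β' _ => ?_
      rw [hTc β' β]
    have h3 : ∑ β ∈ S, ∑ β' ∈ S, (y β ^ 2 * T β β' / 2 + y β' ^ 2 * T β β' / 2) =
        ∑ β ∈ S, ∑ β' ∈ S, y β ^ 2 * T β β' := by
      simp_rw [sum_add_distrib]
      rw [h2, ← sum_add_distrib]
      refine sum_congr rfl fun β _ => ?_
      rw [← sum_add_distrib]
      refine sum_congr rfl fun β' _ => ?_
      ring
    exact h1.trans h3.le
  -- step 3 : row sums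
  have e3 : ∀ β ∈ S, ∑ β' ∈ S, T β β' ≤
      1 / ph (sp P β) * (∏ p ∈ E, uo N p (r8c_ext P β p)) * ∏ p : P, ro N (p : ℕ) (β p) := by
    intro β hβ
    have hβ' : ∀ p : P, β p ∈ insertNone J := Fintype.mem_piFinset.1 hβ
    have h1 : ∑ β' ∈ S, T β β' = ∏ p : P, ∑ o' ∈ insertNone J, Q5_t lp b E (p : ℕ) (β p) o' := by
      rw [prod_univ_sum]
    rw [h1]
    have h2 : ∏ p : P, ∑ o' ∈ insertNone J, Q5_t lp b E (p : ℕ) (β p) o' ≤
        ∏ p : P, (fi (p : ℕ) (β p) * (if (p : ℕ) ∈ E then uo N (p : ℕ) (β p) else 1) *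
          ro N (p : ℕ) (β p)) := by
      refine prod_le_prod (fun p _ => sum_nonneg fun o' _ => Q5_t_nonneg _ _ _ _ _ _)
        (fun p _ => ?_)
      exact Q5_row P hL hJN hNp E p.2 (hβ' p)
    refine h2.trans (le_of_eq ?_)
    rw [prod_mul_distrib, prod_mul_distrib, prod_fi P β]
    congr 2
    have h3 : ∏ p : P, (if (p : ℕ) ∈ E then uo N (p : ℕ) (β p) else 1) =
        ∏ p ∈ P, (if p ∈ E then uo N p (r8c_ext P β p) else 1) := by
      rw [← prod_coe_sort P]
      refine prod_congr rfl fun p _ => ?_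
      rw [r8c_ext_coe]
    rw [h3, ← prod_filter, filter_mem_eq_inter, inter_eq_right.2 hE]
  -- step 4
  have huo : ∀ β : P → Option ι, 0 ≤ ∏ p ∈ E, uo N p (r8c_ext P β p) := fun β =>
    prod_nonneg fun p hp => Q5_uo_nonneg (hL.three p (hE hp)) N _
  have hph : ∀ β : P → Option ι, 0 ≤ 1 / ph (sp P β) := fun β => by
    rw [← prod_fi P β]
    exact prod_nonneg fun p _ => Q5_fi_nonneg (hL.three p p.2) _
  have hro : ∀ β : P → Option ι, 1 ≤ ∏ p : P, ro N (p : ℕ) (β p) := fun β => by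
    calc (1 : ℝ) = ∏ p : P, (1 : ℝ) := by rw [prod_const_one]
      _ ≤ _ := prod_le_prod (fun _ _ => zero_le_one) fun p _ => Q5_ro_ge (hL.three p p.2) N _
  have hmj0 : ∀ β, 0 ≤ mj β := fun β => (abs_nonneg _).trans (hy β)
  have e4 : ∑ β ∈ S, ∑ β' ∈ S, y β ^ 2 * T β β' ≤
      ∑ β, (1 + δ) * (mj β ^ 2 / ph (sp P β) * ∏ p ∈ E, uo N p (r8c_ext P β p)) := by
    have h0 : ∀ β, 0 ≤ (1 + δ) * (mj β ^ 2 / ph (sp P β) * ∏ p ∈ E, uo N p (r8c_ext P β p)) := by
      intro β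
      rcases eq_or_ne (mj β) 0 with h | h
      · rw [h]; simp
      · have h1 : 0 ≤ 1 + δ := zero_le_one.trans ((hro β).trans (hδ β h))
        refine mul_nonneg h1 (mul_nonneg ?_ (huo β))
        rw [div_eq_mul_one_div]
        exact mul_nonneg (sq_nonneg _) (hph β)
    refine le_trans (sum_le_sum fun β hβ => ?_) (sum_le_sum_of_subset_of_nonneg (subset_univ S)
      fun β _ _ => h0 β)
    rw [← mul_sum]
    rcases eq_or_ne (mj β) 0 with h | h
    · have h1 : y β = 0 := by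
        have := hy β
        rw [h] at this
        exact abs_nonpos_iff.1 this
      rw [h1]
      simpa using h0 β
    · have h1 : y β ^ 2 ≤ mj β ^ 2 := by
        rw [← sq_abs (y β)]
        exact pow_le_pow_left₀ (abs_nonneg _) (hy β) 2
      have h2 : ∑ β' ∈ S, T β β' ≤
          1 / ph (sp P β) * (∏ p ∈ E, uo N p (r8c_ext P β p)) * (1 + δ) :=
        (e3 β hβ).trans (mul_le_mul_of_nonneg_left (hδ β h) (mul_nonneg (hph β) (huo β)))
      calc y β ^ 2 * ∑ β' ∈ S, T β β'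
          ≤ mj β ^ 2 * (1 / ph (sp P β) * (∏ p ∈ E, uo N p (r8c_ext P β p)) * (1 + δ)) :=
            mul_le_mul h1 h2 (sum_nonneg fun _ _ => hT0 _ _) (sq_nonneg _)
        _ = _ := by ring
  rw [e1]
  refine (e2.trans e4).trans ?_
  rw [← mul_sum]
  by_cases hall : ∀ β, mj β = 0
  · have h1 : ∑ β, mj β ^ 2 / ph (sp P β) * ∏ p ∈ E, uo N p (r8c_ext P β p) = 0 :=
      sum_eq_zero fun β _ => by rw [hall β]; simp
    have h2 : DD P mj = 0 := sum_eq_zero fun β _ => by rw [hall β]; simp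
    rw [h1, h2, mul_zero, mul_zero]
  · push Not at hall
    obtain ⟨β₀, hβ₀⟩ := hall
    have h1 : 0 ≤ 1 + δ := zero_le_one.trans ((hro β₀).trans (hδ β₀ hβ₀))
    rw [mul_assoc]
    refine mul_le_mul_of_nonneg_left ?_ h1
    refine mass P hL.three (fun β => mj β ^ 2 / ph (sp P β)) (fun β => ?_) (fun β p i => ?_) hN E hE
    · rw [div_eq_mul_one_div]
      exact mul_nonneg (sq_nonneg _) (hph β)
    · have h2 : mj (Function.update β p (some i)) ^ 2 ≤ mj (Function.update β p none) ^ 2 := by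
        have := hmono (Function.update β p (some i)) p
        rwa [Function.update_idem] at this
      have h3 : 0 ≤ ∏ q ∈ (univ : Finset P).erase p, fi (q : ℕ) (β q) :=
        prod_nonneg fun q _ => Q5_fi_nonneg (hL.three q q.2) _
      have h4 : (0 : ℝ) ≤ 1 / (((p : ℕ) : ℝ) - 1) := Q5_fi_nonneg (hL.three p p.2) (some i)
      show mj (Function.update β p (some i)) ^ 2 / ph (sp P (Function.update β p (some i))) ≤
        mj (Function.update β p none) ^ 2 / ph (sp P (Function.update β p none)) /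
          (((p : ℕ) : ℝ) - 1)
      rw [div_eq_mul_one_div, ← prod_fi, div_eq_mul_one_div (mj (Function.update β p none) ^ 2),
        ← prod_fi, Q5_fi_update, Q5_fi_update, div_eq_mul_one_div (mj (Function.update β p none) ^ 2 *
          _)]
      show mj (Function.update β p (some i)) ^ 2 * (1 / (((p : ℕ) : ℝ) - 1) *
          ∏ q ∈ (univ : Finset P).erase p, fi (q : ℕ) (β q)) ≤
        mj (Function.update β p none) ^ 2 * (1 *
          ∏ q ∈ (univ : Finset P).erase p, fi (q : ℕ) (β q)) * (1 / (((p : ℕ) : ℝ) - 1))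
      calc _ ≤ mj (Function.update β p none) ^ 2 * (1 / (((p : ℕ) : ℝ) - 1) *
            ∏ q ∈ (univ : Finset P).erase p, fi (q : ℕ) (β q)) :=
            mul_le_mul_of_nonneg_right h2 (mul_nonneg h4 h3)
        _ = _ := by ring

end Pool.Agent.LibT63
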