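import Pool.Agent.LibT63.Q2
import Pool.Agent.LibT63.Q5

/-!
Row Q6 (Theorem QF). `expand`; the term `E = ∅` is `(∑ F) * ∑_β ∑_β' y y' ∏_{p ∈ P} El` : `main_term`. For `E ≠ ∅`: `dv` has local mean zero (`LocT.sum`) and is periodic (`loc_per` in LibRG87.R8b), so `hM.mz` if `rr E ≤ R0 ^ 2`:
`|∑_n F ∏ dv| ≤ er E ∏ tot`, and `err_term`. If `R0 ^ 2 < rr E` then the term vanishes for `y β y β' ≠ 0`: `rr (sp β ∪ sp β') ≤ rr (sp β) rr (sp β') ≤ R0 ^ 2`, so some `p ∈ E` is outside `sp β ∪ sp β'`, there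
both values are `none` (`r8c_ext_none`) and `dv = 1 - El 1 = 0`. Sum over `E`: `Etot`. (`R0 ≥ 0` follows if some `mj β ≠ 0`.)
-/

open Finset

namespace Pool.Agent.LibT63

open Pool.Agent.LibRG87 Pool.Agent.LibLG5 Pool.Agent.LibPL63

variable {ι : Type} [Fintype ι] [DecidableEq ι] (P : Finset ℕ)

private theorem Q6_dv_none {lp : ℕ → ℕ → ℝ} {b : ι → ℕ} {J : Finset ι} (hL : LocT P lp b J)
    {p : ℕ} (hp : p ∈ P) (n : ℕ) : dv lp b p none none n = 0 := by
  unfold dv El ll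
  have h1 : ∀ x : ℕ, loc b p none x * loc b p none x = 1 := fun x => by
    show (1 : ℝ) * 1 = 1
    norm_num
  simp_rw [h1, mul_one, hL.sum p hp, sub_self]

private theorem Q6_dv_mean {lp : ℕ → ℕ → ℝ} {b : ι → ℕ} {J : Finset ι} (hL : LocT P lp b J)
    {p : ℕ} (hp : p ∈ P) (o o' : Option ι) : El lp p (dv lp b p o o') = 0 := by
  have h1 : El lp p (dv lp b p o o') = El lp p (ll b p o o') -
      (∑ x ∈ range p, lp p x) * El lp p (ll b p o o') := by
    unfold El dv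
    rw [sum_mul, ← sum_sub_distrib]
    refine sum_congr rfl fun x _ => ?_
    unfold El
    ring
  rw [h1, hL.sum p hp, one_mul, sub_self]

private theorem Q6_dv_per {lp : ℕ → ℕ → ℝ} {b : ι → ℕ} (p : ℕ) (o o' : Option ι) :
    Function.Periodic (dv lp b p o o') p := by
  intro n
  unfold dv ll
  rw [loc_per, loc_per]

/-- the term of `E` -/
private noncomputable def Q6_S (lp : ℕ → ℕ → ℝ) (b : ι → ℕ) (s : Finset ℕ) (F : ℕ → ℝ)
    (y : (P → Option ι) → ℝ) (E : Finset ℕ) : ℝ :=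
  ∑ β, ∑ β', y β * y β' *
      ((∑ n ∈ s, F n * ∏ p ∈ E, dv lp b p (r8c_ext P β p) (r8c_ext P β' p) n) *
        ∏ p ∈ P \ E, El lp p (ll b p (r8c_ext P β p) (r8c_ext P β' p)))

private theorem Q6_empty (lp : ℕ → ℕ → ℝ) (b : ι → ℕ) (s : Finset ℕ) (F : ℕ → ℝ)
    (y : (P → Option ι) → ℝ) : Q6_S P lp b s F y ∅ = (∑ n ∈ s, F n) *
      ∑ β, ∑ β', y β * y β' * ∏ p ∈ P, El lp p (ll b p (r8c_ext P β p) (r8c_ext P β' p)) := by
  unfold Q6_S
  rw [mul_sum]
  refine sum_congr rfl fun β _ => ?_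
  rw [mul_sum]
  refine sum_congr rfl fun β' _ => ?_
  simp only [prod_empty, mul_one, sdiff_empty]
  ring

theorem QF {lp : ℕ → ℕ → ℝ} {b : ι → ℕ} {J : Finset ι} (hL : LocT P lp b J) {N : ℕ} (hN : Fintype.card ι ≤ N)
    (hNp : ∀ p ∈ P, (N : ℝ) ≤ (p : ℝ) - 1) (s : Finset ℕ) (F : ℕ → ℝ) {R0 : ℝ} (er : Finset ℕ → ℝ)
    (hM : MZ P s F lp (R0 ^ 2) er)
    (y mj : (P → Option ι) → ℝ) (hy : ∀ β, |y β| ≤ mj β) (hsup : ∀ β, mj β ≠ 0 → rr (sp P β) ≤ R0)
    (hal : ∀ β, y β ≠ 0 → alw P J β)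
    (hmono : ∀ (β : P → Option ι) (p : P), mj β ^ 2 ≤ mj (Function.update β p none) ^ 2)
    {δ : ℝ} (hδ : ∀ β, mj β ≠ 0 → ∏ p : P, ro N (p : ℕ) (β p) ≤ 1 + δ) :
    |∑ n ∈ s, F n * PhiF P b y n ^ 2 - (∑ n ∈ s, F n) * DD P y| ≤
      δ * ((∑ n ∈ s, F n) * DD P y) + (1 + δ) * Etot P (R0 ^ 2) N er * DD P mj := by
  classical
  have hJN : J.card ≤ N := (card_le_univ J).trans hN
  have hmj : ∀ β, y β ≠ 0 → mj β ≠ 0 := by
    intro β h h0
    have := hy β
    rw [h0] at this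
    exact h (abs_nonpos_iff.1 this)
  have hF : 0 ≤ ∑ n ∈ s, F n := sum_nonneg hM.F_nonneg
  have h1 := expand P lp b s F y
  have h2 : ∑ n ∈ s, F n * PhiF P b y n ^ 2 = ∑ E ∈ P.powerset, Q6_S P lp b s F y E := h1
  rw [h2, ← sum_erase_add _ _ (empty_mem_powerset P)]
  -- the term of the empty set
  have hmain : |Q6_S P lp b s F y ∅ - (∑ n ∈ s, F n) * DD P y| ≤
      δ * ((∑ n ∈ s, F n) * DD P y) := by
    rw [Q6_empty, ← mul_sub, abs_mul, abs_of_nonneg hF]
    have h3 := main_term P hL hJN y hal (δ := δ) (fun β hβ => hδ β (hmj β hβ))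
    calc _ ≤ (∑ n ∈ s, F n) * (δ * DD P y) := mul_le_mul_of_nonneg_left h3 hF
      _ = _ := by ring
  -- the other terms, small
  have hsmall : ∀ E ⊆ P, E.Nonempty → rr E ≤ R0 ^ 2 →
      |Q6_S P lp b s F y E| ≤ (1 + δ) * ((22 * (N : ℝ)) ^ E.card * er E) * DD P mj := by
    intro E hE hne hrr
    have h3 : |Q6_S P lp b s F y E| ≤
        er E * ∑ β, ∑ β', |y β * y β'| * ((∏ p ∈ E, tot p (dv lp b p (r8c_ext P β p) (r8c_ext P β' p))) *
        |∏ p ∈ P \ E, El lp p (ll b p (r8c_ext P β p) (r8c_ext P β' p))|) := by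
      unfold Q6_S
      rw [mul_sum]
      refine (abs_sum_le_sum_abs _ _).trans (sum_le_sum fun β _ => ?_)
      rw [mul_sum]
      refine (abs_sum_le_sum_abs _ _).trans (sum_le_sum fun β' _ => ?_)
      rw [abs_mul (y β * y β'), abs_mul (∑ n ∈ s, F n * ∏ p ∈ E, _)]
      have h4 := hM.mz E hE hne hrr
        (fun p n => dv lp b p (r8c_ext P β p) (r8c_ext P β' p) n)
        (fun p _ => Q6_dv_per p _ _) (fun p hp => Q6_dv_mean P hL (hE hp) _ _)
      calc |y β * y β'| * (|∑ n ∈ s, F n * ∏ p ∈ E, dv lp b p (r8c_ext P β p) (r8c_ext P β' p) n| *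
            |∏ p ∈ P \ E, El lp p (ll b p (r8c_ext P β p) (r8c_ext P β' p))|)
          ≤ |y β * y β'| * ((er E * ∏ p ∈ E, tot p (dv lp b p (r8c_ext P β p) (r8c_ext P β' p))) *
            |∏ p ∈ P \ E, El lp p (ll b p (r8c_ext P β p) (r8c_ext P β' p))|) := by
            refine mul_le_mul_of_nonneg_left ?_ (abs_nonneg _)
            exact mul_le_mul_of_nonneg_right h4 (abs_nonneg _)
        _ = _ := by ring
    have h4 := err_term P hL hN hNp y mj hy hal hmono hδ E hE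
    calc _ ≤ er E * ((1 + δ) * (22 * (N : ℝ)) ^ E.card * DD P mj) :=
          h3.trans (mul_le_mul_of_nonneg_left h4 (hM.er_nonneg E))
      _ = _ := by ring
  -- the other terms, large
  have hlarge : ∀ E ⊆ P, R0 ^ 2 < rr E → Q6_S P lp b s F y E = 0 := by
    intro E hE hrr
    unfold Q6_S
    refine sum_eq_zero fun β _ => sum_eq_zero fun β' _ => ?_
    by_cases hb : y β = 0
    · rw [hb]; ring
    by_cases hb' : y β' = 0
    · rw [hb']; ring
    have h3 := hsup β (hmj β hb)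
    have h4 := hsup β' (hmj β' hb')
    have h5 : ∃ p ∈ E, p ∉ sp P β ∪ sp P β' := by
      by_contra hcon
      push Not at hcon
      have hsub : E ⊆ sp P β ∪ sp P β' := fun p hp => hcon p hp
      have hSP : sp P β ∪ sp P β' ⊆ P := union_subset (sp_subset P β) (sp_subset P β')
      have h6 : rr E ≤ rr (sp P β ∪ sp P β') := by
        have g1 : 1 ≤ rr ((sp P β ∪ sp P β') \ E) :=
          one_le_rr P hL.prime (sdiff_subset.trans hSP)
        have g2 : 0 < rr E := rr_pos P hL.prime hE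
        have g3 : rr (sp P β ∪ sp P β') = rr ((sp P β ∪ sp P β') \ E) * rr E := by
          unfold rr
          exact (prod_sdiff hsub).symm
        rw [g3]
        nlinarith
      have h7 : rr (sp P β ∪ sp P β') * rr (sp P β ∩ sp P β') = rr (sp P β) * rr (sp P β') := by
        unfold rr
        exact prod_union_inter
      have h8 : 1 ≤ rr (sp P β ∩ sp P β') :=
        one_le_rr P hL.prime (inter_subset_left.trans (sp_subset P β))
      have h9 : 0 < rr (sp P β ∪ sp P β') := rr_pos P hL.prime hSP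
      have h10 : 1 ≤ rr (sp P β) := one_le_rr P hL.prime (sp_subset P β)
      have h11 : 1 ≤ rr (sp P β') := one_le_rr P hL.prime (sp_subset P β')
      have h12 : rr (sp P β) * rr (sp P β') ≤ R0 ^ 2 := by
        rw [sq]
        exact mul_le_mul h3 h4 (by linarith) (by linarith)
      nlinarith
    obtain ⟨p, hpE, hp⟩ := h5
    rw [mem_union, not_or] at hp
    have h6 : ∀ n, ∏ p ∈ E, dv lp b p (r8c_ext P β p) (r8c_ext P β' p) n = 0 := by
      intro n
      refine prod_eq_zero hpE ?_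
      rw [r8c_ext_none P (hE hpE) hp.1, r8c_ext_none P (hE hpE) hp.2]
      exact Q6_dv_none P hL (hE hpE) n
    simp_rw [h6, mul_zero, sum_const_zero]
    ring
  have hrest : |∑ E ∈ P.powerset.erase ∅, Q6_S P lp b s F y E| ≤
      (1 + δ) * Etot P (R0 ^ 2) N er * DD P mj := by
    have h3 : ∑ E ∈ P.powerset.erase ∅, Q6_S P lp b s F y E =
        ∑ E ∈ P.powerset with (E.Nonempty ∧ rr E ≤ R0 ^ 2), Q6_S P lp b s F y E := by
      symm
      apply sum_subset
      · intro E hE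
        rw [mem_filter] at hE
        rw [mem_erase]
        exact ⟨hE.2.1.ne_empty, hE.1⟩
      · intro E hE hE'
        rw [mem_erase] at hE
        rw [mem_filter, not_and, not_and] at hE'
        have h4 := hE' hE.2 (nonempty_iff_ne_empty.2 hE.1)
        exact hlarge E (mem_powerset.1 hE.2) (not_le.1 h4)
    rw [h3]
    unfold Etot
    rw [mul_sum, sum_mul]
    refine (abs_sum_le_sum_abs _ _).trans ?_
    refine le_trans (b := ∑ E ∈ P.powerset with (E.Nonempty ∧ rr E ≤ R0 ^ 2),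
      (1 + δ) * ((22 * (N : ℝ)) ^ E.card * er E) * DD P mj) (sum_le_sum fun E hE => ?_) (le_of_eq ?_)
    · rw [mem_filter, mem_powerset] at hE
      exact hsmall E hE.1 hE.2.1 hE.2.2
    · refine sum_congr ?_ fun _ _ => rfl
      ext E
      simp only [mem_filter]
  have h5 : ∑ E ∈ P.powerset.erase ∅, Q6_S P lp b s F y E + Q6_S P lp b s F y ∅ -
      (∑ n ∈ s, F n) * DD P y = ∑ E ∈ P.powerset.erase ∅, Q6_S P lp b s F y E +
        (Q6_S P lp b s F y ∅ - (∑ n ∈ s, F n) * DD P y) := by ring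
  rw [h5]
  refine (abs_add_le _ _).trans ?_
  linarith

end Pool.Agent.LibT63
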