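import Pool.Agent.LibT63.QDefs

/-!
Row Q8 (the collapsed joint coefficients).
-/

open Finset

namespace Pool.Agent.LibT63

open Pool.Agent.LibRG87 Pool.Agent.LibLG5 Pool.Agent.LibPL63

variable {κ ν : Type} [Fintype κ] [DecidableEq κ] [Fintype ν] [DecidableEq ν] (P : Finset ℕ)

private theorem Q8_self {ι : Type} [Fintype ι] [DecidableEq ι] (i0 : ι) (A : Finset ℕ) (β : P → Option ι)
    (hβ : ∀ p, β p ≠ some i0) (hA : A ⊆ P) : fb P (R10_ins P i0 A β) i0 = A := by
  ext q
  rw [mem_fb]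
  constructor
  · rintro ⟨hq, h3⟩
    unfold R10_ins at h3
    by_contra h4
    rw [if_neg h4] at h3
    exact hβ _ h3
  · intro hq
    refine ⟨hA hq, ?_⟩
    unfold R10_ins
    rw [if_pos hq]

private theorem Q8_ne {ι : Type} [Fintype ι] [DecidableEq ι] {i i0 : ι} (hi : i ≠ i0) (A : Finset ℕ)
    (β : P → Option ι) (hA : A ⊆ P \ sp P β) : fb P (R10_ins P i0 A β) i = fb P β i := by
  ext q
  rw [mem_fb, mem_fb]
  refine exists_congr fun hq => ?_
  unfold R10_ins
  by_cases h1 : q ∈ A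
  · rw [if_pos h1]
    have h2 := (Finset.mem_sdiff.1 (hA h1)).2
    constructor
    · intro h3
      exact absurd (Option.some_injective _ h3).symm hi
    · intro h3
      exfalso
      apply h2
      rw [mem_sp]
      refine ⟨hq, ?_⟩
      rw [h3]
      exact Option.some_ne_none i
  · rw [if_neg h1]

private theorem Q8_empty {ι : Type} [Fintype ι] [DecidableEq ι] (i0 : ι) (β : P → Option ι)
    (hβ : ∀ p, β p ≠ some i0) : fb P β i0 = ∅ := by
  ext q
  rw [mem_fb]
  constructor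
  · rintro ⟨hq, h1⟩
    exact absurd h1 (hβ _)
  · intro h1
    exact absurd h1 (Finset.notMem_empty _)

private theorem Q8_prod_inr (F : Finset ℕ → ℝ) (hF : F ∅ = 1) (s : ν) (A : Finset ℕ) (β : P → Option (κ ⊕ ν))
    (hβ : ∀ p, β p ≠ some (Sum.inr s)) (hA : A ⊆ P \ sp P β) :
    ∏ i : ν, F (fb P (R10_ins P (Sum.inr s) A β) (Sum.inr i)) = F A * ∏ i : ν, F (fb P β (Sum.inr i)) := by
  rw [← Finset.mul_prod_erase univ (fun i : ν => F (fb P (R10_ins P (Sum.inr s) A β) (Sum.inr i))) (mem_univ s),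
    ← Finset.mul_prod_erase univ (fun i : ν => F (fb P β (Sum.inr i))) (mem_univ s),
    Q8_self P _ A β hβ (hA.trans Finset.sdiff_subset), Q8_empty P _ β hβ, hF, one_mul]
  congr 1
  refine Finset.prod_congr rfl fun i hi => ?_
  have hne : (Sum.inr i : κ ⊕ ν) ≠ Sum.inr s := fun h => Finset.ne_of_mem_erase hi (Sum.inr_injective h)
  rw [Q8_ne P hne A β hA]

private theorem Q8_prod_inr' (F : Finset ℕ → ℝ) (s : ν) (A : Finset ℕ) (β : P → Option (κ ⊕ ν))
    (hA : A ⊆ P \ sp P β) :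
    ∏ i : κ, F (fb P (R10_ins P (Sum.inr s) A β) (Sum.inl i)) = ∏ i : κ, F (fb P β (Sum.inl i)) := by
  refine Finset.prod_congr rfl fun i _ => ?_
  rw [Q8_ne P (Sum.inl_ne_inr) A β hA]

private theorem Q8_prod_inl (F : Finset ℕ → ℝ) (hF : F ∅ = 1) (s : κ) (A : Finset ℕ) (β : P → Option (κ ⊕ ν))
    (hβ : ∀ p, β p ≠ some (Sum.inl s)) (hA : A ⊆ P \ sp P β) :
    ∏ i : κ, F (fb P (R10_ins P (Sum.inl s) A β) (Sum.inl i)) = F A * ∏ i : κ, F (fb P β (Sum.inl i)) := by
  rw [← Finset.mul_prod_erase univ (fun i : κ => F (fb P (R10_ins P (Sum.inl s) A β) (Sum.inl i))) (mem_univ s),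
    ← Finset.mul_prod_erase univ (fun i : κ => F (fb P β (Sum.inl i))) (mem_univ s),
    Q8_self P _ A β hβ (hA.trans Finset.sdiff_subset), Q8_empty P _ β hβ, hF, one_mul]
  congr 1
  refine Finset.prod_congr rfl fun i hi => ?_
  have hne : (Sum.inl i : κ ⊕ ν) ≠ Sum.inl s := fun h => Finset.ne_of_mem_erase hi (Sum.inl_injective h)
  rw [Q8_ne P hne A β hA]

private theorem Q8_prod_inl' (F : Finset ℕ → ℝ) (s : κ) (A : Finset ℕ) (β : P → Option (κ ⊕ ν))
    (hA : A ⊆ P \ sp P β) :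
    ∏ i : ν, F (fb P (R10_ins P (Sum.inl s) A β) (Sum.inr i)) = ∏ i : ν, F (fb P β (Sum.inr i)) := by
  refine Finset.prod_congr rfl fun i _ => ?_
  rw [Q8_ne P (Sum.inr_ne_inl) A β hA]

private theorem Q8_rr_empty : rr ∅ = 1 := by
  unfold rr
  rw [Finset.prod_empty]

theorem rr_sp_eq (β : P → Option (κ ⊕ ν)) : rr (sp P β) = rL P β * rR P β := by
  rw [rr_sp, Fintype.prod_sum_type]
  rfl

private theorem Q8_rL_pos (hP : ∀ p ∈ P, p.Prime) (β : P → Option (κ ⊕ ν)) : 0 < rL P β := by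
  unfold rL
  exact Finset.prod_pos fun i _ => rr_pos P hP (fb_subset P β _)

private theorem Q8_rR_pos (hP : ∀ p ∈ P, p.Prime) (β : P → Option (κ ⊕ ν)) : 0 < rR P β := by
  unfold rR
  exact Finset.prod_pos fun i _ => rr_pos P hP (fb_subset P β _)

theorem yCo_inr (hP : ∀ p ∈ P, p.Prime) (g : Finset ℕ → ℝ) (z T U : ℝ) (s : ν) (β : P → Option (κ ⊕ ν)) :
    yCo P (Sum.inr s) (yJ P g z T U) β = yS P g z T U s β := by
  classical
  unfold yCo yS
  by_cases hβ : ∀ p, β p ≠ some (Sum.inr s)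
  swap
  · rw [if_neg hβ, if_neg hβ]
  rw [if_pos hβ, if_pos hβ]
  have hL := Q8_rL_pos P hP β
  have hR := Q8_rR_pos P hP β
  have hterm : ∀ A ∈ (P \ sp P β).powerset, yJ P g z T U (R10_ins P (Sum.inr s) A β) / ph A =
      yJ P g z T U β * (if rr A * rr (sp P β) ≤ T * rL P β then ff P z A / ph A else 0) := by
    intro A hA
    rw [Finset.mem_powerset] at hA
    have hAP : A ⊆ P := hA.trans Finset.sdiff_subset
    have h1 : rL P (R10_ins P (Sum.inr s) A β) = rL P β := Q8_prod_inr' P rr s A β hA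
    have h2 : rR P (R10_ins P (Sum.inr s) A β) = rr A * rR P β := Q8_prod_inr P rr Q8_rr_empty s A β hβ hA
    have h3 : pr P g z (R10_ins P (Sum.inr s) A β) = pr P g z β * ff P z A := by
      unfold pr
      rw [Q8_prod_inr' P g s A β hA, Q8_prod_inr P (ff P z) (R10_ff_empty P z) s A β hβ hA]
      ring
    have hcond : (rr A * rr (sp P β) ≤ T * rL P β) ↔ rr A * rR P β ≤ T := by
      rw [rr_sp_eq]
      constructor
      · intro h4
        have h5 : (rr A * rR P β) * rL P β ≤ T * rL P β := by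
          calc (rr A * rR P β) * rL P β = rr A * (rL P β * rR P β) := by ring
            _ ≤ T * rL P β := h4
        exact le_of_mul_le_mul_right h5 hL
      · intro h4
        calc rr A * (rL P β * rR P β) = (rr A * rR P β) * rL P β := by ring
          _ ≤ T * rL P β := mul_le_mul_of_nonneg_right h4 hL.le
    have hA1 : 1 ≤ rr A := one_le_rr P hP hAP
    unfold yJ
    rw [h1, h2, h3]
    by_cases c1 : rL P β ≤ U
    · by_cases c2 : rr A * rR P β ≤ T
      · have c3 : rR P β ≤ T := by nlinarith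
        rw [if_pos ⟨c1, c2⟩, if_pos ⟨c1, c3⟩, if_pos (hcond.2 c2)]
        ring
      · rw [if_neg (fun h => c2 h.2), if_neg (fun h => c2 (hcond.1 h)), zero_div, mul_zero]
    · rw [if_neg (fun h => c1 h.1), if_neg (fun h => c1 h.1), zero_div, zero_mul]
  rw [Finset.sum_congr rfl hterm, ← Finset.mul_sum]
  unfold cc
  rw [Finset.sum_filter]

theorem yCo_inl (hP : ∀ p ∈ P, p.Prime) (g : Finset ℕ → ℝ) (hg : g ∅ = 1) (z T U : ℝ) (h : κ) (β : P → Option (κ ⊕ ν)) :
    yCo P (Sum.inl h) (yJ P g z T U) β = yH P g z T U h β := by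
  classical
  unfold yCo yH
  by_cases hβ : ∀ p, β p ≠ some (Sum.inl h)
  swap
  · rw [if_neg hβ, if_neg hβ]
  rw [if_pos hβ, if_pos hβ]
  have hL := Q8_rL_pos P hP β
  have hR := Q8_rR_pos P hP β
  have hterm : ∀ A ∈ (P \ sp P β).powerset, yJ P g z T U (R10_ins P (Sum.inl h) A β) / ph A =
      yJ P g z T U β * (if rr A * rL P β ≤ U then g A / ph A else 0) := by
    intro A hA
    rw [Finset.mem_powerset] at hA
    have hAP : A ⊆ P := hA.trans Finset.sdiff_subset
    have h1 : rR P (R10_ins P (Sum.inl h) A β) = rR P β := Q8_prod_inl' P rr h A β hA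
    have h2 : rL P (R10_ins P (Sum.inl h) A β) = rr A * rL P β := Q8_prod_inl P rr Q8_rr_empty h A β hβ hA
    have h3 : pr P g z (R10_ins P (Sum.inl h) A β) = pr P g z β * g A := by
      unfold pr
      rw [Q8_prod_inl' P (ff P z) h A β hA, Q8_prod_inl P g hg h A β hβ hA]
      ring
    have hA1 : 1 ≤ rr A := one_le_rr P hP hAP
    unfold yJ
    rw [h1, h2, h3]
    by_cases c1 : rR P β ≤ T
    · by_cases c2 : rr A * rL P β ≤ U
      · have c3 : rL P β ≤ U := by nlinarith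
        rw [if_pos ⟨c2, c1⟩, if_pos ⟨c3, c1⟩, if_pos c2]
        ring
      · rw [if_neg (fun h => c2 h.1), if_neg c2, zero_div, mul_zero]
    · rw [if_neg (fun h => c1 h.2), if_neg (fun h => c1 h.2), zero_div, zero_mul]
  rw [Finset.sum_congr rfl hterm, ← Finset.mul_sum]
  unfold gH
  rw [Finset.sum_filter]

end Pool.Agent.LibT63
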