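import Pool.Agent.LibT63.QDefs

/-!
Row Q9 (monotonicity). `ff_dec`: `ff ∅ = 1`, `|ff {p}| = 1/(ZZ log p) ≤ 1` (`1 ≤ ZZ log w`, `w < p`), and `log rr` increases; if `rr A > z` then also `rr (insert p A) > z`.
`yJ_mono`: removing the prime `p` from the configuration: if `β p = none` nothing happens; if `β p = some i` then `fb P β i = insert p (fb P (update β p none) i)`, the other `fb` are unchanged, `rL`, `rR` decrease,
`|pr|` increases (`GOK.dec`, `ff_dec`). `yJ ^ 2 = |yJ| ^ 2`.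
-/

open Finset

namespace Pool.Agent.LibT63

open Pool.Agent.LibRG87 Pool.Agent.LibLG5 Pool.Agent.LibPL63

theorem ff_dec (P : Finset ℕ) (hP : ∀ p ∈ P, p.Prime) {w z : ℝ} (hw : 1 < w) (hPw : ∀ p ∈ P, w < p)
    (hZ : 1 ≤ ZZ P z * Real.log w) (A : Finset ℕ) (hA : A ⊆ P) (p : ℕ) (hp : p ∈ P) (hpA : p ∉ A) :
    |ff P z (insert p A)| ≤ |ff P z A| := by
  have h := abs_ff_erase hP hw hPw hZ (z := z) (A := insert p A) (Finset.insert_subset hp hA)
    (Finset.mem_insert_self p A)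
  rwa [Finset.erase_insert hpA] at h

variable {κ ν : Type} [Fintype κ] [DecidableEq κ] [Fintype ν] [DecidableEq ν] (P : Finset ℕ)

theorem Q9_fb (β : P → Option (κ ⊕ ν)) (p : P) (i : κ ⊕ ν) :
    fb P (Function.update β p none) i = (fb P β i).erase p := by
  ext q
  rw [Finset.mem_erase, mem_fb, mem_fb]
  constructor
  · rintro ⟨hq, hb⟩
    have hne : (⟨q, hq⟩ : P) ≠ p := by
      intro h
      rw [h, Function.update_self] at hb
      exact absurd hb.symm (Option.some_ne_none i)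
    rw [Function.update_of_ne hne] at hb
    exact ⟨fun h => hne (Subtype.ext h), hq, hb⟩
  · rintro ⟨hqp, hq, hb⟩
    have hne : (⟨q, hq⟩ : P) ≠ p := fun h => hqp (congrArg Subtype.val h)
    exact ⟨hq, by rw [Function.update_of_ne hne]; exact hb⟩

/-- a decreasing function of the sets -/
theorem Q9_dec (f : Finset ℕ → ℝ) (hf : ∀ A ⊆ P, ∀ p ∈ P, p ∉ A → f (insert p A) ≤ f A)
    (β : P → Option (κ ⊕ ν)) (p : P) (i : κ ⊕ ν) :
    f (fb P β i) ≤ f (fb P (Function.update β p none) i) := by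
  rw [Q9_fb]
  by_cases h : (p : ℕ) ∈ fb P β i
  · have h2 := hf ((fb P β i).erase p) ((Finset.erase_subset _ _).trans (fb_subset P β i)) p p.2
      (Finset.notMem_erase _ _)
    rwa [Finset.insert_erase h] at h2
  · rw [Finset.erase_eq_of_notMem h]

theorem Q9_rr (hP : ∀ p ∈ P, p.Prime) (β : P → Option (κ ⊕ ν)) (p : P) (i : κ ⊕ ν) :
    rr (fb P (Function.update β p none) i) ≤ rr (fb P β i) := by
  have h := Q9_dec P (fun A => -rr A) (fun A hA q hq hqA => by
    have h1 : rr (insert q A) = (q : ℝ) * rr A := by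
      unfold rr
      rw [Finset.prod_insert hqA]
    have h2 : 0 < rr A := rr_pos P hP hA
    have h3 : (1 : ℝ) ≤ q := by exact_mod_cast (hP q hq).one_lt.le
    show -rr (insert q A) ≤ -rr A
    rw [h1]
    nlinarith) β p i
  have h' : -rr (fb P β i) ≤ -rr (fb P (Function.update β p none) i) := h
  linarith

theorem yJ_mono (hP : ∀ p ∈ P, p.Prime) {w z : ℝ} (hw : 1 < w) (hPw : ∀ p ∈ P, w < p)
    (hZ : 1 ≤ ZZ P z * Real.log w) {g : Finset ℕ → ℝ} {V : ℝ} (hg : GOK P g V) (T U : ℝ)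
    (β : P → Option (κ ⊕ ν)) (p : P) :
    yJ P g z T U β ^ 2 ≤ yJ P g z T U (Function.update β p none) ^ 2 := by
  classical
  set β' := Function.update β p none with hβ'
  have hrpos : ∀ (γ : P → Option (κ ⊕ ν)) (i : κ ⊕ ν), 0 ≤ rr (fb P γ i) := fun γ i =>
    (rr_pos P hP (fb_subset P γ i)).le
  have hL : rL P β' ≤ rL P β :=
    Finset.prod_le_prod (fun i _ => hrpos _ _) fun i _ => Q9_rr P hP β p (Sum.inl i)
  have hR : rR P β' ≤ rR P β :=
    Finset.prod_le_prod (fun i _ => hrpos _ _) fun i _ => Q9_rr P hP β p (Sum.inr i)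
  have hpr : |pr P g z β| ≤ |pr P g z β'| := by
    unfold pr
    rw [abs_mul, abs_mul, Finset.abs_prod, Finset.abs_prod, Finset.abs_prod, Finset.abs_prod]
    apply mul_le_mul
    · refine Finset.prod_le_prod (fun i _ => abs_nonneg _) fun i _ => ?_
      rw [abs_of_nonneg (hg.nonneg _ (fb_subset P β _)), abs_of_nonneg (hg.nonneg _ (fb_subset P β' _))]
      exact Q9_dec P g hg.dec β p (Sum.inl i)
    · refine Finset.prod_le_prod (fun i _ => abs_nonneg _) fun i _ => ?_
      exact Q9_dec P (fun A => |ff P z A|) (fun A hA q hq hqA => ff_dec P hP hw hPw hZ A hA q hq hqA)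
        β p (Sum.inr i)
    · exact Finset.prod_nonneg fun _ _ => abs_nonneg _
    · exact Finset.prod_nonneg fun _ _ => abs_nonneg _
  unfold yJ
  by_cases hc : rL P β ≤ U ∧ rR P β ≤ T
  · have hc' : rL P β' ≤ U ∧ rR P β' ≤ T := ⟨hL.trans hc.1, hR.trans hc.2⟩
    rw [if_pos hc, if_pos hc']
    exact sq_le_sq.mpr hpr
  · rw [if_neg hc]
    have : (0 : ℝ) ^ 2 = 0 := by norm_num
    rw [this]
    exact sq_nonneg _

end Pool.Agent.LibT63
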