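import Pool.Agent.LibRG87.R10
import Pool.Agent.LibRG87.R12
import Pool.Agent.LibRG87.R8c
import Pool.Agent.LibPL63.SA9

/-!
LibT63 (MP_ff81b6_nt, Maynard-Tao inside the record gap), block Q: definitions.

`P` finite set of primes `> w`. Positions `ι` (finally `κ ⊕ ν`, `κ` = positions where primes are wanted, `ν` = positions to be covered), `b : ι → ℕ`.
Averages of a weight `F ≥ 0` on a finite set `s`, tested only against products of functions with LOCAL MEAN ZERO.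
-/

open Finset

namespace Pool.Agent.LibT63

open Pool.Agent.LibRG87 Pool.Agent.LibLG5 Pool.Agent.LibPL63

/-- local mean -/
noncomputable def El (lp : ℕ → ℕ → ℝ) (p : ℕ) (g : ℕ → ℝ) : ℝ := ∑ x ∈ range p, lp p x * g x

/-- uniform local weights (for the primes: `lpP a0` of LibPL63) -/
noncomputable def lpU (p _x : ℕ) : ℝ := 1 / (p : ℝ)

/-- the product of two local functions -/
noncomputable def ll {ι : Type} (b : ι → ℕ) (p : ℕ) (o o' : Option ι) (n : ℕ) : ℝ := loc b p o n * loc b p o' n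

/-- its deviation from the local mean -/
noncomputable def dv {ι : Type} (lp : ℕ → ℕ → ℝ) (b : ι → ℕ) (p : ℕ) (o o' : Option ι) (n : ℕ) : ℝ :=
  ll b p o o' n - El lp p (ll b p o o')

/-- the local hypotheses at the primes of `P`, for the positions in `J` -/
structure LocT {ι : Type} (P : Finset ℕ) (lp : ℕ → ℕ → ℝ) (b : ι → ℕ) (J : Finset ι) : Prop where
  prime : ∀ p ∈ P, p.Prime
  three : ∀ p ∈ P, 3 ≤ p
  sum : ∀ p ∈ P, ∑ x ∈ range p, lp p x = 1
  nonneg : ∀ p ∈ P, ∀ x, 0 ≤ lp p x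
  inc : ∀ p ∈ P, ∀ i ∈ J, ∀ j ∈ J, i ≠ j → ¬ b i ≡ b j [MOD p]
  m1 : ∀ p ∈ P, ∀ i ∈ J, |El lp p (fun n => psi p (n + b i))| ≤ 1 / ((p : ℝ) - 1) ^ 2
  m2 : ∀ p ∈ P, ∀ i ∈ J,
    |El lp p (fun n => psi p (n + b i) * psi p (n + b i)) - 1 / ((p : ℝ) - 1)| ≤ 1 / ((p : ℝ) - 1) ^ 2
  m3 : ∀ p ∈ P, ∀ i ∈ J, ∀ j ∈ J, i ≠ j →
    |El lp p (fun n => psi p (n + b i) * psi p (n + b j))| ≤ 2 / ((p : ℝ) - 1) ^ 2

/-- the distribution of the weight `F` on `s` modulo the primes of `P`: only functions with local mean zero are tested -/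
structure MZ (P s : Finset ℕ) (F : ℕ → ℝ) (lp : ℕ → ℕ → ℝ) (Q : ℝ) (er : Finset ℕ → ℝ) : Prop where
  er_nonneg : ∀ E, 0 ≤ er E
  F_nonneg : ∀ n ∈ s, 0 ≤ F n
  mz : ∀ E : Finset ℕ, E ⊆ P → E.Nonempty → rr E ≤ Q → ∀ g : ℕ → ℕ → ℝ, (∀ p ∈ E, Function.Periodic (g p) p) →
    (∀ p ∈ E, El lp p (g p) = 0) → |∑ n ∈ s, F n * ∏ p ∈ E, g p n| ≤ er E * ∏ p ∈ E, tot p (g p)

open scoped Classical in
/-- the total error -/
noncomputable def Etot (P : Finset ℕ) (Q : ℝ) (N : ℕ) (er : Finset ℕ → ℝ) : ℝ :=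
  ∑ E ∈ P.powerset with (E.Nonempty ∧ rr E ≤ Q), (22 * (N : ℝ)) ^ E.card * er E

section

variable {ι : Type}

/-- the diagonal -/
noncomputable def fi (p : ℕ) (o : Option ι) : ℝ :=
  match o with
  | none => 1
  | some _ => 1 / ((p : ℝ) - 1)

/-- row factor -/
noncomputable def ro (N : ℕ) (p : ℕ) (o : Option ι) : ℝ :=
  match o with
  | none => 1 + N / ((p : ℝ) - 1) ^ 2
  | some _ => 1 + (2 * N + 2) / ((p : ℝ) - 1)

/-- row factor of the deviations -/
noncomputable def uo (N : ℕ) (p : ℕ) (o : Option ι) : ℝ :=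
  match o with
  | none => 5 * N
  | some _ => 17 * ((p : ℝ) - 1)

open scoped Classical in
/-- the diagonal matrix -/
noncomputable def dg (p : ℕ) (o o' : Option ι) : ℝ := if o = o' then fi p o else 0

end

section

variable {ι : Type} [Fintype ι] [DecidableEq ι] (P : Finset ℕ)

open scoped Classical in
/-- the collapsed coefficients at the position `i0`, in general -/
noncomputable def yCo (i0 : ι) (y : (P → Option ι) → ℝ) (β : P → Option ι) : ℝ :=
  if ∀ p, β p ≠ some i0 then ∑ A ∈ (P \ sp P β).powerset, y (R10_ins P i0 A β) / ph A else 0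

end

/-! ### the Maynard function -/

/-- the conditions on the Maynard function `g` -/
structure GOK (P : Finset ℕ) (g : Finset ℕ → ℝ) (V : ℝ) : Prop where
  one : g ∅ = 1
  nonneg : ∀ A ⊆ P, 0 ≤ g A
  dec : ∀ A ⊆ P, ∀ p ∈ P, p ∉ A → g (insert p A) ≤ g A
  supp : ∀ A ⊆ P, g A ≠ 0 → rr A ≤ V

noncomputable def G1 (P : Finset ℕ) (g : Finset ℕ → ℝ) : ℝ := ∑ A ∈ P.powerset, g A / ph A

noncomputable def G2 (P : Finset ℕ) (g : Finset ℕ → ℝ) : ℝ := ∑ A ∈ P.powerset, g A ^ 2 / ph A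

noncomputable def G3 (P : Finset ℕ) (g : Finset ℕ → ℝ) : ℝ :=
  ∑ A ∈ P.powerset, g A ^ 2 / ph A * Real.log (rr A)

/-! ### joint coefficients -/

section

variable {κ ν : Type} [Fintype κ] [DecidableEq κ] [Fintype ν] [DecidableEq ν] (P : Finset ℕ)

/-- the size of the part on `κ` -/
noncomputable def rL (β : P → Option (κ ⊕ ν)) : ℝ := ∏ i : κ, rr (fb P β (Sum.inl i))

/-- the size of the part on `ν` -/
noncomputable def rR (β : P → Option (κ ⊕ ν)) : ℝ := ∏ i : ν, rr (fb P β (Sum.inr i))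

/-- the product of the coefficients -/
noncomputable def pr (g : Finset ℕ → ℝ) (z : ℝ) (β : P → Option (κ ⊕ ν)) : ℝ :=
  (∏ i : κ, g (fb P β (Sum.inl i))) * ∏ i : ν, ff P z (fb P β (Sum.inr i))

open scoped Classical in
/-- the joint coefficients: Maynard part on `κ` (level `U`), covering part on `ν` (level `T`) -/
noncomputable def yJ (g : Finset ℕ → ℝ) (z T U : ℝ) (β : P → Option (κ ⊕ ν)) : ℝ :=
  if rL P β ≤ U ∧ rR P β ≤ T then pr P g z β else 0

open scoped Classical in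
/-- collapsed at `s : ν` -/
noncomputable def yS (g : Finset ℕ → ℝ) (z T U : ℝ) (s : ν) (β : P → Option (κ ⊕ ν)) : ℝ :=
  if ∀ p, β p ≠ some (Sum.inr s) then yJ P g z T U β * cc P z (T * rL P β) β else 0

open scoped Classical in
/-- the collapsed factor of `g` -/
noncomputable def gH (g : Finset ℕ → ℝ) (U : ℝ) (β : P → Option (κ ⊕ ν)) : ℝ :=
  ∑ A ∈ (P \ sp P β).powerset with rr A * rL P β ≤ U, g A / ph A

open scoped Classical in
/-- collapsed at `h : κ` -/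
noncomputable def yH (g : Finset ℕ → ℝ) (z T U : ℝ) (h : κ) (β : P → Option (κ ⊕ ν)) : ℝ :=
  if ∀ p, β p ≠ some (Sum.inl h) then yJ P g z T U β * gH P g U β else 0

end

/-! ### the parameters -/

/-- the parameters of the sieve; `K` positions for primes, `N` positions to be covered -/
structure ParT (P : Finset ℕ) (w : ℕ) (z T U V : ℝ) (g : Finset ℕ → ℝ) (K N : ℕ) : Prop where
  prime : ∀ p ∈ P, p.Prime
  hw : 3 ≤ w
  lt : ∀ p ∈ P, w < p
  hz : 1 < z
  hT : 1 < T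
  hV : 1 ≤ V
  hUV : V < U
  gok : GOK P g V
  hZ : 1 ≤ ZZ P z * Real.log w
  hK : 1 ≤ K
  c1 : 16 * (((K + N : ℕ) : ℝ)) ^ 2 ≤ (w : ℝ) - 1
  c2 : 64 * (((K + N + 1 : ℕ) : ℝ) * Real.log (T * U)) ≤ ((w : ℝ) - 1) * Real.log w
  c3 : 8 * (N : ℝ) ≤ ZZ P z * Real.log T
  c4 : 8 * (K * G3 P g) ≤ G2 P g * Real.log (U / V)
  c5 : 64 * K * (N * ((2 * Real.log (T * U) / (((w : ℝ) - 1) * Real.log w)) ^ 2 +
    Real.exp (-(Real.log (T / z) / Real.log z) + 2 * (N * (1 / ZZ P z) / Real.log z)))) ≤ 1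

end Pool.Agent.LibT63
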