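import Pool.Agent.LibT63.S6

/-!
Row S10 (masses; as P10, for any `eta`).
-/

open Finset

namespace Pool.Agent.LibT63

open Pool.Agent.LibRG87 Pool.Agent.LibLG5 Pool.Agent.LibPL63 Pool.Agent.LibMaier

private theorem S10_S0 : ∃ x0 : ℝ, ∀ x : ℝ, x0 ≤ x → 9 / 10 ≤ S0 x := by
  have h2 : ∀ᶠ x : ℝ in Filter.atTop, 9 / 10 ≤ S0 x :=
    (tendsto_S0.eventually (lt_mem_nhds (show (9 / 10 : ℝ) < 1 by norm_num))).mono
      fun x hx => le_of_lt hx
  obtain ⟨x0, hx0⟩ := Filter.eventually_atTop.1 h2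
  exact ⟨x0, hx0⟩

theorem mass_P_eta (eta : ℝ) (he : 0 < eta) (he1 : eta ≤ 1 / 20) : ∃ x0 : ℝ, ∀ x : ℝ, x0 ≤ x → ∀ M : ℕ, 1 ≤ M → (M : ℝ) ≤ Real.exp (x / 24) → csum x M ≤ 1 / 8 →
    ∀ h c : ℕ, (h : ℝ) ≤ Real.exp (x / 4) → (c + h).Coprime M →
    1 / (2 * (M.totient : ℝ)) ≤ ∑ n ∈ sTe eta x M c, wp x (n + h) := by
  obtain ⟨xa, hxa⟩ := mass_diff_eta eta he he1
  obtain ⟨xb, hxb⟩ := S10_S0
  have hK := Kpp_nonneg
  refine ⟨max (max xa xb) (max 0 (6 * Real.log (4 * (9 + Kpp)))), fun x hx M hM hMx hcs h c hh hcop => ?_⟩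
  have h1 := hxa x (((le_max_left _ _).trans (le_max_left _ _)).trans hx) M hM h c hh
  have h2 := hxb x (((le_max_right _ _).trans (le_max_left _ _)).trans hx)
  have hx0 : 0 ≤ x := ((le_max_left _ _).trans (le_max_right _ _)).trans hx
  have hx6 : 6 * Real.log (4 * (9 + Kpp)) ≤ x :=
    ((le_max_right _ _).trans (le_max_right _ _)).trans hx
  have h3 := erB_unit x M (c + h) hM hcop
  set T := (∑' m : ℕ, if m ≡ c + h [MOD M] then wp x m else 0) with hT
  have hφ : (0 : ℝ) < (M.totient : ℝ) := by exact_mod_cast Nat.totient_pos.2 hM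
  have hφM : (M.totient : ℝ) ≤ M := by exact_mod_cast Nat.totient_le M
  have hφx : (M.totient : ℝ) ≤ Real.exp (x / 24) := hφM.trans hMx
  have hω : (M.primeFactors.card : ℝ) ≤ Real.exp (x / 24) := (card_pf_le M).trans hMx
  have hω0 : (0 : ℝ) ≤ (M.primeFactors.card : ℝ) := Nat.cast_nonneg _
  -- the small terms
  have e0 : Real.exp (-x / 6) * (9 + Kpp) ≤ 1 / 4 := by
    have g1 : 4 * (9 + Kpp) ≤ Real.exp (x / 6) := by
      have g2 : Real.log (4 * (9 + Kpp)) ≤ x / 6 := by linarith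
      calc 4 * (9 + Kpp) = Real.exp (Real.log (4 * (9 + Kpp))) :=
            (Real.exp_log (by linarith)).symm
        _ ≤ _ := Real.exp_le_exp.2 g2
    have g3 : Real.exp (-x / 6) * Real.exp (x / 6) = 1 := by
      rw [← Real.exp_add]
      rw [show -x / 6 + x / 6 = 0 by ring, Real.exp_zero]
    have g4 := mul_le_mul_of_nonneg_left g1 (Real.exp_pos (-x / 6)).le
    rw [g3] at g4
    linarith
  have e1 : (M.primeFactors.card : ℝ) * Real.exp (-x / 4) ≤ Real.exp (-x / 6) := by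
    calc _ ≤ Real.exp (x / 24) * Real.exp (-x / 4) :=
          mul_le_mul_of_nonneg_right hω (Real.exp_pos _).le
      _ = Real.exp (x / 24 + -x / 4) := (Real.exp_add _ _).symm
      _ ≤ _ := Real.exp_le_exp.2 (by linarith)
  have e2 : (M.totient : ℝ) * ((M.primeFactors.card : ℝ) * Real.exp (-x / 4)) ≤
      Real.exp (-x / 6) := by
    calc _ ≤ Real.exp (x / 24) * (Real.exp (x / 24) * Real.exp (-x / 4)) :=
          mul_le_mul hφx (mul_le_mul_of_nonneg_right hω (Real.exp_pos _).le) (by positivity)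
            (Real.exp_pos _).le
      _ = Real.exp (x / 24 + (x / 24 + -x / 4)) := by rw [Real.exp_add, Real.exp_add]
      _ ≤ _ := Real.exp_le_exp.2 (by linarith)
  have e3 : (M.totient : ℝ) * Real.exp (-x / 4) ≤ Real.exp (-x / 6) := by
    calc _ ≤ Real.exp (x / 24) * Real.exp (-x / 4) :=
          mul_le_mul_of_nonneg_right hφx (Real.exp_pos _).le
      _ = Real.exp (x / 24 + -x / 4) := (Real.exp_add _ _).symm
      _ ≤ _ := Real.exp_le_exp.2 (by linarith)
  have e4 : (M.totient : ℝ) * Real.exp (-x) ≤ Real.exp (-x / 6) := by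
    calc _ ≤ Real.exp (x / 24) * Real.exp (-x) :=
          mul_le_mul_of_nonneg_right hφx (Real.exp_pos _).le
      _ = Real.exp (x / 24 + -x) := (Real.exp_add _ _).symm
      _ ≤ _ := Real.exp_le_exp.2 (by linarith)
  have e5 : (M.totient : ℝ) * (erB x M + Real.exp (-x)) ≤ 3 / 8 := by
    have g1 : (M.totient : ℝ) * (erB x M + Real.exp (-x)) =
        (4 * ((M.primeFactors.card : ℝ) * Real.exp (-x / 4)) + csum x M) +
          4 * ((M.totient : ℝ) * ((M.primeFactors.card : ℝ) * Real.exp (-x / 4))) +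
          Kpp * ((M.totient : ℝ) * Real.exp (-x / 4)) + (M.totient : ℝ) * Real.exp (-x) := by
      unfold erB
      field_simp
      ring
    have g2 := mul_le_mul_of_nonneg_left e3 hK
    rw [g1]
    linarith
  have h4 := (abs_le.1 h3).1
  have h5 : S0 x / (M.totient : ℝ) - (erB x M + Real.exp (-x)) ≤ ∑ n ∈ sTe eta x M c, wp x (n + h) := by
    linarith
  refine le_trans ?_ h5
  have h6 : 1 / (2 * (M.totient : ℝ)) = (1 / 2) / (M.totient : ℝ) := by
    rw [div_div]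
  rw [h6, le_sub_iff_add_le, ← sub_nonneg]
  have h7 : S0 x / (M.totient : ℝ) - (1 / 2 / (M.totient : ℝ) + (erB x M + Real.exp (-x))) =
      (S0 x - 1 / 2 - (M.totient : ℝ) * (erB x M + Real.exp (-x))) / (M.totient : ℝ) := by
    field_simp
    ring
  rw [h7]
  apply div_nonneg _ hφ.le
  linarith

theorem mz_U (x : ℝ) {M : ℕ} (hM : 1 ≤ M) (c : ℕ) {P : Finset ℕ} (hP : ∀ p ∈ P, p.Prime ∧ ¬ p ∣ M) (Q : ℝ) :
    MZ P (clsU x M c) (omU x) lpU Q (fun _ => 6 * Real.exp (-x)) := by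
  refine ⟨fun _ => by positivity, fun n hn => (avgU x M c hM).om_nonneg n hn, ?_⟩
  intro E hE hne _ g hg h0
  have h1 := (avgU x M c hM).hp E g (fun p hp => hP p (hE hp)) hg
  have h2 : ∏ p ∈ E, ∑ y ∈ range p, (avgU x M c hM).lp p y * g p y = 0 := by
    obtain ⟨p, hp⟩ := hne
    exact prod_eq_zero hp (h0 p hp)
  rw [h2, mul_zero, sub_zero] at h1
  exact h1

theorem mass_U : ∃ x0 : ℝ, ∀ x : ℝ, x0 ≤ x → ∀ M : ℕ, 1 ≤ M → (M : ℝ) ≤ Real.exp (x / 24) → ∀ c : ℕ,
    ∑ n ∈ clsU x M c, omU x n ≤ 2 / (M : ℝ) := by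
  refine ⟨6, fun x hx M hM hMx c => ?_⟩
  have hM0 : (0 : ℝ) < M := by exact_mod_cast hM
  have h1 := (avgU x M c hM).hp ∅ (fun _ _ => 0) (fun p hp => absurd hp (notMem_empty p))
    (fun p hp => absurd hp (notMem_empty p))
  simp only [prod_empty, mul_one] at h1
  have h2 : |∑ n ∈ clsU x M c, omU x n - 1 / (M : ℝ)| ≤ 6 * Real.exp (-x) := h1
  have h3 := (abs_le.1 h2).2
  have h4 : 6 * Real.exp (-x) ≤ 1 / (M : ℝ) := by
    rw [le_div_iff₀ hM0]
    have g1 : 6 ≤ Real.exp (23 / 24 * x) := by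
      have := Real.add_one_le_exp (23 / 24 * x)
      linarith
    calc 6 * Real.exp (-x) * M ≤ 6 * Real.exp (-x) * Real.exp (x / 24) :=
          mul_le_mul_of_nonneg_left hMx (by positivity)
      _ ≤ Real.exp (23 / 24 * x) * Real.exp (-x) * Real.exp (x / 24) := by gcongr
      _ = 1 := by
          rw [← Real.exp_add, ← Real.exp_add, show 23 / 24 * x + -x + x / 24 = 0 by ring,
            Real.exp_zero]
  have h5 : 2 / (M : ℝ) = 1 / (M : ℝ) + 1 / (M : ℝ) := by ring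
  rw [h5]
  linarith

end Pool.Agent.LibT63
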