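import Pool.Agent.LibT63.SDefs

/-!
Row S5 (tails of the Gaussian, any `eta`).
-/

open Finset

namespace Pool.Agent.LibT63

open Pool.Agent.LibRG87 Pool.Agent.LibLG5 Pool.Agent.LibPL63 Pool.Agent.LibMaier

private theorem S5_low {eta x : ℝ} (he : 0 < eta) (hx : 2 ≤ eta * x) {n : ℕ} (hn0 : 0 < n)
    (h : (n : ℝ) ≤ 2 * Real.exp ((1 - eta) * x)) :
    wp x n ≤ Real.exp (-((eta * x) ^ 2 / 8)) := by
  have hn : (0 : ℝ) < n := by exact_mod_cast hn0
  have h3 := wp_le_gw x n
  have h4 := gw_le_exp_sq (Real.log n - x)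
  have h5 : Real.exp (-(Real.log n - x) ^ 2 / 2) ≤ Real.exp (-((eta * x) ^ 2 / 8)) := by
    apply Real.exp_le_exp.2
    have h6 : Real.log (n : ℝ) ≤ Real.log 2 + (1 - eta) * x := by
      have : Real.log (n : ℝ) ≤ Real.log (2 * Real.exp ((1 - eta) * x)) := Real.log_le_log hn h
      rwa [Real.log_mul two_ne_zero (Real.exp_pos _).ne', Real.log_exp] at this
    have h7 := Real.log_two_lt_d9
    have h8 : Real.log (n : ℝ) - x ≤ -(eta * x / 2) := by linarith
    nlinarith
  have h7 : (if n.Prime then gw (Real.log n - x) else 0) ≤ gw (Real.log n - x) := by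
    split_ifs
    · exact le_rfl
    · exact gw_nonneg _
  linarith

private theorem S5_high {eta x : ℝ} (he : 0 < eta) (hx : 2 ≤ eta * x) {n : ℕ} (h : Real.exp ((1 + eta) * x) < n) :
    wp x n ≤ Real.exp (2 * ((1 + eta) * x) - (eta * x) ^ 2 / 2) * (1 / (n : ℝ) ^ 2) := by
  have hn : (0 : ℝ) < n := (Real.exp_pos _).trans h
  have h3 := wp_le_gw x n
  have h4 := gw_le_exp_sq (Real.log n - x)
  have h6 : (1 + eta) * x ≤ Real.log (n : ℝ) := by
    have : Real.log (Real.exp ((1 + eta) * x)) ≤ Real.log (n : ℝ) := Real.log_le_log (Real.exp_pos _) h.le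
    rwa [Real.log_exp] at this
  have h5 : Real.exp (-(Real.log n - x) ^ 2 / 2) ≤
      Real.exp (2 * ((1 + eta) * x) - (eta * x) ^ 2 / 2 + -(2 * Real.log n)) := by
    apply Real.exp_le_exp.2
    have h9 : 0 ≤ (Real.log (n : ℝ) - (1 + eta) * x) * (Real.log (n : ℝ) - x + eta * x - 4) :=
      mul_nonneg (by linarith) (by linarith)
    nlinarith
  have h8 : Real.exp (-(2 * Real.log (n : ℝ))) = 1 / (n : ℝ) ^ 2 := by
    rw [Real.exp_neg, mul_comm, Real.exp_mul, Real.exp_log hn, one_div]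
    norm_cast
  rw [Real.exp_add, h8] at h5
  have h7 : (if n.Prime then gw (Real.log n - x) else 0) ≤ gw (Real.log n - x) := by
    split_ifs
    · exact le_rfl
    · exact gw_nonneg _
  linarith

open scoped Classical in
theorem tail_le_eta (eta : ℝ) (he : 0 < eta) (he1 : eta ≤ 1 / 20) : ∃ x0 : ℝ, ∀ x : ℝ, x0 ≤ x →
    ∑' m : ℕ, (if (m : ℝ) ≤ 2 * Real.exp ((1 - eta) * x) ∨ Real.exp ((1 + eta) * x) < m then wp x m else 0) ≤
      Real.exp (-x) := by
  refine ⟨40 / eta ^ 2, fun x hx => ?_⟩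
  have he2 : 0 < eta ^ 2 := by positivity
  have hx40 : 40 ≤ eta ^ 2 * x := by
    rw [div_le_iff₀ he2] at hx
    linarith
  have hx0 : 0 < x := by
    by_contra h0
    push Not at h0
    nlinarith
  have hx2 : 2 ≤ eta * x := by nlinarith
  have hx1 : 1 ≤ x := by nlinarith
  set lo : ℕ := ⌊2 * Real.exp ((1 - eta) * x)⌋₊ with hlo
  have hlo1 : (lo : ℝ) ≤ 2 * Real.exp ((1 - eta) * x) := Nat.floor_le (by positivity)
  have h1 : ∀ n : ℕ, (if (n : ℝ) ≤ 2 * Real.exp ((1 - eta) * x) ∨ Real.exp ((1 + eta) * x) < n then wp x n else 0) ≤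
      (if n ∈ Icc 1 lo then Real.exp (-((eta * x) ^ 2 / 8)) else 0) +
        Real.exp (2 * ((1 + eta) * x) - (eta * x) ^ 2 / 2) * (1 / (n : ℝ) ^ 2) := by
    intro n
    have hz : 0 ≤ (if n ∈ Icc 1 lo then Real.exp (-((eta * x) ^ 2 / 8)) else 0) := by
      split_ifs <;> positivity
    have hz2 : 0 ≤ Real.exp (2 * ((1 + eta) * x) - (eta * x) ^ 2 / 2) * (1 / (n : ℝ) ^ 2) := by positivity
    by_cases hn0 : n = 0
    · subst hn0
      have : wp x 0 = 0 := by
        unfold wp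
        rw [if_neg Nat.not_prime_zero]
      rw [this, ite_self]
      exact add_nonneg hz hz2
    by_cases h : (n : ℝ) ≤ 2 * Real.exp ((1 - eta) * x) ∨ Real.exp ((1 + eta) * x) < n
    · rw [if_pos h]
      rcases h with h | h
      · have h2 : n ∈ Icc 1 lo := Finset.mem_Icc.2 ⟨by omega, Nat.le_floor h⟩
        rw [if_pos h2]
        have := S5_low he hx2 (Nat.pos_of_ne_zero hn0) h
        linarith
      · have := S5_high he hx2 h
        linarith
    · rw [if_neg h]
      exact add_nonneg hz hz2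
  have hs1 : Summable fun n : ℕ => if n ∈ Icc 1 lo then Real.exp (-((eta * x) ^ 2 / 8)) else 0 :=
    summable_of_ne_finset_zero (s := Icc 1 lo) fun n hn => if_neg hn
  have hs2 : Summable fun n : ℕ => Real.exp (2 * ((1 + eta) * x) - (eta * x) ^ 2 / 2) * (1 / (n : ℝ) ^ 2) :=
    (Real.summable_one_div_nat_pow.2 (by norm_num)).mul_left _
  have hs0 : Summable fun n : ℕ =>
      if (n : ℝ) ≤ 2 * Real.exp ((1 - eta) * x) ∨ Real.exp ((1 + eta) * x) < n then wp x n else 0 := by
    refine Summable.of_nonneg_of_le (fun n => ?_) (fun n => ?_) (wp_summable x)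
    · split_ifs
      · exact wp_nonneg x n
      · exact le_rfl
    · split_ifs
      · exact le_rfl
      · exact wp_nonneg x n
  have h2 := hs0.tsum_le_tsum h1 (hs1.add hs2)
  rw [Summable.tsum_add hs1 hs2, tsum_mul_left] at h2
  rw [tsum_eq_sum (s := Icc 1 lo) fun n hn => if_neg hn] at h2
  have h3 : ∑ n ∈ Icc 1 lo, (if n ∈ Icc 1 lo then Real.exp (-((eta * x) ^ 2 / 8)) else 0) =
      lo * Real.exp (-((eta * x) ^ 2 / 8)) := by
    rw [Finset.sum_congr rfl fun n hn => if_pos hn, Finset.sum_const, Nat.card_Icc, nsmul_eq_mul]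
    norm_num
  rw [h3] at h2
  have h4 : (lo : ℝ) * Real.exp (-((eta * x) ^ 2 / 8)) ≤ 2 * Real.exp ((1 - eta) * x - (eta * x) ^ 2 / 8) := by
    have : (1 - eta) * x - (eta * x) ^ 2 / 8 = (1 - eta) * x + -((eta * x) ^ 2 / 8) := by ring
    rw [this, Real.exp_add, ← mul_assoc]
    exact mul_le_mul_of_nonneg_right hlo1 (Real.exp_pos _).le
  have h5 := mul_le_mul_of_nonneg_left sum_inv_sq_le
    (Real.exp_pos (2 * ((1 + eta) * x) - (eta * x) ^ 2 / 2)).le
  have hq : 40 * x ≤ (eta * x) ^ 2 := by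
    have : (eta * x) ^ 2 = (eta ^ 2 * x) * x := by ring
    rw [this]
    exact mul_le_mul_of_nonneg_right hx40 hx0.le
  have hex : 0 ≤ eta * x := by linarith
  have hex1 : eta * x ≤ x / 20 := by nlinarith
  have h6 : Real.exp ((1 - eta) * x - (eta * x) ^ 2 / 8) ≤ Real.exp (-2) * Real.exp (-x) := by
    rw [← Real.exp_add]
    apply Real.exp_le_exp.2
    linarith
  have h7 : Real.exp (2 * ((1 + eta) * x) - (eta * x) ^ 2 / 2) ≤ Real.exp (-2) * Real.exp (-x) := by
    rw [← Real.exp_add]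
    apply Real.exp_le_exp.2
    linarith
  have h8 : Real.exp (-2) ≤ 1 / 4 := by
    have h4 : Real.exp (-2) = 1 / (Real.exp 1 * Real.exp 1) := by
      rw [← Real.exp_add, Real.exp_neg, one_div]
      norm_num
    rw [h4]
    have h5 := Real.exp_one_gt_d9
    apply one_div_le_one_div_of_le (by norm_num)
    nlinarith
  have h9 := mul_le_mul_of_nonneg_right h8 (Real.exp_pos (-x)).le
  linarith

end Pool.Agent.LibT63
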