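import Pool.Agent.LibT63.P2
import Pool.Agent.LibT63.S5

/-!
Row S6 (from the finite sum to the full sum; as P6, for any `eta`).
-/

open Finset

namespace Pool.Agent.LibT63

open Pool.Agent.LibRG87 Pool.Agent.LibLG5 Pool.Agent.LibPL63 Pool.Agent.LibMaier

private theorem S6_q_pos {M : ℕ} (hM : 1 ≤ M) {E : Finset ℕ} (hE : ∀ p ∈ E, p.Prime ∧ ¬ p ∣ M) : 1 ≤ qE M E := by
  unfold qE
  exact Nat.mul_pos hM (Finset.prod_pos fun p hp => (hE p hp).1.pos)

/-- the test function at `n + h` -/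
private theorem S6_tG {M : ℕ} (hM : 1 ≤ M) {E : Finset ℕ} (hE : ∀ p ∈ E, p.Prime ∧ ¬ p ∣ M) (h c : ℕ)
    (g : ℕ → ℕ → ℝ) (hper : ∀ p ∈ E, Function.Periodic (g p) p) {n : ℕ} (hn : n ≡ c [MOD M]) :
    tG M E h c g (n + h) = ∏ p ∈ E, g p n := by
  unfold tG
  rw [if_pos (hn.add_right h)]
  refine Finset.prod_congr rfl fun p hp => ?_
  have hq := S6_q_pos hM hE
  have e1 : n + h + (qE M E - 1) * h = n + qE M E * h := by
    obtain ⟨k, hk⟩ := Nat.exists_eq_add_of_le hq
    rw [hk, Nat.add_sub_cancel_left]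
    ring
  have hdvd : p ∣ qE M E := by
    unfold qE
    exact Dvd.dvd.mul_left (Finset.dvd_prod_of_mem (fun p => p) hp) M
  obtain ⟨k, hk⟩ := hdvd
  have e2 : n + qE M E * h = n + (k * h) * p := by
    rw [hk]
    ring
  rw [e1, e2]
  have := (hper p hp).nat_mul (k * h) n
  simpa using this

theorem fin_sum_eta (eta : ℝ) (he : 0 < eta) (he1 : eta ≤ 1 / 20) : ∃ x0 : ℝ, ∀ x : ℝ, x0 ≤ x → ∀ M : ℕ, 1 ≤ M → ∀ E : Finset ℕ, (∀ p ∈ E, p.Prime ∧ ¬ p ∣ M) →
    ∀ h c : ℕ, (h : ℝ) ≤ Real.exp (x / 4) → ∀ g : ℕ → ℕ → ℝ, (∀ p ∈ E, Function.Periodic (g p) p) →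
    |∑ n ∈ sTe eta x M c, wp x (n + h) * ∏ p ∈ E, g p n - ∑' m : ℕ, wp x m * tG M E h c g m| ≤
      Real.exp (-x) * ∏ p ∈ E, tot p (g p) := by
  classical
  obtain ⟨x1, hx1⟩ := tail_le_eta eta he he1
  refine ⟨max x1 1, fun x hx M hM E hE h c hh g hper => ?_⟩
  have hx1' := hx1 x ((le_max_left _ _).trans hx)
  have hx0 : 1 ≤ x := (le_max_right _ _).trans hx
  set B : ℝ := ∏ p ∈ E, tot p (g p) with hB
  have hT : ∀ m, |tG M E h c g m| ≤ B := abs_tG_le (fun p hp => (hE p hp).1) h c g hper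
  have hB0 : 0 ≤ B := (abs_nonneg _).trans (hT 0)
  set Im : Finset ℕ := (sTe eta x M c).image fun n => n + h with hIm
  -- the finite sum
  have hfin : ∑ n ∈ sTe eta x M c, wp x (n + h) * ∏ p ∈ E, g p n = ∑ m ∈ Im, wp x m * tG M E h c g m := by
    rw [hIm, Finset.sum_image fun a _ b _ hab => by simpa using hab]
    refine Finset.sum_congr rfl fun n hn => ?_
    have hn' : n ≡ c [MOD M] := by
      unfold sTe clsU at hn
      exact (Finset.mem_filter.1 (Finset.mem_filter.1 hn).1).2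
    rw [S6_tG hM hE h c g hper hn']
  -- what is outside
  have hout : ∀ m : ℕ, m ∉ Im → tG M E h c g m ≠ 0 →
      (m : ℝ) ≤ 2 * Real.exp ((1 - eta) * x) ∨ Real.exp ((1 + eta) * x) < m := by
    intro m hm ht
    by_contra hcon
    push Not at hcon
    obtain ⟨h1, h2⟩ := hcon
    have hmod : m ≡ c + h [MOD M] := by
      by_contra hne
      apply ht
      unfold tG
      rw [if_neg hne]
    have h3 : Real.exp (x / 4) ≤ Real.exp ((1 - eta) * x) := Real.exp_le_exp.2 (by nlinarith)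
    have h4 : (h : ℝ) < m := by
      have := Real.exp_pos ((1 - eta) * x)
      linarith
    have h5 : h < m := by exact_mod_cast h4
    obtain ⟨n, rfl⟩ := Nat.exists_eq_add_of_lt h5
    apply hm
    rw [hIm, Finset.mem_image]
    refine ⟨n + 1, ?_, by ring⟩
    have e : ((h + n + 1 : ℕ) : ℝ) = h + ((n + 1 : ℕ) : ℝ) := by push_cast; ring
    rw [e] at h1 h2
    have h6 : ((n + 1 : ℕ) : ℝ) ≤ Real.exp ((1 + eta) * x) := by
      have : (0 : ℝ) ≤ h := Nat.cast_nonneg h
      linarith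
    have h7 : Real.exp ((1 - eta) * x) < ((n + 1 : ℕ) : ℝ) := by linarith
    unfold sTe clsU
    rw [Finset.mem_filter, Finset.mem_filter, Finset.mem_Icc]
    refine ⟨⟨⟨Nat.succ_pos n, Nat.le_floor (h6.trans (Real.exp_le_exp.2 (by nlinarith)))⟩, ?_⟩, h7, h6⟩
    have e2 : h + n + 1 = n + 1 + h := by ring
    rw [e2] at hmod
    exact Nat.ModEq.add_right_cancel' h hmod
  -- the tail
  have hw := wp_nonneg x
  have hsum : Summable fun m : ℕ => wp x m * tG M E h c g m := by
    refine Summable.of_norm_bounded (g := fun m => wp x m * B) ((wp_summable x).mul_right B) fun m => ?_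
    rw [Real.norm_eq_abs, abs_mul, abs_of_nonneg (hw m)]
    exact mul_le_mul_of_nonneg_left (hT m) (hw m)
  have hsI : Summable fun m : ℕ => if m ∈ Im then wp x m * tG M E h c g m else 0 :=
    summable_of_ne_finset_zero (s := Im) fun n hn => if_neg hn
  have hsO : Summable fun m : ℕ => if m ∈ Im then 0 else wp x m * tG M E h c g m := by
    refine (hsum.sub hsI).congr fun m => ?_
    split_ifs <;> ring
  have hsplit : ∑' m : ℕ, wp x m * tG M E h c g m =
      (∑ m ∈ Im, wp x m * tG M E h c g m) + ∑' m : ℕ, if m ∈ Im then 0 else wp x m * tG M E h c g m := by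
    have h1 := Summable.tsum_add hsI hsO
    have e1 : ∑' m : ℕ, ((if m ∈ Im then wp x m * tG M E h c g m else 0) +
        if m ∈ Im then 0 else wp x m * tG M E h c g m) = ∑' m : ℕ, wp x m * tG M E h c g m :=
      tsum_congr fun m => by split_ifs <;> ring
    have e2 : ∑' m : ℕ, (if m ∈ Im then wp x m * tG M E h c g m else 0) =
        ∑ m ∈ Im, wp x m * tG M E h c g m := by
      rw [tsum_eq_sum (s := Im) fun n hn => if_neg hn]
      exact Finset.sum_congr rfl fun m hm => by rw [if_pos hm]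
    rw [e1, e2] at h1
    exact h1
  have hs0 : Summable fun n : ℕ =>
      if (n : ℝ) ≤ 2 * Real.exp ((1 - eta) * x) ∨ Real.exp ((1 + eta) * x) < n then wp x n else 0 := by
    refine Summable.of_nonneg_of_le (fun n => ?_) (fun n => ?_) (wp_summable x)
    · split_ifs
      · exact wp_nonneg x n
      · exact le_rfl
    · split_ifs
      · exact le_rfl
      · exact wp_nonneg x n
  have hbound : ∀ m : ℕ, ‖if m ∈ Im then 0 else wp x m * tG M E h c g m‖ ≤
      (if (m : ℝ) ≤ 2 * Real.exp ((1 - eta) * x) ∨ Real.exp ((1 + eta) * x) < m then wp x m else 0) * B := by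
    intro m
    by_cases hm : m ∈ Im
    · rw [if_pos hm, norm_zero]
      refine mul_nonneg ?_ hB0
      split_ifs
      · exact hw m
      · exact le_rfl
    rw [if_neg hm]
    by_cases ht : tG M E h c g m = 0
    · rw [ht, mul_zero, norm_zero]
      refine mul_nonneg ?_ hB0
      split_ifs
      · exact hw m
      · exact le_rfl
    rw [if_pos (hout m hm ht), Real.norm_eq_abs, abs_mul, abs_of_nonneg (hw m)]
    exact mul_le_mul_of_nonneg_left (hT m) (hw m)
  have htail := tsum_of_norm_bounded (hs0.mul_right B).hasSum hbound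
  rw [tsum_mul_right] at htail
  rw [hfin, hsplit]
  have e3 : ∀ a b : ℝ, a - (a + b) = -b := fun a b => by ring
  rw [e3, abs_neg]
  exact htail.trans (mul_le_mul_of_nonneg_right hx1' hB0)

theorem mass_diff_eta (eta : ℝ) (he : 0 < eta) (he1 : eta ≤ 1 / 20) : ∃ x0 : ℝ, ∀ x : ℝ, x0 ≤ x → ∀ M : ℕ, 1 ≤ M → ∀ h c : ℕ, (h : ℝ) ≤ Real.exp (x / 4) →
    (∑' m : ℕ, if m ≡ c + h [MOD M] then wp x m else 0) - Real.exp (-x) ≤ ∑ n ∈ sTe eta x M c, wp x (n + h) := by
  obtain ⟨x0, hx0⟩ := fin_sum_eta eta he he1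
  refine ⟨x0, fun x hx M hM h c hh => ?_⟩
  have h1 := hx0 x hx M hM ∅ (fun p hp => absurd hp (Finset.notMem_empty p)) h c hh (fun _ _ => 0)
    (fun p hp => absurd hp (Finset.notMem_empty p))
  simp only [Finset.prod_empty, mul_one] at h1
  have h2 : (∑' m : ℕ, wp x m * tG M ∅ h c (fun _ _ => 0) m) =
      ∑' m : ℕ, if m ≡ c + h [MOD M] then wp x m else 0 := by
    refine tsum_congr fun m => ?_
    unfold tG
    simp only [Finset.prod_empty]
    split_ifs <;> ring
  rw [h2] at h1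
  have := (abs_le.1 h1).1
  linarith

end Pool.Agent.LibT63
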