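import Pool.Agent.LibT63.P4
import Pool.Agent.LibT63.S6

/-!
Row S7 (the structure MZ for the prime average; as P7, for any `eta`).
-/

open Finset

namespace Pool.Agent.LibT63

open Pool.Agent.LibRG87 Pool.Agent.LibLG5 Pool.Agent.LibPL63 Pool.Agent.LibMaier

private theorem S7_omega {q : ℕ} (hq : q ≠ 0) : 2 ^ q.primeFactors.card ≤ q := by
  have h1 : ∏ p ∈ q.primeFactors, 2 ≤ ∏ p ∈ q.primeFactors, p :=
    Finset.prod_le_prod' fun p hp => (Nat.prime_of_mem_primeFactors hp).two_le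
  rw [Finset.prod_const] at h1
  exact h1.trans (Nat.le_of_dvd (Nat.pos_of_ne_zero hq) (Nat.prod_primeFactors_dvd q))

private theorem S7_omega_le {q : ℕ} (hq : q ≠ 0) {x : ℝ} (hx : 0 ≤ x)
    (h : (q : ℝ) ≤ Real.exp (x / 24)) : (q.primeFactors.card : ℝ) ≤ x := by
  have h1 : ((2 : ℝ)) ^ q.primeFactors.card ≤ Real.exp (x / 24) := by
    refine le_trans ?_ h
    exact_mod_cast S7_omega hq
  have h2 := Real.log_le_log (by positivity) h1
  rw [Real.log_exp, Real.log_pow] at h2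
  have h3 : (0.6 : ℝ) ≤ Real.log 2 := by linarith [Real.log_two_gt_d9]
  have h4 : (q.primeFactors.card : ℝ) * 0.6 ≤ q.primeFactors.card * Real.log 2 :=
    mul_le_mul_of_nonneg_left h3 (Nat.cast_nonneg _)
  linarith

private theorem S7_tot {M : ℕ} {E : Finset ℕ} (hE : ∀ p ∈ E, p.Prime ∧ ¬ p ∣ M) :
    ((qE M E).totient : ℝ) = M.totient * ph E := by
  classical
  induction E using Finset.induction_on with
  | empty => simp [qE, ph]
  | insert p E hp ih =>
    have hpp := hE p (Finset.mem_insert_self p E)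
    have hE' : ∀ p ∈ E, p.Prime ∧ ¬ p ∣ M := fun q hq => hE q (Finset.mem_insert_of_mem hq)
    have h1 : qE M (insert p E) = qE M E * p := by
      unfold qE
      rw [Finset.prod_insert hp]
      ring
    have h2 : Nat.Coprime (qE M E) p := by
      refine Nat.Coprime.symm ((Nat.Prime.coprime_iff_not_dvd hpp.1).2 fun hd => ?_)
      rcases hpp.1.dvd_mul.1 hd with h3 | h3
      · exact hpp.2 h3
      · obtain ⟨q, hq, hd'⟩ := (hpp.1.prime.dvd_finsetProd_iff _).1 h3
        have h4 : p = q := (Nat.prime_dvd_prime_iff_eq hpp.1 (hE' q hq).1).1 hd'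
        exact hp (h4 ▸ hq)
    have h5 : ((p - 1 : ℕ) : ℝ) = (p : ℝ) - 1 := by
      rw [Nat.cast_sub hpp.1.one_lt.le, Nat.cast_one]
    rw [h1, Nat.totient_mul h2, Nat.cast_mul, ih hE', Nat.totient_prime hpp.1, h5]
    unfold ph
    rw [Finset.prod_insert hp]
    ring

private theorem S7_ph {M : ℕ} {E : Finset ℕ} (hE : ∀ p ∈ E, p.Prime ∧ ¬ p ∣ M) : 0 ≤ ph E :=
  Finset.prod_nonneg fun p hp => by
    have : (1 : ℝ) ≤ p := by exact_mod_cast (hE p hp).1.one_lt.le
    linarith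

private theorem S7_cE (x : ℝ) (M : ℕ) (E : Finset ℕ) : 0 ≤ cE x M E := by
  unfold cE
  split_ifs
  · exact le_rfl
  · exact Finset.sum_nonneg fun _ _ => norm_nonneg _

private theorem S7_tott (E : Finset ℕ) (g : ℕ → ℕ → ℝ) : 0 ≤ ∏ p ∈ E, tot p (g p) :=
  Finset.prod_nonneg fun _ _ => Finset.sum_nonneg fun _ _ => abs_nonneg _

private theorem S7_exp {K x : ℝ} (hK : 0 ≤ K) (hx : 800 * (10 + K) ≤ x) :
    (8 * x + K) * Real.exp (-x / 4) + Real.exp (-x) ≤ Real.exp (-x / 5) := by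
  have hx0 : 0 ≤ x := by linarith
  have h1 : Real.exp (-x) ≤ Real.exp (-x / 4) := Real.exp_le_exp.2 (by linarith)
  have h2 : 8 * x + K + 1 ≤ Real.exp (x / 20) := by
    have h3 : (x / 20) ^ 2 / 2 ≤ Real.exp (x / 20) := by
      have h4 := Real.quadratic_le_exp_of_nonneg (x := x / 20) (by positivity)
      have h5 : 0 ≤ x / 20 := by positivity
      linarith
    refine le_trans ?_ h3
    nlinarith
  have h3 : Real.exp (-x / 5) = Real.exp (x / 20) * Real.exp (-x / 4) := by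
    rw [← Real.exp_add]
    congr 1
    ring
  rw [h3]
  have h4 := mul_le_mul_of_nonneg_right h2 (Real.exp_pos (-x / 4)).le
  have h5 : (8 * x + K + 1) * Real.exp (-x / 4) =
      (8 * x + K) * Real.exp (-x / 4) + Real.exp (-x / 4) := by ring
  linarith

theorem mz_P_eta (eta : ℝ) (he : 0 < eta) (he1 : eta ≤ 1 / 20) : ∃ x0 : ℝ, ∀ x : ℝ, x0 ≤ x → ∀ M : ℕ, 1 ≤ M → ∀ (P : Finset ℕ) (Q : ℝ), (∀ p ∈ P, p.Prime ∧ ¬ p ∣ M) →
    (M : ℝ) * Q ≤ Real.exp (x / 24) → ∀ h c : ℕ, (h : ℝ) ≤ Real.exp (x / 4) →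
    MZ P (sTe eta x M c) (fun n => wp x (n + h)) (lpP h) Q (erP x M) := by
  obtain ⟨x0, hx0⟩ := fin_sum_eta eta he he1
  refine ⟨max x0 (800 * (10 + Kpp)), fun x hx M hM P Q hP hQ h c hh => ?_⟩
  have hx1 : x0 ≤ x := (le_max_left _ _).trans hx
  have hx2 : 800 * (10 + Kpp) ≤ x := (le_max_right _ _).trans hx
  have hK := Kpp_nonneg
  have hxn : 0 ≤ x := by linarith
  refine ⟨fun E => ?_, fun n _ => wp_nonneg' x (n + h), ?_⟩
  · unfold erP
    exact add_nonneg (mul_nonneg (by positivity) (S7_cE x M E)) (Real.exp_pos _).le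
  · intro E hEP _ hEQ g hper hmz
    have hE : ∀ p ∈ E, p.Prime ∧ ¬ p ∣ M := fun p hp => hP p (hEP hp)
    have h1 := hx0 x hx1 M hM E hE h c hh g hper
    have h2 := full_sum hM hE h c g hper hmz x
    have hT := S7_tott E g
    have h3 : |∑ n ∈ sTe eta x M c, wp x (n + h) * ∏ p ∈ E, g p n| ≤
        (1 / ((qE M E).totient : ℝ) * cE x M E + (8 * (qE M E).primeFactors.card + Kpp) *
          Real.exp (-x / 4) + Real.exp (-x)) * ∏ p ∈ E, tot p (g p) := by
      have h4 := abs_add_le (∑ n ∈ sTe eta x M c, wp x (n + h) * ∏ p ∈ E, g p n -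
        ∑' m : ℕ, wp x m * tG M E h c g m) (∑' m : ℕ, wp x m * tG M E h c g m)
      rw [sub_add_cancel] at h4
      refine (h4.trans (add_le_add h1 h2)).trans (le_of_eq ?_)
      ring
    refine h3.trans (mul_le_mul_of_nonneg_right ?_ hT)
    have hq0 : qE M E ≠ 0 := by
      unfold qE
      exact Nat.mul_ne_zero (by omega) (Finset.prod_ne_zero_iff.2 fun p hp => (hE p hp).1.ne_zero)
    have hqle : (qE M E : ℝ) ≤ Real.exp (x / 24) := by
      have h5 : (qE M E : ℝ) = M * rr E := by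
        unfold qE rr
        push_cast
        rfl
      rw [h5]
      exact (mul_le_mul_of_nonneg_left hEQ (Nat.cast_nonneg M)).trans hQ
    have hom := S7_omega_le hq0 hxn hqle
    unfold erP
    rw [S7_tot hE, abs_of_nonneg (S7_ph hE)]
    have h6 := S7_exp hK hx2
    have h7 : (8 * ((qE M E).primeFactors.card : ℝ) + Kpp) * Real.exp (-x / 4) ≤
        (8 * x + Kpp) * Real.exp (-x / 4) :=
      mul_le_mul_of_nonneg_right (by linarith) (Real.exp_pos _).le
    linarith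

end Pool.Agent.LibT63
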