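import Pool.Agent.LibT63.Q19
import Pool.Agent.LibT63.S7
import Pool.Agent.LibT63.P9
import Pool.Agent.LibT63.S10
import Pool.Agent.LibT63.P11

/-!
Row S12 (the sieve theorem with the analytic data, any `eta`, with the number of good `n`).
-/

open Finset

namespace Pool.Agent.LibT63

open Pool.Agent.LibRG87 Pool.Agent.LibLG5 Pool.Agent.LibPL63 Pool.Agent.LibMaier

open scoped Classical in
theorem sieveXsum (eta : ℝ) (he : 0 < eta) (he1 : eta ≤ 1 / 20) : ∃ x0 : ℝ, ∀ x : ℝ, x0 ≤ x → ∀ M c : ℕ, 1 ≤ M → csum x M ≤ 1 / 8 →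
    ∀ (P : Finset ℕ) (w : ℕ) (z T U V : ℝ) (g : Finset ℕ → ℝ),
    ∀ (κ ν : Type) [Fintype κ] [DecidableEq κ] [Fintype ν] [DecidableEq ν],
    ParT P w z T U V g (Fintype.card κ) (Fintype.card ν) →
    (∀ p ∈ P, (p : ℝ) ≤ Real.exp (x / 4) ∧ ¬ p ∣ M) → (M : ℝ) * (T * U) ^ 2 ≤ Real.exp (x / 24) →
    x ^ 12 ≤ w → (w : ℝ) ≤ Real.exp (x / 4) → ((Fintype.card κ + Fintype.card ν : ℕ) : ℝ) ≤ x → G2 P g ≤ x →
    ∀ b : κ ⊕ ν → ℕ, Function.Injective b → (∀ i, b i ≤ w) → (∀ h : κ, (c + b (Sum.inl h)).Coprime M) →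
    ∀ m : ℕ, 1 ≤ m → 128 * (m * (x * ((M.totient : ℝ) * G2 P g))) ≤ Fintype.card κ * ((M : ℝ) * G1 P g ^ 2) →
    2 / (M : ℝ) ≤ Fintype.card κ * ∑ n ∈ sTe eta x M c with (m ≤ (univ.filter fun h : κ => (n + b (Sum.inl h)).Prime).card ∧
      ∀ i : ν, ∃ p ∈ P, p ∣ n + b (Sum.inr i)), omU x n * PhiF P b (yJ P g z T U) n ^ 2 := by
  obtain ⟨x1, hmz⟩ := mz_P_eta eta he he1
  obtain ⟨x2, heP⟩ := etot_P
  obtain ⟨x3, heU⟩ := etot_U
  obtain ⟨x4, hmP⟩ := mass_P_eta eta he he1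
  obtain ⟨x5, hmU⟩ := mass_U
  obtain ⟨x6, hwo⟩ := wp_le_omU
  refine ⟨max (max (max x1 x2) (max x3 x4)) (max (max x5 x6) 1), ?_⟩
  intro x hx M c hM hcs P w z T U V g κ ν _ _ _ _ hp hPx hQ hw hwx hKN hG b hb hbw hc m hm hmain
  have hx1 : x1 ≤ x := ((le_max_left _ _).trans ((le_max_left _ _).trans (le_max_left _ _))).trans hx
  have hx2 : x2 ≤ x := ((le_max_right _ _).trans ((le_max_left _ _).trans (le_max_left _ _))).trans hx
  have hx3 : x3 ≤ x := ((le_max_left _ _).trans ((le_max_right _ _).trans (le_max_left _ _))).trans hx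
  have hx4 : x4 ≤ x := ((le_max_right _ _).trans ((le_max_right _ _).trans (le_max_left _ _))).trans hx
  have hx5 : x5 ≤ x := ((le_max_left _ _).trans ((le_max_left _ _).trans (le_max_right _ _))).trans hx
  have hx6 : x6 ≤ x := ((le_max_right _ _).trans ((le_max_left _ _).trans (le_max_right _ _))).trans hx
  have hx7 : 1 ≤ x := ((le_max_right _ _).trans (le_max_right _ _)).trans hx
  have hx0 : 0 < x := by linarith
  have hMR : (0 : ℝ) < M := by exact_mod_cast hM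
  have hφ : (0 : ℝ) < M.totient := by exact_mod_cast Nat.totient_pos.2 hM
  have hTU : 1 ≤ T * U := by
    have := hp.hT
    have := hp.hV
    have := hp.hUV
    nlinarith
  have hQ1 : 1 ≤ (T * U) ^ 2 := one_le_pow₀ hTU
  have hME : (M : ℝ) ≤ Real.exp (x / 24) := by nlinarith
  have hP1 : ∀ p ∈ P, p.Prime ∧ ¬ p ∣ M := fun p hpp => ⟨hp.prime p hpp, (hPx p hpp).2⟩
  have hbx : ∀ i, (b i : ℝ) ≤ Real.exp (x / 4) := fun i =>
    le_trans (by exact_mod_cast hbw i) hwx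
  have hG1 := Q17_one_le_G2 P hp.prime hp.gok.one
  refine sieveTc P hp b hb hbw (clsU x M c) (sTe eta x M c) (Finset.filter_subset _ _) (omU x)
    (fun h n => wp x (n + b (Sum.inl h))) (fun _ => 6 * Real.exp (-x)) (fun _ => erP x M)
    (mz_U x hM c hP1 _) (fun h => hmz x hx1 M hM P _ hP1 hQ _ c (hbx _)) (4 * x) (by positivity)
    (fun h n hn => hwo x hx6 M c _ (hbx _) n (sTe_subset he1 hx0.le M c hn))
    (fun h n hn hw0 => ⟨(prime_ok hx0.le (sTe_subset he1 hx0.le M c hn) hw0).1, fun p hpp =>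
      (prime_ok hx0.le (sTe_subset he1 hx0.le M c hn) hw0).2 p (hp.prime p hpp) (hPx p hpp).1⟩)
    (1 / (2 * (M.totient : ℝ))) (fun h => hmP x hx4 M hM hME hcs _ c (hbx _) (hc h))
    (2 / (M : ℝ)) (hmU x hx5 M hM hME c) (by positivity) ?_ ?_ m hm ?_
  · exact heU x hx3 M hM P _ w _ _ (by positivity) (fun p hpp => ⟨hp.prime p hpp, hp.lt p hpp⟩) hw hKN hQ
  · intro h
    have h1 := heP x hx2 M hM P _ w (Fintype.card κ + Fintype.card ν)
      (fun p hpp => ⟨hp.prime p hpp, (hPx p hpp).2, hp.lt p hpp⟩) hw hKN hQ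
    have h2 : 64 * (G2 P g * Etot P ((T * U) ^ 2) (Fintype.card κ + Fintype.card ν) (erP x M)) ≤
        64 * (x * (1 / (128 * x * (M.totient : ℝ)))) := by
      apply mul_le_mul_of_nonneg_left _ (by norm_num)
      refine (mul_le_mul_of_nonneg_left h1 (by linarith)).trans ?_
      exact mul_le_mul_of_nonneg_right hG (by positivity)
    refine h2.trans (le_of_eq ?_)
    field_simp
    norm_num
  · have h1 := mul_le_mul_of_nonneg_right hmain (by positivity : (0 : ℝ) ≤ 1 / (2 * (M * (M.totient : ℝ))))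
    have h2 : 128 * (↑m * (x * (↑M.totient * G2 P g))) * (1 / (2 * (M * (M.totient : ℝ)))) =
        8 * (m * (4 * x * (2 / M * G2 P g))) := by
      field_simp
      ring
    have h3 : ↑(Fintype.card κ) * (↑M * G1 P g ^ 2) * (1 / (2 * (M * (M.totient : ℝ)))) =
        Fintype.card κ * (1 / (2 * (M.totient : ℝ)) * G1 P g ^ 2) := by
      field_simp
    rw [h2, h3] at h1
    exact h1

end Pool.Agent.LibT63
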