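import Pool.Agent.LibT63.S12

/-!
Row S13 (the sieve theorem with the analytic data, any `eta`: the number of good `n`).
-/

open Finset

namespace Pool.Agent.LibT63

open Pool.Agent.LibRG87 Pool.Agent.LibLG5 Pool.Agent.LibPL63 Pool.Agent.LibMaier

open scoped Classical in
/-- the number of the good `n` in `(e^{(1 - eta) x}, e^{(1 + eta) x}]` is at least `e^{(1 - eta) x} / (9 K M (T U)^4)` -/
theorem sieveXe (eta : ℝ) (he : 0 < eta) (he1 : eta ≤ 1 / 20) : ∃ x0 : ℝ, ∀ x : ℝ, x0 ≤ x → ∀ M c : ℕ, 1 ≤ M →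
    csum x M ≤ 1 / 8 →
    ∀ (P : Finset ℕ) (w : ℕ) (z T U V : ℝ) (g : Finset ℕ → ℝ),
    ∀ (κ ν : Type) [Fintype κ] [DecidableEq κ] [Fintype ν] [DecidableEq ν],
    ParT P w z T U V g (Fintype.card κ) (Fintype.card ν) →
    (∀ p ∈ P, (p : ℝ) ≤ Real.exp (x / 4) ∧ ¬ p ∣ M) → (M : ℝ) * (T * U) ^ 2 ≤ Real.exp (x / 24) →
    x ^ 12 ≤ w → (w : ℝ) ≤ Real.exp (x / 4) → ((Fintype.card κ + Fintype.card ν : ℕ) : ℝ) ≤ x → G2 P g ≤ x →
    ∀ b : κ ⊕ ν → ℕ, Function.Injective b → (∀ i, b i ≤ w) → (∀ h : κ, (c + b (Sum.inl h)).Coprime M) →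
    ∀ m : ℕ, 1 ≤ m → 128 * (m * (x * ((M.totient : ℝ) * G2 P g))) ≤ Fintype.card κ * ((M : ℝ) * G1 P g ^ 2) →
    Real.exp ((1 - eta) * x) ≤ 9 * (Fintype.card κ * ((M : ℝ) * (T * U) ^ 4)) *
      (((sTe eta x M c).filter fun n => m ≤ (univ.filter fun h : κ => (n + b (Sum.inl h)).Prime).card ∧
        ∀ i : ν, ∃ p ∈ P, p ∣ n + b (Sum.inr i)).card : ℝ) := by
  obtain ⟨x0, h0⟩ := sieveXsum eta he he1
  refine ⟨x0, ?_⟩
  intro x hx M c hM hcs P w z T U V g κ ν _ _ _ _ hp hPx hQ hw hwx hKN hG b hb hbw hc m hm hmain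
  have h1 := h0 x hx M c hM hcs P w z T U V g κ ν hp hPx hQ hw hwx hKN hG b hb hbw hc m hm hmain
  set S := (sTe eta x M c).filter fun n => m ≤ (univ.filter fun h : κ => (n + b (Sum.inl h)).Prime).card ∧
        ∀ i : ν, ∃ p ∈ P, p ∣ n + b (Sum.inr i) with hS
  have hMR : (0 : ℝ) < M := by exact_mod_cast hM
  have hE := Real.exp_pos ((1 - eta) * x)
  have h2 : ∀ n ∈ S, omU x n * PhiF P b (yJ P g z T U) n ^ 2 ≤
      1 / Real.exp ((1 - eta) * x) * (9 * (T * U) ^ 4) := by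
    intro n hn
    rw [hS, mem_filter, sTe, mem_filter] at hn
    have h3 := hn.1.2.1
    have hn0 : (0 : ℝ) < n := hE.trans h3
    have h4 : omU x n ≤ 1 / Real.exp ((1 - eta) * x) := by
      unfold omU
      have h5 : gw (Real.log n - x) ≤ 1 := by
        refine (gw_le_exp_sq _).trans (Real.exp_le_one_iff.2 ?_)
        have := sq_nonneg (Real.log n - x)
        linarith
      exact (div_le_div_of_nonneg_right h5 hn0.le).trans (one_div_le_one_div_of_le hE h3.le)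
    have h5 : PhiF P b (yJ P g z T U) n ^ 2 ≤ 9 * (T * U) ^ 4 := by
      have h6 := abs_PhiJ_le P hp b n
      have h7 := pow_le_pow_left₀ (abs_nonneg _) h6 2
      rw [sq_abs] at h7
      refine h7.trans (le_of_eq ?_)
      ring
    exact mul_le_mul h4 h5 (sq_nonneg _) (by positivity)
  have h3 := Finset.sum_le_card_nsmul S _ _ h2
  rw [nsmul_eq_mul] at h3
  have h4 : 2 / (M : ℝ) ≤ Fintype.card κ * ((S.card : ℝ) * (1 / Real.exp ((1 - eta) * x) * (9 * (T * U) ^ 4))) :=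
    h1.trans (mul_le_mul_of_nonneg_left h3 (Nat.cast_nonneg _))
  have h5 := mul_le_mul_of_nonneg_right h4 (by positivity : (0 : ℝ) ≤ M * Real.exp ((1 - eta) * x))
  have h6 : 2 / (M : ℝ) * (M * Real.exp ((1 - eta) * x)) = 2 * Real.exp ((1 - eta) * x) := by
    field_simp
  have h7 : Fintype.card κ * ((S.card : ℝ) * (1 / Real.exp ((1 - eta) * x) * (9 * (T * U) ^ 4))) *
      (M * Real.exp ((1 - eta) * x)) = 9 * (Fintype.card κ * ((M : ℝ) * (T * U) ^ 4)) * S.card := by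
    field_simp
  rw [h6, h7] at h5
  linarith

end Pool.Agent.LibT63
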