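import Pool.Agent.LibT63.P11

/-!
LibT63 (Theorem T), block S: the sieve theorem on a short logarithmic range. `sTe eta x M c`: the `n ≡ c` modulo `M` with
`e^{(1 - eta) x} < n ≤ e^{(1 + eta) x}`.
-/

open Finset

namespace Pool.Agent.LibT63

open Pool.Agent.LibRG87 Pool.Agent.LibLG5 Pool.Agent.LibPL63 Pool.Agent.LibMaier

/-- the numbers of the average used for the primes -/
noncomputable def sTe (eta x : ℝ) (M c : ℕ) : Finset ℕ :=
  (clsU x M c).filter fun n => Real.exp ((1 - eta) * x) < n ∧ (n : ℝ) ≤ Real.exp ((1 + eta) * x)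

theorem sTe_subset {eta x : ℝ} (he : eta ≤ 1 / 20) (hx : 0 ≤ x) (M c : ℕ) : sTe eta x M c ⊆ sT x M c := by
  intro n hn
  rw [sTe, mem_filter] at hn
  rw [sT, mem_filter]
  refine ⟨hn.1, lt_of_le_of_lt (Real.exp_le_exp.2 ?_) hn.2.1, hn.2.2.trans (Real.exp_le_exp.2 ?_)⟩
  · nlinarith
  · nlinarith

end Pool.Agent.LibT63
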